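import Pool.Graph.R_pool_sql_team_seeded_63374d34.N799.DT.Space
import Pool.Graph.R_pool_sql_team_seeded_63374d34.N799.DT.Orth
import Pool.Graph.R_seed8.H369R2.Abs1
import Pool.Graph.R_seed8.H369R2.PB

/-! # Averaging operators on continuous square integrable `Γ(N)`-invariant functions -/

set_option autoImplicit false

open UpperHalfPlane MeasureTheory Metric ModularGroup CongruenceSubgroup
open scoped MatrixGroups ENNReal Modular Topology NNReal ComplexConjugate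

namespace Pool.Agent.H75.SE

open Pool.Agent.H369R2 Pool.Agent.N799.DT Pool.Agent.N799.DT.OrthAux

noncomputable section

lemma intOn {E : Type*} [NormedAddCommGroup E] {F : ℍ → E} (hF : Continuous F) (R : ℝ) (z : ℍ) :
    IntegrableOn F (closedBall z R) :=
  hF.continuousOn.integrableOn_compact (isCompact_closedBall z R)

lemma cont_aff : Continuous (fun p : ℍ × ℍ => aff p.1 • p.2) := by
  rw [UpperHalfPlane.isEmbedding_coe.continuous_iff]
  have h : (UpperHalfPlane.coe ∘ fun p : ℍ × ℍ => aff p.1 • p.2) =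
      fun p : ℍ × ℍ => ((p.1.im : ℝ) : ℂ) * (p.2 : ℂ) + ((p.1.re : ℝ) : ℂ) := by
    funext p
    exact coe_aff p.1 p.2
  rw [h]
  have c1 : Continuous (fun p : ℍ × ℍ => p.1.im) := continuous_im.comp continuous_fst
  have c2 : Continuous (fun p : ℍ × ℍ => p.1.re) := continuous_re.comp continuous_fst
  have c3 : Continuous (fun p : ℍ × ℍ => (p.2 : ℂ)) := continuous_coe.comp continuous_snd
  exact ((Complex.continuous_ofReal.comp c1).mul c3).add (Complex.continuous_ofReal.comp c2)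

lemma int_ball_smul_real {E : Type*} [NormedAddCommGroup E] [NormedSpace ℝ E]
    (R : ℝ) (g : SL(2, ℝ)) (f : ℍ → E) (z : ℍ) :
    ∫ w in closedBall (g • z) R, f w = ∫ w in closedBall z R, f (g • w) := by
  have h1 := (mp_real g).setIntegral_preimage_emb (me_real g) f (closedBall (g • z) R)
  rw [← h1]
  congr 2
  ext w
  have h2 : dist (g • w) (g • z) = dist w z := dist_smul g w z
  simp only [Set.mem_preimage, mem_closedBall, h2]

lemma Av_eq_aff {E : Type*} [NormedAddCommGroup E] [NormedSpace ℝ E]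
    (R : ℝ) (f : ℍ → E) (z : ℍ) :
    Av R f z = (bv R)⁻¹ • ∫ w in closedBall (I : ℍ) R, f (aff z • w) := by
  have h := int_ball_smul_real R (aff z) f I
  rw [aff_I] at h
  unfold Av
  rw [h]

lemma cont_Av {E : Type*} [NormedAddCommGroup E] [NormedSpace ℝ E] [CompleteSpace E]
    {R : ℝ} {f : ℍ → E} (hf : Continuous f) :
    Continuous (Av R f) := by
  have h : Av R f = fun z => (bv R)⁻¹ • ∫ w in closedBall (I : ℍ) R, f (aff z • w) :=
    funext fun z => Av_eq_aff R f z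
  rw [h]
  refine Continuous.const_smul ?_ _
  have h2 : Continuous (Function.uncurry fun (z w : ℍ) => f (aff z • w)) := hf.comp cont_aff
  exact continuous_parametric_integral_of_continuous h2 (isCompact_closedBall _ _)

lemma Av_add {E : Type*} [NormedAddCommGroup E] [NormedSpace ℝ E] {R : ℝ} {f g : ℍ → E}
    (hf : Continuous f) (hg : Continuous g) (z : ℍ) :
    Av R (fun w => f w + g w) z = Av R f z + Av R g z := by
  unfold Av
  rw [integral_add (intOn hf R z) (intOn hg R z), smul_add]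

lemma Av_smulc {R : ℝ} (c : ℂ) (f : ℍ → ℂ) (z : ℍ) :
    Av R (fun w => c * f w) z = c * Av R f z := by
  unfold Av
  rw [integral_const_mul, mul_smul_comm]

lemma Av_const {R : ℝ} (hR : 0 < R) (c : ℂ) (z : ℍ) : Av R (fun _ => c) z = c := by
  unfold Av
  rw [setIntegral_const, Measure.real, vol_eq, ENNReal.toReal_ofReal (bv_nonneg R), ← mul_smul,
    inv_mul_cancel₀ (bv_pos hR).ne', one_smul]

/-- pointwise Jensen inequality -/
lemma Ap_sq_le {R : ℝ} (hR : 0 < R) {F : ℍ → ℝ≥0∞} (hF : Measurable F) (z : ℍ) :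
    Ap R F z ^ 2 ≤ Ap R (fun w => F w ^ 2) z := by
  have h := PB.cs (volume.restrict (closedBall z R)) hF (measurable_const (a := (1 : ℝ≥0∞)))
  simp only [mul_one, one_pow, lintegral_const, Measure.restrict_apply_univ, vol_eq, one_mul] at h
  have hb : ENNReal.ofReal (bv R) ≠ 0 := by simp [bv_pos hR]
  unfold Ap
  rw [mul_pow]
  calc (ENNReal.ofReal (bv R))⁻¹ ^ 2 * (∫⁻ w in closedBall z R, F w) ^ 2
      ≤ (ENNReal.ofReal (bv R))⁻¹ ^ 2 *
        ((∫⁻ w in closedBall z R, F w ^ 2) * ENNReal.ofReal (bv R)) := by gcongr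
    _ = (ENNReal.ofReal (bv R))⁻¹ * ((ENNReal.ofReal (bv R))⁻¹ * ENNReal.ofReal (bv R)) *
        ∫⁻ w in closedBall z R, F w ^ 2 := by ring
    _ = _ := by rw [ENNReal.inv_mul_cancel hb ENNReal.ofReal_ne_top, mul_one]

lemma enorm_Av_le {R : ℝ} (hR : 0 < R) (f : ℍ → ℂ) (z : ℍ) :
    ‖Av R f z‖ₑ ≤ Ap R (fun w => ‖f w‖ₑ) z := PB.enorm_Av_le hR f z

lemma enorm_Av_sq_le {R : ℝ} (hR : 0 < R) {f : ℍ → ℂ} (hf : Continuous f) (z : ℍ) :
    ‖Av R f z‖ₑ ^ 2 ≤ Ap R (fun w => ‖f w‖ₑ ^ 2) z :=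
  (pow_le_pow_left' (enorm_Av_le hR f z) 2).trans (Ap_sq_le hR hf.measurable.enorm z)

variable {N : ℕ}

lemma lint_Av_sq_le {R : ℝ} (hR : 0 < R) {f : ℍ → ℂ} (hf : Continuous f) (hi : Inv N f) :
    ∫⁻ z, ‖Av R f z‖ₑ ^ 2 ∂(nu N) ≤ ∫⁻ z, ‖f z‖ₑ ^ 2 ∂(nu N) := by
  refine (lintegral_mono fun z => enorm_Av_sq_le hR hf z).trans_eq ?_
  exact lint_Ap_nu hR N (hf.measurable.enorm.pow_const 2) fun δ hδ z => by rw [hi δ hδ z]

/-- the averaging operator on `LW N` -/
def LA (N : ℕ) (R : ℝ) (hR : 0 < R) : Module.End ℂ (LW N) where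
  toFun u := ⟨Av R (u : ℍ → ℂ), cont_Av (LW.cont u), Av_inv (LW.inv u),
    ne_top_of_le_ne_top (LW.fin u) (lint_Av_sq_le hR (LW.cont u) (LW.inv u))⟩
  map_add' u v := by
    ext z
    exact Av_add (LW.cont u) (LW.cont v) z
  map_smul' c u := by
    ext z
    exact Av_smulc c _ z

@[simp] lemma LA_apply (N : ℕ) (R : ℝ) (hR : 0 < R) (u : LW N) (z : ℍ) :
    (LA N R hR u : ℍ → ℂ) z = Av R (u : ℍ → ℂ) z := rfl

lemma LA_coe (N : ℕ) (R : ℝ) (hR : 0 < R) (u : LW N) :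
    ((LA N R hR u : LW N) : ℍ → ℂ) = Av R (u : ℍ → ℂ) := rfl

lemma norm_le_of_lint {u v : LW N}
    (h : ∫⁻ z, ‖(u : ℍ → ℂ) z‖ₑ ^ 2 ∂(nu N) ≤ ∫⁻ z, ‖(v : ℍ → ℂ) z‖ₑ ^ 2 ∂(nu N)) :
    ‖u‖ ≤ ‖v‖ := by
  rw [LW.lint_sq, LW.lint_sq] at h
  have := (ENNReal.ofReal_le_ofReal_iff (by positivity)).1 h
  exact le_of_sq_le_sq this (norm_nonneg _)

theorem LA_norm_le {R : ℝ} (hR : 0 < R) (u : LW N) : ‖LA N R hR u‖ ≤ ‖u‖ :=
  norm_le_of_lint (lint_Av_sq_le hR (LW.cont u) (LW.inv u))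

lemma re_CL (u : LW N) : CL N (fun z => ((u : ℍ → ℂ) z).re) :=
  CL_re (LW.cont u) (LW.inv u) (LW.fin u)

lemma im_CL (u : LW N) : CL N (fun z => ((u : ℍ → ℂ) z).im) :=
  CL_im (LW.cont u) (LW.inv u) (LW.fin u)

lemma CL_Av_re {R : ℝ} (hR : 0 < R) (u : LW N) :
    CL N (Av R (fun z => ((u : ℍ → ℂ) z).re)) := by
  have h := re_CL (LA N R hR u)
  have e : (fun z => ((LA N R hR u : ℍ → ℂ) z).re) = Av R (fun z => ((u : ℍ → ℂ) z).re) :=
    funext fun z => re_Av' (LW.cont u) z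
  rwa [e] at h

lemma CL_Av_im {R : ℝ} (hR : 0 < R) (u : LW N) :
    CL N (Av R (fun z => ((u : ℍ → ℂ) z).im)) := by
  have h := im_CL (LA N R hR u)
  have e : (fun z => ((LA N R hR u : ℍ → ℂ) z).im) = Av R (fun z => ((u : ℍ → ℂ) z).im) :=
    funext fun z => im_Av' (LW.cont u) z
  rwa [e] at h

theorem LA_symm {R : ℝ} (hR : 0 < R) (u v : LW N) :
    inner ℂ (LA N R hR u) v = inner ℂ u (LA N R hR v) := by
  rw [LW.inner_def, LW.inner_def]
  have i1 := LW.integrable_mul (LA N R hR u) v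
  have i2 := LW.integrable_mul u (LA N R hR v)
  have s1 := symm_real' hR (re_CL u) (re_CL v)
  have s2 := symm_real' hR (re_CL u) (im_CL v)
  have s3 := symm_real' hR (im_CL u) (re_CL v)
  have s4 := symm_real' hR (im_CL u) (im_CL v)
  apply Complex.ext
  · have h1 := Complex.reCLM.integral_comp_comm i1
    have h2 := Complex.reCLM.integral_comp_comm i2
    simp only [Complex.reCLM_apply] at h1 h2
    rw [← h1, ← h2]
    have e1 : ∀ z, (conj ((LA N R hR u : ℍ → ℂ) z) * (v : ℍ → ℂ) z).re =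
        Av R (fun z => ((u : ℍ → ℂ) z).re) z * ((v : ℍ → ℂ) z).re +
        Av R (fun z => ((u : ℍ → ℂ) z).im) z * ((v : ℍ → ℂ) z).im := by
      intro z
      rw [LA_apply, ← re_Av' (LW.cont u), ← im_Av' (LW.cont u), Complex.mul_re, Complex.conj_re,
        Complex.conj_im]
      ring
    have e2 : ∀ z, (conj ((u : ℍ → ℂ) z) * (LA N R hR v : ℍ → ℂ) z).re =
        ((u : ℍ → ℂ) z).re * Av R (fun z => ((v : ℍ → ℂ) z).re) z +
        ((u : ℍ → ℂ) z).im * Av R (fun z => ((v : ℍ → ℂ) z).im) z := by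
      intro z
      rw [LA_apply, ← re_Av' (LW.cont v), ← im_Av' (LW.cont v), Complex.mul_re, Complex.conj_re,
        Complex.conj_im]
      ring
    simp only [e1, e2]
    rw [integral_add ((CL_Av_re hR u).mulInt (re_CL v)) ((CL_Av_im hR u).mulInt (im_CL v)),
      integral_add ((re_CL u).mulInt (CL_Av_re hR v)) ((im_CL u).mulInt (CL_Av_im hR v)), s1, s4]
  · have h1 := Complex.imCLM.integral_comp_comm i1
    have h2 := Complex.imCLM.integral_comp_comm i2
    simp only [Complex.imCLM_apply] at h1 h2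
    rw [← h1, ← h2]
    have e1 : ∀ z, (conj ((LA N R hR u : ℍ → ℂ) z) * (v : ℍ → ℂ) z).im =
        Av R (fun z => ((u : ℍ → ℂ) z).re) z * ((v : ℍ → ℂ) z).im -
        Av R (fun z => ((u : ℍ → ℂ) z).im) z * ((v : ℍ → ℂ) z).re := by
      intro z
      rw [LA_apply, ← re_Av' (LW.cont u), ← im_Av' (LW.cont u), Complex.mul_im, Complex.conj_re,
        Complex.conj_im]
      ring
    have e2 : ∀ z, (conj ((u : ℍ → ℂ) z) * (LA N R hR v : ℍ → ℂ) z).im =
        ((u : ℍ → ℂ) z).re * Av R (fun z => ((v : ℍ → ℂ) z).im) z -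
        ((u : ℍ → ℂ) z).im * Av R (fun z => ((v : ℍ → ℂ) z).re) z := by
      intro z
      rw [LA_apply, ← re_Av' (LW.cont v), ← im_Av' (LW.cont v), Complex.mul_im, Complex.conj_re,
        Complex.conj_im]
      ring
    simp only [e1, e2]
    rw [integral_sub ((CL_Av_re hR u).mulInt (im_CL v)) ((CL_Av_im hR u).mulInt (re_CL v)),
      integral_sub ((re_CL u).mulInt (CL_Av_im hR v)) ((im_CL u).mulInt (CL_Av_re hR v)), s2, s3]

/-- constants -/
def one (N : ℕ) [NeZero N] : LW N :=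
  ⟨fun _ => 1, continuous_const, fun _ _ _ => rfl, by
    simp only [enorm_one, one_pow, lintegral_const, one_mul]
    exact nu_univ_ne_top N (NeZero.ne N)⟩

lemma LA_one [NeZero N] {R : ℝ} (hR : 0 < R) : LA N R hR (one N) = one N := by
  ext z
  exact Av_const hR 1 z

/-- mean zero vectors -/
def LZ (N : ℕ) [NeZero N] : Submodule ℂ (LW N) := (ℂ ∙ one N)ᗮ

lemma mem_LZ [NeZero N] {u : LW N} : u ∈ LZ N ↔ inner ℂ (one N) u = 0 := by
  unfold LZ
  rw [Submodule.mem_orthogonal_singleton_iff_inner_right]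

lemma LA_LZ [NeZero N] {R : ℝ} (hR : 0 < R) {u : LW N} (hu : u ∈ LZ N) :
    LA N R hR u ∈ LZ N := by
  rw [mem_LZ] at hu ⊢
  rw [← LA_symm, LA_one, hu]

end

end Pool.Agent.H75.SE
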