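import Pool.Agent.H75.SE.Av
import Pool.Graph.R_seed8.H369R2.LevelA
import Pool.Graph.R_pool_sql_team_seeded_63374d34.N799.OL.Fin

/-! # Compactness of the averaging operators outside the cusps -/

set_option autoImplicit false

open UpperHalfPlane MeasureTheory Metric ModularGroup CongruenceSubgroup Filter
open scoped MatrixGroups ENNReal Modular Topology NNReal ComplexConjugate

namespace Pool.Agent.H75.SE

open Pool.Agent.H369R2 Pool.Agent.N799.DT Pool.Agent.N799.DT.OrthAux

noncomputable section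

/-- there are finitely many `γ` which move `I` by at most `X` -/
lemma finite_distI (X : ℝ) : {γ : SL(2, ℤ) | dist (γ • (I : ℍ)) I ≤ X}.Finite := by
  refine (Pool.Agent.N799.OL.FinAux.finite_mnorm (√2 * Real.exp (X / 2))).subset ?_
  intro g hg
  have hg' : dist (g • (I : ℍ)) I ≤ X := hg
  refine (Trace.mnorm_le g).trans ?_
  apply mul_le_mul_of_nonneg_left _ (Real.sqrt_nonneg _)
  apply Real.exp_le_exp.2
  linarith

/-- the number of the points of an orbit in a ball is bounded -/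
lemma mult_bound (z₀ : ℍ) (R : ℝ) : ∃ M : ℝ≥0∞, M ≠ ∞ ∧ ∀ (N : ℕ) (z : ℍ),
    ∑' δ : Gamma N, (closedBall z₀ R).indicator (1 : ℍ → ℝ≥0∞) ((δ : SL(2, ℤ)) • z) ≤ M := by
  set T : Set SL(2, ℤ) := {γ | dist (γ • (I : ℍ)) I ≤ 2 * R + 2 * (R + dist z₀ I)} with hT
  have hTf : T.Finite := finite_distI _
  refine ⟨∑' γ : SL(2, ℤ), T.indicator 1 γ, ?_, fun N z => ?_⟩
  · rw [tsum_eq_sum (s := hTf.toFinset)]
    · refine (ENNReal.sum_lt_top.2 fun γ _ => ?_).ne
      refine lt_of_le_of_lt (Set.indicator_le_self' (fun _ _ => zero_le) _) ?_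
      simp
    · intro γ hγ
      rw [Set.indicator_of_notMem]
      simpa using hγ
  · by_cases h : ∃ δ0 : Gamma N, (δ0 : SL(2, ℤ)) • z ∈ closedBall z₀ R
    · obtain ⟨δ0, h0⟩ := h
      have key : ∀ δ : Gamma N,
          (closedBall z₀ R).indicator (1 : ℍ → ℝ≥0∞) ((δ : SL(2, ℤ)) • z) ≤
            T.indicator 1 ((δ : SL(2, ℤ)) * (δ0 : SL(2, ℤ))⁻¹) := by
        intro δ
        by_cases hδ : (δ : SL(2, ℤ)) • z ∈ closedBall z₀ R
        · rw [Set.indicator_of_mem hδ, Set.indicator_of_mem]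
          · rfl
          · rw [mem_closedBall] at h0 hδ
            show dist (((δ : SL(2, ℤ)) * (δ0 : SL(2, ℤ))⁻¹) • (I : ℍ)) I ≤ _
            set σ : SL(2, ℤ) := (δ : SL(2, ℤ)) * (δ0 : SL(2, ℤ))⁻¹ with hσ
            have e1 : σ • ((δ0 : SL(2, ℤ)) • z) = (δ : SL(2, ℤ)) • z := by
              rw [hσ, ← mul_smul, inv_mul_cancel_right]
            have h1 := dist_triangle4 (σ • (I : ℍ)) (σ • ((δ0 : SL(2, ℤ)) • z))
              ((δ0 : SL(2, ℤ)) • z) I
            rw [dist_smul_int, e1] at h1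
            have h2 := dist_triangle ((δ : SL(2, ℤ)) • z) z₀ ((δ0 : SL(2, ℤ)) • z)
            rw [dist_comm z₀] at h2
            have h3 := dist_triangle ((δ0 : SL(2, ℤ)) • z) z₀ (I : ℍ)
            rw [dist_comm (I : ℍ) ((δ0 : SL(2, ℤ)) • z)] at h1
            linarith
        · rw [Set.indicator_of_notMem hδ]
          exact zero_le
      refine (ENNReal.tsum_le_tsum key).trans ?_
      refine ENNReal.tsum_comp_le_tsum_of_injective
        (f := fun δ : Gamma N => (δ : SL(2, ℤ)) * (δ0 : SL(2, ℤ))⁻¹) ?_ _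
      intro a b hab
      exact Subtype.ext (mul_right_cancel hab)
    · push Not at h
      have : ∀ δ : Gamma N,
          (closedBall z₀ R).indicator (1 : ℍ → ℝ≥0∞) ((δ : SL(2, ℤ)) • z) = 0 := fun δ =>
        Set.indicator_of_notMem (h δ) _
      simp only [this, tsum_zero]
      exact zero_le

/-- local integrals of invariant functions -/
lemma lint_ball_le (z₀ : ℍ) (R : ℝ) : ∃ C : ℝ≥0∞, C ≠ ∞ ∧ ∀ (N : ℕ) (F : ℍ → ℝ≥0∞),
    Measurable F → (∀ γ ∈ Gamma N, ∀ z, F (γ • z) = F z) →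
    ∫⁻ w in closedBall z₀ R, F w ≤ C * ∫⁻ w, F w ∂(nu N) := by
  obtain ⟨M, hM, h⟩ := mult_bound z₀ R
  refine ⟨M, hM, fun N F hF hi => ?_⟩
  have hm : MeasurableSet (closedBall z₀ R : Set ℍ) := isClosed_closedBall.measurableSet
  have h1 := nu_unfold N (F := fun w => (closedBall z₀ R).indicator 1 w * F w)
    ((measurable_one.indicator hm).mul hF)
  have h2 : ∫⁻ w, (closedBall z₀ R).indicator 1 w * F w = ∫⁻ w in closedBall z₀ R, F w := by
    rw [← lintegral_indicator hm]
    apply lintegral_congr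
    intro w
    by_cases hw : w ∈ closedBall z₀ R
    · rw [Set.indicator_of_mem hw, Set.indicator_of_mem hw, Pi.one_apply, one_mul]
    · rw [Set.indicator_of_notMem hw, Set.indicator_of_notMem hw, zero_mul]
  have h3 : ∀ w, ∑' δ : Gamma N, (closedBall z₀ R).indicator (1 : ℍ → ℝ≥0∞) ((δ : SL(2, ℤ)) • w) *
      F ((δ : SL(2, ℤ)) • w) ≤ M * F w := by
    intro w
    have : ∀ δ : Gamma N, F ((δ : SL(2, ℤ)) • w) = F w := fun δ => hi δ δ.2 w
    simp only [this]
    rw [ENNReal.tsum_mul_right]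
    gcongr
    exact h N w
  calc ∫⁻ w in closedBall z₀ R, F w ≤ 2 * ∫⁻ w in closedBall z₀ R, F w := by
        rw [two_mul]; exact le_self_add
    _ ≤ ∫⁻ w, M * F w ∂(nu N) := by
        rw [← h2, ← h1]
        exact lintegral_mono h3
    _ = M * ∫⁻ w, F w ∂(nu N) := lintegral_const_mul _ hF

lemma vol_sphere (z : ℍ) (r : ℝ) : volume (sphere z r : Set ℍ) = 0 := by
  have h1 : (volume.comap UpperHalfPlane.coe : Measure ℍ) (sphere z r) = 0 := by
    rw [measurableEmbedding_coe.comap_apply, UpperHalfPlane.image_coe_sphere]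
    exact Measure.addHaar_sphere _ _ _
  rw [volume_def]
  exact (withDensity_absolutelyContinuous _ _) h1

/-- thin annuli -/
lemma vol_annulus (R : ℝ) (hR : 0 < R) : ∀ ε : ℝ≥0∞, ε ≠ 0 → ∃ δ : ℝ, 0 < δ ∧ δ < 1 ∧ ∀ z : ℍ,
    volume (closedBall z (R + δ) \ closedBall z (R - δ)) < ε := by
  intro ε hε
  set S : ℕ → Set ℍ := fun n =>
    closedBall (I : ℍ) (R + 1 / ((n : ℝ) + 2)) \ closedBall (I : ℍ) (R - 1 / ((n : ℝ) + 2)) with hS
  have hSm : ∀ n, MeasurableSet (S n) := fun n =>
    isClosed_closedBall.measurableSet.diff isClosed_closedBall.measurableSet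
  have hanti : Antitone S := by
    intro m n hmn
    have : 1 / ((n : ℝ) + 2) ≤ 1 / ((m : ℝ) + 2) := by
      have : (m : ℝ) ≤ n := by exact_mod_cast hmn
      gcongr
    exact Set.diff_subset_diff (closedBall_subset_closedBall (by linarith))
      (closedBall_subset_closedBall (by linarith))
  have hInter : ⋂ n, S n ⊆ sphere (I : ℍ) R := by
    intro w hw
    rw [Set.mem_iInter] at hw
    have h1 : ∀ n : ℕ, dist w I ≤ R + 1 / ((n : ℝ) + 2) := fun n => mem_closedBall.1 (hw n).1
    have h2 : ∀ n : ℕ, R - 1 / ((n : ℝ) + 2) < dist w I := fun n => by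
      have := (hw n).2
      rw [mem_closedBall, not_le] at this
      exact this
    have hlim : Tendsto (fun n : ℕ => 1 / ((n : ℝ) + 2)) atTop (𝓝 0) := by
      have := tendsto_const_div_atTop_nhds_zero_nat (1 : ℝ)
      have h3 := (tendsto_add_atTop_iff_nat 2).2 this
      refine h3.congr fun n => ?_
      push_cast
      rfl
    have l1 : dist w I ≤ R := by
      have := ge_of_tendsto' (hlim.const_add R) h1
      linarith
    have l2 : R ≤ dist w I := by
      have := le_of_tendsto' (hlim.const_sub R) fun n => (h2 n).le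
      linarith
    rw [mem_sphere]
    exact le_antisymm l1 l2
  have hnull : volume (⋂ n, S n) = 0 := measure_mono_null hInter (vol_sphere I R)
  have hfin : volume (S 0) ≠ ∞ :=
    ne_top_of_le_ne_top (vol_ball_ne_top (R + 1 / (((0 : ℕ) : ℝ) + 2)) I)
      (measure_mono Set.diff_subset)
  have hlim := tendsto_measure_iInter_atTop (μ := (volume : Measure ℍ)) (s := S)
    (fun n => (hSm n).nullMeasurableSet) hanti ⟨0, hfin⟩
  rw [hnull] at hlim
  have hev := hlim.eventually (gt_mem_nhds (pos_iff_ne_zero.2 hε))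
  obtain ⟨n, hn⟩ := hev.exists
  refine ⟨1 / ((n : ℝ) + 2), by positivity, ?_, fun z => ?_⟩
  · rw [div_lt_one (by positivity)]
    have : (0 : ℝ) ≤ n := Nat.cast_nonneg n
    linarith
  · have e : ∀ w : ℍ, volume (closedBall w (R + 1 / ((n : ℝ) + 2)) \
        closedBall w (R - 1 / ((n : ℝ) + 2))) =
        ENNReal.ofReal (bv (R + 1 / ((n : ℝ) + 2))) - ENNReal.ofReal (bv (R - 1 / ((n : ℝ) + 2))) := by
      intro w
      have h0 : (0 : ℝ) < 1 / ((n : ℝ) + 2) := by positivity
      rw [measure_diff (closedBall_subset_closedBall (by linarith))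
        isClosed_closedBall.measurableSet.nullMeasurableSet (vol_ball_ne_top _ w), vol_eq, vol_eq]
    rw [e, ← e I]
    exact hn

end

end Pool.Agent.H75.SE
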