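import Pool.Agent.H75.SE.Comp

/-! # Uniform bounds and equicontinuity of the averages -/

set_option autoImplicit false

open UpperHalfPlane MeasureTheory Metric ModularGroup CongruenceSubgroup Filter
open scoped MatrixGroups ENNReal Modular Topology NNReal ComplexConjugate

namespace Pool.Agent.H75.SE

open Pool.Agent.H369R2 Pool.Agent.N799.DT Pool.Agent.N799.DT.OrthAux

noncomputable section

lemma norm_le_of_enorm_sq {x : ℂ} {c : ℝ} (hc : 0 ≤ c) (h : ‖x‖ₑ ^ 2 ≤ ENNReal.ofReal (c ^ 2)) :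
    ‖x‖ ≤ c := by
  rw [enorm_sq_eq, ENNReal.ofReal_le_ofReal_iff (by positivity)] at h
  exact le_of_sq_le_sq h hc

lemma inv_bv_pow {R : ℝ} (hR : 0 < R) (k : ℕ) :
    (ENNReal.ofReal (bv R))⁻¹ ^ k = ENNReal.ofReal ((bv R)⁻¹ ^ k) := by
  rw [ENNReal.ofReal_pow (inv_nonneg.2 (bv_nonneg R)), ENNReal.ofReal_inv_of_pos (bv_pos hR)]

/-- uniform pointwise bound on balls -/
lemma Av_bound {R : ℝ} (hR : 0 < R) (z₀ : ℍ) (r : ℝ) : ∃ C : ℝ, 0 ≤ C ∧ ∀ (N : ℕ) (u : LW N),
    ∀ z ∈ closedBall z₀ r, ‖Av R (u : ℍ → ℂ) z‖ ≤ C * ‖u‖ := by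
  obtain ⟨M, hM, h⟩ := lint_ball_le z₀ (r + R)
  refine ⟨√((bv R)⁻¹ * M.toReal), Real.sqrt_nonneg _, fun N u z hz => ?_⟩
  have hbv := bv_pos hR
  apply norm_le_of_enorm_sq (by positivity)
  refine (enorm_Av_sq_le hR (LW.cont u) z).trans ?_
  unfold Ap
  have h1 : ∫⁻ w in closedBall z R, ‖(u : ℍ → ℂ) w‖ₑ ^ 2 ≤ M * ENNReal.ofReal (‖u‖ ^ 2) := by
    rw [← LW.lint_sq u]
    refine (lintegral_mono_set ?_).trans (h N (fun w => ‖(u : ℍ → ℂ) w‖ₑ ^ 2)
      ((LW.cont u).measurable.enorm.pow_const 2) fun γ hγ w => by rw [LW.inv u γ hγ w])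
    apply closedBall_subset_closedBall'
    rw [mem_closedBall] at hz
    linarith
  calc (ENNReal.ofReal (bv R))⁻¹ * ∫⁻ w in closedBall z R, ‖(u : ℍ → ℂ) w‖ₑ ^ 2
      ≤ (ENNReal.ofReal (bv R))⁻¹ * (M * ENNReal.ofReal (‖u‖ ^ 2)) := by gcongr
    _ = ENNReal.ofReal ((√((bv R)⁻¹ * M.toReal) * ‖u‖) ^ 2) := by
      rw [mul_pow, Real.sq_sqrt (by positivity), ENNReal.ofReal_mul (by positivity),
        ENNReal.ofReal_mul (by positivity), ENNReal.ofReal_inv_of_pos hbv, ENNReal.ofReal_toReal hM,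
        mul_assoc]

/-- the difference of two averages -/
lemma Av_sub_le {R δ : ℝ} (hR : 0 < R) {z z' : ℍ} (h : dist z z' ≤ δ) (hδ : 0 < δ) {u : ℍ → ℂ}
    (hu : Continuous u) :
    ‖Av R u z - Av R u z'‖ₑ ^ 2 ≤ (ENNReal.ofReal (bv R))⁻¹ ^ 2 *
      ((∫⁻ w in closedBall z (R + δ), ‖u w‖ₑ ^ 2) *
        volume (closedBall z (R + δ) \ closedBall z (R - δ))) := by
  set S : Set ℍ := closedBall z (R + δ) \ closedBall z (R - δ) with hS
  have hSm : MeasurableSet S := isClosed_closedBall.measurableSet.diff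
    isClosed_closedBall.measurableSet
  have h1 : ‖(∫ w in closedBall z R, u w) - ∫ w in closedBall z' R, u w‖ₑ ≤ ∫⁻ w in S, ‖u w‖ₑ := by
    rw [← integral_indicator isClosed_closedBall.measurableSet,
      ← integral_indicator isClosed_closedBall.measurableSet,
      ← integral_sub ((intOn hu R z).integrable_indicator isClosed_closedBall.measurableSet)
        ((intOn hu R z').integrable_indicator isClosed_closedBall.measurableSet),
      ← lintegral_indicator hSm]
    refine (enorm_integral_le_lintegral_enorm _).trans (lintegral_mono fun w => ?_)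
    have ht := dist_triangle w z z'
    have ht' := dist_triangle w z' z
    rw [dist_comm z' z] at ht'
    by_cases h1 : w ∈ closedBall z R <;> by_cases h2 : w ∈ closedBall z' R
    · simp only [Set.indicator_of_mem h1, Set.indicator_of_mem h2, sub_self, enorm_zero, zero_le]
    · have hw : w ∈ S := by
        rw [mem_closedBall] at h1 h2
        refine ⟨?_, ?_⟩
        · rw [mem_closedBall]; linarith
        · rw [mem_closedBall]; intro h3; exact h2 (by linarith)
      simp only [Set.indicator_of_mem h1, Set.indicator_of_notMem h2, Set.indicator_of_mem hw,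
        sub_zero, le_refl]
    · have hw : w ∈ S := by
        rw [mem_closedBall] at h1 h2
        refine ⟨?_, ?_⟩
        · rw [mem_closedBall]; linarith
        · rw [mem_closedBall]; intro h3; exact h1 (by linarith)
      simp only [Set.indicator_of_notMem h1, Set.indicator_of_mem h2, Set.indicator_of_mem hw,
        zero_sub, enorm_neg, le_refl]
    · simp only [Set.indicator_of_notMem h1, Set.indicator_of_notMem h2, sub_self, enorm_zero,
        zero_le]
  have h2 : (∫⁻ w in S, ‖u w‖ₑ) ^ 2 ≤ (∫⁻ w in closedBall z (R + δ), ‖u w‖ₑ ^ 2) * volume S := by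
    have h3 := PB.cs (volume.restrict S) hu.measurable.enorm (measurable_const (a := (1 : ℝ≥0∞)))
    simp only [mul_one, one_pow, lintegral_const, Measure.restrict_apply_univ, one_mul] at h3
    refine h3.trans ?_
    gcongr
    exact Set.diff_subset
  have h3 : Av R u z - Av R u z' =
      (bv R)⁻¹ • ((∫ w in closedBall z R, u w) - ∫ w in closedBall z' R, u w) := by
    unfold Av
    rw [smul_sub]
  rw [h3, enorm_smul, enorm_inv (bv_pos hR).ne', Real.enorm_of_nonneg (bv_nonneg R), mul_pow]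
  gcongr
  exact (pow_le_pow_left' h1 2).trans h2

/-- equicontinuity of the averages -/
lemma Av_equicont {R : ℝ} (hR : 0 < R) (z₀ : ℍ) (r : ℝ) {ε : ℝ} (hε : 0 < ε) :
    ∃ δ : ℝ, 0 < δ ∧ ∀ (N : ℕ) (u : LW N), ‖u‖ ≤ 1 → ∀ z ∈ closedBall z₀ r, ∀ z' : ℍ,
      dist z z' ≤ δ → ‖Av R (u : ℍ → ℂ) z - Av R (u : ℍ → ℂ) z'‖ ≤ ε := by
  obtain ⟨M, hM, h⟩ := lint_ball_le z₀ (r + R + 1)
  have hbv := bv_pos hR
  set η : ℝ := ε ^ 2 * bv R ^ 2 / (M.toReal + 1) with hη
  have hM0 : 0 ≤ M.toReal := ENNReal.toReal_nonneg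
  have hη0 : 0 < η := by positivity
  obtain ⟨δ, hδ, hδ1, hv⟩ := vol_annulus R hR (ENNReal.ofReal η)
    (by simpa using hη0)
  refine ⟨δ, hδ, fun N u hu z hz z' hzz' => ?_⟩
  apply norm_le_of_enorm_sq hε.le
  refine (Av_sub_le hR hzz' hδ (LW.cont u)).trans ?_
  have h1 : ∫⁻ w in closedBall z (R + δ), ‖(u : ℍ → ℂ) w‖ₑ ^ 2 ≤ M := by
    have h2 : ∫⁻ w in closedBall z (R + δ), ‖(u : ℍ → ℂ) w‖ₑ ^ 2 ≤
        M * ENNReal.ofReal (‖u‖ ^ 2) := by
      rw [← LW.lint_sq u]
      refine (lintegral_mono_set ?_).trans (h N (fun w => ‖(u : ℍ → ℂ) w‖ₑ ^ 2)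
        ((LW.cont u).measurable.enorm.pow_const 2) fun γ hγ w => by rw [LW.inv u γ hγ w])
      apply closedBall_subset_closedBall'
      rw [mem_closedBall] at hz
      linarith
    refine h2.trans ?_
    have h3 : ENNReal.ofReal (‖u‖ ^ 2) ≤ 1 := by
      rw [← ENNReal.ofReal_one]
      apply ENNReal.ofReal_le_ofReal
      exact pow_le_one₀ (norm_nonneg _) hu
    calc M * ENNReal.ofReal (‖u‖ ^ 2) ≤ M * 1 := by gcongr
      _ = M := mul_one M
  calc (ENNReal.ofReal (bv R))⁻¹ ^ 2 * ((∫⁻ w in closedBall z (R + δ), ‖(u : ℍ → ℂ) w‖ₑ ^ 2) *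
        volume (closedBall z (R + δ) \ closedBall z (R - δ)))
      ≤ (ENNReal.ofReal (bv R))⁻¹ ^ 2 * (M * ENNReal.ofReal η) := by
        gcongr
        exact (hv z).le
    _ = ENNReal.ofReal ((bv R)⁻¹ ^ 2 * (M.toReal * η)) := by
        rw [inv_bv_pow hR, ENNReal.ofReal_mul (by positivity), ENNReal.ofReal_mul hM0,
          ENNReal.ofReal_toReal hM]
    _ ≤ ENNReal.ofReal (ε ^ 2) := by
        apply ENNReal.ofReal_le_ofReal
        rw [hη]
        have e : (bv R)⁻¹ ^ 2 * (M.toReal * (ε ^ 2 * bv R ^ 2 / (M.toReal + 1))) =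
            ε ^ 2 * (M.toReal / (M.toReal + 1)) := by
          field_simp
        rw [e]
        have : M.toReal / (M.toReal + 1) ≤ 1 := by
          rw [div_le_one (by positivity)]; linarith
        nlinarith [sq_nonneg ε]

end

end Pool.Agent.H75.SE
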