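import Pool.Agent.H75.SE.Comp2

/-! # Compactness -/

set_option autoImplicit false

open UpperHalfPlane MeasureTheory Metric ModularGroup CongruenceSubgroup Filter
open scoped MatrixGroups ENNReal Modular Topology NNReal ComplexConjugate

namespace Pool.Agent.H75.SE

open Pool.Agent.H369R2 Pool.Agent.N799.DT Pool.Agent.N799.DT.OrthAux

noncomputable section

/-- a subsequence of the averages converges uniformly on a ball -/
lemma subseq {R : ℝ} (hR : 0 < R) {N : ℕ} (r : ℝ) (u : ℕ → LW N) (hu : ∀ n, ‖u n‖ ≤ 1) :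
    ∃ φ : ℕ → ℕ, StrictMono φ ∧ ∀ ε : ℝ, 0 < ε → ∃ n₀ : ℕ, ∀ m, n₀ ≤ m → ∀ n, n₀ ≤ n →
      ∀ z ∈ closedBall (I : ℍ) r,
        ‖Av R (u (φ m) : ℍ → ℂ) z - Av R (u (φ n) : ℍ → ℂ) z‖ ≤ ε := by
  have hcpt : CompactSpace (closedBall (I : ℍ) r) :=
    isCompact_iff_compactSpace.1 (isCompact_closedBall _ _)
  let F : ℕ → BoundedContinuousFunction (closedBall (I : ℍ) r) ℂ := fun n =>
    BoundedContinuousFunction.mkOfCompact
      ⟨fun z => Av R (u n : ℍ → ℂ) z, (cont_Av (LW.cont (u n))).comp continuous_subtype_val⟩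
  obtain ⟨C, hC0, hC⟩ := Av_bound hR (I : ℍ) r
  have hcomp : IsCompact (closure (Set.range F)) := by
    refine BoundedContinuousFunction.arzela_ascoli (closedBall (0 : ℂ) C)
      (isCompact_closedBall _ _) (Set.range F) ?_ ?_
    · rintro _ z ⟨n, rfl⟩
      rw [mem_closedBall, dist_zero_right]
      refine (hC N (u n) z z.2).trans ?_
      calc C * ‖u n‖ ≤ C * 1 := by gcongr; exact hu n
        _ = C := mul_one C
    · intro z₀
      rw [Metric.equicontinuousAt_iff_right]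
      intro ε hε
      obtain ⟨δ, hδ, h⟩ := Av_equicont hR (I : ℍ) r (half_pos hε)
      filter_upwards [ball_mem_nhds z₀ hδ] with z hz
      rintro ⟨_, n, rfl⟩
      rw [mem_ball] at hz
      refine lt_of_le_of_lt ?_ (half_lt_self hε)
      rw [dist_eq_norm]
      refine h N (u n) (hu n) z₀ z₀.2 z ?_
      rw [dist_comm]
      exact le_of_lt hz
  obtain ⟨a, _, φ, hφ, hlim⟩ := hcomp.tendsto_subseq (x := F) fun n => subset_closure ⟨n, rfl⟩
  refine ⟨φ, hφ, fun ε hε => ?_⟩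
  obtain ⟨n₀, hn₀⟩ := Metric.cauchySeq_iff.1 hlim.cauchySeq ε hε
  refine ⟨n₀, fun m hm n hn z hz => ?_⟩
  have h1 := (BoundedContinuousFunction.dist_coe_le_dist (f := F (φ m)) (g := F (φ n)) ⟨z, hz⟩).trans
    (hn₀ m hm n hn).le
  rw [dist_eq_norm] at h1
  exact h1

lemma LA_sub_apply {N : ℕ} {R : ℝ} (hR : 0 < R) (u v : LW N) (z : ℍ) :
    Av R ((u - v : LW N) : ℍ → ℂ) z = Av R (u : ℍ → ℂ) z - Av R (v : ℍ → ℂ) z := by
  rw [← LA_apply N R hR, map_sub]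
  rfl

/-- the contribution of the cusps -/
lemma LA_cusp_split {N : ℕ} [NeZero N] {R : ℝ} (hR : 0 < R) (d : LW N) {ε r : ℝ} (hε : 0 ≤ ε)
    (hr : ∀ᵐ z ∂(nu N), z ∉ cuspRegion (Real.exp R) → z ∈ closedBall (I : ℍ) r)
    (hd : ∀ z ∈ closedBall (I : ℍ) r, ‖Av R (d : ℍ → ℂ) z‖ ≤ ε) (hρ : rhoE R ≠ ∞) :
    ‖LA N R hR d‖ ≤ (rhoE R).toReal * ‖d‖ + ε * √((nu N Set.univ).toReal) := by
  have hV : nu N Set.univ ≠ ∞ := nu_univ_ne_top N (NeZero.ne N)
  set ρ := (rhoE R).toReal with hρd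
  set V := (nu N Set.univ).toReal with hVd
  have hρ0 : 0 ≤ ρ := ENNReal.toReal_nonneg
  have hV0 : 0 ≤ V := ENNReal.toReal_nonneg
  have hm : MeasurableSet (cuspRegion (Real.exp R)) := measurableSet_cuspRegion _
  have h1 : ∫⁻ z in cuspRegion (Real.exp R), ‖Av R (d : ℍ → ℂ) z‖ₑ ^ 2 ∂(nu N) ≤
      ENNReal.ofReal (ρ ^ 2 * ‖d‖ ^ 2) := by
    have hcl := cusp_lemma hR (le_refl 1) (by rw [one_mul] : 1 * Real.exp R ≤ Real.exp R) N
      (LW.cont d).measurable.enorm (fun γ hγ z => by rw [LW.inv d γ hγ z])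
    calc ∫⁻ z in cuspRegion (Real.exp R), ‖Av R (d : ℍ → ℂ) z‖ₑ ^ 2 ∂(nu N)
        ≤ ∫⁻ z in cuspRegion (Real.exp R), (Ap R (fun w => ‖(d : ℍ → ℂ) w‖ₑ) z) ^ 2 ∂(nu N) := by
          apply lintegral_mono
          intro z
          exact pow_le_pow_left' (enorm_Av_le hR _ z) 2
      _ ≤ rhoE R ^ 2 * ∫⁻ z in cuspRegion 1, ‖(d : ℍ → ℂ) z‖ₑ ^ 2 ∂(nu N) := hcl
      _ ≤ rhoE R ^ 2 * ∫⁻ z, ‖(d : ℍ → ℂ) z‖ₑ ^ 2 ∂(nu N) := by
          gcongr
          exact Measure.restrict_le_self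
      _ = ENNReal.ofReal (ρ ^ 2 * ‖d‖ ^ 2) := by
          rw [LW.lint_sq, ENNReal.ofReal_mul (by positivity), ENNReal.ofReal_pow hρ0, hρd,
            ENNReal.ofReal_toReal hρ]
  have h2 : ∫⁻ z in (cuspRegion (Real.exp R))ᶜ, ‖Av R (d : ℍ → ℂ) z‖ₑ ^ 2 ∂(nu N) ≤
      ENNReal.ofReal (ε ^ 2 * V) := by
    calc ∫⁻ z in (cuspRegion (Real.exp R))ᶜ, ‖Av R (d : ℍ → ℂ) z‖ₑ ^ 2 ∂(nu N)
        ≤ ∫⁻ z in (cuspRegion (Real.exp R))ᶜ, ENNReal.ofReal (ε ^ 2) ∂(nu N) := by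
          apply lintegral_mono_ae
          rw [ae_restrict_iff' hm.compl]
          filter_upwards [hr] with z hz hz'
          rw [enorm_sq_eq]
          apply ENNReal.ofReal_le_ofReal
          exact pow_le_pow_left₀ (norm_nonneg _) (hd z (hz hz')) 2
      _ ≤ ∫⁻ z, ENNReal.ofReal (ε ^ 2) ∂(nu N) := setLIntegral_le_lintegral _ _
      _ = ENNReal.ofReal (ε ^ 2 * V) := by
          rw [lintegral_const, ENNReal.ofReal_mul (by positivity), hVd, ENNReal.ofReal_toReal hV]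
  have h3 : ‖LA N R hR d‖ ^ 2 ≤ ρ ^ 2 * ‖d‖ ^ 2 + ε ^ 2 * V := by
    rw [← ENNReal.ofReal_le_ofReal_iff (by positivity), ← LW.lint_sq,
      ENNReal.ofReal_add (by positivity) (by positivity), ← lintegral_add_compl _ hm]
    exact add_le_add h1 h2
  apply le_of_sq_le_sq _ (by positivity)
  have h4 : √V ^ 2 = V := Real.sq_sqrt hV0
  have h5 : 0 ≤ ρ * ‖d‖ * (ε * √V) := by positivity
  nlinarith

/-- Cauchy sequences for the norm -/
def NCauchy {N : ℕ} (u : ℕ → LW N) : Prop :=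
  ∀ ε : ℝ, 0 < ε → ∃ n₀ : ℕ, ∀ m, n₀ ≤ m → ∀ n, n₀ ≤ n → ‖u m - u n‖ < ε

/-- compactness modulo the spectral radius in the cusps -/
theorem precompact {N : ℕ} [NeZero N] {R : ℝ} (hR : 0 < R) {l : ℝ}
    (hl : rhoE R < ENNReal.ofReal l) (u : ℕ → LW N) (hb : ∀ n, ‖u n‖ ≤ 1)
    (hlim : Tendsto (fun n => ‖LA N R hR (u n) - (l : ℂ) • u n‖) atTop (𝓝 0)) :
    ∃ φ : ℕ → ℕ, StrictMono φ ∧ NCauchy (fun n => u (φ n)) := by
  have hρ : rhoE R ≠ ∞ := hl.ne_top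
  have hl0 : 0 < l := by
    by_contra h
    rw [not_lt] at h
    rw [ENNReal.ofReal_of_nonpos h] at hl
    exact not_lt_zero hl
  set ρ := (rhoE R).toReal with hρd
  have hρ0 : 0 ≤ ρ := ENNReal.toReal_nonneg
  have hρl : ρ < l := by
    rw [hρd]
    exact (ENNReal.lt_ofReal_iff_toReal_lt hρ).1 hl
  obtain ⟨r, _, hr⟩ := compact_part N (NeZero.ne N) (Real.exp R)
  obtain ⟨φ, hφ, hsub⟩ := subseq hR r u hb
  refine ⟨φ, hφ, ?_⟩
  set V := (nu N Set.univ).toReal with hVd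
  have hlim' : Tendsto (fun n => ‖LA N R hR (u (φ n)) - (l : ℂ) • u (φ n)‖) atTop (𝓝 0) :=
    hlim.comp hφ.tendsto_atTop
  intro ε hε
  set η : ℝ := ε * (l - ρ) / (4 * (√V + 1)) with hη
  have hη0 : 0 < η := by
    have : 0 < l - ρ := by linarith
    positivity
  obtain ⟨n₁, hn₁⟩ := hsub η hη0
  obtain ⟨n₂, hn₂⟩ := (Metric.tendsto_atTop.1 hlim') (ε * (l - ρ) / 4) (by
    have : 0 < l - ρ := by linarith
    positivity)
  refine ⟨max n₁ n₂, fun m hm n hn => ?_⟩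
  set d : LW N := u (φ m) - u (φ n) with hd
  have e1 : ‖LA N R hR d‖ ≤ ρ * ‖d‖ + η * √V := by
    refine LA_cusp_split hR d hη0.le hr (fun z hz => ?_) hρ
    rw [hd, LA_sub_apply hR]
    exact hn₁ m ((le_max_left _ _).trans hm) n ((le_max_left _ _).trans hn) z hz
  have e2 : ‖LA N R hR d - (l : ℂ) • d‖ ≤ ‖LA N R hR (u (φ m)) - (l : ℂ) • u (φ m)‖ +
      ‖LA N R hR (u (φ n)) - (l : ℂ) • u (φ n)‖ := by
    have : LA N R hR d - (l : ℂ) • d = (LA N R hR (u (φ m)) - (l : ℂ) • u (φ m)) -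
        (LA N R hR (u (φ n)) - (l : ℂ) • u (φ n)) := by
      rw [hd, map_sub, smul_sub]
      abel
    rw [this]
    exact norm_sub_le _ _
  have e3 := hn₂ m ((le_max_right _ _).trans hm)
  have e4 := hn₂ n ((le_max_right _ _).trans hn)
  rw [Real.dist_eq, sub_zero, abs_of_nonneg (norm_nonneg _)] at e3 e4
  have e5 : l * ‖d‖ ≤ ‖LA N R hR d‖ + ‖LA N R hR d - (l : ℂ) • d‖ := by
    have h1 : ‖(l : ℂ) • d‖ = l * ‖d‖ := by
      rw [norm_smul, Complex.norm_real, Real.norm_of_nonneg hl0.le]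
    rw [← h1]
    have h2 : (l : ℂ) • d = LA N R hR d - (LA N R hR d - (l : ℂ) • d) := by abel
    calc ‖(l : ℂ) • d‖ = ‖LA N R hR d - (LA N R hR d - (l : ℂ) • d)‖ := by rw [← h2]
      _ ≤ _ := norm_sub_le _ _
  have e6 : η * √V ≤ ε * (l - ρ) / 4 := by
    rw [hη]
    have hs : 0 ≤ √V := Real.sqrt_nonneg V
    have h1 : 0 < l - ρ := by linarith
    rw [div_mul_eq_mul_div, div_le_div_iff₀ (by positivity) (by norm_num)]
    have h2 : 0 ≤ ε * (l - ρ) := by positivity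
    nlinarith
  have h1 : 0 < l - ρ := by linarith
  by_contra hcon
  rw [not_lt] at hcon
  have h3 : (l - ρ) * ε ≤ (l - ρ) * ‖d‖ := by gcongr
  have h4 : 0 < ε * (l - ρ) := by positivity
  nlinarith

/-- completeness -/
theorem limit_exists {N : ℕ} {R : ℝ} (hR : 0 < R) {l : ℝ} (hl : l ≠ 0) (u : ℕ → LW N)
    (hc : NCauchy u)
    (hlim : Tendsto (fun n => ‖LA N R hR (u n) - (l : ℂ) • u n‖) atTop (𝓝 0)) :
    ∃ f : LW N, Tendsto (fun n => ‖u n - f‖) atTop (𝓝 0) := by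
  set F : ℕ → ℍ → ℂ := fun n => Av R (u n : ℍ → ℂ) with hF
  have hFc : ∀ n, Continuous (F n) := fun n => cont_Av (LW.cont (u n))
  have hunif : ∀ z₀ : ℍ, UniformCauchySeqOn F atTop (closedBall z₀ 1) := by
    intro z₀
    obtain ⟨C, hC0, hC⟩ := Av_bound hR z₀ 1
    rw [Metric.uniformCauchySeqOn_iff]
    intro ε hε
    obtain ⟨n₀, hn₀⟩ := hc (ε / (C + 1)) (by positivity)
    refine ⟨n₀, fun m hm n hn z hz => ?_⟩
    have h1 := hC N (u m - u n) z hz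
    rw [LA_sub_apply hR] at h1
    have h2 := hn₀ m hm n hn
    rw [dist_eq_norm]
    refine lt_of_le_of_lt h1 ?_
    rw [lt_div_iff₀ (by positivity)] at h2
    nlinarith [norm_nonneg (u m - u n)]
  have hpt : ∀ z : ℍ, ∃ g : ℂ, Tendsto (fun n => F n z) atTop (𝓝 g) := fun z =>
    cauchySeq_tendsto_of_complete ((hunif z).cauchySeq (mem_closedBall_self zero_le_one))
  choose G hG using hpt
  have hGc : Continuous G := by
    rw [continuous_iff_continuousAt]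
    intro z₀
    have h1 : TendstoUniformlyOn F G atTop (closedBall z₀ 1) :=
      (hunif z₀).tendstoUniformlyOn_of_tendsto fun z _ => hG z
    have h2 : ContinuousOn G (closedBall z₀ 1) :=
      h1.continuousOn (Eventually.of_forall fun n => (hFc n).continuousOn).frequently
    exact h2.continuousAt (closedBall_mem_nhds z₀ zero_lt_one)
  have hGi : Inv N G := by
    intro γ hγ z
    refine tendsto_nhds_unique (hG (γ • z)) ?_
    refine (hG z).congr fun n => ?_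
    exact (Av_inv (LW.inv (u n)) γ hγ z).symm
  -- Fatou
  have hfat : ∀ ε : ℝ, 0 < ε → ∃ n₀ : ℕ, ∀ n, n₀ ≤ n →
      ∫⁻ z, ‖G z - F n z‖ₑ ^ 2 ∂(nu N) ≤ ENNReal.ofReal (ε ^ 2) := by
    intro ε hε
    obtain ⟨n₀, hn₀⟩ := hc ε hε
    refine ⟨n₀, fun n hn => ?_⟩
    have h1 : ∀ z, ‖G z - F n z‖ₑ ^ 2 = liminf (fun m => ‖F m z - F n z‖ₑ ^ 2) atTop := by
      intro z
      symm
      apply Tendsto.liminf_eq
      have h2 : Tendsto (fun m => F m z - F n z) atTop (𝓝 (G z - F n z)) :=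
        (hG z).sub_const _
      exact (ENNReal.continuous_pow 2).continuousAt.tendsto.comp
        (continuous_enorm.continuousAt.tendsto.comp h2)
    simp only [h1]
    refine (lintegral_liminf_le fun m => ?_).trans ?_
    · exact (((hFc m).sub (hFc n)).measurable.enorm.pow_const 2)
    · refine liminf_le_of_frequently_le' (Eventually.frequently ?_)
      filter_upwards [eventually_ge_atTop n₀] with m hm
      have h3 : ∀ z, ‖F m z - F n z‖ₑ ^ 2 = ‖(LA N R hR (u m - u n) : ℍ → ℂ) z‖ₑ ^ 2 := by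
        intro z
        rw [LA_apply, LA_sub_apply hR]
      simp only [h3]
      rw [LW.lint_sq]
      apply ENNReal.ofReal_le_ofReal
      apply pow_le_pow_left₀ (norm_nonneg _)
      refine (LA_norm_le hR _).trans ?_
      exact (hn₀ m hm n hn).le
  have hGf : ∫⁻ z, ‖G z‖ₑ ^ 2 ∂(nu N) ≠ ∞ := by
    obtain ⟨n₀, hn₀⟩ := hfat 1 one_pos
    have h1 := hn₀ n₀ le_rfl
    have h2 : ∫⁻ z, ‖G z‖ₑ ^ 2 ∂(nu N) ≤
        ∫⁻ z, (2 * ‖G z - F n₀ z‖ₑ ^ 2 + 2 * ‖F n₀ z‖ₑ ^ 2) ∂(nu N) := by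
      apply lintegral_mono
      intro z
      have := enorm_sq_add_le (G z - F n₀ z) (F n₀ z)
      rwa [sub_add_cancel] at this
    refine ne_top_of_le_ne_top ?_ h2
    have m1 : Measurable fun z => ‖G z - F n₀ z‖ₑ ^ 2 :=
      (hGc.sub (hFc n₀)).measurable.enorm.pow_const 2
    have m2 : Measurable fun z => ‖F n₀ z‖ₑ ^ 2 := (hFc n₀).measurable.enorm.pow_const 2
    rw [lintegral_add_left (m1.const_mul 2), lintegral_const_mul _ m1, lintegral_const_mul _ m2]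
    refine ENNReal.add_ne_top.2 ⟨ENNReal.mul_ne_top (by norm_num) ?_,
      ENNReal.mul_ne_top (by norm_num) ?_⟩
    · exact ne_top_of_le_ne_top ENNReal.ofReal_ne_top h1
    · exact LW.fin (LA N R hR (u n₀))
  let g : LW N := ⟨G, hGc, hGi, hGf⟩
  have hg : Tendsto (fun n => ‖LA N R hR (u n) - g‖) atTop (𝓝 0) := by
    rw [Metric.tendsto_atTop]
    intro ε hε
    obtain ⟨n₀, hn₀⟩ := hfat (ε / 2) (half_pos hε)
    refine ⟨n₀, fun n hn => ?_⟩
    rw [Real.dist_eq, sub_zero, abs_of_nonneg (norm_nonneg _), norm_sub_rev]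
    have h1 : ENNReal.ofReal (‖g - LA N R hR (u n)‖ ^ 2) ≤ ENNReal.ofReal ((ε / 2) ^ 2) := by
      rw [← LW.lint_sq]
      exact hn₀ n hn
    rw [ENNReal.ofReal_le_ofReal_iff (by positivity)] at h1
    have := le_of_sq_le_sq h1 (by positivity)
    linarith
  refine ⟨((l : ℂ)⁻¹) • g, ?_⟩
  have hlC : (l : ℂ) ≠ 0 := by exact_mod_cast hl
  have h1 : ∀ n, ‖u n - ((l : ℂ)⁻¹) • g‖ ≤ ‖(l : ℂ)⁻¹‖ * (‖LA N R hR (u n) - g‖ +
      ‖LA N R hR (u n) - (l : ℂ) • u n‖) := by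
    intro n
    have e : u n - ((l : ℂ)⁻¹) • g = ((l : ℂ)⁻¹) • ((LA N R hR (u n) - g) -
        (LA N R hR (u n) - (l : ℂ) • u n)) := by
      rw [sub_sub_sub_cancel_left, smul_sub, smul_smul, inv_mul_cancel₀ hlC, one_smul]
    rw [e, norm_smul]
    gcongr
    exact norm_sub_le _ _
  refine squeeze_zero (fun n => norm_nonneg _) h1 ?_
  have := (hg.add hlim).const_mul ‖(l : ℂ)⁻¹‖
  simpa using this

end

end Pool.Agent.H75.SE
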