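import Pool.Agent.H75.SE.Av

/-! # The averaging operators are strict contractions on mean zero functions -/

set_option autoImplicit false

open UpperHalfPlane MeasureTheory Metric ModularGroup CongruenceSubgroup Filter
open scoped MatrixGroups ENNReal Modular Topology NNReal ComplexConjugate

namespace Pool.Agent.H75.SE

open Pool.Agent.H369R2 Pool.Agent.N799.DT Pool.Agent.N799.DT.OrthAux

noncomputable section

/-- the variance on a ball -/
lemma variance {R : ℝ} (hR : 0 < R) {f : ℍ → ℂ} (hf : Continuous f) (z : ℍ) :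
    ∫ w in closedBall z R, ‖f w - Av R f z‖ ^ 2 =
      (∫ w in closedBall z R, ‖f w‖ ^ 2) - bv R * ‖Av R f z‖ ^ 2 := by
  set a := Av R f z with ha
  have hbv := bv_pos hR
  have h1 : ∀ w, ‖f w - a‖ ^ 2 = ‖f w‖ ^ 2 - 2 * (conj a * f w).re + ‖a‖ ^ 2 := by
    intro w
    rw [Complex.sq_norm, Complex.sq_norm, Complex.sq_norm, Complex.normSq_sub]
    have : (f w * conj a).re = (conj a * f w).re := by rw [mul_comm]
    rw [this]
    ring
  have i1 : IntegrableOn (fun w => ‖f w‖ ^ 2) (closedBall z R) := intOn (hf.norm.pow 2) R z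
  have i2 : IntegrableOn (fun w => conj a * f w) (closedBall z R) :=
    intOn (continuous_const.mul hf) R z
  have i2' : IntegrableOn (fun w => 2 * (conj a * f w).re) (closedBall z R) :=
    intOn (continuous_const.mul (Complex.continuous_re.comp (continuous_const.mul hf))) R z
  have i3 : IntegrableOn (fun _ : ℍ => ‖a‖ ^ 2) (closedBall z R) := intOn continuous_const R z
  have i4 : IntegrableOn (fun w => ‖f w‖ ^ 2 - 2 * (conj a * f w).re) (closedBall z R) :=
    i1.sub i2'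
  have h2 : ∫ w in closedBall z R, (conj a * f w).re = bv R * ‖a‖ ^ 2 := by
    have h3 := Complex.reCLM.integral_comp_comm i2
    simp only [Complex.reCLM_apply] at h3
    rw [h3, integral_const_mul]
    have h4 : ∫ w in closedBall z R, f w = (bv R : ℂ) * a := by
      rw [ha]
      unfold Av
      rw [Complex.real_smul, ← mul_assoc]
      push_cast
      rw [mul_inv_cancel₀ (by exact_mod_cast hbv.ne'), one_mul]
    rw [h4]
    have h5 : conj a * ((bv R : ℂ) * a) = ((bv R * ‖a‖ ^ 2 : ℝ) : ℂ) := by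
      have : conj a * a = ((‖a‖ ^ 2 : ℝ) : ℂ) := by
        rw [← Complex.normSq_eq_conj_mul_self, Complex.normSq_eq_norm_sq]
      calc conj a * ((bv R : ℂ) * a) = (bv R : ℂ) * (conj a * a) := by ring
        _ = _ := by rw [this]; push_cast; ring
    rw [h5, Complex.ofReal_re]
  simp only [h1]
  rw [integral_add i4 i3, integral_sub i1 i2', integral_const_mul, h2,
    setIntegral_const, Measure.real, vol_eq, ENNReal.toReal_ofReal hbv.le, smul_eq_mul]
  ring

/-- a continuous function which is constant on balls of radius `R` is constant -/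
lemma const_of_ball {R : ℝ} (hR : 0 < R) {f : ℍ → ℂ} (h : ∀ z, ∀ w ∈ ball z R, f w = f z) :
    ∃ c, ∀ z, f z = c := by
  have h1 : IsLocallyConstant f := by
    rw [IsLocallyConstant.iff_eventually_eq]
    intro z
    filter_upwards [ball_mem_nhds z hR] with w hw using h z w hw
  exact ⟨f I, fun z => h1.apply_eq_of_preconnectedSpace z I⟩

theorem contr {N : ℕ} [NeZero N] {R : ℝ} (hR : 0 < R) {f : LW N} (hf : f ∈ LZ N) {μ : ℝ}
    (h : ∀ z, Av R (f : ℍ → ℂ) z = (μ : ℂ) * (f : ℍ → ℂ) z) (hμ : 1 ≤ |μ|) : f = 0 := by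
  have hfc := LW.cont f
  have hbv := bv_pos hR
  have hA : Continuous (Av R (f : ℍ → ℂ)) := cont_Av hfc
  -- pointwise inequality, equal integrals
  have hle : ∀ z, ‖Av R (f : ℍ → ℂ) z‖ₑ ^ 2 ≤ Ap R (fun w => ‖(f : ℍ → ℂ) w‖ₑ ^ 2) z :=
    enorm_Av_sq_le hR hfc
  have hm1 : Measurable fun z => ‖(f : ℍ → ℂ) z‖ₑ ^ 2 := hfc.measurable.enorm.pow_const 2
  have hint : ∫⁻ z, Ap R (fun w => ‖(f : ℍ → ℂ) w‖ₑ ^ 2) z ∂(nu N) =
      ∫⁻ z, ‖(f : ℍ → ℂ) z‖ₑ ^ 2 ∂(nu N) :=
    lint_Ap_nu hR N hm1 fun δ hδ z => by rw [LW.inv f δ hδ z]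
  have hge : ∫⁻ z, ‖(f : ℍ → ℂ) z‖ₑ ^ 2 ∂(nu N) ≤ ∫⁻ z, ‖Av R (f : ℍ → ℂ) z‖ₑ ^ 2 ∂(nu N) := by
    apply lintegral_mono
    intro z
    simp only
    rw [h z, enorm_mul, mul_pow]
    have : (1 : ℝ≥0∞) ≤ ‖(μ : ℂ)‖ₑ ^ 2 := by
      rw [enorm_sq_eq, Complex.norm_real, Real.norm_eq_abs, ← ENNReal.ofReal_one]
      apply ENNReal.ofReal_le_ofReal
      exact one_le_pow₀ hμ
    calc ‖(f : ℍ → ℂ) z‖ₑ ^ 2 = 1 * ‖(f : ℍ → ℂ) z‖ₑ ^ 2 := (one_mul _).symm
      _ ≤ _ := by gcongr
  have hae : (fun z => ‖Av R (f : ℍ → ℂ) z‖ₑ ^ 2) =ᵐ[nu N]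
      Ap R (fun w => ‖(f : ℍ → ℂ) w‖ₑ ^ 2) := by
    refine ae_eq_of_ae_le_of_lintegral_le (.of_forall hle) ?_
      (measurable_Ap hR hm1).aemeasurable ?_
    · exact ne_top_of_le_ne_top (LW.fin f) (lint_Av_sq_le hR hfc (LW.inv f))
    · rw [hint]; exact hge
  -- the continuous version
  set v : ℍ → ℝ := fun z => Av R (fun w => ‖(f : ℍ → ℂ) w‖ ^ 2) z - ‖Av R (f : ℍ → ℂ) z‖ ^ 2 with hv
  have hvc : Continuous v := (cont_Av (hfc.norm.pow 2)).sub (hA.norm.pow 2)
  have hApe : ∀ z, Ap R (fun w => ‖(f : ℍ → ℂ) w‖ₑ ^ 2) z =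
      ENNReal.ofReal (Av R (fun w => ‖(f : ℍ → ℂ) w‖ ^ 2) z) := by
    intro z
    have hc : Continuous fun w => ‖(f : ℍ → ℂ) w‖ ^ 2 := hfc.norm.pow 2
    rw [ofReal_Av' hR hc fun z => by positivity]
    simp only [enorm_sq_eq]
  have hAv0 : ∀ z, 0 ≤ Av R (fun w => ‖(f : ℍ → ℂ) w‖ ^ 2) z := by
    intro z
    unfold Av
    exact smul_nonneg (by positivity) (integral_nonneg fun w => by positivity)
  have hv0 : ∀ᵐ z ∂(nu N), v z = 0 := by
    filter_upwards [hae] with z hz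
    rw [hApe, enorm_sq_eq] at hz
    have := (ENNReal.ofReal_eq_ofReal_iff (by positivity) (hAv0 z)).1 hz
    rw [hv]
    simp only
    linarith
  have hvi : Inv N (fun z => (v z : ℂ)) := by
    intro γ hγ z
    have h1 : Inv N (fun w => ‖(f : ℍ → ℂ) w‖ ^ 2) := fun γ hγ z => by
      simp only [LW.inv f γ hγ z]
    simp only [hv, Av_inv h1 γ hγ z, Av_inv (LW.inv f) γ hγ z]
  have hv1 : (fun z => (v z : ℂ)) = 0 := by
    refine LW.eq_zero (N := N) (Complex.continuous_ofReal.comp hvc) hvi ?_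
    rw [lintegral_eq_zero_iff' (by fun_prop)]
    filter_upwards [hv0] with z hz
    simp [hz]
  have hv2 : ∀ z, v z = 0 := by
    intro z
    have := congrFun hv1 z
    simp only [Pi.zero_apply] at this
    exact_mod_cast this
  -- `f` is constant on balls
  have hball : ∀ z, ∀ w ∈ ball z R, (f : ℍ → ℂ) w = (f : ℍ → ℂ) z := by
    intro z
    set a := Av R (f : ℍ → ℂ) z with ha
    have h1 : ∫ w in closedBall z R, ‖(f : ℍ → ℂ) w - a‖ ^ 2 = 0 := by
      rw [ha, variance hR hfc]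
      have h2 := hv2 z
      rw [hv] at h2
      simp only at h2
      have h3 : ∫ w in closedBall z R, ‖(f : ℍ → ℂ) w‖ ^ 2 =
          bv R * Av R (fun w => ‖(f : ℍ → ℂ) w‖ ^ 2) z := by
        unfold Av
        rw [smul_eq_mul, ← mul_assoc, mul_inv_cancel₀ hbv.ne', one_mul]
      rw [h3, ← mul_sub, h2, mul_zero]
    have hc : Continuous fun w => ‖(f : ℍ → ℂ) w - a‖ ^ 2 := (hfc.sub continuous_const).norm.pow 2
    have h4 : (fun w => ‖(f : ℍ → ℂ) w - a‖ ^ 2) =ᵐ[volume.restrict (closedBall z R)] 0 :=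
      (integral_eq_zero_iff_of_nonneg (fun w => by positivity) (intOn hc R z)).1 h1
    have h5 : (fun w => ‖(f : ℍ → ℂ) w - a‖ ^ 2) =ᵐ[volume.restrict (ball z R)] fun _ => 0 :=
      ae_restrict_of_ae_restrict_of_subset ball_subset_closedBall h4
    have h6 := Measure.eqOn_open_of_ae_eq h5 isOpen_ball hc.continuousOn continuousOn_const
    have h7 : ∀ w ∈ ball z R, (f : ℍ → ℂ) w = a := by
      intro w hw
      have := h6 hw
      simp only at this
      rw [pow_eq_zero_iff (by norm_num), norm_eq_zero, sub_eq_zero] at this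
      exact this
    intro w hw
    rw [h7 w hw, h7 z (mem_ball_self hR)]
  obtain ⟨c, hc⟩ := const_of_ball hR hball
  have h1 := mem_LZ.1 hf
  rw [LW.inner_def] at h1
  have h2 : ∀ z, conj ((one N : ℍ → ℂ) z) * (f : ℍ → ℂ) z = c := by
    intro z
    rw [hc z]
    show conj (1 : ℂ) * c = c
    rw [map_one, one_mul]
  simp only [h2] at h1
  rw [integral_const, Complex.real_smul, mul_eq_zero] at h1
  have h3 : (nu N).real Set.univ ≠ 0 := by
    rw [Measure.real, ENNReal.toReal_ne_zero]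
    exact ⟨nu_univ_ne_zero N (NeZero.ne N), nu_univ_ne_top N (NeZero.ne N)⟩
  rcases h1 with h1 | h1
  · exact absurd (by exact_mod_cast h1) h3
  · ext z
    rw [hc z, h1]
    rfl

/-- `lam ν R ≥ 1` for `ν ≥ 1/2` -/
lemma one_le_lam {ν R : ℝ} (hR : 0 < R) (hν : 1 / 2 ≤ ν) (h1 : lam (1 / 2) R = 1) :
    1 ≤ lam ν R := by
  have hbv := bv_pos hR
  have i1 : IntegrableOn (fun w : ℍ => w.im ^ (1 / 2 + ν)) (closedBall I R) :=
    intOn (continuous_im.rpow_const fun w => Or.inl w.im_pos.ne') R I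
  have i2 : IntegrableOn (fun w : ℍ => w.im) (closedBall I R) := intOn continuous_im R I
  have e1 : ∫ w in closedBall (I : ℍ) R, w.im = bv R := by
    unfold lam at h1
    have h2 : ∀ w : ℍ, w.im ^ (1 / 2 + 1 / 2 : ℝ) = w.im := fun w => by norm_num
    simp only [h2] at h1
    field_simp at h1
    exact h1
  have e2 : ∫ w in closedBall (I : ℍ) R, (1 : ℝ) = bv R := by
    rw [setIntegral_const, Measure.real, vol_eq, ENNReal.toReal_ofReal hbv.le, smul_eq_mul, mul_one]
  have c1 : Continuous fun w : ℍ => (1 / 2 + ν) * (w.im - 1) :=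
    continuous_const.mul (continuous_im.sub continuous_const)
  have i3 : IntegrableOn (fun w : ℍ => (1 / 2 + ν) * (w.im - 1)) (closedBall I R) := intOn c1 R I
  have i4 : IntegrableOn (fun _ : ℍ => (1 : ℝ)) (closedBall I R) := intOn continuous_const R I
  have h3 : ∫ w in closedBall (I : ℍ) R, (1 + (1 / 2 + ν) * (w.im - 1)) ≤
      ∫ w in closedBall (I : ℍ) R, w.im ^ (1 / 2 + ν) := by
    refine integral_mono (i4.add i3) i1 fun w => ?_
    · have h4 := one_add_mul_self_le_rpow_one_add (s := w.im - 1) (by linarith [w.im_pos])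
        (p := 1 / 2 + ν) (by linarith)
      simpa using h4
  rw [integral_add i4 i3, integral_const_mul,
    integral_sub i2 i4, e1, e2, sub_self, mul_zero, add_zero] at h3
  unfold lam
  calc (1 : ℝ) = (bv R)⁻¹ * bv R := (inv_mul_cancel₀ hbv.ne').symm
    _ ≤ (bv R)⁻¹ * ∫ w in closedBall (I : ℍ) R, w.im ^ (1 / 2 + ν) := by gcongr

end

end Pool.Agent.H75.SE
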