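import Pool.Agent.H75.SE.Av

/-! # Exchanging two points; the averaging operators commute -/

set_option autoImplicit false

open UpperHalfPlane MeasureTheory Metric ModularGroup CongruenceSubgroup Filter
open scoped MatrixGroups ENNReal Modular Topology NNReal ComplexConjugate

namespace Pool.Agent.H75.SE

open Pool.Agent.H369R2 Pool.Agent.N799.DT Pool.Agent.N799.DT.OrthAux

noncomputable section

/-- the matrix of `z ↦ - y / z` -/
def invM (y : ℝ) (hy : 0 < y) : SL(2, ℝ) :=
  ⟨!![0, -√y; (√y)⁻¹, 0], by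
    have : √y ≠ 0 := (Real.sqrt_pos.2 hy).ne'
    simp [Matrix.det_fin_two, this]⟩

lemma coe_invM (y : ℝ) (hy : 0 < y) (z : ℍ) : ((invM y hy • z : ℍ) : ℂ) = -(y : ℂ) / z := by
  have h : (√y : ℂ) ≠ 0 := by exact_mod_cast (Real.sqrt_pos.2 hy).ne'
  have h2 : (√y : ℂ) * √y = y := by exact_mod_cast Real.mul_self_sqrt hy.le
  rw [coe_specialLinearGroup_apply]
  have e00 : (invM y hy) 0 0 = 0 := rfl
  have e01 : (invM y hy) 0 1 = -√y := rfl
  have e10 : (invM y hy) 1 0 = (√y)⁻¹ := rfl
  have e11 : (invM y hy) 1 1 = 0 := rfl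
  have hz : (z : ℂ) ≠ 0 := z.ne_zero
  simp only [e00, e01, e10, e11, Algebra.algebraMap_self, RingHom.id_apply,
    Complex.ofReal_zero, zero_mul, zero_add, add_zero, Complex.ofReal_neg, Complex.ofReal_inv]
  rw [← h2]
  field_simp

/-- two points can be exchanged by an isometry -/
lemma exists_swap (z w : ℍ) : ∃ g : SL(2, ℝ), g • z = w ∧ g • w = z := by
  obtain ⟨g, h1, h2, -⟩ := exists_align z w
  set y := (g • z).im with hy
  have hy0 : 0 < y := (g • z).im_pos
  have hz : ((g • z : ℍ) : ℂ) = y * Complex.I := by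
    apply Complex.ext
    · rw [coe_re, h2]; simp
    · rw [coe_im]; simp [hy]
  have e1 : invM y hy0 • (g • z) = I := by
    ext
    rw [coe_invM, hz, coe_I]
    have : (y : ℂ) ≠ 0 := by exact_mod_cast hy0.ne'
    field_simp
    rw [Complex.I_sq]
  have e2 : invM y hy0 • (I : ℍ) = g • z := by
    ext
    rw [coe_invM, hz, coe_I]
    field_simp
    rw [Complex.I_sq]
    ring
  refine ⟨g⁻¹ * invM y hy0 * g, ?_, ?_⟩
  · rw [mul_smul, mul_smul, e1, ← h1, inv_smul_smul]
  · rw [mul_smul, mul_smul, h1, e2, inv_smul_smul]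

/-- the volume of the intersection of two balls is symmetric -/
lemma vol_inter_comm (z w : ℍ) (R₁ R₂ : ℝ) :
    volume (closedBall z R₁ ∩ closedBall w R₂) = volume (closedBall z R₂ ∩ closedBall w R₁) := by
  obtain ⟨g, h1, h2⟩ := exists_swap z w
  have hm : MeasurableSet (closedBall z R₂ ∩ closedBall w R₁ : Set ℍ) :=
    isClosed_closedBall.measurableSet.inter isClosed_closedBall.measurableSet
  rw [← (mp_real g).measure_preimage hm.nullMeasurableSet]
  congr 1
  ext v
  simp only [Set.mem_inter_iff, Set.mem_preimage, mem_closedBall]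
  have e1 : dist (g • v) z = dist v w := by
    conv_lhs => rw [← h2]
    exact dist_smul g v w
  have e2 : dist (g • v) w = dist v z := by
    conv_lhs => rw [← h1]
    exact dist_smul g v z
  rw [e1, e2]
  tauto

lemma int_int {R₁ R₂ : ℝ} {f : ℍ → ℂ} (hf : Continuous f) (z : ℍ) :
    ∫ v in closedBall z R₁, ∫ w in closedBall v R₂, f w =
      ∫ w, (volume (closedBall z R₁ ∩ closedBall w R₂)).toReal • f w := by
  set S : Set (ℍ × ℍ) := {p | dist p.1 z ≤ R₁ ∧ dist p.2 p.1 ≤ R₂} with hS
  have c1 : Continuous fun p : ℍ × ℍ => dist p.1 z := continuous_fst.dist continuous_const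
  have c2 : Continuous fun p : ℍ × ℍ => dist p.2 p.1 := continuous_snd.dist continuous_fst
  have hSc : IsClosed S :=
    (isClosed_le c1 continuous_const).inter (isClosed_le c2 continuous_const)
  have hScomp : IsCompact S := by
    refine IsCompact.of_isClosed_subset
      ((isCompact_closedBall z R₁).prod (isCompact_closedBall z (R₁ + R₂))) hSc ?_
    rintro ⟨v, w⟩ ⟨h1, h2⟩
    refine ⟨h1, ?_⟩
    have := dist_triangle w v z
    simp only [mem_closedBall] at h1 h2 ⊢
    linarith
  have hint : Integrable (S.indicator fun p : ℍ × ℍ => f p.2)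
      ((volume : Measure ℍ).prod (volume : Measure ℍ)) := by
    rw [integrable_indicator_iff hSc.measurableSet]
    exact (hf.comp continuous_snd).continuousOn.integrableOn_compact hScomp
  have h1 : ∫ v in closedBall z R₁, ∫ w in closedBall v R₂, f w =
      ∫ v, ∫ w, S.indicator (fun p : ℍ × ℍ => f p.2) (v, w) := by
    rw [← integral_indicator isClosed_closedBall.measurableSet]
    congr 1
    ext v
    by_cases hv : v ∈ closedBall z R₁
    · rw [Set.indicator_of_mem hv, ← integral_indicator isClosed_closedBall.measurableSet]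
      congr 1
      ext w
      by_cases hw : w ∈ closedBall v R₂
      · rw [Set.indicator_of_mem hw, Set.indicator_of_mem (show (v, w) ∈ S from ⟨hv, hw⟩)]
      · rw [Set.indicator_of_notMem hw, Set.indicator_of_notMem fun h => hw h.2]
    · rw [Set.indicator_of_notMem hv]
      have : ∀ w, S.indicator (fun p : ℍ × ℍ => f p.2) (v, w) = 0 := fun w =>
        Set.indicator_of_notMem (fun h => hv h.1) _
      simp only [this, integral_zero]
  have hsw := integral_integral_swap (f := fun v w => S.indicator (fun p : ℍ × ℍ => f p.2) (v, w))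
    hint
  rw [h1, hsw]
  congr 1
  ext w
  have h2 : ∀ v, S.indicator (fun p : ℍ × ℍ => f p.2) (v, w) =
      (closedBall z R₁ ∩ closedBall w R₂).indicator (fun _ => f w) v := by
    intro v
    by_cases hv : (v, w) ∈ S
    · rw [Set.indicator_of_mem hv, Set.indicator_of_mem]
      refine ⟨hv.1, ?_⟩
      rw [mem_closedBall, dist_comm]
      exact hv.2
    · rw [Set.indicator_of_notMem hv, Set.indicator_of_notMem]
      rintro ⟨h3, h4⟩
      rw [mem_closedBall, dist_comm] at h4
      exact hv ⟨h3, h4⟩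
  simp only [h2]
  rw [integral_indicator (isClosed_closedBall.measurableSet.inter isClosed_closedBall.measurableSet),
    setIntegral_const]
  rfl

/-- the averaging operators commute -/
theorem Av_comm {R₁ R₂ : ℝ} {f : ℍ → ℂ} (hf : Continuous f) (z : ℍ) :
    Av R₁ (Av R₂ f) z = Av R₂ (Av R₁ f) z := by
  unfold Av
  rw [integral_smul, integral_smul, int_int hf, int_int hf, smul_comm]
  congr 3
  ext w
  rw [vol_inter_comm]

lemma LA_comm {N : ℕ} {R₁ R₂ : ℝ} (h₁ : 0 < R₁) (h₂ : 0 < R₂) (u : LW N) :
    LA N R₁ h₁ (LA N R₂ h₂ u) = LA N R₂ h₂ (LA N R₁ h₁ u) := by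
  ext z
  exact Av_comm (LW.cont u) z

end

end Pool.Agent.H75.SE
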