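import Pool.Agent.H75.SE.Comp3
import Pool.Agent.H75.SE.Swap

/-! # Existence of simultaneous eigenfunctions -/

set_option autoImplicit false

open UpperHalfPlane MeasureTheory Metric ModularGroup CongruenceSubgroup Filter
open scoped MatrixGroups ENNReal Modular Topology NNReal ComplexConjugate

namespace Pool.Agent.H75.SE

open Pool.Agent.H369R2 Pool.Agent.N799.DT Pool.Agent.N799.DT.OrthAux

noncomputable section

variable {N : ℕ} [NeZero N]

/-- the eigenspace of an averaging operator -/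
def EL (N : ℕ) [NeZero N] (R : ℝ) (hR : 0 < R) (l : ℝ) : Submodule ℂ (LW N) :=
  LZ N ⊓ Module.End.eigenspace (LA N R hR) (l : ℂ)

lemma mem_EL {R : ℝ} {hR : 0 < R} {l : ℝ} {u : LW N} :
    u ∈ EL N R hR l ↔ u ∈ LZ N ∧ LA N R hR u = (l : ℂ) • u := by
  unfold EL
  rw [Submodule.mem_inf, Module.End.mem_eigenspace_iff]

/-- above the spectral radius in the cusps the eigenspaces are finite dimensional -/
lemma EL_finite {R : ℝ} (hR : 0 < R) {l : ℝ} (hl : rhoE R < ENNReal.ofReal l) :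
    FiniteDimensional ℂ (EL N R hR l) := by
  by_contra hfd
  obtain ⟨c, f, hc, hf, hp⟩ := exists_seq_norm_le_one_le_norm_sub hfd
  have hc0 : 0 < c := by linarith
  set u : ℕ → LW N := fun n => ((c⁻¹ : ℝ) : ℂ) • (f n : LW N) with hu
  have hn : ∀ m n, ‖u m - u n‖ = c⁻¹ * ‖f m - f n‖ := by
    intro m n
    rw [hu]
    simp only
    rw [← smul_sub, norm_smul, Complex.norm_real, Real.norm_of_nonneg (by positivity)]
    rfl
  have hb : ∀ n, ‖u n‖ ≤ 1 := by
    intro n
    rw [hu]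
    simp only
    rw [norm_smul, Complex.norm_real, Real.norm_of_nonneg (by positivity)]
    have h1 : ‖(f n : LW N)‖ ≤ c := hf n
    calc c⁻¹ * ‖(f n : LW N)‖ ≤ c⁻¹ * c := by gcongr
      _ = 1 := inv_mul_cancel₀ hc0.ne'
  have hz : ∀ n, LA N R hR (u n) - (l : ℂ) • u n = 0 := by
    intro n
    have h1 := (mem_EL.1 (f n).2).2
    rw [hu]
    simp only
    rw [map_smul, h1, smul_comm, sub_self]
  have hlim : Tendsto (fun n => ‖LA N R hR (u n) - (l : ℂ) • u n‖) atTop (𝓝 0) := by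
    simp only [hz, norm_zero]
    exact tendsto_const_nhds
  obtain ⟨φ, hφ, hcau⟩ := precompact hR hl u hb hlim
  obtain ⟨n₀, hn₀⟩ := hcau c⁻¹ (by positivity)
  have h1 := hn₀ n₀ le_rfl (n₀ + 1) (Nat.le_succ _)
  simp only at h1
  rw [hn] at h1
  have h2 := hp (hφ.injective.ne (Nat.succ_ne_self n₀).symm)
  have h3 : c⁻¹ * 1 ≤ c⁻¹ * ‖f (φ n₀) - f (φ (n₀ + 1))‖ := by
    have : 0 ≤ c⁻¹ := by positivity
    gcongr
  linarith

/-- an eigenfunction of one averaging operator -/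
lemma exists_eig {R : ℝ} (hR : 0 < R) (hρ : rhoE R ≠ ∞)
    (hne : ∃ u ∈ LZ N, (rhoE R).toReal * ‖u‖ ^ 2 < (inner ℂ (LA N R hR u) u).re) :
    ∃ l : ℝ, rhoE R < ENNReal.ofReal l ∧ EL N R hR l ≠ ⊥ := by
  obtain ⟨l, hl, _, u, hu, hlim⟩ := approx_eig (LA N R hR) (LA_symm hR) (LA_norm_le hR) (LZ N)
    (fun v hv => LA_LZ hR hv) _ ENNReal.toReal_nonneg hne
  have hl0 : 0 < l := lt_of_le_of_lt ENNReal.toReal_nonneg hl
  have hl' : rhoE R < ENNReal.ofReal l := (ENNReal.lt_ofReal_iff_toReal_lt hρ).2 hl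
  obtain ⟨φ, hφ, hcau⟩ := precompact hR hl' u (fun n => (hu n).2.le) hlim
  have hlim' := hlim.comp hφ.tendsto_atTop
  obtain ⟨f, hf⟩ := limit_exists hR hl0.ne' (fun n => u (φ n)) hcau hlim'
  refine ⟨l, hl', ?_⟩
  -- the norm of the limit
  have hnf : ‖f‖ = 1 := by
    have h1 : ∀ n, |1 - ‖f‖| ≤ ‖u (φ n) - f‖ := by
      intro n
      rw [← (hu (φ n)).2]
      exact abs_norm_sub_norm_le _ _
    have h2 : |1 - ‖f‖| ≤ 0 := ge_of_tendsto' hf h1
    have h3 := abs_nonpos_iff.1 h2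
    linarith
  have hfE : f ∈ EL N R hR l := by
    rw [mem_EL]
    constructor
    · rw [mem_LZ]
      have h1 : ∀ n, ‖inner ℂ (one N) f‖ ≤ ‖one N‖ * ‖u (φ n) - f‖ := by
        intro n
        have h2 : inner ℂ (one N) f = inner ℂ (one N) (f - u (φ n)) := by
          rw [inner_sub_right, mem_LZ.1 (hu (φ n)).1, sub_zero]
        rw [h2, norm_sub_rev]
        exact norm_inner_le_norm _ _
      have h3 := hf.const_mul ‖one N‖
      rw [mul_zero] at h3
      exact norm_le_zero_iff.1 (ge_of_tendsto' h3 h1)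
    · have h1 : ∀ n, ‖LA N R hR f - (l : ℂ) • f‖ ≤
          ‖u (φ n) - f‖ + |l| * ‖u (φ n) - f‖ + ‖LA N R hR (u (φ n)) - (l : ℂ) • u (φ n)‖ := by
        intro n
        have e : LA N R hR f - (l : ℂ) • f = LA N R hR (f - u (φ n)) - (l : ℂ) • (f - u (φ n)) +
            (LA N R hR (u (φ n)) - (l : ℂ) • u (φ n)) := by
          rw [map_sub, smul_sub]
          abel
        rw [e]
        refine (norm_add_le _ _).trans ?_
        gcongr
        refine (norm_sub_le _ _).trans ?_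
        rw [norm_smul, Complex.norm_real, Real.norm_eq_abs, norm_sub_rev (u (φ n)) f]
        gcongr
        exact LA_norm_le hR _
      have h3 := (hf.add (hf.const_mul |l|)).add hlim'
      rw [mul_zero, add_zero, add_zero] at h3
      have h4 := ge_of_tendsto' h3 h1
      exact sub_eq_zero.1 (norm_le_zero_iff.1 h4)
  intro hbot
  rw [hbot, Submodule.mem_bot] at hfE
  rw [hfE, norm_zero] at hnf
  norm_num at hnf

/-- a simultaneous eigenfunction of all averaging operators -/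
theorem exists_simul {R : ℝ} (hR : 0 < R) (hρ : rhoE R ≠ ∞)
    (hne : ∃ u ∈ LZ N, (rhoE R).toReal * ‖u‖ ^ 2 < (inner ℂ (LA N R hR u) u).re) :
    ∃ f : LW N, f ∈ LZ N ∧ f ≠ 0 ∧ ∃ μ : ℝ → ℝ,
      (∀ r : ℝ, 0 < r → ∀ z, Av r (f : ℍ → ℂ) z = (μ r : ℂ) * (f : ℍ → ℂ) z) ∧
      rhoE R < ENNReal.ofReal (μ R) := by
  obtain ⟨l, hl, hE⟩ := exists_eig hR hρ hne
  have hfd := EL_finite (N := N) hR hl
  let P : Submodule ℂ (LW N) → Prop := fun W =>
    W ≤ EL N R hR l ∧ W ≠ ⊥ ∧ ∀ (r : ℝ) (hr : 0 < r), ∀ u ∈ W, LA N r hr u ∈ W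
  have hP : ∃ n : ℕ, ∃ W : Submodule ℂ (LW N), P W ∧ Module.finrank ℂ W = n := by
    refine ⟨_, EL N R hR l, ⟨le_rfl, hE, fun r hr u hu => ?_⟩, rfl⟩
    rw [mem_EL] at hu ⊢
    refine ⟨LA_LZ hr hu.1, ?_⟩
    rw [LA_comm hR hr, hu.2, map_smul]
  classical
  obtain ⟨W, ⟨hW1, hW2, hW3⟩, hWn⟩ := Nat.find_spec hP
  have hmin : ∀ W' : Submodule ℂ (LW N), P W' → Module.finrank ℂ W ≤ Module.finrank ℂ W' := by
    intro W' hW'
    rw [hWn]
    exact Nat.find_min' hP ⟨W', hW', rfl⟩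
  have hWfd : FiniteDimensional ℂ W := Submodule.finiteDimensional_of_le hW1
  have hWnt : Nontrivial W := Submodule.nontrivial_iff_ne_bot.2 hW2
  -- every averaging operator is a scalar on `W`
  have hsc : ∀ (r : ℝ) (hr : 0 < r), ∃ c : ℂ, ∀ u ∈ W, LA N r hr u = c • u := by
    intro r hr
    let T : Module.End ℂ W := (LA N r hr).restrict (hW3 r hr)
    obtain ⟨c, hc⟩ := Module.End.exists_eigenvalue T
    obtain ⟨v, hv⟩ := hc.exists_hasEigenvector
    refine ⟨c, ?_⟩
    set W' : Submodule ℂ (LW N) := W ⊓ Module.End.eigenspace (LA N r hr) c with hW'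
    have hvW' : (v : LW N) ∈ W' := by
      rw [hW', Submodule.mem_inf, Module.End.mem_eigenspace_iff]
      refine ⟨v.2, ?_⟩
      have h1 := hv.apply_eq_smul
      have h2 := congrArg (Subtype.val) h1
      exact h2
    have hPW' : P W' := by
      refine ⟨inf_le_left.trans hW1, ?_, fun r' hr' u hu => ?_⟩
      · intro hbot
        rw [hbot, Submodule.mem_bot] at hvW'
        exact hv.2 (Subtype.ext hvW')
      · rw [hW', Submodule.mem_inf, Module.End.mem_eigenspace_iff] at hu ⊢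
        refine ⟨hW3 r' hr' u hu.1, ?_⟩
        rw [LA_comm hr hr', hu.2, map_smul]
    have hle : W' ≤ W := inf_le_left
    have heq : W' = W := Submodule.eq_of_le_of_finrank_le hle (hmin W' hPW')
    intro u hu
    rw [← heq, hW', Submodule.mem_inf, Module.End.mem_eigenspace_iff] at hu
    exact hu.2
  obtain ⟨f, hfW, hf0⟩ := Submodule.exists_mem_ne_zero_of_ne_bot hW2
  have hfL := mem_EL.1 (hW1 hfW)
  -- the eigenvalues are real
  have hreal : ∀ (r : ℝ) (hr : 0 < r), ∃ c : ℝ, LA N r hr f = (c : ℂ) • f := by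
    intro r hr
    obtain ⟨c, hc⟩ := hsc r hr
    have h1 := hc f hfW
    have h2 := LA_symm hr f f
    rw [h1, inner_smul_left, inner_smul_right] at h2
    have h3 : inner ℂ f f ≠ 0 := inner_self_ne_zero.2 hf0
    have h4 := mul_right_cancel₀ h3 h2
    refine ⟨c.re, ?_⟩
    rw [h1]
    congr 1
    exact (Complex.conj_eq_iff_re.1 h4).symm
  let μ : ℝ → ℝ := fun r => if hr : 0 < r then (hreal r hr).choose else 0
  have hμ : ∀ (r : ℝ) (hr : 0 < r), LA N r hr f = (μ r : ℂ) • f := by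
    intro r hr
    have h1 : μ r = (hreal r hr).choose := dif_pos hr
    rw [h1]
    exact (hreal r hr).choose_spec
  refine ⟨f, hfL.1, hf0, μ, fun r hr z => ?_, ?_⟩
  · have h1 := congrArg (fun v : LW N => (v : ℍ → ℂ) z) (hμ r hr)
    exact h1
  · have h1 : (μ R : ℂ) • f = (l : ℂ) • f := by rw [← hμ R hR]; exact hfL.2
    have h2 : (μ R : ℂ) = l := smul_left_injective ℂ hf0 h1
    have h3 : μ R = l := by exact_mod_cast h2
    rw [h3]
    exact hl

end

end Pool.Agent.H75.SE
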