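import Pool.Agent.H75.SE.KRes

/-! # Sums over residue classes -/

set_option autoImplicit false

open UpperHalfPlane MeasureTheory Metric Filter Set ModularGroup CongruenceSubgroup
open scoped MatrixGroups ENNReal Modular Topology NNReal ComplexConjugate

namespace Pool.Agent.H75.SE

open Pool.Agent.H369R2 Pool.Agent.N799.DT Pool.Agent.N799.DT.OrthAux

noncomputable section

variable {N : ℕ} {t : ℝ}

lemma mm_frob (A : SL(2, ℤ)) : mm A =
    √((A 0 0 : ℝ) ^ 2 + (A 0 1 : ℝ) ^ 2 + (A 1 0 : ℝ) ^ 2 + (A 1 1 : ℝ) ^ 2 + 2) := by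
  unfold mm
  congr 1
  have hdet := Matrix.SpecialLinearGroup.det_coe A
  rw [Matrix.det_fin_two] at hdet
  have h : ((A 0 0 : ℤ) : ℝ) * (A 1 1 : ℤ) - ((A 0 1 : ℤ) : ℝ) * (A 1 0 : ℤ) = 1 := by
    exact_mod_cast hdet
  linear_combination 2 * h

lemma cong_iff (A B : SL(2, ℤ)) :
    (∀ i j, ((A i j : ℤ) : ZMod N) = ((B i j : ℤ) : ZMod N)) ↔ B⁻¹ * A ∈ Gamma N := by
  have h1 : (∀ i j, ((A i j : ℤ) : ZMod N) = ((B i j : ℤ) : ZMod N)) ↔
      Matrix.SpecialLinearGroup.map (Int.castRingHom (ZMod N)) A =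
        Matrix.SpecialLinearGroup.map (Int.castRingHom (ZMod N)) B := by
    constructor
    · intro h
      ext i j
      exact h i j
    · intro h i j
      have := congrArg (fun M : Matrix.SpecialLinearGroup (Fin 2) (ZMod N) => M i j) h
      exact this
  rw [h1, Gamma_mem', map_mul, map_inv, inv_mul_eq_one]
  exact ⟨fun h => h.symm, fun h => h.symm⟩

/-- the residue class of `B` is a coset -/
def cosetEquiv (N : ℕ) (B : SL(2, ℤ)) :
    Gamma N ≃ {A : SL(2, ℤ) // ∀ i j, ((A i j : ℤ) : ZMod N) = ((B i j : ℤ) : ZMod N)} where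
  toFun γ := ⟨B * γ, by rw [cong_iff, inv_mul_cancel_left]; exact γ.2⟩
  invFun A := ⟨B⁻¹ * A, (cong_iff _ _).1 A.2⟩
  left_inv γ := by ext1; simp
  right_inv A := by ext1; simp

lemma tsum_class {F : SL(2, ℤ) → ℝ} (B : SL(2, ℤ)) :
    ∑' A : {A : SL(2, ℤ) // ∀ i j, ((A i j : ℤ) : ZMod N) = ((B i j : ℤ) : ZMod N)}, F A =
      ∑' γ : Gamma N, F (B * γ) :=
  ((cosetEquiv N B).tsum_eq fun A => F A).symm

lemma dt_two {T : ℝ} (A : SL(2, ℤ)) : dt 2 (1 / T) A = Real.exp (-(mm A / T)) / mm A := by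
  unfold dt wk
  have := mm_pos A
  rw [show -(1 / T * mm A) = -(mm A / T) by ring]
  field_simp

/-- the two-sided estimate in all residue classes -/
theorem three_final (h : ∀ N : ℕ, [NeZero N] → ∀ t : ℝ, 0 < t → t ≤ 1 → Two N t) :
    ∃ C : ℝ, ∀ (N : ℕ) [NeZero N] (B : SL(2, ℤ)) (T : ℝ), 1 ≤ T →
      |DB N 2 (1 / T) B - 12 * T / idx N| ≤ C * (1 + Real.log T) ^ 2 := by
  refine ⟨αα + 24, fun N _ B T hT => ?_⟩
  have hT0 : 0 < T := by linarith
  set t : ℝ := 1 / T with ht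
  have ht0 : 0 < t := by positivity
  have ht1 : t ≤ 1 := by rw [ht, div_le_one hT0]; exact hT
  have hlog : -Real.log t = Real.log T := by
    rw [ht, one_div, Real.log_inv, neg_neg]
  have hL : 0 ≤ Real.log T := Real.log_nonneg hT
  have h1 := residue (N := N) ht0 B
  have h2 := aa_le (N := N) (h N) ht0 ht1
  rw [hlog] at h2
  have h3 : UU αα (Real.log T) ≤ αα * (1 + Real.log T) ^ 2 := by
    unfold UU
    have := αα_pos
    gcongr
    nlinarith
  have hi := idx_ge (N := N)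
  have hi0 := idx_pos (N := N)
  have h4 : |12 / idx N * (Real.exp (-(2 * t)) * t⁻¹) - 12 * T / idx N| ≤ 24 := by
    have e1 : 12 / idx N * (Real.exp (-(2 * t)) * t⁻¹) - 12 * T / idx N =
        -(12 / idx N * ((1 - Real.exp (-(2 * t))) * T)) := by
      rw [ht]
      field_simp
      ring
    have e2 : 0 ≤ 1 - Real.exp (-(2 * t)) := by
      have : Real.exp (-(2 * t)) ≤ 1 := Real.exp_le_one_iff.2 (by linarith)
      linarith
    have e3 : (1 - Real.exp (-(2 * t))) * T ≤ 2 := by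
      have := Real.add_one_le_exp (-(2 * t))
      calc (1 - Real.exp (-(2 * t))) * T ≤ (2 * t) * T := by
            gcongr
            linarith
        _ = 2 := by rw [ht]; field_simp
    rw [e1, abs_neg, abs_of_nonneg (by positivity)]
    have e4 : 12 / idx N ≤ 12 := div_le_self (by norm_num) hi
    calc 12 / idx N * ((1 - Real.exp (-(2 * t))) * T) ≤ 12 / idx N * 2 := by gcongr
      _ ≤ 12 * 2 := by gcongr
      _ = 24 := by norm_num
  have h5 : (24 : ℝ) ≤ 24 * (1 + Real.log T) ^ 2 := by nlinarith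
  calc |DB N 2 t B - 12 * T / idx N| ≤ |DB N 2 t B - 12 / idx N * (Real.exp (-(2 * t)) * t⁻¹)| +
        |12 / idx N * (Real.exp (-(2 * t)) * t⁻¹) - 12 * T / idx N| := abs_sub_le _ _ _
    _ ≤ αα * (1 + Real.log T) ^ 2 + 24 * (1 + Real.log T) ^ 2 := by linarith
    _ = _ := by ring

/-- the weak form of the estimate -/
def Weak (N : ℕ) : Prop :=
  ∀ ε : ℝ, 0 < ε → ∃ᶠ T : ℝ in atTop, DD N 2 (1 / T) ≤ 12 * T / idx N + T ^ ε

lemma DB_one (t : ℝ) : DB N 2 t 1 = DD N 2 t := by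
  unfold DB DD
  simp only [one_mul]

/-- the estimate excludes exceptional eigenfunctions which do not vanish at `i` -/
lemma weak_contra [NeZero N] (h : Weak N) {u : LW N} {ν : ℝ} (hν : 0 < ν) (hν' : ν ≤ 1 / 2)
    (hmv : ∀ R : ℝ, 0 < R → ∀ z, Av R (u : ℍ → ℂ) z = (lam ν R : ℂ) * (u : ℍ → ℂ) z)
    (hI : (u : ℍ → ℂ) I = 1) (h0 : inner ℂ (one N) u = 0) : False := by
  obtain ⟨c, hc, hlow⟩ := bessel_low hν.le hν' hmv hI h0
  have hi := idx_ge (N := N)
  have hi0 := idx_pos (N := N)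
  -- large `T`
  have hev : ∀ᶠ T : ℝ in atTop, 1 ≤ T ∧ 25 / c < T ^ ν :=
    (eventually_ge_atTop 1).and ((tendsto_rpow_atTop hν).eventually_gt_atTop (25 / c))
  obtain ⟨T, h1, hT, hTν⟩ := ((h ν hν).and_eventually hev).exists
  have hT0 : 0 < T := by linarith
  have hTν1 : 1 ≤ T ^ ν := Real.one_le_rpow hT hν.le
  have h2 := hlow (1 / T) (by positivity) (by rw [div_le_one hT0]; exact hT)
  have h3 : (1 / T) ^ (-(2 * ν)) = T ^ ν * T ^ ν := by
    rw [one_div, Real.inv_rpow hT0.le, Real.rpow_neg hT0.le, inv_inv, ← Real.rpow_add hT0]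
    congr 1
    ring
  rw [h3] at h2
  unfold aa at h2
  have h4 : 12 * T / idx N - 12 / idx N * (Real.exp (-(2 * (1 / T))) * (1 / T)⁻¹) ≤ 24 := by
    have e1 : 12 * T / idx N - 12 / idx N * (Real.exp (-(2 * (1 / T))) * (1 / T)⁻¹) =
        12 / idx N * ((1 - Real.exp (-(2 * (1 / T)))) * T) := by
      field_simp
    have e3 : (1 - Real.exp (-(2 * (1 / T)))) * T ≤ 2 := by
      have := Real.add_one_le_exp (-(2 * (1 / T)))
      calc (1 - Real.exp (-(2 * (1 / T)))) * T ≤ (2 * (1 / T)) * T := by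
            gcongr
            linarith
        _ = 2 := by field_simp
    rw [e1]
    have e4 : 12 / idx N ≤ 12 := div_le_self (by norm_num) hi
    calc 12 / idx N * ((1 - Real.exp (-(2 * (1 / T)))) * T) ≤ 12 / idx N * 2 := by gcongr
      _ ≤ 12 * 2 := by gcongr
      _ = 24 := by norm_num
  have h5 : c * (T ^ ν * T ^ ν) ≤ 24 + T ^ ν := by linarith
  have h6 : 25 < c * T ^ ν := by rwa [div_lt_iff₀' hc] at hTν
  nlinarith

open Pool.Agent.TH652.Sel Pool.Agent.TH300S in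
/-- the estimates at all levels imply Selberg's conjecture -/
theorem selberg_of_weak (h : ∀ N : ℕ, [NeZero N] → Weak N) : Selberg := by
  intro Γ hΓ f μ hμ0 hμ1 hsm hinv heq hint z
  by_contra hz
  obtain ⟨N, hN, hNΓ⟩ := hΓ
  have hF : (fun z : ℍ => f z) ∈ congspace μ := by
    refine ⟨N, hN, f, ⟨hsm, fun γ hγ z => hinv γ (hNΓ hγ) z, heq, hint⟩, fun z => rfl⟩
  obtain ⟨x, y, hy, hxy⟩ := exists_rat hsm.continuousOn hz
  have hy' : (0 : ℝ) < (y : ℝ) := by exact_mod_cast hy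
  obtain ⟨M, hM, g, ⟨g1, g2, g3, g4⟩, hg⟩ := cong_mv hF hy' ⟨y, rfl⟩ (r := (x : ℝ)) ⟨x, rfl⟩
  have hNZ : NeZero M := ⟨hM.ne'⟩
  set ν : ℝ := √(1 / 4 - μ) with hν
  have hν0 : 0 < ν := Real.sqrt_pos.2 (by linarith)
  have hνsq : ν ^ 2 = 1 / 4 - μ := Real.sq_sqrt (by linarith)
  have hν' : ν < 1 / 2 := by
    rw [hν, Real.sqrt_lt' (by norm_num)]
    linarith
  have hE : IsEigen (Gamma M) ν g := by
    refine ⟨g1, g2, fun z => ?_, g4⟩
    rw [hνsq, g3 z]
    congr 2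
    ring
  set u₀ : LW M := hE.toLW hM le_rfl with hu₀
  have hmem : u₀ ∈ ES M (Gamma M) ν := hE.mem_ES mv_all hM le_rfl
  have hI0 : (u₀ : ℍ → ℂ) I ≠ 0 := by
    have h1 : (u₀ : ℍ → ℂ) I = g (I : ℍ) := rfl
    rw [h1, ← hg]
    simp only [coe_mv]
    have h2 : ((y : ℝ) : ℂ) * ((I : ℍ) : ℂ) + ((x : ℝ) : ℂ) =
        ((x : ℝ) : ℂ) + ((y : ℝ) : ℂ) * Complex.I := by
      rw [add_comm]
      rfl
    rw [h2]
    exact hxy
  set u : LW M := ((u₀ : ℍ → ℂ) I)⁻¹ • u₀ with hu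
  have humem : u ∈ ES M (Gamma M) ν := Submodule.smul_mem _ _ hmem
  have huI : (u : ℍ → ℂ) I = 1 := by
    have : (u : ℍ → ℂ) I = ((u₀ : ℍ → ℂ) I)⁻¹ * (u₀ : ℍ → ℂ) I := rfl
    rw [this, inv_mul_cancel₀ hI0]
  have hone : one M ∈ ES M (Gamma M) (1 / 2) := by
    refine ⟨fun γ hγ z => LW.inv (one M) γ hγ z, fun R hR z => ?_⟩
    have h1 := congrArg (fun v : LW M => (v : ℍ → ℂ) z) (LA_one (N := M) hR)
    simp only [LA_coe] at h1
    rw [lam_half hR]
    simpa using h1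
  have horth : inner ℂ (one M) u = 0 :=
    ES_orth orth lam_ne hM (Gamma M) (by norm_num) hν0 le_rfl hν'.le hν'.ne' hone humem
  exact weak_contra (h M) hν0 hν'.le humem.2 huI horth

/-- the sum of the constant-free inequality -/
lemma tsum_two (ht : 0 < t) :
    ∑' A : Gamma N, Real.exp (-(t * mm A)) *
      ((t ^ 2 * mm A - t) / 4 - t ^ 2 / mm A - t / mm A ^ 2 - 1 / mm A ^ 3) =
    t ^ 2 / 4 * DD N 4 t - t / 4 * DD N 3 t - t ^ 2 * DD N 2 t - t * DD N 1 t - DD N 0 t := by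
  have h (k : ℕ) := (dt_summable (N := N) k ht)
  have e : ∀ A : SL(2, ℤ), Real.exp (-(t * mm A)) *
      ((t ^ 2 * mm A - t) / 4 - t ^ 2 / mm A - t / mm A ^ 2 - 1 / mm A ^ 3) =
      t ^ 2 / 4 * dt 4 t A - t / 4 * dt 3 t A - t ^ 2 * dt 2 t A - t * dt 1 t A - dt 0 t A := by
    intro A
    unfold dt wk
    have := mm_pos A
    field_simp
  simp only [e]
  have s4 := (h 4).mul_left (t ^ 2 / 4)
  have s3 := (h 3).mul_left (t / 4)
  have s2 := (h 2).mul_left (t ^ 2)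
  have s1 := (h 1).mul_left t
  have s0 := h 0
  rw [(((s4.sub s3).sub s2).sub s1).tsum_sub s0, ((s4.sub s3).sub s2).tsum_sub s1,
    (s4.sub s3).tsum_sub s2, s4.tsum_sub s3]
  simp only [tsum_mul_left]
  rfl

/-- logarithms are small -/
lemma log_sq_le {C ε : ℝ} (hε : 0 < ε) : ∀ᶠ T : ℝ in atTop, C * (1 + Real.log T) ^ 2 ≤ T ^ ε := by
  have h1 : (fun T : ℝ => Real.log T) =o[atTop] fun T => T ^ (ε / 4) := isLittleO_log_rpow_atTop (by positivity)
  have h2 := h1.def (show (0 : ℝ) < 1 by norm_num)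
  have h3 := (tendsto_rpow_atTop (show 0 < ε / 2 by positivity)).eventually_ge_atTop (4 * |C|)
  filter_upwards [h2, h3, eventually_ge_atTop 1] with T h4 h5 h6
  have hT0 : 0 < T := by linarith
  have hL : 0 ≤ Real.log T := Real.log_nonneg h6
  rw [Real.norm_of_nonneg hL, one_mul, Real.norm_of_nonneg (Real.rpow_nonneg hT0.le _)] at h4
  have h7 : 1 ≤ T ^ (ε / 4) := Real.one_le_rpow h6 (by positivity)
  have h8 : (1 + Real.log T) ^ 2 ≤ 4 * T ^ (ε / 2) := by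
    have e1 : T ^ (ε / 2) = T ^ (ε / 4) * T ^ (ε / 4) := by
      rw [← Real.rpow_add hT0]
      congr 1
      ring
    rw [e1]
    nlinarith
  have h9 : T ^ ε = T ^ (ε / 2) * T ^ (ε / 2) := by
    rw [← Real.rpow_add hT0]
    congr 1
    ring
  have h10 : 0 < T ^ (ε / 2) := Real.rpow_pos_of_pos hT0 _
  calc C * (1 + Real.log T) ^ 2 ≤ |C| * (1 + Real.log T) ^ 2 := by
        have := le_abs_self C
        gcongr
    _ ≤ |C| * (4 * T ^ (ε / 2)) := by gcongr
    _ = (4 * |C|) * T ^ (ε / 2) := by ring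
    _ ≤ T ^ (ε / 2) * T ^ (ε / 2) := by gcongr
    _ = T ^ ε := h9.symm

end

end Pool.Agent.H75.SE
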