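import Pool.Agent.H75.SE.GenMean
import Pool.Graph.R_pool_sql_team_seeded_63374d34.N799.DT.Lam

/-!
# The mean value inequality for eigenfunctions with eigenvalue `≥ 1/4`
-/

set_option autoImplicit false

open UpperHalfPlane MeasureTheory Metric Set Filter
open scoped MatrixGroups ENNReal Modular Topology NNReal ComplexConjugate ContDiff

namespace Pool.Agent.H75.SE

open Pool.Agent.H369R2 Pool.Agent.N799.DT Pool.Agent.N799.DT.CirAux Pool.Agent.N799.DT.Mv

noncomputable section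

lemma ode_zero {m : ℝ} {H H₁ : ℝ → ℂ} (h1 : ∀ u : ℝ, u < 0 → HasDerivAt H (H₁ u) u)
    (h2 : ∀ u : ℝ, u < 0 → HasDerivAt H₁ (-((m / Real.sinh u ^ 2 : ℝ) : ℂ) * H u) u)
    {a : ℝ} (hHa : H a = 0) (hH₁a : H₁ a = 0) {b : ℝ} (hb : b < 0) (hab : a ≤ b) : H b = 0 := by
  have key := eq_zero_of_abs_deriv_le_mul_abs_self_of_eq_zero_right
    (f := fun u => (H u, H₁ u))
    (f' := fun u => (H₁ u, -((m / Real.sinh u ^ 2 : ℝ) : ℂ) * H u))
    (K := 1 + |m| / Real.sinh b ^ 2) (a := a) (b := b) ?_ ?_ (by simp [hHa, hH₁a]) ?_ b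
      ⟨hab, le_rfl⟩
  · exact congrArg Prod.fst key
  · intro u hu
    have hu0 : u < 0 := lt_of_le_of_lt hu.2 hb
    exact ((h1 u hu0).continuousAt.prodMk (h2 u hu0).continuousAt).continuousWithinAt
  · intro u hu
    have hu0 : u < 0 := lt_trans hu.2 hb
    exact ((h1 u hu0).prodMk (h2 u hu0)).hasDerivWithinAt
  · intro u hu
    have hu0 : u < 0 := lt_trans hu.2 hb
    have hs : Real.sinh b ^ 2 ≤ Real.sinh u ^ 2 := by
      have h3 : Real.sinh u ≤ Real.sinh b := Real.sinh_le_sinh.2 hu.2.le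
      have h4 : Real.sinh b < 0 := Real.sinh_neg_iff.2 hb
      nlinarith
    have hsb : 0 < Real.sinh b ^ 2 := by
      have h4 : Real.sinh b < 0 := Real.sinh_neg_iff.2 hb
      nlinarith
    have hq : ‖(-((m / Real.sinh u ^ 2 : ℝ) : ℂ))‖ ≤ |m| / Real.sinh b ^ 2 := by
      rw [norm_neg, Complex.norm_real, Real.norm_eq_abs, abs_div,
        abs_of_pos (lt_of_lt_of_le hsb hs)]
      gcongr
    have hn1 : ‖H u‖ ≤ ‖(H u, H₁ u)‖ := norm_fst_le (H u, H₁ u)
    have hn2 : ‖H₁ u‖ ≤ ‖(H u, H₁ u)‖ := norm_snd_le (H u, H₁ u)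
    have hn0 : 0 ≤ ‖(H u, H₁ u)‖ := norm_nonneg _
    have hq0 : 0 ≤ |m| / Real.sinh b ^ 2 := by positivity
    rw [Prod.norm_mk]
    apply max_le
    · nlinarith [mul_nonneg hq0 hn0]
    · rw [norm_mul]
      calc ‖(-((m / Real.sinh u ^ 2 : ℝ) : ℂ))‖ * ‖H u‖
          ≤ |m| / Real.sinh b ^ 2 * ‖(H u, H₁ u)‖ := by gcongr
        _ ≤ (1 + |m| / Real.sinh b ^ 2) * ‖(H u, H₁ u)‖ := by nlinarith

/-- a function with vanishing derivative on a left half line -/
theorem const_left {W : ℝ → ℂ} {b : ℝ} (hW : ∀ u : ℝ, u < b → HasDerivAt W 0 u) {c : ℂ}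
    (hlim : Filter.Tendsto W Filter.atBot (𝓝 c)) : ∀ u : ℝ, u < b → W u = c := by
  intro u hu
  have h1 : ∀ v : ℝ, v < b → W v = W u := by
    intro v hv
    refine isOpen_Iio.is_const_of_deriv_eq_zero (isPreconnected_Iio (a := b))
      (fun x hx => (hW x hx).differentiableAt.differentiableWithinAt) (fun x hx => (hW x hx).deriv) hv hu
  have h2 : Filter.Tendsto W Filter.atBot (𝓝 (W u)) := by
    refine tendsto_const_nhds.congr' ?_
    filter_upwards [Filter.eventually_lt_atBot b] with v hv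
    exact (h1 v hv).symm
  exact tendsto_nhds_unique h2 hlim

/-- circle means of two eigenfunctions with the same eigenvalue -/
theorem circleM {m : ℝ} {f g : ℂ → ℂ} (hf : LapM m f) (hg : LapM m g) (z : ℍ) (hgz : g z ≠ 0)
    (ζ : ℂ) (hζ : ‖ζ‖ < 1) :
    (∫ θ in (0 : ℝ)..(2 * Real.pi), f (dc z (Complex.exp (θ * Complex.I) * ζ))) * g z =
      (∫ θ in (0 : ℝ)..(2 * Real.pi), g (dc z (Complex.exp (θ * Complex.I) * ζ))) * f z := by
  obtain ⟨G, G₁, hG, hG', hG₁', hGl, hG₁l⟩ := meanM hf z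
  obtain ⟨K, K₁, hK, hK', hK₁', hKl, hK₁l⟩ := meanM hg z
  by_cases h0 : ζ = 0
  · subst h0
    have h1 : dc z 0 = z := by simp [dc]
    simp only [mul_zero, h1, intervalIntegral.integral_const, sub_zero]
    simp only [Complex.real_smul]
    ring
  have hu : Real.log ‖ζ‖ < 0 := Real.log_neg (norm_pos_iff.2 h0) hζ
  rw [shift z h0, shift z h0, ← hG _ hu, ← hK _ hu]
  have hW : ∀ u : ℝ, u < 0 → G u * K₁ u - G₁ u * K u = 0 := by
    refine const_neg (W := fun u => G u * K₁ u - G₁ u * K u) (fun u hu => ?_) ?_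
    · have := ((hG' u hu).mul (hK₁' u hu)).sub ((hG₁' u hu).mul (hK' u hu))
      convert! this using 1
      ring
    · have := (hGl.mul hK₁l).sub (hG₁l.mul hKl)
      simpa using this
  have hpi' : (2 * Real.pi : ℂ) ≠ 0 := by simp [Real.pi_ne_zero]
  have hKne : ∀ᶠ u in atBot, K u ≠ 0 :=
    hKl.eventually_ne (mul_ne_zero hpi' hgz)
  obtain ⟨b, hb⟩ := eventually_atBot.1 (hKne.and (eventually_lt_atBot (0 : ℝ)))
  have hQ : ∀ u : ℝ, u < b → G u / K u = (2 * Real.pi * f z) / (2 * Real.pi * g z) := by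
    refine const_left (W := fun u => G u / K u) (fun u hu => ?_) ?_
    · have hu0 : u < 0 := (hb u hu.le).2
      have := (hG' u hu0).div (hK' u hu0) (hb u hu.le).1
      convert! this using 1
      have h2 := hW u hu0
      have h3 : G₁ u * K u - G u * K₁ u = 0 := by linear_combination -h2
      rw [h3, zero_div]
    · refine hGl.div hKl ?_
      simp [hgz, Real.pi_ne_zero]
  set H : ℝ → ℂ := fun u => G u * g z - K u * f z with hH
  set H₁ : ℝ → ℂ := fun u => G₁ u * g z - K₁ u * f z with hH₁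
  have hpi : (2 * Real.pi * g z : ℂ) ≠ 0 := mul_ne_zero hpi' hgz
  have hH0 : ∀ u : ℝ, u < b → H u = 0 := by
    intro u hu
    have h3 := hQ u hu
    rw [div_eq_div_iff (hb u hu.le).1 hpi] at h3
    refine mul_left_cancel₀ hpi' ?_
    rw [hH, mul_zero]
    simp only
    linear_combination h3
  have hd : ∀ u : ℝ, u < 0 → HasDerivAt H (H₁ u) u := fun u hu =>
    ((hG' u hu).mul_const _).sub ((hK' u hu).mul_const _)
  have hd1 : ∀ u : ℝ, u < 0 → HasDerivAt H₁ (-((m / Real.sinh u ^ 2 : ℝ) : ℂ) * H u) u := by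
    intro u hu
    have := ((hG₁' u hu).mul_const (g z)).sub ((hK₁' u hu).mul_const (f z))
    convert! this using 1
    rw [hH]
    ring
  have hH₁0 : ∀ u : ℝ, u < b → H₁ u = 0 := by
    intro u hu
    have hu0 : u < 0 := (hb u hu.le).2
    have h3 : H =ᶠ[𝓝 u] fun _ => 0 := by
      filter_upwards [Iio_mem_nhds hu] with v hv using hH0 v hv
    exact (hd u hu0).unique ((hasDerivAt_const u (0 : ℂ)).congr_of_eventuallyEq h3)
  have hfin : ∀ u : ℝ, u < 0 → H u = 0 := by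
    intro u hu
    rcases lt_or_ge u b with h | h
    · exact hH0 u h
    · exact ode_zero hd hd1 (a := b - 1) (hH0 _ (by linarith)) (hH₁0 _ (by linarith)) hu
        (by linarith)
  have := hfin _ hu
  rw [hH] at this
  simp only at this
  linear_combination this

theorem lapM_cont {m : ℝ} {f : ℂ → ℂ} (hf : LapM m f) : Continuous fun w : ℍ => f w := by
  have h := hf.smooth.continuousOn
  exact h.comp_continuous continuous_coe fun w => w.im_pos

/-- ball means of two eigenfunctions with the same eigenvalue -/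
theorem ballM {m : ℝ} {f g : ℂ → ℂ} (hf : LapM m f) (hg : LapM m g) (z : ℍ) (hgz : g z ≠ 0)
    (R : ℝ) : Av R (fun w : ℍ => f w) z * g z = Av R (fun w : ℍ => g w) z * f z := by
  have hc := fun w : ℍ => circleM hf hg z hgz (zt z w) (norm_zt_lt z w)
  have hrot : ∀ (F : ℂ → ℂ) (w : ℍ), (∫ φ in (0 : ℝ)..(2 * Real.pi),
      F ((rot z (-(φ / 2)) • w : ℍ) : ℂ)) =
      ∫ φ in (0 : ℝ)..(2 * Real.pi), F (dc z (Complex.exp (φ * Complex.I) * zt z w)) := by
    intro F w
    congr 1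
    funext φ
    rw [rot_smul]
    rfl
  have s1 := swap z R (fun w : ℍ => f w) (lapM_cont hf)
  have s2 := swap z R (fun w : ℍ => g w) (lapM_cont hg)
  simp only [hrot] at s1 s2
  have hpi : (2 * Real.pi : ℂ) ≠ 0 := by
    exact_mod_cast (by positivity : (2 * Real.pi : ℝ) ≠ 0)
  have key : (∫ w in closedBall z R, f w) * g z = (∫ w in closedBall z R, g w) * f z := by
    have h1 : ((2 * Real.pi : ℂ) * ∫ w in closedBall z R, f w) * g z =
        ((2 * Real.pi : ℂ) * ∫ w in closedBall z R, g w) * f z := by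
      rw [s1, s2, ← integral_mul_const, ← integral_mul_const]
      congr 1
      funext w
      exact hc w
    refine mul_left_cancel₀ hpi ?_
    rw [← mul_assoc, ← mul_assoc]
    exact h1
  unfold Av
  rw [smul_mul_assoc, key, smul_mul_assoc]

/-- the powers of the imaginary part -/
def gs (s : ℂ) (w : ℂ) : ℂ := Complex.exp (s * (Real.log w.im : ℂ))

lemma gs_lap (r : ℝ) : LapM (1 / 4 + r ^ 2) (gs (1 / 2 + r * Complex.I)) where
  smooth := by
    have h1 : ContDiffOn ℝ (⊤ : ℕ∞) (fun w : ℂ => w.im) {w : ℂ | 0 < w.im} :=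
      Complex.imCLM.contDiff.contDiffOn
    have h2 : ContDiffOn ℝ (⊤ : ℕ∞) (fun w : ℂ => Real.log w.im) {w : ℂ | 0 < w.im} :=
      h1.log fun w hw => (ne_of_gt hw)
    have h3 : ContDiffOn ℝ (⊤ : ℕ∞) (fun w : ℂ => ((Real.log w.im : ℝ) : ℂ)) {w : ℂ | 0 < w.im} :=
      Complex.ofRealCLM.contDiff.comp_contDiffOn h2
    exact (contDiffOn_const.mul h3).cexp
  eq z := by
    set s : ℂ := 1 / 2 + r * Complex.I with hs
    have hz := z.im_pos
    have e1 : ∀ x : ℝ, deriv (fun t : ℝ => gs s ((t : ℂ) + (z.im : ℂ) * Complex.I)) x = 0 := by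
      intro x
      have : (fun t : ℝ => gs s ((t : ℂ) + (z.im : ℂ) * Complex.I)) =
          fun _ => Complex.exp (s * (Real.log z.im : ℂ)) := by
        funext t
        simp [gs]
      rw [this, deriv_const]
    have e2 : (fun t : ℝ => gs s ((z.re : ℂ) + (t : ℂ) * Complex.I)) =
        fun t : ℝ => Complex.exp (s * (Real.log t : ℂ)) := by
      funext t
      simp [gs]
    have hlog : ∀ t : ℝ, 0 < t → HasDerivAt (fun t : ℝ => (Real.log t : ℂ)) ((t⁻¹ : ℝ) : ℂ) t :=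
      fun t ht => (Real.hasDerivAt_log ht.ne').ofReal_comp
    have e3 : ∀ t : ℝ, 0 < t → HasDerivAt (fun t : ℝ => Complex.exp (s * (Real.log t : ℂ)))
        (Complex.exp (s * (Real.log t : ℂ)) * (s * ((t⁻¹ : ℝ) : ℂ))) t :=
      fun t ht => ((hlog t ht).const_mul s).cexp
    have hinv : HasDerivAt (fun t : ℝ => ((t⁻¹ : ℝ) : ℂ)) ((-(z.im ^ 2)⁻¹ : ℝ) : ℂ) z.im :=
      (hasDerivAt_inv hz.ne').ofReal_comp
    have e4 : deriv (fun x : ℝ => deriv (fun t : ℝ => Complex.exp (s * (Real.log t : ℂ))) x) z.im =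
        Complex.exp (s * (Real.log z.im : ℂ)) * (s * ((z.im⁻¹ : ℝ) : ℂ)) * (s * ((z.im⁻¹ : ℝ) : ℂ)) +
        Complex.exp (s * (Real.log z.im : ℂ)) * (s * ((-(z.im ^ 2)⁻¹ : ℝ) : ℂ)) := by
      have h : (fun x : ℝ => deriv (fun t : ℝ => Complex.exp (s * (Real.log t : ℂ))) x) =ᶠ[𝓝 z.im]
          fun x => Complex.exp (s * (Real.log x : ℂ)) * (s * ((x⁻¹ : ℝ) : ℂ)) := by
        filter_upwards [lt_mem_nhds hz] with x hx using (e3 x hx).deriv
      rw [h.deriv_eq]
      exact ((e3 z.im hz).mul (hinv.const_mul s)).deriv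
    have e5 : gs s (z : ℂ) = Complex.exp (s * (Real.log z.im : ℂ)) := rfl
    simp only [e1, e2, e4, e5, deriv_const, zero_add]
    have hzc : (z.im : ℂ) ≠ 0 := by exact_mod_cast hz.ne'
    have hs2 : s * (1 - s) = ((1 / 4 + r ^ 2 : ℝ) : ℂ) := by
      rw [hs]
      push_cast
      linear_combination (-(r : ℂ) ^ 2) * Complex.I_sq
    rw [← hs2]
    push_cast
    field_simp
    ring

lemma gs_ne (s w : ℂ) : gs s w ≠ 0 := Complex.exp_ne_zero _

lemma norm_gs (s : ℂ) (w : ℍ) : ‖gs s w‖ = w.im ^ s.re := by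
  unfold gs
  rw [Complex.norm_exp, Real.rpow_def_of_pos w.im_pos, mul_comm (Real.log w.im)]
  congr 1
  simp

/-- the mean value inequality -/
theorem mvM_le {m : ℝ} (hm : 1 / 4 ≤ m) {f : ℂ → ℂ} (hf : LapM m f) {R : ℝ} (hR : 0 < R) (z : ℍ) :
    ‖Av R (fun w : ℍ => f w) z‖ ≤ lam 0 R * ‖f z‖ := by
  set r : ℝ := √(m - 1 / 4) with hr
  have hr2 : 1 / 4 + r ^ 2 = m := by
    rw [hr, Real.sq_sqrt (by linarith)]
    ring
  set s : ℂ := 1 / 2 + r * Complex.I with hs
  have hg : LapM m (gs s) := by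
    rw [← hr2]
    exact gs_lap r
  have hres : s.re = 1 / 2 := by simp [hs]
  have key := ballM hf hg z (gs_ne s z) R
  have hbv := bv_pos hR
  have hgz : ‖Av R (fun w : ℍ => gs s w) z‖ ≤ lam 0 R * ‖gs s z‖ := by
    have h1 : Av R (fun w : ℍ => gs s w) z =
        (bv R)⁻¹ • ∫ w in closedBall (I : ℍ) R, gs s ((aff z • w : ℍ) : ℂ) := by
      unfold Av
      rw [aff_int z R fun w : ℍ => gs s w]
    rw [h1, norm_smul, Real.norm_of_nonneg (by positivity)]
    have h2 : ‖∫ w in closedBall (I : ℍ) R, gs s ((aff z • w : ℍ) : ℂ)‖ ≤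
        ∫ w in closedBall (I : ℍ) R, z.im ^ (1 / 2 : ℝ) * w.im ^ (1 / 2 : ℝ) := by
      refine (norm_integral_le_integral_norm _).trans (le_of_eq ?_)
      congr 1
      funext w
      rw [norm_gs, hres, im_aff, Real.mul_rpow z.im_pos.le w.im_pos.le]
    rw [integral_const_mul] at h2
    rw [norm_gs, hres]
    unfold lam
    rw [add_zero]
    calc (bv R)⁻¹ * ‖∫ w in closedBall (I : ℍ) R, gs s ((aff z • w : ℍ) : ℂ)‖
        ≤ (bv R)⁻¹ * (z.im ^ (1 / 2 : ℝ) * ∫ w in closedBall (I : ℍ) R, w.im ^ (1 / 2 : ℝ)) := by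
          gcongr
      _ = _ := by ring
  have h3 : ‖gs s z‖ ≠ 0 := norm_ne_zero_iff.2 (gs_ne s z)
  have h4 : 0 < ‖gs s z‖ := norm_pos_iff.2 (gs_ne s z)
  have h5 := congrArg norm key
  rw [norm_mul, norm_mul] at h5
  have h6 : ‖Av R (fun w : ℍ => f w) z‖ * ‖gs s z‖ ≤ (lam 0 R * ‖f z‖) * ‖gs s z‖ := by
    rw [h5]
    calc ‖Av R (fun w : ℍ => gs s w) z‖ * ‖f z‖ ≤ (lam 0 R * ‖gs s z‖) * ‖f z‖ := by gcongr
      _ = _ := by ring
  exact le_of_mul_le_mul_right h6 h4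

/-- the spectral radius in the cusps -/
lemma rhoE_eq {R : ℝ} (hR : 0 < R) : rhoE R = ENNReal.ofReal (lam 0 R) := by
  unfold rhoE Ap lam
  rw [ENNReal.ofReal_mul (by have := bv_pos hR; positivity), ENNReal.ofReal_inv_of_pos (bv_pos hR)]
  congr 1
  rw [Lam.ofReal_int]
  apply lintegral_congr
  intro w
  unfold PP
  rw [one_smul, add_zero, Real.sqrt_eq_rpow]

end

end Pool.Agent.H75.SE
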