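import Pool.Agent.H75.SE.Rad
import Mathlib.Analysis.Calculus.ContDiff.Convolution

/-! # Eigenfunctions of all ball averages are smooth -/

set_option autoImplicit false

open UpperHalfPlane MeasureTheory Metric Filter Set
open scoped MatrixGroups ENNReal Modular Topology NNReal ComplexConjugate

namespace Pool.Agent.H75.SE

open Pool.Agent.H369R2 Pool.Agent.N799.DT

noncomputable section

/-- reciprocal of `cosh` of the distance -/
def vk (p w : ℂ) : ℝ := 2 * p.im * w.im / ((p.re - w.re) ^ 2 + p.im ^ 2 + w.im ^ 2)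

lemma vk_eq (z w : ℍ) : vk z w = 1 / Real.cosh (dist w z) := by
  have hz := z.im_pos
  have hw := w.im_pos
  rw [dist_comm, UpperHalfPlane.cosh_dist, Complex.dist_eq, Complex.sq_norm, Complex.normSq_apply]
  unfold vk
  simp only [Complex.sub_re, Complex.sub_im, coe_re, coe_im]
  have h1 : (z.re - w.re) ^ 2 + z.im ^ 2 + w.im ^ 2 ≠ 0 := by positivity
  have h2 : 2 * z.im * w.im ≠ 0 := by positivity
  have h3 : 1 + ((z.re - w.re) * (z.re - w.re) + (z.im - w.im) * (z.im - w.im)) /
      (2 * z.im * w.im) = ((z.re - w.re) ^ 2 + z.im ^ 2 + w.im ^ 2) / (2 * z.im * w.im) := by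
    field_simp
    ring
  rw [h3, one_div_div]

lemma vk_smooth (n : ℕ∞) :
    ContDiffOn ℝ n (fun q : ℂ × ℂ => vk q.1 (q.1 - q.2)) ({p : ℂ | 0 < p.im} ×ˢ univ) := by
  unfold vk
  have hre : ContDiff ℝ n Complex.re := Complex.reCLM.contDiff
  have him : ContDiff ℝ n Complex.im := Complex.imCLM.contDiff
  have a1 : ContDiff ℝ n (fun q : ℂ × ℂ => q.1.im) := him.comp contDiff_fst
  have a2 : ContDiff ℝ n (fun q : ℂ × ℂ => (q.1 - q.2).im) :=
    him.comp (contDiff_fst.sub contDiff_snd)
  have a3 : ContDiff ℝ n (fun q : ℂ × ℂ => q.1.re - (q.1 - q.2).re) :=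
    (hre.comp contDiff_fst).sub (hre.comp (contDiff_fst.sub contDiff_snd))
  have b1 : ContDiff ℝ n (fun q : ℂ × ℂ => 2 * q.1.im * (q.1 - q.2).im) :=
    (contDiff_const.mul a1).mul a2
  have b2 : ContDiff ℝ n (fun q : ℂ × ℂ => (q.1.re - (q.1 - q.2).re) ^ 2 + q.1.im ^ 2 +
      (q.1 - q.2).im ^ 2) := ((a3.pow 2).add (a1.pow 2)).add (a2.pow 2)
  refine b1.contDiffOn.div b2.contDiffOn ?_
  rintro ⟨p, x⟩ ⟨hp, _⟩
  have hp' : 0 < p.im := hp
  simp only
  positivity

lemma pos_of_mul_pos_of_pos_left' {a b : ℝ} (h : 0 < a * b) (ha : 0 < a) : 0 < b := by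
  by_contra hb
  rw [not_lt] at hb
  nlinarith

/-- if `vk p w` is not small then `w` is near `p` -/
lemma vk_near {C : ℝ} (hC : 1 < C) {p w : ℂ} (hp : 0 < p.im) (h : 1 / C < vk p w) :
    p.im / (2 * C) < w.im ∧ ‖p - w‖ ≤ 2 * C * p.im := by
  have hC0 : 0 < C := by linarith
  set D := (p.re - w.re) ^ 2 + p.im ^ 2 + w.im ^ 2 with hD
  have hD0 : 0 < D := by positivity
  have h1 : D < 2 * C * p.im * w.im := by
    unfold vk at h
    rw [← hD, div_lt_div_iff₀ hC0 hD0] at h
    linarith
  have hw : 0 < w.im := by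
    have h2 : 0 < 2 * C * p.im * w.im := lt_trans hD0 h1
    have h3 : 0 < 2 * C * p.im := by positivity
    exact pos_of_mul_pos_of_pos_left' h2 h3
  have h4 : p.im ^ 2 < 2 * C * p.im * w.im := by nlinarith [sq_nonneg (p.re - w.re), sq_nonneg w.im]
  have h5 : w.im ^ 2 < 2 * C * p.im * w.im := by nlinarith [sq_nonneg (p.re - w.re), sq_nonneg p.im]
  have h6 : p.im < 2 * C * w.im := by
    have : p.im * p.im < p.im * (2 * C * w.im) := by nlinarith
    exact lt_of_mul_lt_mul_left this hp.le
  have h7 : w.im < 2 * C * p.im := by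
    have : w.im * w.im < w.im * (2 * C * p.im) := by nlinarith
    exact lt_of_mul_lt_mul_left this hw.le
  refine ⟨?_, ?_⟩
  · rw [div_lt_iff₀ (by positivity)]
    linarith
  · apply le_of_sq_le_sq _ (by positivity)
    rw [Complex.sq_norm, Complex.normSq_apply]
    simp only [Complex.sub_re, Complex.sub_im]
    have h8 : 2 * C * p.im * w.im ≤ (2 * C * p.im) ^ 2 := by
      have : 0 < 2 * C * p.im := by positivity
      nlinarith
    nlinarith [mul_pos hp hw]

lemma contOn_ofComplex {f : ℍ → ℂ} (hf : Continuous f) :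
    ContinuousOn (fun w : ℂ => f (ofComplex w)) {w : ℂ | 0 < w.im} := by
  intro w hw
  have h1 : ContinuousAt (fun w : ℂ => f (ofComplex w)) ((⟨w, hw⟩ : ℍ) : ℂ) := by
    rw [← isOpenEmbedding_coe.continuousAt_iff]
    have : ((fun w : ℂ => f (ofComplex w)) ∘ UpperHalfPlane.coe) = f := by
      funext z
      simp
    rw [this]
    exact hf.continuousAt
  exact h1.continuousWithinAt

theorem smooth_of_eig {f : ℍ → ℂ} (hf : Continuous f) (hne : ∃ z, f z ≠ 0) {μ : ℝ → ℝ}
    (h : ∀ r : ℝ, 0 < r → ∀ z, Av r f z = (μ r : ℂ) * f z) :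
    ContDiffOn ℝ (⊤ : ℕ∞) (fun w : ℂ => f (ofComplex w)) {w : ℂ | 0 < w.im} := by
  obtain ⟨z₁, hz₁⟩ := hne
  obtain ⟨r₀, hr₀, hrad⟩ := exists_radial hf hz₁
  have hri := fun z => radial_int (kr_smooth r₀) hr₀ (fun ρ hρ => kr_zero hr₀ hρ) hf h z
  set c : ℂ := ((∫ ρ in Ioc 0 r₀, -(deriv (kr r₀) ρ) * (bv ρ * μ ρ) : ℝ) : ℂ) with hc
  have hc0 : c ≠ 0 := by
    intro h0
    apply hrad
    rw [hri, h0, zero_mul]
  set C := Real.cosh r₀ with hCd
  have hC : 1 < C := one_lt_cosh' hr₀
  have hUo : IsOpen {w : ℂ | 0 < w.im} := isOpen_lt continuous_const Complex.continuous_im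
  intro p₀ hp₀
  have hy0 : 0 < p₀.im := hp₀
  set y₀ := p₀.im with hy₀
  set η := y₀ / (4 * C) with hη
  have hη0 : 0 < η := by positivity
  set s : Set ℂ := {p | y₀ / 2 < p.im ∧ p.im < 2 * y₀} with hs
  have hso : IsOpen s :=
    (isOpen_lt continuous_const Complex.continuous_im).inter
      (isOpen_lt Complex.continuous_im continuous_const)
  have hp₀s : p₀ ∈ s := ⟨by linarith, by linarith⟩
  set A : Set ℂ := {w | η ≤ w.im} with hA
  have hAm : MeasurableSet A := measurableSet_le measurable_const Complex.measurable_im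
  set G : ℂ → ℂ := fun w => (1 / w.im ^ 2 : ℝ) • f (ofComplex w) with hG
  have hG1 : ContinuousOn (fun w : ℂ => (1 / w.im ^ 2 : ℝ)) {w : ℂ | 0 < w.im} := by
    refine continuousOn_const.div (Complex.continuous_im.continuousOn.pow 2) fun w hw => ?_
    have : 0 < w.im := hw
    positivity
  have hGc : ContinuousOn G {w : ℂ | 0 < w.im} := hG1.smul (contOn_ofComplex hf)
  have hloc : LocallyIntegrable (A.indicator G) volume := by
    rw [locallyIntegrable_iff]
    intro K hK
    rw [IntegrableOn, integrable_indicator_iff hAm, IntegrableOn, Measure.restrict_restrict hAm]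
    have hcl : IsClosed A := isClosed_le continuous_const Complex.continuous_im
    have h1 : IsCompact (A ∩ K) := hK.inter_left hcl
    refine (hGc.mono ?_).integrableOn_compact h1
    rintro w ⟨hw, _⟩
    exact lt_of_lt_of_le hη0 hw
  let g : ℂ → ℂ → ℝ := fun p x => kb r₀ (vk p (p - x))
  have hg : ContDiffOn ℝ (⊤ : ℕ∞) (↿g) (s ×ˢ univ) := by
    have h1 : ContDiffOn ℝ (⊤ : ℕ∞) (fun q : ℂ × ℂ => vk q.1 (q.1 - q.2)) (s ×ˢ univ) := by
      refine (vk_smooth ⊤).mono (prod_mono ?_ le_rfl)
      intro p hp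
      have : y₀ / 2 < p.im := hp.1
      show 0 < p.im
      linarith
    exact (kb_smooth r₀ ⊤).comp_contDiffOn h1
  have hgs : ∀ p, ∀ x, p ∈ s → x ∉ closedBall (0 : ℂ) (4 * C * y₀) → g p x = 0 := by
    intro p x hp hx
    have hp0 : 0 < p.im := by have := hp.1; linarith
    apply kb_zero hr₀
    by_contra hlt
    rw [not_le] at hlt
    have h1 := (vk_near hC hp0 hlt).2
    rw [sub_sub_cancel] at h1
    apply hx
    rw [mem_closedBall, dist_zero_right]
    have h2 := hp.2
    have : 2 * C * p.im ≤ 4 * C * y₀ := by nlinarith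
    linarith
  let L : ℂ →L[ℝ] ℝ →L[ℝ] ℂ := (ContinuousLinearMap.lsmul ℝ ℝ).flip
  have hconv := contDiffOn_convolution_right_with_param_comp (μ := (volume : Measure ℂ)) L
    (v := fun p : ℂ => p) contDiffOn_id hso (isCompact_closedBall (0 : ℂ) (4 * C * y₀)) hgs hloc hg
  have heq : ∀ p ∈ s, f (ofComplex p) =
      c⁻¹ * (convolution (A.indicator G) (g p) L volume) p := by
    intro p hp
    have hp0 : 0 < p.im := by have := hp.1; linarith
    set z : ℍ := ⟨p, hp0⟩ with hz
    have hzp : (z : ℂ) = p := rfl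
    have hoz : ofComplex p = z := by rw [← hzp, ofComplex_apply]
    have h1 := hri z
    have h2 : ∀ w : ℍ, (kr r₀ (dist w z) : ℂ) * f w =
        (fun w : ℂ => (kb r₀ (vk p w) : ℂ) * f (ofComplex w)) w := by
      intro w
      simp only [ofComplex_apply]
      unfold kr
      rw [← vk_eq, hzp]
    have h3 : ∫ w : ℍ, (kr r₀ (dist w z) : ℂ) * f w =
        ∫ w in {w : ℂ | 0 < w.im}, (1 / w.im ^ 2 : ℝ) • ((kb r₀ (vk p w) : ℂ) * f (ofComplex w)) := by
      simp only [h2]
      exact int_H (fun w : ℂ => (kb r₀ (vk p w) : ℂ) * f (ofComplex w))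
    have h4 : (convolution (A.indicator G) (g p) L volume) p = c * f z := by
      rw [← h1, h3, ← integral_indicator hUo.measurableSet]
      unfold convolution
      congr 1
      ext t
      have e1 : L (A.indicator G t) (g p (p - t)) = (kb r₀ (vk p t)) • A.indicator G t := by
        show (kb r₀ (vk p (p - (p - t)))) • A.indicator G t = _
        rw [sub_sub_cancel]
      rw [e1]
      by_cases ht : t ∈ A
      · have htU : t ∈ {w : ℂ | 0 < w.im} := lt_of_lt_of_le hη0 ht
        rw [indicator_of_mem ht, indicator_of_mem htU]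
        simp only [hG, Complex.real_smul]
        ring
      · rw [indicator_of_notMem ht, smul_zero]
        by_cases htU : t ∈ {w : ℂ | 0 < w.im}
        · rw [indicator_of_mem htU]
          have h5 : kb r₀ (vk p t) = 0 := by
            apply kb_zero hr₀
            by_contra hlt
            rw [not_le] at hlt
            have h6 := (vk_near hC hp0 hlt).1
            apply ht
            show η ≤ t.im
            have h7 : η < p.im / (2 * C) := by
              rw [hη, div_lt_div_iff₀ (by positivity) (by positivity)]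
              have := hp.1
              nlinarith
            linarith
          rw [h5]
          simp
        · rw [indicator_of_notMem htU]
    rw [h4, hoz, ← mul_assoc, inv_mul_cancel₀ hc0, one_mul]
  have hfin : ContDiffOn ℝ (⊤ : ℕ∞) (fun w : ℂ => f (ofComplex w)) s :=
    (contDiffOn_const.mul hconv).congr heq
  exact (hfin.contDiffAt (hso.mem_nhds hp₀s)).contDiffWithinAt

end

end Pool.Agent.H75.SE
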