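import Pool.Agent.H75.SE.Av
import Pool.Graph.R_pool_sql_team_seeded_63374d34.N799.DT.Main

/-! # The Laplacian as a limit of ball averages -/

set_option autoImplicit false

open UpperHalfPlane MeasureTheory Metric Filter Set
open scoped MatrixGroups ENNReal Modular Topology NNReal ComplexConjugate

namespace Pool.Agent.H75.SE

open Pool.Agent.H369R2 Pool.Agent.N799.DT Pool.Agent.N799.DT.OrthAux

noncomputable section

/-- second order Taylor formula -/
lemma taylor2 {F : ℂ → ℂ} {z : ℂ} (hF : ContDiffAt ℝ 2 F z) {ε : ℝ} (hε : 0 < ε) :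
    ∃ δ : ℝ, 0 < δ ∧ ∀ ζ : ℂ, ‖ζ‖ < δ →
      ‖F (z + ζ) - F z - fderiv ℝ F z ζ - (1 / 2 : ℝ) • fderiv ℝ (fderiv ℝ F) z ζ ζ‖ ≤
        ε * ‖ζ‖ ^ 2 := by
  have h1 : ∀ᶠ w in 𝓝 z, DifferentiableAt ℝ F w := by
    have h2 := hF.eventually (by simp)
    filter_upwards [h2] with w hw
    exact hw.differentiableAt (by norm_num)
  have hD : HasFDerivAt (fderiv ℝ F) (fderiv ℝ (fderiv ℝ F) z) z := by
    have h3 : ContDiffAt ℝ 1 (fderiv ℝ F) z := hF.fderiv_right (by norm_num)
    exact (h3.differentiableAt (by norm_num)).hasFDerivAt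
  have h4 := (hasFDerivAt_iff_isLittleO.1 hD).def hε
  obtain ⟨δ, hδ, h5⟩ := Metric.eventually_nhds_iff.1 (h1.and h4)
  refine ⟨δ, hδ, fun ζ hζ => ?_⟩
  set B := fderiv ℝ (fderiv ℝ F) z with hB
  set D := fderiv ℝ F z with hDd
  have hcurve : ∀ t : ℝ, HasDerivAt (fun t : ℝ => z + t • ζ) ζ t := by
    intro t
    simpa using ((hasDerivAt_id t).smul_const ζ).const_add z
  have hnear : ∀ t ∈ Icc (0 : ℝ) 1, dist (z + t • ζ) z < δ := by
    intro t ht
    rw [dist_eq_norm, add_sub_cancel_left, norm_smul, Real.norm_of_nonneg ht.1]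
    calc t * ‖ζ‖ ≤ 1 * ‖ζ‖ := by gcongr; exact ht.2
      _ < δ := by rw [one_mul]; exact hζ
  have hder : ∀ t ∈ Icc (0 : ℝ) 1, HasDerivWithinAt
      (fun t : ℝ => F (z + t • ζ) - t • D ζ - (t ^ 2 / 2 : ℝ) • B ζ ζ)
      (fderiv ℝ F (z + t • ζ) ζ - D ζ - t • B ζ ζ) (Icc 0 1) t := by
    intro t ht
    have e1 : HasDerivAt (fun t : ℝ => F (z + t • ζ)) (fderiv ℝ F (z + t • ζ) ζ) t :=
      (h5 (hnear t ht)).1.hasFDerivAt.comp_hasDerivAt t (hcurve t)
    have e2 : HasDerivAt (fun t : ℝ => t • D ζ) (D ζ) t := by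
      simpa using (hasDerivAt_id t).smul_const (D ζ)
    have e3 : HasDerivAt (fun t : ℝ => (t ^ 2 / 2 : ℝ) • B ζ ζ) (t • B ζ ζ) t := by
      have e4 : HasDerivAt (fun t : ℝ => (t ^ 2 / 2 : ℝ)) t t := by
        have := ((hasDerivAt_id t).pow 2).div_const 2
        simpa using this
      exact e4.smul_const _
    exact ((e1.sub e2).sub e3).hasDerivWithinAt
  have hbound : ∀ t ∈ Ico (0 : ℝ) 1,
      ‖fderiv ℝ F (z + t • ζ) ζ - D ζ - t • B ζ ζ‖ ≤ ε * ‖ζ‖ ^ 2 := by
    intro t ht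
    have h6 := (h5 (hnear t ⟨ht.1, ht.2.le⟩)).2
    rw [add_sub_cancel_left] at h6
    have e : fderiv ℝ F (z + t • ζ) ζ - D ζ - t • B ζ ζ =
        (fderiv ℝ F (z + t • ζ) - D - B (t • ζ)) ζ := by
      simp only [map_smul]
      rfl
    rw [e]
    calc ‖(fderiv ℝ F (z + t • ζ) - D - B (t • ζ)) ζ‖
        ≤ ‖fderiv ℝ F (z + t • ζ) - D - B (t • ζ)‖ * ‖ζ‖ := ContinuousLinearMap.le_opNorm _ _
      _ ≤ (ε * ‖t • ζ‖) * ‖ζ‖ := by gcongr
      _ ≤ (ε * (1 * ‖ζ‖)) * ‖ζ‖ := by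
          rw [norm_smul, Real.norm_of_nonneg ht.1]
          gcongr
          exact ht.2.le
      _ = ε * ‖ζ‖ ^ 2 := by ring
  have hmain := norm_image_sub_le_of_norm_deriv_le_segment_01' hder hbound
  have e0 : F (z + ζ) - F z - D ζ - (1 / 2 : ℝ) • B ζ ζ =
      (F (z + (1 : ℝ) • ζ) - (1 : ℝ) • D ζ - ((1 : ℝ) ^ 2 / 2 : ℝ) • B ζ ζ) -
        (F (z + (0 : ℝ) • ζ) - (0 : ℝ) • D ζ - ((0 : ℝ) ^ 2 / 2 : ℝ) • B ζ ζ) := by
    simp only [one_smul, zero_smul, add_zero, one_pow, sub_zero, ne_eq, OfNat.ofNat_ne_zero,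
      not_false_eq_true, zero_pow, zero_div]
    abel
  rw [e0]
  exact hmain

/-! ### moments -/

lemma lap_const (c : ℂ) : Lap (1 / 2) (fun _ => c) where
  smooth := contDiffOn_const
  eq z := by simp; left; norm_num

lemma lap_id : Lap (1 / 2) (fun w => w) where
  smooth := contDiffOn_id
  eq z := by
    have e1 : ∀ s : ℝ, deriv (fun t : ℝ => (t : ℂ) + (z.im : ℂ) * Complex.I) s = 1 := fun s =>
      ((Complex.ofRealCLM.hasDerivAt (x := s)).add_const _).deriv
    have e2 : ∀ s : ℝ, deriv (fun t : ℝ => (z.re : ℂ) + (t : ℂ) * Complex.I) s = Complex.I := by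
      intro s
      have h1 := ((Complex.ofRealCLM.hasDerivAt (x := s)).mul_const Complex.I).const_add (z.re : ℂ)
      simpa using h1.deriv
    simp only [e1, e2, deriv_const]
    norm_num

lemma lap_sq : Lap (1 / 2) (fun w => w ^ 2) where
  smooth := contDiff_id.pow 2 |>.contDiffOn
  eq z := by
    have h1 : ∀ s : ℝ, HasDerivAt (fun t : ℝ => (t : ℂ) + (z.im : ℂ) * Complex.I) 1 s := fun s =>
      (Complex.ofRealCLM.hasDerivAt (x := s)).add_const _
    have h2 : ∀ s : ℝ, HasDerivAt (fun t : ℝ => (z.re : ℂ) + (t : ℂ) * Complex.I) Complex.I s := by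
      intro s
      have h1 := ((Complex.ofRealCLM.hasDerivAt (x := s)).mul_const Complex.I).const_add (z.re : ℂ)
      simpa using h1
    have e1 : (fun s : ℝ => deriv (fun t : ℝ => ((t : ℂ) + (z.im : ℂ) * Complex.I) ^ 2) s) =
        fun s : ℝ => 2 * ((s : ℂ) + (z.im : ℂ) * Complex.I) := by
      funext s
      have := ((h1 s).fun_pow 2).deriv
      simpa using this
    have e2 : (fun s : ℝ => deriv (fun t : ℝ => ((z.re : ℂ) + (t : ℂ) * Complex.I) ^ 2) s) =
        fun s : ℝ => 2 * Complex.I * ((z.re : ℂ) + (s : ℂ) * Complex.I) := by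
      funext s
      have := ((h2 s).fun_pow 2).deriv
      simp only [Nat.cast_ofNat, Nat.add_one_sub_one, pow_one] at this
      rw [this]
      ring
    rw [e1, e2, ((h1 z.re).const_mul 2).deriv, ((h2 z.im).const_mul (2 * Complex.I)).deriv]
    norm_num
    right
    linear_combination (2 : ℂ) * Complex.I_mul_I

lemma lam_half {r : ℝ} (hr : 0 < r) : lam (1 / 2) r = 1 := by
  have h := mv_all (1 / 2) (fun _ => 1) (lap_const 1) I r hr
  rw [Av_const hr, mul_one] at h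
  exact_mod_cast h.symm

/-- the second moment of a small ball -/
def m1 (r : ℝ) : ℝ := lam (3 / 2) r - 1

lemma Av_im_sq (r : ℝ) : Av r (fun w : ℍ => w.im ^ 2) I = lam (3 / 2) r := by
  unfold Av lam
  rw [smul_eq_mul]
  have : ∀ w : ℍ, w.im ^ (1 / 2 + 3 / 2 : ℝ) = w.im ^ 2 := fun w => by
    rw [show (1 / 2 + 3 / 2 : ℝ) = (2 : ℕ) by norm_num, Real.rpow_natCast]
  simp only [this]

lemma Av_re {r : ℝ} (hr : 0 < r) : Av r (fun w : ℍ => w.re) I = 0 := by
  have h := mv_all (1 / 2) (fun w => w) lap_id I r hr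
  rw [lam_half hr] at h
  have h1 := congrArg Complex.re h
  rw [re_Av' continuous_coe] at h1
  simpa using h1

lemma Av_im {r : ℝ} (hr : 0 < r) : Av r (fun w : ℍ => w.im) I = 1 := by
  have h := mv_all (1 / 2) (fun w => w) lap_id I r hr
  rw [lam_half hr] at h
  have h1 := congrArg Complex.im h
  rw [im_Av' continuous_coe] at h1
  simpa using h1

lemma Av_re_im {r : ℝ} (hr : 0 < r) : Av r (fun w : ℍ => w.re * w.im) I = 0 := by
  have h := mv_all (1 / 2) (fun w => w ^ 2) lap_sq I r hr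
  rw [lam_half hr] at h
  have h1 := congrArg Complex.im h
  have hc : Continuous fun w : ℍ => (w : ℂ) ^ 2 := continuous_coe.pow 2
  rw [im_Av' hc] at h1
  have e : ∀ w : ℍ, ((w : ℂ) ^ 2).im = 2 * (w.re * w.im) := fun w => by
    rw [sq, Complex.mul_im, coe_re, coe_im]; ring
  simp only [e] at h1
  have h2 : Av r (fun w : ℍ => 2 * (w.re * w.im)) I = 2 * Av r (fun w : ℍ => w.re * w.im) I := by
    unfold Av
    rw [integral_const_mul, smul_eq_mul, smul_eq_mul]
    ring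
  rw [h2] at h1
  simp at h1
  linarith

lemma Av_re_sq {r : ℝ} (hr : 0 < r) : Av r (fun w : ℍ => w.re ^ 2) I = m1 r := by
  have h := mv_all (1 / 2) (fun w => w ^ 2) lap_sq I r hr
  rw [lam_half hr] at h
  have h1 := congrArg Complex.re h
  have hc : Continuous fun w : ℍ => (w : ℂ) ^ 2 := continuous_coe.pow 2
  rw [re_Av' hc] at h1
  have e : ∀ w : ℍ, ((w : ℂ) ^ 2).re = w.re ^ 2 - w.im ^ 2 := fun w => by
    rw [sq, Complex.mul_re, coe_re, coe_im]; ring
  simp only [e] at h1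
  have c3 : Continuous fun w : ℍ => (w.re ^ 2 : ℝ) := continuous_re.pow 2
  have c5 : Continuous fun w : ℍ => (w.im ^ 2 : ℝ) := continuous_im.pow 2
  rw [Av_sub' c3 c5, Av_im_sq] at h1
  simp at h1
  unfold m1
  linarith

/-- the average of a quadratic polynomial -/
lemma Av_quad {r : ℝ} (hr : 0 < r) (D : ℂ →L[ℝ] ℂ) (B : ℂ →L[ℝ] ℂ →L[ℝ] ℂ) (c : ℂ) :
    Av r (fun w : ℍ => c + D ((w : ℂ) - Complex.I) +
      (1 / 2 : ℝ) • B ((w : ℂ) - Complex.I) ((w : ℂ) - Complex.I)) I =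
      c + ((m1 r / 2 : ℝ) : ℂ) * (B 1 1 + B Complex.I Complex.I) := by
  have hw : ∀ w : ℍ, (w : ℂ) - Complex.I = w.re • (1 : ℂ) + (w.im - 1) • Complex.I := by
    intro w
    apply Complex.ext <;> simp
  have e : ∀ w : ℍ, c + D ((w : ℂ) - Complex.I) +
      (1 / 2 : ℝ) • B ((w : ℂ) - Complex.I) ((w : ℂ) - Complex.I) =
      (c - D Complex.I + (1 / 2 : ℂ) * B Complex.I Complex.I) +
      (w.re : ℂ) * (D 1 - (1 / 2 : ℂ) * (B 1 Complex.I + B Complex.I 1)) +
      (w.im : ℂ) * (D Complex.I - B Complex.I Complex.I) +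
      ((w.re ^ 2 : ℝ) : ℂ) * ((1 / 2 : ℂ) * B 1 1) +
      ((w.re * w.im : ℝ) : ℂ) * ((1 / 2 : ℂ) * (B 1 Complex.I + B Complex.I 1)) +
      ((w.im ^ 2 : ℝ) : ℂ) * ((1 / 2 : ℂ) * B Complex.I Complex.I) := by
    intro w
    rw [hw]
    simp only [map_add, map_smul, add_apply, smul_apply, smul_add]
    simp only [Complex.real_smul]
    push_cast
    ring
  simp only [e]
  have key : ∀ (F : ℍ → ℝ) (x : ℂ), Continuous F →
      Av r (fun w : ℍ => (F w : ℂ) * x) I = ((Av r F I : ℝ) : ℂ) * x := by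
    intro F x hF
    unfold Av
    rw [integral_mul_const, integral_complex_ofReal, Complex.real_smul, smul_eq_mul]
    push_cast
    ring
  have c1 : Continuous fun w : ℍ => (w.re : ℝ) := continuous_re
  have c2 : Continuous fun w : ℍ => (w.im : ℝ) := continuous_im
  have c3 : Continuous fun w : ℍ => (w.re ^ 2 : ℝ) := continuous_re.pow 2
  have c4 : Continuous fun w : ℍ => (w.re * w.im : ℝ) := continuous_re.mul continuous_im
  have c5 : Continuous fun w : ℍ => (w.im ^ 2 : ℝ) := continuous_im.pow 2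
  have d : ∀ (F : ℍ → ℝ) (x : ℂ), Continuous F → Continuous fun w : ℍ => (F w : ℂ) * x :=
    fun F x hF => (Complex.continuous_ofReal.comp hF).mul continuous_const
  have key6 : ∀ (x0 x1 x2 x3 x4 x5 : ℂ), Av r (fun w : ℍ => x0 + (w.re : ℂ) * x1 +
      (w.im : ℂ) * x2 + ((w.re ^ 2 : ℝ) : ℂ) * x3 + ((w.re * w.im : ℝ) : ℂ) * x4 +
      ((w.im ^ 2 : ℝ) : ℂ) * x5) I = x0 + x2 + (m1 r : ℂ) * x3 + (m1 r + 1 : ℂ) * x5 := by
    intro x0 x1 x2 x3 x4 x5
    have q1 : Continuous fun w : ℍ => x0 + (w.re : ℂ) * x1 := continuous_const.add (d _ _ c1)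
    have q2 : Continuous fun w : ℍ => x0 + (w.re : ℂ) * x1 + (w.im : ℂ) * x2 := q1.add (d _ _ c2)
    have q3 : Continuous fun w : ℍ => x0 + (w.re : ℂ) * x1 + (w.im : ℂ) * x2 +
      ((w.re ^ 2 : ℝ) : ℂ) * x3 := q2.add (d _ _ c3)
    have q4 : Continuous fun w : ℍ => x0 + (w.re : ℂ) * x1 + (w.im : ℂ) * x2 +
      ((w.re ^ 2 : ℝ) : ℂ) * x3 + ((w.re * w.im : ℝ) : ℂ) * x4 := q3.add (d _ _ c4)
    rw [Av_add q4 (d _ _ c5), Av_add q3 (d _ _ c4), Av_add q2 (d _ _ c3), Av_add q1 (d _ _ c2),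
      Av_add continuous_const (d _ _ c1), Av_const hr, key _ _ c1, key _ _ c2, key _ _ c3,
      key _ _ c4, key _ _ c5, Av_re hr, Av_im hr, Av_re_sq hr, Av_re_im hr, Av_im_sq]
    unfold m1
    push_cast
    ring
  rw [key6]
  push_cast
  ring

/-- the average of the squared distance -/
lemma Av_norm_sq {r : ℝ} (hr : 0 < r) :
    Av r (fun w : ℍ => ‖(w : ℂ) - Complex.I‖ ^ 2) I = 2 * m1 r := by
  have e : ∀ w : ℍ, ‖(w : ℂ) - Complex.I‖ ^ 2 = (w.re ^ 2 + w.im ^ 2) - (2 * w.im - 1) := by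
    intro w
    rw [Complex.sq_norm, Complex.normSq_apply]
    simp
    ring
  simp only [e]
  have c3 : Continuous fun w : ℍ => (w.re ^ 2 : ℝ) := continuous_re.pow 2
  have c5 : Continuous fun w : ℍ => (w.im ^ 2 : ℝ) := continuous_im.pow 2
  have c6 : Continuous fun w : ℍ => (2 * w.im : ℝ) := continuous_const.mul continuous_im
  have c7 : Continuous fun w : ℍ => (w.re ^ 2 + w.im ^ 2 : ℝ) := c3.add c5
  have c8 : Continuous fun w : ℍ => (2 * w.im - 1 : ℝ) := c6.sub continuous_const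
  rw [Av_sub' c7 c8, Av_add c3 c5,
    Av_sub' c6 continuous_const, Av_re_sq hr, Av_im_sq]
  have h2 : Av r (fun w : ℍ => 2 * w.im) I = 2 * Av r (fun w : ℍ => w.im) I := by
    unfold Av
    rw [integral_const_mul, smul_eq_mul, smul_eq_mul]
    ring
  have h3 : Av r (fun _ : ℍ => (1 : ℝ)) I = 1 := by
    unfold Av
    rw [setIntegral_const, Measure.real, vol_eq, ENNReal.toReal_ofReal (bv_nonneg r), ← mul_smul,
      inv_mul_cancel₀ (bv_pos hr).ne', one_smul]
  rw [h2, h3, Av_im hr]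
  unfold m1
  ring

lemma m1_pos {r : ℝ} (hr : 0 < r) : 0 < m1 r := by
  have h1 := Av_norm_sq hr
  have hc : Continuous fun w : ℍ => ‖(w : ℂ) - Complex.I‖ ^ 2 :=
    (continuous_coe.sub continuous_const).norm.pow 2
  have h2 : 0 < ∫ w in closedBall (I : ℍ) r, ‖(w : ℂ) - Complex.I‖ ^ 2 := by
    rw [integral_pos_iff_support_of_nonneg (fun w => by positivity) (intOn hc r I)]
    have hop : IsOpen (ball (I : ℍ) r ∩ {w : ℍ | ‖(w : ℂ) - Complex.I‖ ^ 2 ≠ 0}) :=
      isOpen_ball.inter (isOpen_ne_fun hc continuous_const)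
    rw [Measure.restrict_apply (measurableSet_support hc.measurable)]
    have hne : (ball (I : ℍ) r ∩ {w : ℍ | ‖(w : ℂ) - Complex.I‖ ^ 2 ≠ 0}).Nonempty := by
      by_contra hemp
      rw [not_nonempty_iff_eq_empty] at hemp
      have hsub : ball (I : ℍ) r ⊆ {I} := by
        intro w hw
        by_contra hne
        have : w ∈ ball (I : ℍ) r ∩ {w : ℍ | ‖(w : ℂ) - Complex.I‖ ^ 2 ≠ 0} := by
          refine ⟨hw, ?_⟩
          simp only [ne_eq, mem_setOf_eq]
          rw [pow_eq_zero_iff (by norm_num), norm_eq_zero, sub_eq_zero]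
          intro h
          apply hne
          rw [mem_singleton_iff]
          ext
          rw [h, coe_I]
        rw [hemp] at this
        exact this
      have h3 : 0 < volume (ball (I : ℍ) r) := Metric.measure_ball_pos volume I hr
      have h4 : volume (ball (I : ℍ) r) ≤ volume (sphere (I : ℍ) 0) := by
        apply measure_mono
        intro w hw
        have := hsub hw
        rw [mem_singleton_iff] at this
        rw [this]
        simp
      have h5 : volume (sphere (I : ℍ) 0 : Set ℍ) = 0 := by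
        have h1 : (volume.comap UpperHalfPlane.coe : Measure ℍ) (sphere I 0) = 0 := by
          rw [measurableEmbedding_coe.comap_apply, UpperHalfPlane.image_coe_sphere]
          exact Measure.addHaar_sphere _ _ _
        rw [volume_def]
        exact (withDensity_absolutelyContinuous _ _) h1
      rw [h5] at h4
      exact absurd h4 (not_le.2 h3)
    refine lt_of_lt_of_le (hop.measure_pos volume hne) (measure_mono ?_)
    rintro w ⟨h3, h4⟩
    exact ⟨h4, ball_subset_closedBall h3⟩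
  have h3 : 0 < Av r (fun w : ℍ => ‖(w : ℂ) - Complex.I‖ ^ 2) I := by
    unfold Av
    have := bv_pos hr
    rw [smul_eq_mul]
    positivity
  linarith

/-- the Laplacian as a limit of averages -/
theorem lap_limit {F : ℂ → ℂ} (hF : ContDiffOn ℝ (⊤ : ℕ∞) F {w : ℂ | 0 < w.im}) (z : ℍ) :
    Tendsto (fun r : ℝ => (Av r (fun w : ℍ => F w) z - F z) / (m1 r : ℂ)) (𝓝[>] 0)
      (𝓝 ((z.im : ℂ) ^ 2 / 2 *
        (fderiv ℝ (fderiv ℝ F) z 1 1 + fderiv ℝ (fderiv ℝ F) z Complex.I Complex.I))) := by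
  have hUo : IsOpen {w : ℂ | 0 < w.im} := isOpen_lt continuous_const Complex.continuous_im
  have hF2 : ContDiffAt ℝ 2 F z :=
    (hF.contDiffAt (hUo.mem_nhds z.im_pos)).of_le (by
      have : ((2 : ℕ∞) : WithTop ℕ∞) ≤ ((⊤ : ℕ∞) : WithTop ℕ∞) := WithTop.coe_le_coe.2 le_top
      exact this)
  have hFc : Continuous fun w : ℍ => F w :=
    hF.continuousOn.comp_continuous continuous_coe fun w => w.im_pos
  set y := z.im with hy
  have hy0 : 0 < y := z.im_pos
  set D := fderiv ℝ F z with hD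
  set B := fderiv ℝ (fderiv ℝ F) z with hB
  set ℓ : ℂ := (y : ℂ) ^ 2 / 2 * (B 1 1 + B Complex.I Complex.I) with hℓ
  rw [Metric.tendsto_nhdsWithin_nhds]
  intro ε hε
  obtain ⟨δ, hδ, hT⟩ := taylor2 hF2 (ε := ε / (4 * y ^ 2)) (by positivity)
  obtain ⟨ρ, hρ, hball⟩ := Metric.continuousAt_iff.1 (continuous_coe.continuousAt (x := (I : ℍ)))
    (δ / y) (by positivity)
  refine ⟨ρ, hρ, fun r hr hrρ => ?_⟩
  have hr0 : 0 < r := hr
  rw [Real.dist_eq, sub_zero, abs_of_pos hr0] at hrρ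
  have hm := m1_pos hr0
  have hbv := bv_pos hr0
  -- the quadratic approximation
  set Q : ℍ → ℂ := fun w => F z + (y • D) ((w : ℂ) - Complex.I) +
      (1 / 2 : ℝ) • ((y ^ 2) • B) ((w : ℂ) - Complex.I) ((w : ℂ) - Complex.I) with hQ
  have hQa : Av r Q I = F z + ((m1 r / 2 : ℝ) : ℂ) *
      (((y ^ 2) • B) 1 1 + ((y ^ 2) • B) Complex.I Complex.I) := Av_quad hr0 _ _ _
  have hcoe : ∀ w : ℍ, ((aff z • w : ℍ) : ℂ) = z + y • ((w : ℂ) - Complex.I) := by
    intro w
    rw [coe_aff, Complex.real_smul]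
    apply Complex.ext
    · simp; ring
    · simp; ring
  have hpt : ∀ w ∈ closedBall (I : ℍ) r, ‖F ((aff z • w : ℍ) : ℂ) - Q w‖ ≤
      ε / 4 * ‖(w : ℂ) - Complex.I‖ ^ 2 := by
    intro w hw
    have h1 : dist w I < ρ := lt_of_le_of_lt (mem_closedBall.1 hw) hrρ
    have h2 := hball h1
    rw [dist_eq_norm, coe_I] at h2
    have h3 : ‖y • ((w : ℂ) - Complex.I)‖ < δ := by
      rw [norm_smul, Real.norm_of_nonneg hy0.le]
      rw [lt_div_iff₀ hy0] at h2
      linarith
    have h4 := hT _ h3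
    rw [← hcoe] at h4
    have e : F ((aff z • w : ℍ) : ℂ) - Q w = F ((aff z • w : ℍ) : ℂ) - F z -
        D (y • ((w : ℂ) - Complex.I)) -
        (1 / 2 : ℝ) • B (y • ((w : ℂ) - Complex.I)) (y • ((w : ℂ) - Complex.I)) := by
      rw [hQ]
      simp only [map_smul, smul_apply]
      simp only [Complex.real_smul]
      push_cast
      ring
    rw [e]
    refine h4.trans (le_of_eq ?_)
    rw [norm_smul, Real.norm_of_nonneg hy0.le]
    field_simp
  have hcQ : Continuous Q := by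
    rw [hQ]
    have c0 : Continuous fun w : ℍ => (w : ℂ) - Complex.I := continuous_coe.sub continuous_const
    have c1 : Continuous fun w : ℍ => ((y ^ 2) • B) ((w : ℂ) - Complex.I) ((w : ℂ) - Complex.I) :=
      (((y ^ 2) • B).continuous.comp c0).clm_apply c0
    exact (continuous_const.add ((y • D).continuous.comp c0)).add (c1.const_smul (1 / 2 : ℝ))
  have hcF : Continuous fun w : ℍ => F ((aff z • w : ℍ) : ℂ) :=
    hFc.comp (isometry_smul ℍ (aff z)).continuous
  have hdiff : ‖Av r (fun w : ℍ => F w) z - Av r Q I‖ ≤ ε / 4 * (2 * m1 r) := by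
    rw [Av_eq_aff, ← Av_norm_sq hr0]
    unfold Av
    rw [← smul_sub, ← integral_sub (intOn hcF r I) (intOn hcQ r I), norm_smul,
      Real.norm_of_nonneg (by positivity), smul_eq_mul]
    have hc2 : Continuous fun w : ℍ => ‖(w : ℂ) - Complex.I‖ ^ 2 :=
      (continuous_coe.sub continuous_const).norm.pow 2
    calc (bv r)⁻¹ * ‖∫ w in closedBall (I : ℍ) r, (F ((aff z • w : ℍ) : ℂ) - Q w)‖
        ≤ (bv r)⁻¹ * ∫ w in closedBall (I : ℍ) r, ε / 4 * ‖(w : ℂ) - Complex.I‖ ^ 2 := by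
          gcongr
          refine (norm_integral_le_integral_norm _).trans ?_
          refine setIntegral_mono_on (intOn (hcF.sub hcQ).norm r I)
            (intOn (continuous_const.mul hc2) r I) isClosed_closedBall.measurableSet hpt
      _ = _ := by
          rw [integral_const_mul]
          ring
  have e1 : (Av r (fun w : ℍ => F w) z - F z) / (m1 r : ℂ) - ℓ =
      (Av r (fun w : ℍ => F w) z - Av r Q I) / (m1 r : ℂ) := by
    have hmc : (m1 r : ℂ) ≠ 0 := by exact_mod_cast hm.ne'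
    rw [hQa, hℓ]
    simp only [smul_apply, Complex.real_smul]
    push_cast
    field_simp
    ring
  rw [dist_eq_norm, e1, norm_div, Complex.norm_real, Real.norm_of_nonneg hm.le, div_lt_iff₀ hm]
  nlinarith

end

end Pool.Agent.H75.SE
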