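import Pool.Agent.H75.SE.Exist
import Pool.Agent.H75.SE.GenMv
import Pool.Agent.H75.SE.Contr
import Pool.Agent.H75.SE.Smooth
import Pool.Agent.H75.SE.Tay

/-! # Selberg's conjecture implies a bound for the averaging operators -/

set_option autoImplicit false

open UpperHalfPlane MeasureTheory Metric ModularGroup CongruenceSubgroup Filter Set
open scoped MatrixGroups ENNReal Modular Topology NNReal ComplexConjugate

namespace Pool.Agent.H75.SE

open Pool.Agent.H369R2 Pool.Agent.N799.DT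

noncomputable section

/-- the frozen statement `S18069` -/
def Selberg : Prop :=
  ∀ Γ : Subgroup (Matrix.SpecialLinearGroup (Fin 2) ℤ),
    (∃ N : ℕ, 0 < N ∧ CongruenceSubgroup.Gamma N ≤ Γ) →
    ∀ (f : ℂ → ℂ) (μ : ℝ), 0 < μ → μ < 1 / 4 →
      ContDiffOn ℝ (⊤ : ℕ∞) f {w : ℂ | 0 < w.im} →
      (∀ γ ∈ Γ, ∀ z : UpperHalfPlane,
        f ((γ • z : UpperHalfPlane) : ℂ) = f (z : ℂ)) →
      (∀ z : UpperHalfPlane,
        -((z.im : ℂ) ^ 2) *
          (deriv (fun s : ℝ => deriv (fun t : ℝ =>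
              f ((t : ℂ) + (z.im : ℂ) * Complex.I)) s) z.re
           + deriv (fun s : ℝ => deriv (fun t : ℝ =>
              f ((z.re : ℂ) + (t : ℂ) * Complex.I)) s) z.im)
          = (μ : ℂ) * f (z : ℂ)) →
      (∀ γ : Matrix.SpecialLinearGroup (Fin 2) ℤ,
        MeasureTheory.IntegrableOn (fun w : ℂ => ‖f w‖ ^ 2 / w.im ^ 2)
          ((fun z : UpperHalfPlane => ((γ • z : UpperHalfPlane) : ℂ)) '' ModularGroup.fd)) →
      ∀ z : UpperHalfPlane, f (z : ℂ) = 0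

lemma lap_fderiv {F : ℂ → ℂ} (hF : ContDiffOn ℝ (⊤ : ℕ∞) F {w : ℂ | 0 < w.im}) (z : ℍ) :
    deriv (fun s : ℝ => deriv (fun t : ℝ => F ((t : ℂ) + (z.im : ℂ) * Complex.I)) s) z.re
      + deriv (fun s : ℝ => deriv (fun t : ℝ => F ((z.re : ℂ) + (t : ℂ) * Complex.I)) s) z.im =
    fderiv ℝ (fderiv ℝ F) z 1 1 + fderiv ℝ (fderiv ℝ F) z Complex.I Complex.I := by
  have hz : ((z.re : ℝ) : ℂ) + ((z.im : ℝ) : ℂ) * Complex.I = z := by
    apply Complex.ext <;> simp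
  have hcx := Conf.second F hF (fun t : ℝ => (t : ℂ) + (z.im : ℂ) * Complex.I) (fun _ => 1) 0 z.re
      (by
        refine Filter.Eventually.of_forall fun t => ?_
        show 0 < Complex.im _
        simpa using z.im_pos)
      (by
        refine Filter.Eventually.of_forall fun t => ?_
        exact (Complex.ofRealCLM.hasDerivAt (x := t)).add_const _)
      (hasDerivAt_const _ _)
  have hcy := Conf.second F hF (fun t : ℝ => (z.re : ℂ) + (t : ℂ) * Complex.I)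
      (fun _ => Complex.I) 0 z.im
      (by
        filter_upwards [Ioi_mem_nhds z.im_pos] with t ht
        show 0 < Complex.im _
        simpa using ht)
      (by
        refine Filter.Eventually.of_forall fun t => ?_
        have h1 := ((Complex.ofRealCLM.hasDerivAt (x := t)).mul_const Complex.I).const_add
          (z.re : ℂ)
        simpa using h1)
      (hasDerivAt_const _ _)
  simp only [map_zero, add_zero, hz] at hcx hcy
  rw [hcx, hcy]

lemma lint_fd (u : ℍ → ℝ≥0∞) : ∫⁻ z in 𝒟, u z = ∫⁻ z in 𝒟ᵒ, u z := by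
  have h := S3a.null_bdry
  have hsub := ModularGroup.fdo_subset_fd
  apply setLIntegral_congr
  rw [ae_eq_set]
  exact ⟨h, by rw [diff_eq_empty.2 hsub]; simp⟩

/-- square integrability in the sense of the frozen statement -/
lemma sqint_of_LW {N : ℕ} [NeZero N] (f : LW N) {F : ℂ → ℂ}
    (hF : ContDiffOn ℝ (⊤ : ℕ∞) F {w : ℂ | 0 < w.im}) (hFf : ∀ z : ℍ, F z = (f : ℍ → ℂ) z)
    (γ : SL(2, ℤ)) : IntegrableOn (fun w : ℂ => ‖F w‖ ^ 2 / w.im ^ 2)
      ((fun z : ℍ => ((γ • z : ℍ) : ℂ)) '' ModularGroup.fd) := by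
  have himg : (fun z : ℍ => ((γ • z : ℍ) : ℂ)) '' ModularGroup.fd =
      UpperHalfPlane.coe '' ((fun z : ℍ => γ • z) '' ModularGroup.fd) := by
    rw [image_image]
  have hsubU : (fun z : ℍ => ((γ • z : ℍ) : ℂ)) '' ModularGroup.fd ⊆ {w : ℂ | 0 < w.im} := by
    rintro _ ⟨z, _, rfl⟩
    exact (γ • z).im_pos
  have hUo : IsOpen {w : ℂ | 0 < w.im} := isOpen_lt continuous_const Complex.continuous_im
  refine ⟨?_, ?_⟩
  · have hc : ContinuousOn (fun w : ℂ => ‖F w‖ ^ 2 / w.im ^ 2) {w : ℂ | 0 < w.im} := by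
      refine (hF.continuousOn.norm.pow 2).div (Complex.continuous_im.continuousOn.pow 2) ?_
      intro w hw
      have : 0 < w.im := hw
      positivity
    exact (hc.aestronglyMeasurable hUo.measurableSet).mono_set hsubU
  · rw [hasFiniteIntegral_iff_enorm]
    have h0 : ∀ w : ℂ, ‖‖F w‖ ^ 2 / w.im ^ 2‖ₑ = ENNReal.ofReal (‖F w‖ ^ 2 / w.im ^ 2) := fun w =>
      Real.enorm_of_nonneg (by positivity)
    simp only [h0]
    rw [himg, ← lint_coe (LW.cont f) (fun z => (hFf z).symm)]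
    have h1 := (mp_int γ).setLIntegral_comp_emb (me_int γ) (fun z : ℍ => ‖(f : ℍ → ℂ) z‖ₑ ^ 2) 𝒟
    rw [← h1, lint_fd]
    -- compare with `nu`
    obtain ⟨⟨g, δ⟩, hγ⟩ := (NU2.decomp N).surjective γ
    have hγ' : (δ : SL(2, ℤ)) * g.out = γ := hγ
    have h2 : ∀ z : ℍ, ‖(f : ℍ → ℂ) (γ • z)‖ₑ ^ 2 = ‖(f : ℍ → ℂ) (g.out • z)‖ₑ ^ 2 := by
      intro z
      rw [← hγ', mul_smul, LW.inv f _ δ.2]
    simp only [h2]
    refine lt_of_le_of_lt ?_ (LW.fin f).lt_top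
    rw [NU2.lint_nu]
    exact ENNReal.le_tsum (f := fun g : SL(2, ℤ) ⧸ Gamma N =>
      ∫⁻ z in 𝒟ᵒ, ‖(f : ℍ → ℂ) (g.out • z)‖ₑ ^ 2) g

lemma lam_zero_nonneg (R : ℝ) : 0 ≤ lam 0 R := by
  unfold lam
  have := bv_nonneg R
  have h : 0 ≤ ∫ w in closedBall (I : ℍ) R, w.im ^ (1 / 2 + 0 : ℝ) :=
    integral_nonneg fun w => Real.rpow_nonneg w.im_pos.le _
  positivity

/-- Selberg's conjecture implies the spectral bound for the averaging operators. -/
theorem form_ineq (hS : Selberg) {N : ℕ} [NeZero N] {R : ℝ} (hR : 0 < R) {u : LW N}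
    (hu : u ∈ LZ N) : (inner ℂ (LA N R hR u) u).re ≤ lam 0 R * ‖u‖ ^ 2 := by
  by_contra hcon
  rw [not_le] at hcon
  have hρ := rhoE_eq hR
  have hρt : (rhoE R).toReal = lam 0 R := by
    rw [hρ, ENNReal.toReal_ofReal (lam_zero_nonneg R)]
  obtain ⟨f, hfZ, hf0, μ, hμ, hμR⟩ := exists_simul (N := N) hR (by rw [hρ]; exact ENNReal.ofReal_ne_top)
    ⟨u, hu, by rw [hρt]; exact hcon⟩
  rw [hρ] at hμR
  have hμR' : lam 0 R < μ R := (ENNReal.ofReal_lt_ofReal_iff_of_nonneg (lam_zero_nonneg R)).1 hμR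
  have hfc := LW.cont f
  have hne : ∃ z, (f : ℍ → ℂ) z ≠ 0 := by
    by_contra h
    push Not at h
    exact hf0 (by ext z; exact h z)
  obtain ⟨z₁, hz₁⟩ := hne
  have hF := smooth_of_eig hfc ⟨z₁, hz₁⟩ hμ
  set F : ℂ → ℂ := fun w => (f : ℍ → ℂ) (ofComplex w) with hFd
  have hFf : ∀ z : ℍ, F z = (f : ℍ → ℂ) z := fun z => by rw [hFd]; simp
  have hFf' : (fun w : ℍ => F w) = (f : ℍ → ℂ) := funext hFf
  -- the Laplacian
  set ℓ : ℍ → ℂ := fun z => (z.im : ℂ) ^ 2 / 2 *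
        (fderiv ℝ (fderiv ℝ F) z 1 1 + fderiv ℝ (fderiv ℝ F) z Complex.I Complex.I) with hℓ
  have hlim : ∀ z : ℍ, Tendsto (fun r : ℝ => ((((μ r - 1) / m1 r : ℝ)) : ℂ) * (f : ℍ → ℂ) z)
      (𝓝[>] 0) (𝓝 (ℓ z)) := by
    intro z
    refine (lap_limit hF z).congr' ?_
    filter_upwards [self_mem_nhdsWithin] with r hr
    rw [hFf', hμ r hr z, hFf z]
    push_cast
    ring
  have hquot : Tendsto (fun r : ℝ => ((((μ r - 1) / m1 r : ℝ)) : ℂ)) (𝓝[>] 0)
      (𝓝 (ℓ z₁ / (f : ℍ → ℂ) z₁)) := by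
    have h1 := (hlim z₁).div_const ((f : ℍ → ℂ) z₁)
    refine h1.congr fun r => ?_
    rw [mul_div_assoc, div_self hz₁, mul_one]
  have hre : Tendsto (fun r : ℝ => (μ r - 1) / m1 r) (𝓝[>] 0)
      (𝓝 (ℓ z₁ / (f : ℍ → ℂ) z₁).re) := by
    have h1 := (Complex.continuous_re.tendsto _).comp hquot
    refine h1.congr fun r => ?_
    simp
  set κ : ℝ := (ℓ z₁ / (f : ℍ → ℂ) z₁).re with hκ
  have hlap : ∀ z : ℍ, ℓ z = (κ : ℂ) * (f : ℍ → ℂ) z := by
    intro z
    have h1 : Tendsto (fun r : ℝ => ((((μ r - 1) / m1 r : ℝ)) : ℂ) * (f : ℍ → ℂ) z)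
        (𝓝[>] 0) (𝓝 ((κ : ℂ) * (f : ℍ → ℂ) z)) :=
      ((Complex.continuous_ofReal.tendsto _).comp hre).mul_const _
    exact tendsto_nhds_unique (hlim z) h1
  have hL : LapM (-2 * κ) F := by
    refine ⟨hF, fun z => ?_⟩
    rw [lap_fderiv hF z]
    have h1 := hlap z
    rw [hℓ] at h1
    simp only at h1
    rw [hFf z]
    push_cast
    linear_combination (-2 : ℂ) * h1
  rcases le_or_gt (1 / 4) (-2 * κ) with hm | hm
  · -- eigenvalue at least 1/4
    have h1 := mvM_le hm hL hR z₁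
    rw [hFf', hμ R hR z₁, hFf z₁, norm_mul, Complex.norm_real] at h1
    have h2 : 0 < ‖(f : ℍ → ℂ) z₁‖ := norm_pos_iff.2 hz₁
    have h3 := le_of_mul_le_mul_right h1 h2
    have h4 := le_abs_self (μ R)
    rw [Real.norm_eq_abs] at h3
    linarith
  · rcases le_or_gt (-2 * κ) 0 with hm0 | hm0
    · -- nonpositive eigenvalue
      set ν : ℝ := √(1 / 4 - (-2 * κ)) with hν
      have hν2 : ν ^ 2 = 1 / 4 - (-2 * κ) := Real.sq_sqrt (by linarith)
      have hν0 : 0 ≤ ν := Real.sqrt_nonneg _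
      have hνh : 1 / 2 ≤ ν := by nlinarith
      have hLν : Lap ν F := by
        refine ⟨hF, fun z => ?_⟩
        have h1 := hL.eq z
        have h2 : (1 / 4 - ν ^ 2 : ℝ) = -2 * κ := by rw [hν2]; ring
        rw [h2]
        exact h1
      have h1 := mv_all ν F hLν z₁ R hR
      rw [hFf', hμ R hR z₁, hFf z₁] at h1
      have h2 := mul_right_cancel₀ hz₁ h1
      have h3 : μ R = lam ν R := by exact_mod_cast h2
      have h4 := one_le_lam hR hνh (lam_half hR)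
      exact hf0 (contr hR hfZ (hμ R hR) (by rw [h3]; exact h4.trans (le_abs_self _)))
    · -- exceptional eigenvalue
      have hz := hS (Gamma N) ⟨N, NeZero.pos N, le_rfl⟩ F (-2 * κ) hm0 hm hF
        (fun γ hγ z => by rw [hFf, hFf]; exact LW.inv f γ hγ z) hL.eq
        (sqint_of_LW f hF hFf)
      apply hz₁
      rw [← hFf]
      exact hz z₁

end

end Pool.Agent.H75.SE
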