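import Pool.Agent.H75.SE.KLow
import Pool.Graph.R_pool_sql_team_seeded_63374d34.N799.DT.Main
import Pool.Graph.R_pool_sql_team_seeded_ab47071d.TH300S.Cong

/-! # The converse -/

set_option autoImplicit false

open UpperHalfPlane MeasureTheory Metric Filter Set ModularGroup CongruenceSubgroup
open scoped MatrixGroups ENNReal Modular Topology NNReal ComplexConjugate

namespace Pool.Agent.H75.SE

open Pool.Agent.H369R2 Pool.Agent.N799.DT Pool.Agent.N799.DT.OrthAux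

noncomputable section

variable {N : ℕ} {t : ℝ}

lemma var_eq [NeZero N] (ht : 0 < t) : S0 N t - P1 t ^ 2 / VN N = 4 * Real.pi / t * aa N t := by
  rw [S0_eq ht, VN_eq]
  have hi := idx_pos (N := N)
  have hpi := Real.pi_pos
  unfold P1 aa
  have e2 : Real.exp (-t) ^ 2 = Real.exp (-(2 * t)) := by
    rw [← Real.exp_nat_mul]
    congr 1
    push_cast
    ring
  have e3 : (4 * Real.pi * Real.exp (-t) / t) ^ 2 / (idx N * (Real.pi / 3)) =
      4 * Real.pi / t * (12 / idx N * (Real.exp (-(2 * t)) * t⁻¹)) := by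
    rw [← e2]
    field_simp
    ring
  rw [e3]
  ring

/-- lower bound for the inner product -/
lemma inner_low (ht : 0 < t) {u : LW N} {ν : ℝ}
    (hmv : ∀ R : ℝ, 0 < R → ∀ z, Av R (u : ℍ → ℂ) z = (lam ν R : ℂ) * (u : ℍ → ℂ) z)
    (hI : (u : ℍ → ℂ) I = 1) {c : ℝ}
    (hc : ENNReal.ofReal c ≤ ∫⁻ s in Ioi (0 : ℝ), ENNReal.ofReal (wt t s * (bv s * lam ν s))) :
    2 * c ≤ (inner ℂ (PH N t ht) u).re := by
  set g : ℍ → ℝ := fun z => ((u : ℍ → ℂ) z).re with hg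
  have hgc : Continuous g := Complex.continuous_re.comp (LW.cont u)
  have hgI : g I = 1 := by rw [hg]; simp only [hI, Complex.one_re]
  have hmvg : ∀ R : ℝ, 0 < R → Av R g I = lam ν R * g I := by
    intro R hR
    have h1 := congrArg Complex.re (hmv R hR I)
    rw [re_Av' (LW.cont u), Complex.re_ofReal_mul] at h1
    exact h1
  have hint := LW.integrable_mul (PH N t ht) u
  have h1 : (inner ℂ (PH N t ht) u).re = ∫ z, g z * phi N t z ∂(nu N) := by
    rw [LW.inner_def]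
    have h2 := integral_re hint
    simp only [RCLike.re_to_complex] at h2
    rw [← h2]
    congr 1
    ext z
    rw [PH_apply, Complex.conj_ofReal, Complex.re_ofReal_mul, mul_comm]
  have hintr : Integrable (fun z => g z * phi N t z) (nu N) := by
    have h2 := hint.re
    refine h2.congr (.of_forall fun z => ?_)
    simp only [RCLike.re_to_complex]
    rw [PH_apply, Complex.conj_ofReal, Complex.re_ofReal_mul, mul_comm]
  rw [h1, integral_eq_lintegral_pos_part_sub_lintegral_neg_part hintr]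
  have e1 : ∀ z, ENNReal.ofReal (g z * phi N t z) = ENNReal.ofReal (g z) * ENNReal.ofReal (phi N t z) :=
    fun z => ENNReal.ofReal_mul' (phi_nonneg z)
  have e2 : ∀ z, ENNReal.ofReal (-(g z * phi N t z)) =
      ENNReal.ofReal (-g z) * ENNReal.ofReal (phi N t z) := fun z => by
    rw [← neg_mul, ENNReal.ofReal_mul' (phi_nonneg z)]
  have f1 : ∫⁻ z, ENNReal.ofReal (g z) * ENNReal.ofReal (phi N t z) ∂(nu N) ≠ ∞ := by
    refine ((lintegral_mono fun w => ?_).trans_lt hintr.2).ne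
    rw [← e1]
    exact Real.ofReal_le_enorm _
  simp only [e1, e2]
  have h3 := lint_eig ht hgc (N := N) (fun δ hδ z => by
    rw [hg]
    simp only [LW.inv u δ hδ z]) hmvg (lam_nonneg ν) (by rw [hgI]; norm_num)
  rw [hgI] at h3
  simp only [mul_one] at h3
  rw [h3] at f1
  obtain ⟨f2, f3⟩ := ENNReal.add_ne_top.1 f1
  rw [h3, ENNReal.toReal_add f2 f3, add_sub_cancel_left, ENNReal.toReal_mul, ENNReal.toReal_ofNat]
  have f4 : ∫⁻ s in Ioi (0 : ℝ), ENNReal.ofReal (wt t s * (bv s * lam ν s)) ≠ ∞ := by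
    intro h
    rw [h] at f3
    simp at f3
  have h4 := ENNReal.toReal_mono f4 hc
  have h5 : c ≤ (ENNReal.ofReal c).toReal := by
    rw [ENNReal.toReal_ofReal']
    exact le_max_left _ _
  linarith

/-- an exceptional eigenvalue makes the variance large -/
theorem bessel_low [NeZero N] {u : LW N} {ν : ℝ} (hν : 0 ≤ ν) (hν' : ν ≤ 1 / 2)
    (hmv : ∀ R : ℝ, 0 < R → ∀ z, Av R (u : ℍ → ℂ) z = (lam ν R : ℂ) * (u : ℍ → ℂ) z)
    (hI : (u : ℍ → ℂ) I = 1) (h0 : inner ℂ (one N) u = 0) :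
    ∃ c : ℝ, 0 < c ∧ ∀ t : ℝ, 0 < t → t ≤ 1 → c * t ^ (-(2 * ν)) ≤ aa N t := by
  obtain ⟨c, hc, hlow⟩ := transform_lower
  have hu : 0 < ‖u‖ := by
    rw [norm_pos_iff]
    rintro rfl
    have : ((0 : LW N) : ℍ → ℂ) I = 0 := rfl
    rw [this] at hI
    exact zero_ne_one hI
  have hpi := Real.pi_pos
  refine ⟨c ^ 2 / (Real.pi * ‖u‖ ^ 2), by positivity, fun t ht ht1 => ?_⟩
  have h1 := inner_low ht hmv hI (hlow ν t hν hν' ht ht1)
  have h2 : inner ℂ (PZ N t ht) u = inner ℂ (PH N t ht) u := by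
    unfold PZ
    rw [inner_sub_left, inner_smul_left, h0, mul_zero, sub_zero]
  rw [← h2] at h1
  have h3 : (inner ℂ (PZ N t ht) u).re ≤ ‖PZ N t ht‖ * ‖u‖ :=
    (Complex.re_le_norm _).trans (norm_inner_le_norm _ _)
  have h4 := norm_PZ (N := N) ht
  rw [var_eq ht] at h4
  have hr := Real.rpow_pos_of_pos ht (-(1 / 2 + ν))
  have h5 : (2 * (c * t ^ (-(1 / 2 + ν)))) ^ 2 ≤ (‖PZ N t ht‖ * ‖u‖) ^ 2 :=
    pow_le_pow_left₀ (by positivity) (h1.trans h3) 2
  rw [mul_pow ‖PZ N t ht‖, h4] at h5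
  have h6 : (t ^ (-(1 / 2 + ν))) ^ 2 = t⁻¹ * t ^ (-(2 * ν)) := by
    rw [← Real.rpow_natCast, ← Real.rpow_mul ht.le, ← Real.rpow_neg_one, ← Real.rpow_add ht]
    congr 1
    push_cast
    ring
  rw [mul_pow, mul_pow, h6] at h5
  rw [div_mul_eq_mul_div, div_le_iff₀ (by positivity)]
  have h7 : t⁻¹ * 4 * (c ^ 2 * t ^ (-(2 * ν))) ≤ t⁻¹ * 4 * (aa N t * (Real.pi * ‖u‖ ^ 2)) := by
    calc t⁻¹ * 4 * (c ^ 2 * t ^ (-(2 * ν))) = 2 ^ 2 * (c ^ 2 * (t⁻¹ * t ^ (-(2 * ν)))) := by ring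
      _ ≤ 4 * Real.pi / t * aa N t * ‖u‖ ^ 2 := h5
      _ = _ := by ring
  exact le_of_mul_le_mul_left h7 (by positivity)

/-- the elementary estimate -/
def Four (N : ℕ) : Prop :=
  ∀ ε : ℝ, 0 < ε → ∃ C : ℝ, ∀ t : ℝ, 0 < t → t ≤ 1 →
    DD N 2 t ≤ 12 / (t * idx N) + C * t ^ (-ε)

/-- the estimate excludes exceptional eigenfunctions which do not vanish at `i` -/
lemma four_contra [NeZero N] (h : Four N) {u : LW N} {ν : ℝ} (hν : 0 < ν) (hν' : ν ≤ 1 / 2)
    (hmv : ∀ R : ℝ, 0 < R → ∀ z, Av R (u : ℍ → ℂ) z = (lam ν R : ℂ) * (u : ℍ → ℂ) z)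
    (hI : (u : ℍ → ℂ) I = 1) (h0 : inner ℂ (one N) u = 0) : False := by
  obtain ⟨c, hc, hlow⟩ := bessel_low hν.le hν' hmv hI h0
  obtain ⟨C, hC⟩ := h ν hν
  have hi := idx_ge (N := N)
  -- the choice of `t`
  set M : ℝ := (24 + |C|) / c + 1 with hM
  have hM1 : 1 < M := by
    have : 0 < (24 + |C|) / c := by positivity
    linarith
  set t : ℝ := M ^ (-(1 / ν)) with ht
  have hM0 : 0 < M := by linarith
  have ht0 : 0 < t := Real.rpow_pos_of_pos hM0 _
  have ht1 : t ≤ 1 := Real.rpow_le_one_of_one_le_of_nonpos hM1.le (by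
    have : 0 < 1 / ν := by positivity
    linarith)
  have htν : t ^ (-ν) = M := by
    rw [ht, ← Real.rpow_mul hM0.le]
    have : -(1 / ν) * -ν = 1 := by field_simp
    rw [this, Real.rpow_one]
  have ht2ν : t ^ (-(2 * ν)) = M * M := by
    rw [show -(2 * ν) = -ν + -ν by ring, Real.rpow_add ht0, htν]
  have h1 := hlow t ht0 ht1
  have h2 := hC t ht0 ht1
  rw [ht2ν] at h1
  rw [htν] at h2
  unfold aa at h1
  have h3 : 12 / (t * idx N) - 12 / idx N * (Real.exp (-(2 * t)) * t⁻¹) ≤ 24 := by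
    have h4 : 1 - 2 * t ≤ Real.exp (-(2 * t)) := by
      have := Real.add_one_le_exp (-(2 * t))
      linarith
    have h5 : 12 / (t * idx N) - 12 / idx N * (Real.exp (-(2 * t)) * t⁻¹) =
        12 / idx N * ((1 - Real.exp (-(2 * t))) * t⁻¹) := by
      have : idx N ≠ 0 := by linarith
      field_simp
    rw [h5]
    have h6 : (1 - Real.exp (-(2 * t))) * t⁻¹ ≤ 2 := by
      rw [← div_eq_mul_inv, div_le_iff₀ ht0]
      linarith
    have h7 : 12 / idx N ≤ 12 := div_le_self (by norm_num) hi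
    have h8 : 0 < 12 / idx N := by positivity
    calc 12 / idx N * ((1 - Real.exp (-(2 * t))) * t⁻¹) ≤ 12 / idx N * 2 := by gcongr
      _ ≤ 12 * 2 := by gcongr
      _ = 24 := by norm_num
  have h9 : c * (M * M) ≤ 24 + C * M := by linarith
  have h10 : C * M ≤ |C| * M := by
    have := le_abs_self C
    gcongr
  have h11 : c * M = 24 + |C| + c := by
    rw [hM]
    field_simp
  nlinarith

/-- rational points -/
lemma exists_rat {f : ℂ → ℂ} (hf : ContinuousOn f {w : ℂ | 0 < w.im}) {z : ℍ} (hz : f z ≠ 0) :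
    ∃ x y : ℚ, 0 < y ∧ f ((x : ℝ) + (y : ℝ) * Complex.I) ≠ 0 := by
  set e : ℝ × ℝ → ℂ := fun p => (p.1 : ℂ) + (p.2 : ℂ) * Complex.I with he
  have hec : Continuous e := by
    rw [he]
    fun_prop
  have heim : ∀ p : ℝ × ℝ, (e p).im = p.2 := fun p => by rw [he]; simp
  set U : Set (ℝ × ℝ) := e ⁻¹' ({w : ℂ | 0 < w.im} ∩ f ⁻¹' {0}ᶜ) with hU
  have hUo : IsOpen U := by
    refine IsOpen.preimage hec ?_
    exact hf.isOpen_inter_preimage (isOpen_lt continuous_const Complex.continuous_im)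
      isOpen_compl_singleton
  have hez : e (z.re, z.im) = (z : ℂ) := by
    rw [he]
    simp only
    exact Complex.re_add_im (z : ℂ)
  have hUn : U.Nonempty := by
    refine ⟨(z.re, z.im), ?_⟩
    rw [hU, mem_preimage, hez]
    exact ⟨z.im_pos, hz⟩
  have hd : DenseRange (Prod.map ((↑) : ℚ → ℝ) ((↑) : ℚ → ℝ)) :=
    Rat.denseRange_cast.prodMap Rat.denseRange_cast
  obtain ⟨⟨x, y⟩, hxy⟩ := hd.exists_mem_open hUo hUn
  refine ⟨x, y, ?_, ?_⟩
  · have h1 : 0 < (e ((x : ℝ), (y : ℝ))).im := hxy.1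
    rw [heim] at h1
    have h2 : (0 : ℝ) < (y : ℝ) := h1
    exact_mod_cast h2
  · exact hxy.2

open Pool.Agent.TH652.Sel Pool.Agent.TH300S in
/-- the estimates at all levels imply Selberg's conjecture -/
theorem selberg_of_four (h : ∀ N : ℕ, [NeZero N] → Four N) : Selberg := by
  intro Γ hΓ f μ hμ0 hμ1 hsm hinv heq hint z
  by_contra hz
  obtain ⟨N, hN, hNΓ⟩ := hΓ
  have hF : (fun z : ℍ => f z) ∈ congspace μ := by
    refine ⟨N, hN, f, ⟨hsm, fun γ hγ z => hinv γ (hNΓ hγ) z, heq, hint⟩, fun z => rfl⟩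
  obtain ⟨x, y, hy, hxy⟩ := exists_rat hsm.continuousOn hz
  have hy' : (0 : ℝ) < (y : ℝ) := by exact_mod_cast hy
  obtain ⟨M, hM, g, ⟨g1, g2, g3, g4⟩, hg⟩ := cong_mv hF hy' ⟨y, rfl⟩ (r := (x : ℝ)) ⟨x, rfl⟩
  have hNZ : NeZero M := ⟨hM.ne'⟩
  set ν : ℝ := √(1 / 4 - μ) with hν
  have hν0 : 0 < ν := Real.sqrt_pos.2 (by linarith)
  have hνsq : ν ^ 2 = 1 / 4 - μ := Real.sq_sqrt (by linarith)
  have hν' : ν < 1 / 2 := by
    rw [hν, Real.sqrt_lt' (by norm_num)]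
    linarith
  have hE : IsEigen (Gamma M) ν g := by
    refine ⟨g1, g2, fun z => ?_, g4⟩
    rw [hνsq, g3 z]
    congr 2
    ring
  set u₀ : LW M := hE.toLW hM le_rfl with hu₀
  have hmem : u₀ ∈ ES M (Gamma M) ν := hE.mem_ES mv_all hM le_rfl
  have hI0 : (u₀ : ℍ → ℂ) I ≠ 0 := by
    have h1 : (u₀ : ℍ → ℂ) I = g (I : ℍ) := rfl
    rw [h1, ← hg]
    simp only [coe_mv]
    have h2 : ((y : ℝ) : ℂ) * ((I : ℍ) : ℂ) + ((x : ℝ) : ℂ) =
        ((x : ℝ) : ℂ) + ((y : ℝ) : ℂ) * Complex.I := by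
      rw [add_comm]
      rfl
    rw [h2]
    exact hxy
  set u : LW M := ((u₀ : ℍ → ℂ) I)⁻¹ • u₀ with hu
  have humem : u ∈ ES M (Gamma M) ν := Submodule.smul_mem _ _ hmem
  have huI : (u : ℍ → ℂ) I = 1 := by
    have : (u : ℍ → ℂ) I = ((u₀ : ℍ → ℂ) I)⁻¹ * (u₀ : ℍ → ℂ) I := rfl
    rw [this, inv_mul_cancel₀ hI0]
  have hone : one M ∈ ES M (Gamma M) (1 / 2) := by
    refine ⟨fun γ hγ z => LW.inv (one M) γ hγ z, fun R hR z => ?_⟩
    have h1 := congrArg (fun v : LW M => (v : ℍ → ℂ) z) (LA_one (N := M) hR)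
    simp only [LA_coe] at h1
    rw [lam_half hR]
    simpa using h1
  have horth : inner ℂ (one M) u = 0 :=
    ES_orth orth lam_ne hM (Gamma M) (by norm_num) hν0 le_rfl hν'.le hν'.ne' hone humem
  exact four_contra (h M) hν0 hν'.le humem.2 huI horth

end

end Pool.Agent.H75.SE
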