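import Pool.Agent.H75.SE.KLim

/-! # Averages of functions of `cosh dist` -/

set_option autoImplicit false

open UpperHalfPlane MeasureTheory Metric Filter Set
open scoped MatrixGroups ENNReal Modular Topology NNReal ComplexConjugate

namespace Pool.Agent.H75.SE

open Pool.Agent.H369R2 Pool.Agent.N799.DT Pool.Agent.N799.DT.OrthAux

noncomputable section

/-- `cosh` of the distance to `i` -/
def ch (w : ℂ) : ℝ := (w.re ^ 2 + w.im ^ 2 + 1) / (2 * w.im)

lemma ch_eq (v : ℍ) : ch v = Real.cosh (dist v I) := (cosh_dist_I v).symm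

lemma ch_smooth : ContDiffOn ℝ (⊤ : ℕ∞) ch {w : ℂ | 0 < w.im} := by
  have hre : ContDiff ℝ (⊤ : ℕ∞) Complex.re := Complex.reCLM.contDiff
  have him : ContDiff ℝ (⊤ : ℕ∞) Complex.im := Complex.imCLM.contDiff
  have a1 : ContDiff ℝ (⊤ : ℕ∞) (fun w : ℂ => w.re ^ 2 + w.im ^ 2 + 1) :=
    ((hre.pow 2).add (him.pow 2)).add contDiff_const
  have a2 : ContDiff ℝ (⊤ : ℕ∞) (fun w : ℂ => 2 * w.im) := contDiff_const.mul him
  refine a1.contDiffOn.div a2.contDiffOn fun w hw => ?_
  have : 0 < w.im := hw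
  positivity

/-- second derivatives of real functions along the coordinate lines -/
lemma real_lap {F : ℂ → ℝ} {z : ℍ} {m : ℝ} {fx fx' : ℝ → ℝ} {fy fy' : ℝ → ℝ} {fxx fyy : ℝ}
    (hx : ∀ s : ℝ, F ((s : ℂ) + (z.im : ℂ) * Complex.I) = fx s)
    (hx1 : ∀ s : ℝ, HasDerivAt fx (fx' s) s) (hx2 : HasDerivAt fx' fxx z.re)
    (hy : ∀ s : ℝ, 0 < s → F ((z.re : ℂ) + (s : ℂ) * Complex.I) = fy s)
    (hy1 : ∀ s : ℝ, 0 < s → HasDerivAt fy (fy' s) s) (hy2 : HasDerivAt fy' fyy z.im)
    (h : -(z.im ^ 2) * (fxx + fyy) = m * F z) :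
    -((z.im : ℂ) ^ 2) *
      (deriv (fun s : ℝ => deriv (fun t : ℝ => ((F ((t : ℂ) + (z.im : ℂ) * Complex.I) : ℝ) : ℂ)) s)
          z.re +
        deriv (fun s : ℝ => deriv (fun t : ℝ => ((F ((z.re : ℂ) + (t : ℂ) * Complex.I) : ℝ) : ℂ)) s)
          z.im) = ((m : ℝ) : ℂ) * ((F z : ℝ) : ℂ) := by
  have e1 : (fun s : ℝ => deriv (fun t : ℝ => ((F ((t : ℂ) + (z.im : ℂ) * Complex.I) : ℝ) : ℂ)) s) =
      fun s => ((fx' s : ℝ) : ℂ) := by
    funext s
    simp only [hx]
    exact (hx1 s).ofReal_comp.deriv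
  have e2 : (fun s : ℝ => deriv (fun t : ℝ => ((F ((z.re : ℂ) + (t : ℂ) * Complex.I) : ℝ) : ℂ)) s)
      =ᶠ[𝓝 z.im] fun s => ((fy' s : ℝ) : ℂ) := by
    filter_upwards [lt_mem_nhds z.im_pos] with s hs
    have e3 : (fun t : ℝ => ((F ((z.re : ℂ) + (t : ℂ) * Complex.I) : ℝ) : ℂ)) =ᶠ[𝓝 s]
        fun t => ((fy t : ℝ) : ℂ) := by
      filter_upwards [lt_mem_nhds hs] with t ht
      rw [hy t ht]
    rw [e3.deriv_eq]
    exact (hy1 s hs).ofReal_comp.deriv
  rw [e1, e2.deriv_eq, hx2.ofReal_comp.deriv, hy2.ofReal_comp.deriv]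
  exact_mod_cast congrArg (Complex.ofReal) h

lemma lap_ch : Lap (3 / 2) (fun w => ((ch w : ℝ) : ℂ)) where
  smooth := Complex.ofRealCLM.contDiff.comp_contDiffOn ch_smooth
  eq z := by
    have hz := z.im_pos
    have hz' := hz.ne'
    refine real_lap (F := ch) (fx := fun s => (s ^ 2 + (z.im ^ 2 + 1)) / (2 * z.im))
      (fx' := fun s => s / z.im) (fxx := 1 / z.im)
      (fy := fun s => (z.re ^ 2 + 1) / 2 * s⁻¹ + s / 2)
      (fy' := fun s => (z.re ^ 2 + 1) / 2 * (-(s ^ 2)⁻¹) + 1 / 2)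
      (fyy := (z.re ^ 2 + 1) * (z.im ^ 3)⁻¹) ?_ ?_ ?_ ?_ ?_ ?_ ?_
    · intro s
      simp only [ch, Complex.add_re, Complex.add_im, Complex.ofReal_re, Complex.ofReal_im,
        Complex.mul_re, Complex.mul_im, Complex.I_re, Complex.I_im]
      ring_nf
    · intro s
      have h := (((hasDerivAt_pow 2 s).add_const (z.im ^ 2 + 1)).div_const (2 * z.im))
      convert! h using 1
      field_simp
      norm_num
      ring
    · exact (hasDerivAt_id z.re).div_const z.im
    · intro s hs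
      have hs' := hs.ne'
      simp only [ch, Complex.add_re, Complex.add_im, Complex.ofReal_re, Complex.ofReal_im,
        Complex.mul_re, Complex.mul_im, Complex.I_re, Complex.I_im]
      simp only [mul_zero, mul_one, zero_mul, sub_zero, add_zero, zero_add]
      field_simp
      ring
    · intro s hs
      have h1 := (hasDerivAt_inv hs.ne').const_mul ((z.re ^ 2 + 1) / 2)
      exact h1.add ((hasDerivAt_id s).div_const 2)
    · have h1 : HasDerivAt (fun s : ℝ => (s ^ 2)⁻¹) (-(2 * z.im) / (z.im ^ 2) ^ 2) z.im := by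
        have := (hasDerivAt_pow 2 z.im).inv (pow_ne_zero 2 hz')
        convert! this using 1
        norm_num
      have h2 := ((h1.neg).const_mul ((z.re ^ 2 + 1) / 2)).add_const (1 / 2 : ℝ)
      convert! h2 using 1
      field_simp
    · simp only [ch]
      have e : (z : ℂ).im = z.im := rfl
      have e' : (z : ℂ).re = z.re := rfl
      rw [e, e']
      field_simp
      ring

/-- the second Legendre polynomial of `cosh dist` -/
def ch2 (w : ℂ) : ℝ := (3 * ch w ^ 2 - 1) / 2

lemma lap_ch2 : Lap (5 / 2) (fun w => ((ch2 w : ℝ) : ℂ)) where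
  smooth := by
    have h1 : ContDiffOn ℝ (⊤ : ℕ∞) ch2 {w : ℂ | 0 < w.im} :=
      ((contDiffOn_const.mul (ch_smooth.pow 2)).sub contDiffOn_const).div_const 2
    exact Complex.ofRealCLM.contDiff.comp_contDiffOn h1
  eq z := by
    have hz := z.im_pos
    have hz' := hz.ne'
    set A : ℝ := z.im ^ 2 + 1 with hA
    set B : ℝ := z.re ^ 2 + 1 with hB
    refine real_lap (F := ch2)
      (fx := fun s => (3 * (s ^ 4 + 2 * A * s ^ 2 + A ^ 2) / (4 * z.im ^ 2) - 1) / 2)
      (fx' := fun s => 3 * (4 * s ^ 3 + 4 * A * s) / (8 * z.im ^ 2))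
      (fxx := 3 * (12 * z.re ^ 2 + 4 * A) / (8 * z.im ^ 2))
      (fy := fun s => 3 / 8 * B ^ 2 * (s ^ 2)⁻¹ + (3 / 8 * s ^ 2 + (3 / 4 * B - 1 / 2)))
      (fy' := fun s => 3 / 8 * B ^ 2 * (-2 * (s ^ 3)⁻¹) + 3 / 4 * s)
      (fyy := 3 / 8 * B ^ 2 * (6 * (z.im ^ 4)⁻¹) + 3 / 4) ?_ ?_ ?_ ?_ ?_ ?_ ?_
    · intro s
      simp only [ch2, ch, Complex.add_re, Complex.add_im, Complex.ofReal_re, Complex.ofReal_im,
        Complex.mul_re, Complex.mul_im, Complex.I_re, Complex.I_im]
      rw [hA]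
      simp only [mul_zero, mul_one, zero_mul, sub_zero, add_zero, zero_add]
      field_simp
      ring
    · intro s
      have h1 := ((hasDerivAt_pow 4 s).add (((hasDerivAt_pow 2 s).const_mul (2 * A)))).add_const (A ^ 2)
      have h2 := ((((h1.const_mul 3).div_const (4 * z.im ^ 2)).sub_const 1).div_const 2)
      convert! h2 using 1
      field_simp
      norm_num
      ring
    · have h1 := ((((hasDerivAt_pow 3 z.re).const_mul 4).add
        ((hasDerivAt_id z.re).const_mul (4 * A))).const_mul 3).div_const (8 * z.im ^ 2)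
      convert! h1 using 1
      norm_num
      ring
    · intro s hs
      have hs' := hs.ne'
      simp only [ch2, ch, Complex.add_re, Complex.add_im, Complex.ofReal_re, Complex.ofReal_im,
        Complex.mul_re, Complex.mul_im, Complex.I_re, Complex.I_im]
      rw [hB]
      simp only [mul_zero, mul_one, zero_mul, sub_zero, add_zero, zero_add]
      field_simp
      ring
    · intro s hs
      have h1 : HasDerivAt (fun s : ℝ => (s ^ 2)⁻¹) (-2 * (s ^ 3)⁻¹) s := by
        have := (hasDerivAt_pow 2 s).inv (pow_ne_zero 2 hs.ne')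
        convert! this using 1
        field_simp
        norm_num
      have h2 := (h1.const_mul (3 / 8 * B ^ 2)).add
        (((hasDerivAt_pow 2 s).const_mul (3 / 8)).add_const (3 / 4 * B - 1 / 2))
      convert! h2 using 1
      norm_num
      ring
    · have h1 : HasDerivAt (fun s : ℝ => (s ^ 3)⁻¹) (-3 * (z.im ^ 4)⁻¹) z.im := by
        have := (hasDerivAt_pow 3 z.im).inv (pow_ne_zero 3 hz')
        convert! this using 1
        field_simp
        norm_num
      have h2 := ((h1.const_mul (-2)).const_mul (3 / 8 * B ^ 2)).add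
        ((hasDerivAt_id z.im).const_mul (3 / 4))
      convert! h2 using 1
      ring
    · simp only [ch2, ch]
      have e : (z : ℂ).im = z.im := rfl
      have e' : (z : ℂ).re = z.re := rfl
      rw [e, e', hA, hB]
      field_simp
      ring

end

end Pool.Agent.H75.SE
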