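import Pool.Agent.H75.SE.KJ
import Pool.Graph.R_seed8.H369R2.G2

/-! # The convolution of two kernels `exp (-t cosh dist)` -/

set_option autoImplicit false

open UpperHalfPlane MeasureTheory Metric Filter Set
open scoped MatrixGroups ENNReal Modular Topology NNReal ComplexConjugate

namespace Pool.Agent.H75.SE

open Pool.Agent.H369R2

noncomputable section

lemma cosh_form (z w : ℍ) : Real.cosh (dist z w) =
    ((z.re - w.re) ^ 2 + z.im ^ 2 + w.im ^ 2) / (2 * z.im * w.im) := by
  have hz := z.im_pos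
  have hw := w.im_pos
  rw [UpperHalfPlane.cosh_dist, Complex.dist_eq, Complex.sq_norm, Complex.normSq_apply]
  simp only [Complex.sub_re, Complex.sub_im, coe_re, coe_im]
  field_simp
  ring

/-- `2 cosh (dist / 2)` -/
def mz (z w : ℍ) : ℝ := √(2 + 2 * Real.cosh (dist z w))

lemma mz_sq (z w : ℍ) : mz z w ^ 2 = 2 + 2 * Real.cosh (dist z w) :=
  Real.sq_sqrt (by have := Real.cosh_pos (dist z w); positivity)

lemma mz_pos (z w : ℍ) : 0 < mz z w :=
  Real.sqrt_pos.2 (by have := Real.cosh_pos (dist z w); positivity)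

lemma mz_two_le (z w : ℍ) : 2 ≤ mz z w := by
  have h1 := mz_sq z w
  have h2 := Real.one_le_cosh (dist z w)
  have h3 := mz_pos z w
  nlinarith

lemma midpoint (z w : ℍ) : ∃ p : ℍ, ∀ v : ℍ,
    Real.cosh (dist z v) + Real.cosh (dist w v) = mz z w * Real.cosh (dist v p) := by
  have ha := z.im_pos
  have hb := w.im_pos
  have hm := mz_pos z w
  have hm2 := mz_sq z w
  rw [cosh_form] at hm2
  set a := z.im with had
  set b := w.im with hbd
  set m := mz z w with hmd
  have hm3 : m ^ 2 * (a * b) = 2 * a * b + (z.re - w.re) ^ 2 + a ^ 2 + b ^ 2 := by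
    rw [hm2]
    field_simp
    ring
  set x₀ : ℝ := (z.re * b + w.re * a) / (a + b) with hx₀
  set h : ℝ := m * (a * b) / (a + b) with hh
  have hh0 : 0 < h := by positivity
  refine ⟨⟨⟨x₀, h⟩, hh0⟩, fun v => ?_⟩
  have hy := v.im_pos
  rw [cosh_form, cosh_form, cosh_form, ← had, ← hbd]
  have e1 : (⟨⟨x₀, h⟩, hh0⟩ : ℍ).re = x₀ := rfl
  have e2 : (⟨⟨x₀, h⟩, hh0⟩ : ℍ).im = h := rfl
  rw [e1, e2]
  have hh2 : h ^ 2 = (2 * a * b + (z.re - w.re) ^ 2 + a ^ 2 + b ^ 2) * (a * b) / (a + b) ^ 2 := by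
    rw [← hm3, hh, div_pow]
    ring
  have e3 : m * (((v.re - x₀) ^ 2 + v.im ^ 2 + h ^ 2) / (2 * v.im * h)) =
      (a + b) / (2 * v.im * (a * b)) * ((v.re - x₀) ^ 2 + v.im ^ 2 + h ^ 2) := by
    rw [hh]
    field_simp
  rw [e3, hh2, hx₀]
  field_simp
  ring

lemma lint_dist (F : ℝ → ℝ≥0∞) (hF : Measurable F) (p : ℍ) :
    ∫⁻ v : ℍ, F (dist v p) = ∫⁻ v : ℍ, F (dist v I) := by
  have hm : Measurable fun v : ℍ => F (dist v p) :=
    hF.comp (continuous_id.dist continuous_const).measurable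
  have h := (mp_real (aff p)).lintegral_comp hm
  rw [← h]
  apply lintegral_congr
  intro v
  have : dist (aff p • v) p = dist v I := by
    have h3 := dist_smul (aff p) v I
    rwa [aff_I] at h3
  rw [this]

/-- the kernel -/
def kt (t : ℝ) (z w : ℍ) : ℝ≥0∞ := ENNReal.ofReal (Real.exp (-(t * Real.cosh (dist z w))))

/-- the convolution square of the kernel as a function of `2 cosh (dist / 2)` -/
def gt (t x : ℝ) : ℝ := 2 * Real.pi * Real.exp (-(t * x)) / (t * x)

lemma gt_nonneg {t x : ℝ} (ht : 0 < t) (hx : 0 < x) : 0 ≤ gt t x := by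
  unfold gt; positivity

lemma kt_comm (t : ℝ) (z w : ℍ) : kt t z w = kt t w z := by
  unfold kt; rw [dist_comm]

lemma kt_cont (t : ℝ) : Continuous fun p : ℍ × ℍ => kt t p.1 p.2 := by
  unfold kt
  have h1 : Continuous fun p : ℍ × ℍ => dist p.1 p.2 := continuous_fst.dist continuous_snd
  exact ENNReal.continuous_ofReal.comp (Real.continuous_exp.comp
    ((continuous_const.mul (Real.continuous_cosh.comp h1)).neg))

lemma kt_meas (t : ℝ) (z : ℍ) : Measurable (kt t z) :=
  ((kt_cont t).comp (continuous_const.prodMk continuous_id)).measurable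

lemma kt_ne_top (t : ℝ) (z w : ℍ) : kt t z w ≠ ∞ := ENNReal.ofReal_ne_top

theorem G_eq {t : ℝ} (ht : 0 < t) (z w : ℍ) :
    ∫⁻ v : ℍ, kt t z v * kt t w v = ENNReal.ofReal (gt t (mz z w)) := by
  obtain ⟨p, hp⟩ := midpoint z w
  have hm := mz_pos z w
  have h1 : ∀ v : ℍ, kt t z v * kt t w v =
      ENNReal.ofReal (Real.exp (-((t * mz z w) * Real.cosh (dist v p)))) := by
    intro v
    unfold kt
    rw [← ENNReal.ofReal_mul (Real.exp_pos _).le, ← Real.exp_add]
    congr 2
    have := hp v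
    linear_combination (-t) * this
  simp only [h1]
  have h2 := lint_dist (fun d => ENNReal.ofReal (Real.exp (-((t * mz z w) * Real.cosh d))))
    (by apply Measurable.ennreal_ofReal; exact (by fun_prop)) p
  rw [h2, J_eq (by positivity)]
  rfl

lemma lint_kt {t : ℝ} (ht : 0 < t) (z : ℍ) :
    ∫⁻ v : ℍ, kt t z v = ENNReal.ofReal (2 * Real.pi * Real.exp (-t) / t) := by
  have h2 := lint_dist (fun d => ENNReal.ofReal (Real.exp (-(t * Real.cosh d))))
    (by apply Measurable.ennreal_ofReal; exact (by fun_prop)) z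
  rw [← J_eq ht, ← h2]
  apply lintegral_congr
  intro v
  unfold kt
  rw [dist_comm]

end

end Pool.Agent.H75.SE
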