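import Pool.Graph.R_seed8.H369R2.G3
import Mathlib.Analysis.SpecialFunctions.Gaussian.GaussianIntegral
import Mathlib.MeasureTheory.Function.JacobianOneDim

/-! # The integral of `exp (-ρ cosh dist)` over the upper half plane -/

set_option autoImplicit false

open UpperHalfPlane MeasureTheory Metric Filter Set
open scoped MatrixGroups ENNReal Modular Topology NNReal ComplexConjugate

namespace Pool.Agent.H75.SE

open Pool.Agent.H369R2

noncomputable section

lemma lint_gauss {b c : ℝ} (hb : 0 < b) (hc : 0 ≤ c) :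
    ∫⁻ x : ℝ, ENNReal.ofReal (c * Real.exp (-b * x ^ 2)) = ENNReal.ofReal (c * √(Real.pi / b)) := by
  rw [← ofReal_integral_eq_lintegral_ofReal ((integrable_exp_neg_mul_sq hb).const_mul c)
    (.of_forall fun x => by positivity), integral_const_mul, integral_gaussian]

lemma cosh_dist_I (v : ℍ) : Real.cosh (dist v I) = (v.re ^ 2 + v.im ^ 2 + 1) / (2 * v.im) := by
  have hv := v.im_pos
  rw [UpperHalfPlane.cosh_dist, Complex.dist_eq, Complex.sq_norm, Complex.normSq_apply]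
  simp only [Complex.sub_re, Complex.sub_im, coe_re, coe_im, coe_I, Complex.I_re, Complex.I_im,
    sub_zero, I_im, mul_one]
  field_simp
  ring

/-- half integral Bessel function -/
lemma lint_half {ρ : ℝ} (hρ : 0 < ρ) :
    ∫⁻ τ : ℝ, ENNReal.ofReal (Real.cosh (τ / 2) * Real.exp (-(ρ * Real.cosh τ))) =
      ENNReal.ofReal (√2 * Real.exp (-ρ) * √(Real.pi / ρ)) := by
  have hder : ∀ τ ∈ (univ : Set ℝ), HasDerivWithinAt (fun τ : ℝ => √2 * Real.sinh (τ / 2))
      (√2 * (Real.cosh (τ / 2) * (1 / 2))) univ τ := by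
    intro τ _
    have h1 : HasDerivAt (fun τ : ℝ => τ / 2) (1 / 2) τ := (hasDerivAt_id τ).div_const 2
    exact (h1.sinh.const_mul (√2)).hasDerivWithinAt
  have hinj : InjOn (fun τ : ℝ => √2 * Real.sinh (τ / 2)) univ := by
    intro a _ b _ h
    simp only at h
    have h2 : (√2 : ℝ) ≠ 0 := by positivity
    have h3 := mul_left_cancel₀ h2 h
    have h4 := Real.sinh_injective h3
    linarith
  have himg : (fun τ : ℝ => √2 * Real.sinh (τ / 2)) '' univ = univ := by
    rw [image_univ, range_eq_univ]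
    intro y
    obtain ⟨x, hx⟩ := Real.sinh_surjective (y / √2)
    refine ⟨2 * x, ?_⟩
    have h2 : (√2 : ℝ) ≠ 0 := by positivity
    simp only [mul_div_cancel_left₀ x (two_ne_zero' ℝ)]
    rw [hx]
    field_simp
  have h1 := lintegral_image_eq_lintegral_abs_deriv_mul MeasurableSet.univ hder hinj
    (fun σ => ENNReal.ofReal (√2 * Real.exp (-ρ) * Real.exp (-ρ * σ ^ 2)))
  rw [himg] at h1
  simp only [Measure.restrict_univ] at h1
  rw [lint_gauss hρ (by positivity)] at h1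
  rw [h1]
  apply lintegral_congr
  intro τ
  rw [← ENNReal.ofReal_mul (abs_nonneg _)]
  congr 1
  rw [abs_of_nonneg (by have := Real.cosh_pos (τ / 2); positivity)]
  have h2 : (√2 : ℝ) * √2 = 2 := Real.mul_self_sqrt (by norm_num)
  have h3 : Real.cosh τ = 1 + 2 * Real.sinh (τ / 2) ^ 2 := by
    have h4 := Real.cosh_two_mul (τ / 2)
    have h5 := Real.cosh_sq (τ / 2)
    rw [mul_div_cancel₀ τ (two_ne_zero' ℝ)] at h4
    rw [h4, h5]
    ring
  have h4 : (√2 * Real.sinh (τ / 2)) ^ 2 = 2 * Real.sinh (τ / 2) ^ 2 := by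
    rw [mul_pow, Real.sq_sqrt (by norm_num)]
  rw [h3, h4]
  have h5 : Real.exp (-(ρ * (1 + 2 * Real.sinh (τ / 2) ^ 2))) =
      Real.exp (-ρ) * Real.exp (-ρ * (2 * Real.sinh (τ / 2) ^ 2)) := by
    rw [← Real.exp_add]
    congr 1
    ring
  rw [h5]
  linear_combination (-(1 / 2 : ℝ) * Real.cosh (τ / 2) * Real.exp (-ρ) *
    Real.exp (-ρ * (2 * Real.sinh (τ / 2) ^ 2))) * h2

lemma lint_half' {ρ : ℝ} (hρ : 0 < ρ) :
    ∫⁻ τ : ℝ, ENNReal.ofReal (Real.exp (-τ / 2) * Real.exp (-(ρ * Real.cosh τ))) =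
      ENNReal.ofReal (√2 * Real.exp (-ρ) * √(Real.pi / ρ)) := by
  rw [← lint_half hρ]
  set A := ∫⁻ τ : ℝ, ENNReal.ofReal (Real.exp (-τ / 2) * Real.exp (-(ρ * Real.cosh τ))) with hA
  have h1 : ∫⁻ τ : ℝ, ENNReal.ofReal (Real.exp (τ / 2) * Real.exp (-(ρ * Real.cosh τ))) = A := by
    rw [hA, ← lintegral_neg_eq_self]
    apply lintegral_congr
    intro τ
    rw [Real.cosh_neg]
  have h2 : A + A = 2 * ∫⁻ τ : ℝ, ENNReal.ofReal (Real.cosh (τ / 2) * Real.exp (-(ρ * Real.cosh τ))) := by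
    conv_lhs => rw [← h1]
    conv_lhs => rw [h1]; arg 2; rw [← h1]
    rw [hA, ← lintegral_add_left (by fun_prop), ← lintegral_const_mul _ (by fun_prop)]
    apply lintegral_congr
    intro τ
    have e2 : (2 : ℝ≥0∞) = ENNReal.ofReal 2 := by simp
    rw [e2, ← ENNReal.ofReal_mul (by norm_num), ← ENNReal.ofReal_add (by positivity) (by positivity)]
    congr 1
    rw [Real.cosh_eq (τ / 2), neg_div]
    ring
  rw [← two_mul] at h2
  exact (ENNReal.mul_right_inj (by norm_num) (by norm_num)).1 h2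

/-- the integral of the kernel -/
theorem J_eq {ρ : ℝ} (hρ : 0 < ρ) :
    ∫⁻ v : ℍ, ENNReal.ofReal (Real.exp (-(ρ * Real.cosh (dist v I)))) =
      ENNReal.ofReal (2 * Real.pi * Real.exp (-ρ) / ρ) := by
  set f : ℝ × ℝ → ℝ≥0∞ := fun p =>
    ENNReal.ofReal (Real.exp (-(ρ * ((p.1 ^ 2 + p.2 ^ 2 + 1) / (2 * p.2))))) with hf
  have hfm : Measurable f := by
    apply Measurable.ennreal_ofReal
    fun_prop
  have h1 : ∫⁻ v : ℍ, ENNReal.ofReal (Real.exp (-(ρ * Real.cosh (dist v I)))) =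
      ∫⁻ v : ℍ, f (v.re, v.im) := by
    apply lintegral_congr
    intro v
    rw [cosh_dist_I]
  rw [h1, lint_H f hfm]
  have hset : {p : ℝ × ℝ | 0 < p.2} = univ ×ˢ Ioi 0 := by
    ext p; simp
  rw [hset, Measure.volume_eq_prod, ← Measure.prod_restrict, Measure.restrict_univ,
    lintegral_prod_symm' _ (by fun_prop)]
  have h2 : ∀ y ∈ Ioi (0 : ℝ), ∫⁻ x : ℝ, ENNReal.ofReal (1 / (x, y).2 ^ 2) * f (x, y) =
      ENNReal.ofReal (1 / y ^ 2 * Real.exp (-(ρ * ((y ^ 2 + 1) / (2 * y)))) *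
        √(2 * Real.pi * y / ρ)) := by
    intro y hy
    have hy0 : 0 < y := hy
    have e1 : ∀ x : ℝ, ENNReal.ofReal (1 / (x, y).2 ^ 2) * f (x, y) =
        ENNReal.ofReal ((1 / y ^ 2 * Real.exp (-(ρ * ((y ^ 2 + 1) / (2 * y))))) *
          Real.exp (-(ρ / (2 * y)) * x ^ 2)) := by
      intro x
      rw [hf]
      simp only
      rw [← ENNReal.ofReal_mul (by positivity), mul_assoc, ← Real.exp_add]
      congr 3
      field_simp
      ring
    simp only [e1]
    rw [lint_gauss (by positivity) (by positivity)]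
    congr 3
    field_simp
  rw [setLIntegral_congr_fun measurableSet_Ioi h2]
  have hder : ∀ τ ∈ (univ : Set ℝ), HasDerivWithinAt Real.exp (Real.exp τ) univ τ := fun τ _ =>
    (Real.hasDerivAt_exp τ).hasDerivWithinAt
  have h3 := lintegral_image_eq_lintegral_abs_deriv_mul MeasurableSet.univ hder
    (Real.exp_injective.injOn) (fun y => ENNReal.ofReal (1 / y ^ 2 *
      Real.exp (-(ρ * ((y ^ 2 + 1) / (2 * y)))) * √(2 * Real.pi * y / ρ)))
  rw [image_univ, Real.range_exp] at h3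
  rw [h3, Measure.restrict_univ]
  have h4 : ∀ τ : ℝ, ENNReal.ofReal |Real.exp τ| * ENNReal.ofReal (1 / Real.exp τ ^ 2 *
      Real.exp (-(ρ * ((Real.exp τ ^ 2 + 1) / (2 * Real.exp τ)))) *
        √(2 * Real.pi * Real.exp τ / ρ)) =
      ENNReal.ofReal √(2 * Real.pi / ρ) *
        ENNReal.ofReal (Real.exp (-τ / 2) * Real.exp (-(ρ * Real.cosh τ))) := by
    intro τ
    have he := Real.exp_pos τ
    rw [abs_of_pos he, ← ENNReal.ofReal_mul he.le, ← ENNReal.ofReal_mul (by positivity)]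
    congr 1
    have e1 : (Real.exp τ ^ 2 + 1) / (2 * Real.exp τ) = Real.cosh τ := by
      rw [Real.cosh_eq, Real.exp_neg]
      field_simp
    have e2 : √(2 * Real.pi * Real.exp τ / ρ) = √(2 * Real.pi / ρ) * Real.exp (τ / 2) := by
      have : 2 * Real.pi * Real.exp τ / ρ = 2 * Real.pi / ρ * (Real.exp (τ / 2)) ^ 2 := by
        rw [← Real.exp_nat_mul]
        push_cast
        rw [mul_div_cancel₀ τ (two_ne_zero' ℝ)]
        ring
      rw [this, Real.sqrt_mul (by positivity), Real.sqrt_sq (Real.exp_pos _).le]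
    have e3 : Real.exp τ * (1 / Real.exp τ ^ 2) * Real.exp (τ / 2) = Real.exp (-τ / 2) := by
      have h5 : Real.exp τ * (1 / Real.exp τ ^ 2) = Real.exp (-τ) := by
        rw [Real.exp_neg]
        field_simp
      rw [h5, ← Real.exp_add]
      congr 1
      ring
    rw [e1, e2, ← e3]
    ring
  simp only [h4]
  rw [lintegral_const_mul _ (by fun_prop), lint_half' hρ, ← ENNReal.ofReal_mul (by positivity)]
  congr 1
  have h5 : √(2 * Real.pi / ρ) * (√2 * √(Real.pi / ρ)) = 2 * Real.pi / ρ := by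
    rw [← Real.sqrt_mul (by norm_num)]
    have : 2 * (Real.pi / ρ) = 2 * Real.pi / ρ := by ring
    rw [this]
    exact Real.mul_self_sqrt (by positivity)
  calc √(2 * Real.pi / ρ) * (√2 * Real.exp (-ρ) * √(Real.pi / ρ))
      = √(2 * Real.pi / ρ) * (√2 * √(Real.pi / ρ)) * Real.exp (-ρ) := by ring
    _ = _ := by rw [h5]; ring

end

end Pool.Agent.H75.SE
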