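import Pool.Agent.H75.SE.KPhi

/-! # The automorphic kernel as a vector -/

set_option autoImplicit false

open UpperHalfPlane MeasureTheory Metric Filter Set ModularGroup CongruenceSubgroup
open scoped MatrixGroups ENNReal Modular Topology NNReal ComplexConjugate

namespace Pool.Agent.H75.SE

open Pool.Agent.H369R2 Pool.Agent.N799.DT Pool.Agent.N799.DT.OrthAux

noncomputable section

variable {N : ℕ} {t : ℝ}

lemma gt_le {x : ℝ} (ht : 0 < t) (hx : 2 ≤ x) :
    gt t x ≤ Real.pi / t * Real.exp (-(t * x)) := by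
  unfold gt
  have hx0 : 0 < x := by linarith
  rw [div_le_iff₀ (by positivity)]
  have h1 := Real.exp_pos (-(t * x))
  have e : Real.pi / t * Real.exp (-(t * x)) * (t * x) = Real.pi * Real.exp (-(t * x)) * x := by
    field_simp
  rw [e]
  have h2 := Real.pi_pos
  have h3 : 0 < Real.pi * Real.exp (-(t * x)) := by positivity
  nlinarith

lemma summable_gt (ht : 0 < t) : Summable fun γ : SL(2, ℤ) => gt t (mm γ) :=
  Summable.of_nonneg_of_le (fun γ => gt_nonneg ht (mm_pos γ)) (fun γ => gt_le ht (two_le_mm γ))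
    ((summable_exp_mm ht).mul_left _)

lemma summable_gtN (ht : 0 < t) : Summable fun γ : Gamma N => gt t (mm γ) :=
  (summable_gt ht).comp_injective Subtype.val_injective

/-- the squared norm of the kernel -/
def S0 (N : ℕ) (t : ℝ) : ℝ := 2 * ∑' γ : Gamma N, gt t (mm γ)

/-- the integral of the kernel -/
def P1 (t : ℝ) : ℝ := 4 * Real.pi * Real.exp (-t) / t

/-- the area -/
def VN (N : ℕ) : ℝ := (nu N Set.univ).toReal

lemma S0_nonneg (ht : 0 < t) : 0 ≤ S0 N t :=
  mul_nonneg (by norm_num) (tsum_nonneg fun γ => gt_nonneg ht (mm_pos _))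

lemma lint_phi_sq' (ht : 0 < t) : ∫⁻ w, ENNReal.ofReal (phi N t w) ^ 2 ∂(nu N) =
    ENNReal.ofReal (S0 N t) := by
  rw [lint_phi_sq ht, ← ENNReal.ofReal_tsum_of_nonneg (fun γ => gt_nonneg ht (mm_pos _))
    (summable_gtN ht)]
  have e2 : (2 : ℝ≥0∞) = ENNReal.ofReal 2 := by simp
  rw [e2, ← ENNReal.ofReal_mul (by norm_num)]
  rfl

/-- the automorphic kernel as a vector -/
def PH (N : ℕ) (t : ℝ) (ht : 0 < t) : LW N :=
  ⟨fun w => (phi N t w : ℂ), Complex.continuous_ofReal.comp (phi_cont ht),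
    fun δ hδ z => by simp only [phi_inv δ hδ], by
    have h : ∀ w : ℍ, ‖(phi N t w : ℂ)‖ₑ ^ 2 = ENNReal.ofReal (phi N t w) ^ 2 := by
      intro w
      rw [enorm_sq_eq, Complex.norm_real, Real.norm_of_nonneg (phi_nonneg w),
        ENNReal.ofReal_pow (phi_nonneg w)]
    simp only [h]
    rw [lint_phi_sq' ht]
    exact ENNReal.ofReal_ne_top⟩

lemma PH_apply (ht : 0 < t) (w : ℍ) : (PH N t ht : ℍ → ℂ) w = (phi N t w : ℂ) := rfl

lemma norm_PH (ht : 0 < t) : ‖PH N t ht‖ ^ 2 = S0 N t := by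
  have h1 := LW.lint_sq (PH N t ht)
  have h : ∀ w : ℍ, ‖(PH N t ht : ℍ → ℂ) w‖ₑ ^ 2 = ENNReal.ofReal (phi N t w) ^ 2 := by
    intro w
    rw [PH_apply, enorm_sq_eq, Complex.norm_real, Real.norm_of_nonneg (phi_nonneg w),
      ENNReal.ofReal_pow (phi_nonneg w)]
  simp only [h] at h1
  rw [lint_phi_sq' ht] at h1
  exact ((ENNReal.ofReal_eq_ofReal_iff (S0_nonneg ht) (by positivity)).1 h1).symm

lemma inner_real {u v : LW N} {f g : ℍ → ℝ} (hu : ∀ z, (u : ℍ → ℂ) z = (f z : ℂ))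
    (hv : ∀ z, (v : ℍ → ℂ) z = (g z : ℂ)) :
    inner ℂ u v = ((∫ z, f z * g z ∂(nu N) : ℝ) : ℂ) := by
  rw [LW.inner_def, ← integral_complex_ofReal]
  congr 1
  ext z
  rw [hu, hv, Complex.conj_ofReal]
  push_cast
  rfl

lemma integral_toReal {f : ℍ → ℝ} (hf : Continuous f) (h0 : ∀ z, 0 ≤ f z) :
    ∫ z, f z ∂(nu N) = (∫⁻ z, ENNReal.ofReal (f z) ∂(nu N)).toReal :=
  integral_eq_lintegral_of_nonneg_ae (.of_forall h0) hf.aestronglyMeasurable

lemma inner_one_PH [NeZero N] (ht : 0 < t) : inner ℂ (one N) (PH N t ht) = (P1 t : ℂ) := by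
  rw [inner_real (f := fun _ => 1) (g := phi N t) (fun z => by simp [one]) fun z => rfl]
  simp only [one_mul]
  rw [integral_toReal (phi_cont ht) phi_nonneg, lint_phi ht, ENNReal.toReal_ofReal (by positivity)]
  rfl

lemma inner_one_one [NeZero N] : inner ℂ (one N) (one N) = (VN N : ℂ) := by
  rw [inner_real (f := fun _ => 1) (g := fun _ => 1) (fun z => by simp [one]) (fun z => by simp [one])]
  simp only [one_mul, integral_const, smul_eq_mul, mul_one]
  rfl

/-- the averages of the kernel function -/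
def Ag (R t : ℝ) (p : ℍ) : ℝ := Av R (fun v => gt t (mz v I)) p

lemma cont_mz : Continuous fun v : ℍ => mz v I := by
  unfold mz
  have h1 : Continuous fun v : ℍ => dist v I := continuous_id.dist continuous_const
  exact (continuous_const.add (continuous_const.mul (Real.continuous_cosh.comp h1))).sqrt

lemma cont_gt (ht : 0 < t) : Continuous fun v : ℍ => gt t (mz v I) := by
  unfold gt
  refine Continuous.div ?_ (continuous_const.mul cont_mz) fun v => ?_
  · exact continuous_const.mul (Real.continuous_exp.comp (continuous_const.mul cont_mz).neg)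
  · have := mz_pos v I
    positivity

lemma Ag_nonneg (R : ℝ) (ht : 0 < t) (p : ℍ) : 0 ≤ Ag R t p := by
  unfold Ag Av
  have := bv_nonneg R
  exact smul_nonneg (by positivity) (integral_nonneg fun w => gt_nonneg ht (mz_pos _ _))

lemma ofReal_Ag {R : ℝ} (hR : 0 < R) (ht : 0 < t) (p : ℍ) :
    ENNReal.ofReal (Ag R t p) = Ap R (fun v => ENNReal.ofReal (gt t (mz v I))) p :=
  ofReal_Av' hR (cont_gt ht) (fun _ => gt_nonneg ht (mz_pos _ _)) p

/-- the Rayleigh quotient of the kernel -/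
def SR (N : ℕ) (R t : ℝ) : ℝ := 2 * ∑' γ : Gamma N, Ag R t ((γ : SL(2, ℤ)) • (I : ℍ))

lemma inner_LA_PH {R : ℝ} (hR : 0 < R) (ht : 0 < t) :
    inner ℂ (LA N R hR (PH N t ht)) (PH N t ht) = (SR N R t : ℂ) := by
  have hA : ∀ z, (LA N R hR (PH N t ht) : ℍ → ℂ) z = ((Av R (phi N t) z : ℝ) : ℂ) := by
    intro z
    rw [LA_apply]
    unfold Av
    have : ∫ w in closedBall z R, (PH N t ht : ℍ → ℂ) w =
        ((∫ w in closedBall z R, phi N t w : ℝ) : ℂ) := by
      rw [← integral_complex_ofReal]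
      rfl
    rw [this, Complex.real_smul, smul_eq_mul]
    push_cast
    rfl
  have hc := phi_cont (N := N) ht
  have hAc : Continuous (Av R (phi N t)) := cont_Av hc
  have hA0 : ∀ z, 0 ≤ Av R (phi N t) z := by
    intro z
    unfold Av
    have := bv_nonneg R
    exact smul_nonneg (by positivity) (integral_nonneg fun w => phi_nonneg w)
  rw [inner_real hA fun z => PH_apply ht z]
  congr 1
  have hmc : Continuous fun z => Av R (phi N t) z * phi N t z := hAc.mul hc
  rw [integral_toReal hmc fun z => mul_nonneg (hA0 z) (phi_nonneg z)]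
  have h1 : ∀ z, ENNReal.ofReal (Av R (phi N t) z * phi N t z) =
      Ap R (fun v => ENNReal.ofReal (phi N t v)) z * ENNReal.ofReal (phi N t z) := by
    intro z
    rw [ENNReal.ofReal_mul (hA0 z), ofReal_Av' hR hc phi_nonneg]
  simp only [h1]
  rw [lint_Ap_phi hR ht, ENNReal.toReal_mul, ENNReal.toReal_ofNat]
  unfold SR
  congr 1
  simp only [← ofReal_Ag hR ht]
  rw [ENNReal.tsum_toReal_eq fun γ => ENNReal.ofReal_ne_top]
  congr 1
  ext γ
  rw [ENNReal.toReal_ofReal (Ag_nonneg R ht _)]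

/-- the mean zero part of the kernel -/
def PZ (N : ℕ) [NeZero N] (t : ℝ) (ht : 0 < t) : LW N :=
  PH N t ht - ((P1 t / VN N : ℝ) : ℂ) • one N

lemma VN_pos [NeZero N] : 0 < VN N :=
  ENNReal.toReal_pos (nu_univ_ne_zero N (NeZero.ne N)) (nu_univ_ne_top N (NeZero.ne N))

lemma PZ_mem [NeZero N] (ht : 0 < t) : PZ N t ht ∈ LZ N := by
  rw [mem_LZ]
  unfold PZ
  rw [inner_sub_right, inner_smul_right, inner_one_PH, inner_one_one]
  have := (VN_pos (N := N)).ne'
  rw [← Complex.ofReal_mul, div_mul_cancel₀ _ this, sub_self]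

lemma norm_PZ [NeZero N] (ht : 0 < t) : ‖PZ N t ht‖ ^ 2 = S0 N t - P1 t ^ 2 / VN N := by
  have h0 := PZ_mem (N := N) ht
  rw [mem_LZ] at h0
  have h1 : PH N t ht = PZ N t ht + ((P1 t / VN N : ℝ) : ℂ) • one N := by
    unfold PZ
    rw [sub_add_cancel]
  have h2 := norm_PH (N := N) ht
  have hV := (VN_pos (N := N)).ne'
  have h3 : ‖PH N t ht‖ ^ 2 = ‖PZ N t ht‖ ^ 2 + ‖((P1 t / VN N : ℝ) : ℂ) • one N‖ ^ 2 := by
    have h4 : inner ℂ (PZ N t ht) (((P1 t / VN N : ℝ) : ℂ) • one N) = 0 := by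
      rw [inner_smul_right, ← inner_conj_symm, h0, map_zero, mul_zero]
    have h5 := norm_add_sq (𝕜 := ℂ) (PZ N t ht) (((P1 t / VN N : ℝ) : ℂ) • one N)
    rw [h4, map_zero, mul_zero, add_zero, ← h1] at h5
    exact h5
  have h6 : ‖one N‖ ^ 2 = VN N := by
    have h7 : ((‖one N‖ ^ 2 : ℝ) : ℂ) = (VN N : ℂ) := by
      rw [← inner_one_one, inner_self_eq_norm_sq_to_K]
      push_cast
      rfl
    exact_mod_cast h7
  rw [norm_smul, mul_pow, h6, Complex.norm_real, Real.norm_eq_abs, sq_abs, h2] at h3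
  have h8 : (P1 t / VN N) ^ 2 * VN N = P1 t ^ 2 / VN N := by field_simp
  linarith

lemma inner_LA_PZ [NeZero N] {R : ℝ} (hR : 0 < R) (ht : 0 < t) :
    (inner ℂ (LA N R hR (PZ N t ht)) (PZ N t ht)).re = SR N R t - P1 t ^ 2 / VN N := by
  have hV := (VN_pos (N := N)).ne'
  set c : ℝ := P1 t / VN N with hc
  have h1 : LA N R hR (PZ N t ht) = LA N R hR (PH N t ht) - (c : ℂ) • one N := by
    unfold PZ
    rw [map_sub, map_smul, LA_one]
  have h2 : inner ℂ (LA N R hR (PZ N t ht)) (PZ N t ht) =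
      inner ℂ (LA N R hR (PZ N t ht)) (PH N t ht) := by
    have h3 : inner ℂ (LA N R hR (PZ N t ht)) (one N) = 0 := by
      rw [LA_symm, LA_one, ← inner_conj_symm, mem_LZ.1 (PZ_mem ht), map_zero]
    conv_lhs => rw [show PZ N t ht = PH N t ht - (c : ℂ) • one N from rfl]
    rw [inner_sub_right, inner_smul_right]
    have h4 : LA N R hR (PH N t ht - (c : ℂ) • one N) = LA N R hR (PZ N t ht) := rfl
    rw [h4, h3, mul_zero, sub_zero]
  rw [h2, h1, inner_sub_left, inner_smul_left, inner_LA_PH, inner_one_PH, Complex.conj_ofReal,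
    ← Complex.ofReal_mul, ← Complex.ofReal_sub, Complex.ofReal_re]
  rw [hc]
  field_simp

/-- positivity -/
lemma S0_ge [NeZero N] (ht : 0 < t) : P1 t ^ 2 / VN N ≤ S0 N t := by
  have h := norm_PZ (N := N) ht
  have := sq_nonneg ‖PZ N t ht‖
  linarith

end

end Pool.Agent.H75.SE
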