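import Pool.Agent.H75.SE.Tay
import Pool.Agent.H75.SE.KG

/-! # Second order expansions of ball averages -/

set_option autoImplicit false

open UpperHalfPlane MeasureTheory Metric Filter Set
open scoped MatrixGroups ENNReal Modular Topology NNReal ComplexConjugate

namespace Pool.Agent.H75.SE

open Pool.Agent.H369R2 Pool.Agent.N799.DT Pool.Agent.N799.DT.OrthAux

noncomputable section

/-- second order Taylor formula in one variable -/
lemma taylor1 {h h' : ℝ → ℝ} {x₀ d₂ : ℝ} (h1 : ∀ᶠ x in 𝓝 x₀, HasDerivAt h (h' x) x)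
    (h2 : HasDerivAt h' d₂ x₀) {ε : ℝ} (hε : 0 < ε) :
    ∃ δ : ℝ, 0 < δ ∧ ∀ x : ℝ, |x - x₀| < δ →
      |h x - h x₀ - h' x₀ * (x - x₀) - d₂ / 2 * (x - x₀) ^ 2| ≤ ε * (x - x₀) ^ 2 := by
  have h4 := (hasDerivAt_iff_isLittleO.1 h2).def hε
  obtain ⟨δ, hδ, h5⟩ := Metric.eventually_nhds_iff.1 (h1.and h4)
  refine ⟨δ, hδ, fun x hx => ?_⟩
  set η := x - x₀ with hη
  have hnear : ∀ t ∈ Icc (0 : ℝ) 1, dist (x₀ + t * η) x₀ < δ := by
    intro t ht
    rw [Real.dist_eq, add_sub_cancel_left, abs_mul, abs_of_nonneg ht.1]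
    calc t * |η| ≤ 1 * |η| := by gcongr; exact ht.2
      _ < δ := by rw [one_mul]; exact hx
  have hder : ∀ t ∈ Icc (0 : ℝ) 1, HasDerivWithinAt
      (fun t : ℝ => h (x₀ + t * η) - t * (h' x₀ * η) - (t ^ 2 / 2) * (d₂ * η ^ 2))
      (h' (x₀ + t * η) * η - h' x₀ * η - t * (d₂ * η ^ 2)) (Icc 0 1) t := by
    intro t ht
    have hc : HasDerivAt (fun t : ℝ => x₀ + t * η) η t := by
      simpa using ((hasDerivAt_id t).mul_const η).const_add x₀
    have e1 : HasDerivAt (fun t : ℝ => h (x₀ + t * η)) (h' (x₀ + t * η) * η) t :=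
      (h5 (hnear t ht)).1.comp t hc
    have e2 : HasDerivAt (fun t : ℝ => t * (h' x₀ * η)) (h' x₀ * η) t := by
      simpa using (hasDerivAt_id t).mul_const (h' x₀ * η)
    have e3 : HasDerivAt (fun t : ℝ => (t ^ 2 / 2) * (d₂ * η ^ 2)) (t * (d₂ * η ^ 2)) t := by
      have e4 : HasDerivAt (fun t : ℝ => (t ^ 2 / 2 : ℝ)) t t := by
        have := ((hasDerivAt_id t).fun_pow 2).div_const 2
        simpa using this
      exact e4.mul_const _
    exact ((e1.sub e2).sub e3).hasDerivWithinAt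
  have hbound : ∀ t ∈ Ico (0 : ℝ) 1,
      ‖h' (x₀ + t * η) * η - h' x₀ * η - t * (d₂ * η ^ 2)‖ ≤ ε * η ^ 2 := by
    intro t ht
    have h6 := (h5 (hnear t ⟨ht.1, ht.2.le⟩)).2
    rw [add_sub_cancel_left, smul_eq_mul, Real.norm_eq_abs, Real.norm_eq_abs] at h6
    have e : h' (x₀ + t * η) * η - h' x₀ * η - t * (d₂ * η ^ 2) =
        (h' (x₀ + t * η) - h' x₀ - t * η * d₂) * η := by ring
    rw [e, Real.norm_eq_abs, abs_mul]
    calc |h' (x₀ + t * η) - h' x₀ - t * η * d₂| * |η| ≤ (ε * |t * η|) * |η| := by gcongr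
      _ ≤ (ε * (1 * |η|)) * |η| := by
          rw [abs_mul, abs_of_nonneg ht.1]
          gcongr
          exact ht.2.le
      _ = ε * η ^ 2 := by rw [one_mul, mul_assoc, ← sq, sq_abs]
  have hmain := norm_image_sub_le_of_norm_deriv_le_segment_01' hder hbound
  simp only [Real.norm_eq_abs] at hmain
  have e0 : h x - h x₀ - h' x₀ * η - d₂ / 2 * η ^ 2 =
      (h (x₀ + 1 * η) - 1 * (h' x₀ * η) - (1 ^ 2 / 2) * (d₂ * η ^ 2)) -
        (h (x₀ + 0 * η) - 0 * (h' x₀ * η) - (0 ^ 2 / 2) * (d₂ * η ^ 2)) := by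
    have : x₀ + 1 * η = x := by rw [hη]; ring
    rw [this]
    ring_nf
  rw [e0]
  exact hmain

/-- first order Taylor formula with a bound -/
lemma taylor1_bound {h h' h'' : ℝ → ℝ} {x₀ x M : ℝ} (h1 : ∀ y ∈ uIcc x₀ x, HasDerivAt h (h' y) y)
    (h2 : ∀ y ∈ uIcc x₀ x, HasDerivAt h' (h'' y) y) (hM : ∀ y ∈ uIcc x₀ x, |h'' y| ≤ M) :
    |h x - h x₀ - h' x₀ * (x - x₀)| ≤ M * (x - x₀) ^ 2 := by
  have hconv : Convex ℝ (uIcc x₀ x) := convex_uIcc x₀ x
  have hx₀ : x₀ ∈ uIcc x₀ x := left_mem_uIcc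
  have hx : x ∈ uIcc x₀ x := right_mem_uIcc
  have hb1 : ∀ y ∈ uIcc x₀ x, |h' y - h' x₀| ≤ M * |y - x₀| := by
    intro y hy
    have := hconv.norm_image_sub_le_of_norm_hasDerivWithin_le (f := h') (f' := h'') (C := M)
      (fun z hz => (h2 z hz).hasDerivWithinAt) (fun z hz => hM z hz) hx₀ hy
    simpa [Real.norm_eq_abs] using this
  have hM0 : 0 ≤ M := (abs_nonneg _).trans (hM x₀ hx₀)
  have hb2 : ∀ y ∈ uIcc x₀ x, ‖h' y - h' x₀‖ ≤ M * |x - x₀| := by
    intro y hy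
    refine (hb1 y hy).trans ?_
    have : |y - x₀| ≤ |x - x₀| := abs_sub_left_of_mem_uIcc hy
    gcongr
  have h3 := hconv.norm_image_sub_le_of_norm_hasDerivWithin_le
    (f := fun y => h y - h' x₀ * y) (f' := fun y => h' y - h' x₀) (C := M * |x - x₀|)
    (fun y hy => by
      have := (h1 y hy).sub ((hasDerivAt_id y).const_mul (h' x₀))
      rw [mul_one] at this
      exact this.hasDerivWithinAt) hb2 hx₀ hx
  rw [Real.norm_eq_abs, Real.norm_eq_abs] at h3
  have e : h x - h x₀ - h' x₀ * (x - x₀) = (h x - h' x₀ * x) - (h x₀ - h' x₀ * x₀) := by ring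
  rw [e]
  refine h3.trans (le_of_eq ?_)
  rw [mul_assoc, ← sq, sq_abs]

lemma Av_mono {r : ℝ} {f g : ℍ → ℝ} (hf : Continuous f) (hg : Continuous g) {p : ℍ}
    (h : ∀ v ∈ closedBall p r, f v ≤ g v) : Av r f p ≤ Av r g p := by
  unfold Av
  rw [smul_eq_mul, smul_eq_mul]
  have := bv_nonneg r
  have h1 := setIntegral_mono_on (intOn hf r p) (intOn hg r p) isClosed_closedBall.measurableSet h
  gcongr

lemma Av_abs_le {r : ℝ} {f g : ℍ → ℝ} (hf : Continuous f) (hg : Continuous g) {p : ℍ}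
    (h : ∀ v ∈ closedBall p r, |f v| ≤ g v) : |Av r f p| ≤ Av r g p := by
  rw [abs_le]
  constructor
  · have h1 := Av_mono (r := r) (p := p) hg.neg hf fun v hv => by
      have := (abs_le.1 (h v hv)).1
      exact this
    have h2 : Av r (-g) p = -Av r g p := by
      unfold Av
      have : ∫ w in closedBall p r, (-g) w = -∫ w in closedBall p r, g w := integral_neg _
      rw [this, smul_neg]
    rw [h2] at h1
    exact h1
  · exact Av_mono hf hg fun v hv => (abs_le.1 (h v hv)).2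

lemma Av_cmul {r : ℝ} (c : ℝ) (f : ℍ → ℝ) (p : ℍ) :
    Av r (fun v => c * f v) p = c * Av r f p := by
  unfold Av
  rw [integral_const_mul, smul_eq_mul, smul_eq_mul]
  ring

lemma Av_constR {r : ℝ} (hr : 0 < r) (c : ℝ) (p : ℍ) : Av r (fun _ : ℍ => c) p = c := by
  unfold Av
  rw [setIntegral_const, Measure.real, vol_eq, ENNReal.toReal_ofReal (bv_nonneg r), ← mul_smul,
    inv_mul_cancel₀ (bv_pos hr).ne', one_smul]

/-- expansion of an average of a composition -/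
lemma Av_taylor {X : ℍ → ℝ} (hX : Continuous X) {p : ℍ} {h : ℝ → ℝ}
    (hh : Continuous fun v => h (X v)) {d₁ d₂ : ℝ}
    (hT : ∀ ε : ℝ, 0 < ε → ∃ δ : ℝ, 0 < δ ∧ ∀ x : ℝ, |x - X p| < δ →
      |h x - h (X p) - d₁ * (x - X p) - d₂ / 2 * (x - X p) ^ 2| ≤ ε * (x - X p) ^ 2)
    {α β : ℝ} (hα : Tendsto (fun r => (Av r X p - X p) / m1 r) (𝓝[>] 0) (𝓝 α))
    (hβ : Tendsto (fun r => Av r (fun v => (X v - X p) ^ 2) p / m1 r) (𝓝[>] 0) (𝓝 β)) :
    Tendsto (fun r => (Av r (fun v => h (X v)) p - h (X p)) / m1 r) (𝓝[>] 0)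
      (𝓝 (d₁ * α + d₂ / 2 * β)) := by
  set E : ℍ → ℝ := fun v => h (X v) - h (X p) - d₁ * (X v - X p) - d₂ / 2 * (X v - X p) ^ 2 with hE
  have c1 : Continuous fun v => X v - X p := hX.sub continuous_const
  have c2 : Continuous fun v => (X v - X p) ^ 2 := c1.pow 2
  have c3 : Continuous fun v => h (X v) - h (X p) := hh.sub continuous_const
  have c4 : Continuous fun v => d₁ * (X v - X p) := continuous_const.mul c1
  have c5 : Continuous fun v => d₂ / 2 * (X v - X p) ^ 2 := continuous_const.mul c2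
  have c6 : Continuous fun v => h (X v) - h (X p) - d₁ * (X v - X p) := c3.sub c4
  have cE : Continuous E := c6.sub c5
  have hsplit : ∀ r : ℝ, 0 < r → Av r (fun v => h (X v)) p - h (X p) =
      d₁ * (Av r X p - X p) + d₂ / 2 * Av r (fun v => (X v - X p) ^ 2) p + Av r E p := by
    intro r hr
    rw [hE, Av_sub' c6 c5, Av_sub' c3 c4, Av_sub' hh continuous_const, Av_cmul, Av_cmul,
      Av_sub' hX continuous_const, Av_constR hr, Av_constR hr]
    ring
  have hEl : Tendsto (fun r => Av r E p / m1 r) (𝓝[>] 0) (𝓝 0) := by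
    rw [Metric.tendsto_nhdsWithin_nhds]
    intro ε hε
    obtain ⟨ρ₁, hρ₁, hb⟩ := Metric.tendsto_nhdsWithin_nhds.1 hβ 1 one_pos
    have hβ1 : 0 < |β| + 1 := by positivity
    obtain ⟨δ, hδ, hT'⟩ := hT (ε / (2 * (|β| + 1))) (by positivity)
    obtain ⟨ρ₂, hρ₂, hXc⟩ := Metric.continuousAt_iff.1 (hX.continuousAt (x := p)) δ hδ
    refine ⟨min ρ₁ ρ₂, lt_min hρ₁ hρ₂, fun r hr hrρ => ?_⟩
    have hr0 : 0 < r := hr
    have hm := m1_pos hr0
    have hr1 := lt_of_lt_of_le hrρ (min_le_left _ _)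
    have hr2 := lt_of_lt_of_le hrρ (min_le_right _ _)
    rw [Real.dist_eq, sub_zero, abs_of_pos hr0] at hr2
    have h1 := hb hr hr1
    rw [Real.dist_eq] at h1
    have h2 : Av r (fun v => (X v - X p) ^ 2) p / m1 r < |β| + 1 := by
      have := (abs_lt.1 h1).2
      have := le_abs_self β
      linarith
    have h3 : |Av r E p| ≤ ε / (2 * (|β| + 1)) * Av r (fun v => (X v - X p) ^ 2) p := by
      rw [← Av_cmul]
      refine Av_abs_le cE (continuous_const.mul c2) fun v hv => ?_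
      apply hT'
      have h4 : dist v p < ρ₂ := lt_of_le_of_lt (mem_closedBall.1 hv) hr2
      have h5 := hXc h4
      rwa [Real.dist_eq] at h5
    rw [Real.dist_eq, sub_zero, abs_div, abs_of_pos hm, div_lt_iff₀ hm]
    rw [div_lt_iff₀ hm] at h2
    calc |Av r E p| ≤ ε / (2 * (|β| + 1)) * Av r (fun v => (X v - X p) ^ 2) p := h3
      _ ≤ ε / (2 * (|β| + 1)) * ((|β| + 1) * m1 r) := by gcongr
      _ = ε / 2 * m1 r := by field_simp
      _ < ε * m1 r := by
        have : ε / 2 < ε := half_lt_self hε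
        gcongr
  have hsum := ((hα.const_mul d₁).add (hβ.const_mul (d₂ / 2))).add hEl
  rw [add_zero] at hsum
  refine hsum.congr' ?_
  filter_upwards [self_mem_nhdsWithin] with r hr
  rw [hsplit r hr]
  ring

/-! ### powers of the imaginary part -/

lemma Av_im_one_sq {r : ℝ} (hr : 0 < r) : Av r (fun w : ℍ => (w.im - 1) ^ 2) I = m1 r := by
  have e : ∀ w : ℍ, (w.im - 1) ^ 2 = w.im ^ 2 - (2 * w.im - 1) := fun w => by ring
  simp only [e]
  have c5 : Continuous fun w : ℍ => (w.im ^ 2 : ℝ) := continuous_im.pow 2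
  have c6 : Continuous fun w : ℍ => (2 * w.im : ℝ) := continuous_const.mul continuous_im
  have c7 : Continuous fun w : ℍ => (2 * w.im - 1 : ℝ) := c6.sub continuous_const
  rw [Av_sub' c5 c7, Av_sub' c6 continuous_const, Av_im_sq, Av_cmul, Av_im hr, Av_constR hr]
  unfold m1
  ring

lemma im_alpha : Tendsto (fun r => (Av r (fun w : ℍ => w.im) I - (I : ℍ).im) / m1 r) (𝓝[>] 0)
    (𝓝 0) := by
  refine tendsto_const_nhds.congr' ?_
  filter_upwards [self_mem_nhdsWithin] with r hr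
  rw [Av_im hr, I_im, sub_self, zero_div]

lemma im_beta : Tendsto (fun r => Av r (fun w : ℍ => (w.im - (I : ℍ).im) ^ 2) I / m1 r) (𝓝[>] 0)
    (𝓝 1) := by
  refine tendsto_const_nhds.congr' ?_
  filter_upwards [self_mem_nhdsWithin] with r hr
  rw [I_im, Av_im_one_sq hr, div_self (m1_pos hr).ne']

/-- `lam 0` near zero -/
lemma lam_zero_lim : Tendsto (fun r => (lam 0 r - 1) / m1 r) (𝓝[>] 0) (𝓝 (-(1 / 8))) := by
  have h1 : ∀ᶠ x in 𝓝 (1 : ℝ), HasDerivAt (fun x : ℝ => √x) (1 / (2 * √x)) x := by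
    filter_upwards [lt_mem_nhds (one_pos : (0 : ℝ) < 1)] with x hx
    exact Real.hasDerivAt_sqrt hx.ne'
  have h2 : HasDerivAt (fun x : ℝ => 1 / (2 * √x)) (-(1 / 4)) 1 := by
    have h3 : HasDerivAt (fun x : ℝ => 2 * √x) (2 * (1 / (2 * √1))) 1 :=
      (Real.hasDerivAt_sqrt one_ne_zero).const_mul 2
    have h4 := h3.inv (by simp)
    simp only [one_div]
    convert! h4 using 1
    norm_num
  have := Av_taylor (X := fun w : ℍ => w.im) continuous_im (p := I) (h := fun x => √x)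
    (continuous_im.sqrt) (d₁ := 1 / (2 * √1)) (d₂ := -(1 / 4))
    (fun ε hε => by
      obtain ⟨δ, hδ, h⟩ := taylor1 h1 h2 hε
      refine ⟨δ, hδ, fun x hx => ?_⟩
      rw [I_im] at hx ⊢
      exact h x hx) im_alpha im_beta
  have e : (1 / (2 * √1) * 0 + -(1 / 4) / 2 * 1 : ℝ) = -(1 / 8) := by norm_num
  rw [e] at this
  refine this.congr fun r => ?_
  rw [I_im, Real.sqrt_one]
  have : Av r (fun w : ℍ => √w.im) I = lam 0 r := by
    unfold Av lam
    rw [smul_eq_mul]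
    simp only [Real.sqrt_eq_rpow, add_zero]
  rw [this]

lemma Av_im_cube (r : ℝ) : Av r (fun w : ℍ => w.im ^ 3) I = lam (5 / 2) r := by
  unfold Av lam
  rw [smul_eq_mul]
  have : ∀ w : ℍ, w.im ^ (1 / 2 + 5 / 2 : ℝ) = w.im ^ 3 := fun w => by
    rw [show (1 / 2 + 5 / 2 : ℝ) = (3 : ℕ) by norm_num, Real.rpow_natCast]
  simp only [this]

/-- `lam (5/2)` near zero -/
lemma lam_five_lim : Tendsto (fun r => (lam (5 / 2) r - 1) / m1 r) (𝓝[>] 0) (𝓝 3) := by
  have h1 : ∀ᶠ x in 𝓝 (1 : ℝ), HasDerivAt (fun x : ℝ => x ^ 3) (3 * x ^ 2) x :=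
    .of_forall fun x => by simpa using hasDerivAt_pow 3 x
  have h2 : HasDerivAt (fun x : ℝ => 3 * x ^ 2) 6 1 := by
    have := (hasDerivAt_pow 2 (1 : ℝ)).const_mul 3
    convert! this using 1
    norm_num
  have := Av_taylor (X := fun w : ℍ => w.im) continuous_im (p := I) (h := fun x => x ^ 3)
    (continuous_im.pow 3) (d₁ := 3 * 1 ^ 2) (d₂ := 6)
    (fun ε hε => by
      obtain ⟨δ, hδ, h⟩ := taylor1 h1 h2 hε
      refine ⟨δ, hδ, fun x hx => ?_⟩
      rw [I_im] at hx ⊢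
      exact h x hx) im_alpha im_beta
  have e : (3 * 1 ^ 2 * 0 + 6 / 2 * 1 : ℝ) = 3 := by norm_num
  rw [e] at this
  refine this.congr fun r => ?_
  rw [I_im, one_pow, Av_im_cube]

lemma lam_five_bd {r : ℝ} (hr : 0 < r) (hr1 : r ≤ 1) :
    0 ≤ lam (5 / 2) r - 1 ∧ lam (5 / 2) r - 1 ≤ 5 * m1 r := by
  have e : lam (5 / 2) r - 1 = Av r (fun w : ℍ => (w.im - 1) ^ 2 * (w.im + 2)) I := by
    have e1 : ∀ w : ℍ, (w.im - 1) ^ 2 * (w.im + 2) = w.im ^ 3 - (3 * w.im - 2) := fun w => by ring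
    simp only [e1]
    have c5 : Continuous fun w : ℍ => (w.im ^ 3 : ℝ) := continuous_im.pow 3
    have c6 : Continuous fun w : ℍ => (3 * w.im : ℝ) := continuous_const.mul continuous_im
    have c7 : Continuous fun w : ℍ => (3 * w.im - 2 : ℝ) := c6.sub continuous_const
    rw [Av_sub' c5 c7, Av_sub' c6 continuous_const, Av_im_cube, Av_cmul, Av_im hr, Av_constR hr]
    ring
  have c1 : Continuous fun w : ℍ => (w.im - 1) ^ 2 := (continuous_im.sub continuous_const).pow 2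
  have c2 : Continuous fun w : ℍ => (w.im - 1) ^ 2 * (w.im + 2) :=
    c1.mul (continuous_im.add continuous_const)
  rw [e]
  constructor
  · have h1 := Av_mono (r := r) (p := I) (f := fun _ : ℍ => (0 : ℝ)) continuous_const c2
      (fun w _ => by have := w.im_pos; positivity)
    rwa [Av_constR hr] at h1
  · rw [← Av_im_one_sq hr, ← Av_cmul]
    refine Av_mono c2 (continuous_const.mul c1) fun w hw => ?_
    have h1 : w.im ≤ 3 := by
      have h2 := im_le_im_mul_exp_dist w I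
      rw [I_im, one_mul] at h2
      have h3 : dist w I ≤ 1 := (mem_closedBall.1 hw).trans hr1
      have h4 := Real.exp_le_exp.2 h3
      have h5 := Real.exp_one_lt_d9
      linarith
    have h2 := sq_nonneg (w.im - 1)
    show (w.im - 1) ^ 2 * (w.im + 2) ≤ 5 * (w.im - 1) ^ 2
    nlinarith

end

end Pool.Agent.H75.SE
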