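import Pool.Agent.H75.SE.KCosh
import Pool.Agent.H75.SE.KLW
import Pool.Agent.H75.SE.Gap

/-! # The limit of the Rayleigh quotients -/

set_option autoImplicit false

open UpperHalfPlane MeasureTheory Metric Filter Set ModularGroup CongruenceSubgroup
open scoped MatrixGroups ENNReal Modular Topology NNReal ComplexConjugate

namespace Pool.Agent.H75.SE

open Pool.Agent.H369R2 Pool.Agent.N799.DT Pool.Agent.N799.DT.OrthAux

noncomputable section

variable {N : ℕ} {t r : ℝ}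

lemma ch_cont : Continuous fun v : ℍ => ch v := by
  simp only [ch_eq]
  exact Real.continuous_cosh.comp (continuous_id.dist continuous_const)

lemma ch2_cont : Continuous fun v : ℍ => ch2 v := by
  unfold ch2
  exact ((continuous_const.mul (ch_cont.pow 2)).sub continuous_const).div_const 2

lemma ch_one_le (v : ℍ) : 1 ≤ ch v := by rw [ch_eq]; exact Real.one_le_cosh _

lemma Av_ofReal {f : ℍ → ℝ} (p : ℍ) : Av r (fun v => (f v : ℂ)) p = ((Av r f p : ℝ) : ℂ) := by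
  unfold Av
  have : ∫ w in closedBall p r, (f w : ℂ) = ((∫ w in closedBall p r, f w : ℝ) : ℂ) := by
    rw [← integral_complex_ofReal]
  rw [this, Complex.real_smul, smul_eq_mul]
  push_cast
  rfl

lemma Av_ch (hr : 0 < r) (p : ℍ) : Av r (fun v : ℍ => ch v) p = lam (3 / 2) r * ch p := by
  have h := mv_all (3 / 2) (fun w => ((ch w : ℝ) : ℂ)) lap_ch p r hr
  rw [Av_ofReal] at h
  exact_mod_cast h

lemma Av_ch2 (hr : 0 < r) (p : ℍ) : Av r (fun v : ℍ => ch2 v) p = lam (5 / 2) r * ch2 p := by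
  have h := mv_all (5 / 2) (fun w => ((ch2 w : ℝ) : ℂ)) lap_ch2 p r hr
  rw [Av_ofReal] at h
  exact_mod_cast h

lemma Av_ch_sq (hr : 0 < r) (p : ℍ) :
    Av r (fun v : ℍ => ch v ^ 2) p = (2 * (lam (5 / 2) r * ch2 p) + 1) / 3 := by
  have e : ∀ v : ℍ, ch v ^ 2 = 2 / 3 * ch2 v - (-1 / 3) := fun v => by unfold ch2; ring
  simp only [e]
  have c1 : Continuous fun v : ℍ => 2 / 3 * ch2 v := continuous_const.mul ch2_cont
  rw [Av_sub' c1 continuous_const, Av_cmul, Av_ch2 hr, Av_constR hr]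
  ring

lemma Av_dev (hr : 0 < r) (p : ℍ) :
    Av r (fun v : ℍ => (ch v - ch p) ^ 2) p =
      ch p ^ 2 * ((lam (5 / 2) r - 1) - 2 * m1 r) - (lam (5 / 2) r - 1) / 3 := by
  have e : ∀ v : ℍ, (ch v - ch p) ^ 2 = ch v ^ 2 - (2 * ch p * ch v - ch p ^ 2) := fun v => by ring
  simp only [e]
  have c1 : Continuous fun v : ℍ => 2 * ch p * ch v := continuous_const.mul ch_cont
  have c2 : Continuous fun v : ℍ => 2 * ch p * ch v - ch p ^ 2 := c1.sub continuous_const
  have c3 : Continuous fun v : ℍ => ch v ^ 2 := ch_cont.pow 2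
  rw [Av_sub' c3 c2, Av_sub' c1 continuous_const, Av_cmul,
    Av_ch_sq hr, Av_ch hr, Av_constR hr]
  unfold m1 ch2
  ring

lemma ch_alpha (p : ℍ) : Tendsto (fun r => (Av r (fun v : ℍ => ch v) p - ch p) / m1 r) (𝓝[>] 0)
    (𝓝 (ch p)) := by
  refine tendsto_const_nhds.congr' ?_
  filter_upwards [self_mem_nhdsWithin] with r hr
  have := (m1_pos hr).ne'
  rw [Av_ch hr, eq_div_iff this]
  unfold m1
  ring

lemma ch_beta (p : ℍ) : Tendsto (fun r => Av r (fun v : ℍ => (ch v - ch p) ^ 2) p / m1 r)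
    (𝓝[>] 0) (𝓝 (ch p ^ 2 - 1)) := by
  have h1 := ((lam_five_lim.sub_const 2).const_mul (ch p ^ 2)).sub (lam_five_lim.div_const 3)
  have e : ch p ^ 2 * (3 - 2) - 3 / 3 = ch p ^ 2 - 1 := by ring
  rw [e] at h1
  refine h1.congr' ?_
  filter_upwards [self_mem_nhdsWithin] with r hr
  have := (m1_pos hr).ne'
  rw [Av_dev hr]
  field_simp

/-- first derivative of the profile -/
def G1 (t m : ℝ) : ℝ := 2 * Real.pi / t * (Real.exp (-(t * m)) * (-(t / m ^ 2 + 1 / m ^ 3)))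

/-- second derivative of the profile -/
def G2 (t m : ℝ) : ℝ :=
  2 * Real.pi / t * (Real.exp (-(t * m)) * (t ^ 2 / m ^ 3 + 3 * t / m ^ 4 + 3 / m ^ 5))

lemma hd_m {x : ℝ} (hx : 0 < x) : HasDerivAt (fun x : ℝ => √(2 + 2 * x)) (1 / √(2 + 2 * x)) x := by
  have h1 : HasDerivAt (fun x : ℝ => 2 + 2 * x) 2 x := by
    simpa using ((hasDerivAt_id x).const_mul 2).const_add 2
  have h2 := h1.sqrt (by positivity)
  convert! h2 using 1
  field_simp

lemma hd0 (ht : 0 < t) {x : ℝ} (hx : 0 < x) :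
    HasDerivAt (fun x : ℝ => gt t (√(2 + 2 * x))) (G1 t (√(2 + 2 * x))) x := by
  have hm : 0 < √(2 + 2 * x) := Real.sqrt_pos.2 (by positivity)
  have h0 := hd_m hx
  set m := √(2 + 2 * x) with hmd
  have h1 : HasDerivAt (fun y : ℝ => 2 * Real.pi / t * (Real.exp (-(t * y)) * y⁻¹))
      (2 * Real.pi / t * (Real.exp (-(t * m)) * (-t) * m⁻¹ + Real.exp (-(t * m)) * (-(m ^ 2)⁻¹))) m := by
    have h2 : HasDerivAt (fun y : ℝ => Real.exp (-(t * y))) (Real.exp (-(t * m)) * (-t)) m := by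
      have h3 := ((hasDerivAt_id m).const_mul t).neg.exp
      simpa using h3
    exact (h2.mul (hasDerivAt_inv hm.ne')).const_mul _
  have h4 := h1.comp x h0
  have e : (fun x : ℝ => gt t (√(2 + 2 * x))) =
      ((fun y : ℝ => 2 * Real.pi / t * (Real.exp (-(t * y)) * y⁻¹)) ∘ fun x : ℝ => √(2 + 2 * x)) := by
    funext y
    simp only [Function.comp_apply, gt]
    ring
  rw [e]
  convert! h4 using 1
  unfold G1
  field_simp
  ring

lemma hd1 (ht : 0 < t) {x : ℝ} (hx : 0 < x) :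
    HasDerivAt (fun x : ℝ => G1 t (√(2 + 2 * x))) (G2 t (√(2 + 2 * x))) x := by
  have hm : 0 < √(2 + 2 * x) := Real.sqrt_pos.2 (by positivity)
  have h0 := hd_m hx
  set m := √(2 + 2 * x) with hmd
  have h5 : HasDerivAt (fun y : ℝ => (y ^ 2)⁻¹) (-2 * (m ^ 3)⁻¹) m := by
    have := (hasDerivAt_pow 2 m).inv (pow_ne_zero 2 hm.ne')
    convert! this using 1
    field_simp
    norm_num
  have h6 : HasDerivAt (fun y : ℝ => (y ^ 3)⁻¹) (-3 * (m ^ 4)⁻¹) m := by
    have := (hasDerivAt_pow 3 m).inv (pow_ne_zero 3 hm.ne')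
    convert! this using 1
    field_simp
    norm_num
  have h1 : HasDerivAt
      (fun y : ℝ => 2 * Real.pi / t * (Real.exp (-(t * y)) * (-(t * (y ^ 2)⁻¹ + (y ^ 3)⁻¹))))
      (2 * Real.pi / t * (Real.exp (-(t * m)) * (-t) * (-(t * (m ^ 2)⁻¹ + (m ^ 3)⁻¹)) +
        Real.exp (-(t * m)) * (-(t * (-2 * (m ^ 3)⁻¹) + -3 * (m ^ 4)⁻¹)))) m := by
    have h2 : HasDerivAt (fun y : ℝ => Real.exp (-(t * y))) (Real.exp (-(t * m)) * (-t)) m := by
      have h3 := ((hasDerivAt_id m).const_mul t).neg.exp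
      simpa using h3
    exact (h2.mul ((h5.const_mul t).add h6).neg).const_mul _
  have h4 := h1.comp x h0
  have e : (fun x : ℝ => G1 t (√(2 + 2 * x))) =
      ((fun y : ℝ => 2 * Real.pi / t * (Real.exp (-(t * y)) * (-(t * (y ^ 2)⁻¹ + (y ^ 3)⁻¹)))) ∘
        fun x : ℝ => √(2 + 2 * x)) := by
    funext y
    simp only [Function.comp_apply, G1]
    ring
  rw [e]
  convert! h4 using 1
  unfold G2
  field_simp
  ring

/-- the limit of the normalised differences -/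
def LL (t m : ℝ) : ℝ := Real.pi / t * (Real.exp (-(t * m)) *
  ((t ^ 2 * m - t) / 4 - t ^ 2 / m - t / m ^ 2 - 1 / (4 * m) - 1 / m ^ 3))

lemma mz_ch (v : ℍ) : mz v I = √(2 + 2 * ch v) := by rw [ch_eq]; rfl

lemma Ag_lim (ht : 0 < t) (p : ℍ) :
    Tendsto (fun r => (Ag r t p - gt t (mz p I)) / m1 r) (𝓝[>] 0) (𝓝 (LL t (mz p I))) := by
  have hp := ch_one_le p
  have hp0 : 0 < ch p := by linarith
  have hc : Continuous fun v : ℍ => (fun x : ℝ => gt t (√(2 + 2 * x))) (ch v) := by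
    have := cont_gt ht
    simp only [mz_ch] at this
    exact this
  have := Av_taylor (X := fun v : ℍ => ch v) ch_cont (p := p)
    (h := fun x : ℝ => gt t (√(2 + 2 * x))) hc (d₁ := G1 t (√(2 + 2 * ch p)))
    (d₂ := G2 t (√(2 + 2 * ch p)))
    (fun ε hε => taylor1 (h' := fun x : ℝ => G1 t (√(2 + 2 * x)))
      (by filter_upwards [lt_mem_nhds hp0] with x hx using hd0 ht hx) (hd1 ht hp0) hε)
    (ch_alpha p) (ch_beta p)
  have hm : 0 < mz p I := mz_pos p I
  have hx : ch p = (mz p I ^ 2 - 2) / 2 := by rw [mz_sq, ch_eq]; ring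
  have e : G1 t (√(2 + 2 * ch p)) * ch p + G2 t (√(2 + 2 * ch p)) / 2 * (ch p ^ 2 - 1) =
      LL t (mz p I) := by
    rw [← mz_ch, hx]
    set m := mz p I
    unfold G1 G2 LL
    field_simp
    ring
  rw [e] at this
  refine this.congr fun r => ?_
  simp only [← mz_ch]
  rfl

/-- the constant of the domination -/
def Kt (t : ℝ) : ℝ := 2 * Real.pi / t * (t ^ 2 + 3 * t + 3)

lemma abs_G1_le (ht : 0 < t) {m : ℝ} (hm : 1 ≤ m) :
    |G1 t m| ≤ Kt t * Real.exp (-(t * m)) := by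
  have hm0 : 0 < m := by linarith
  have hp := Real.pi_pos
  unfold G1 Kt
  rw [abs_mul, abs_mul, abs_neg, abs_of_pos (by positivity : 0 < 2 * Real.pi / t),
    abs_of_pos (Real.exp_pos _), abs_of_pos (by positivity : 0 < t / m ^ 2 + 1 / m ^ 3), mul_assoc,
    mul_comm (Real.exp _)]
  have h1 : t / m ^ 2 ≤ t := div_le_self ht.le (one_le_pow₀ hm)
  have h2 : 1 / m ^ 3 ≤ 1 := div_le_self zero_le_one (one_le_pow₀ hm)
  have h3 : t / m ^ 2 + 1 / m ^ 3 ≤ t ^ 2 + 3 * t + 3 := by nlinarith [sq_nonneg t]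
  gcongr

lemma abs_G2_le (ht : 0 < t) {m : ℝ} (hm : 1 ≤ m) :
    |G2 t m| ≤ Kt t * Real.exp (-(t * m)) := by
  have hm0 : 0 < m := by linarith
  have hp := Real.pi_pos
  unfold G2 Kt
  rw [abs_of_pos (by positivity), mul_assoc, mul_comm (Real.exp _)]
  have h1 : t ^ 2 / m ^ 3 ≤ t ^ 2 := div_le_self (sq_nonneg t) (one_le_pow₀ hm)
  have h2 : 3 * t / m ^ 4 ≤ 3 * t := div_le_self (by positivity) (one_le_pow₀ hm)
  have h3 : 3 / m ^ 5 ≤ 3 := div_le_self (by norm_num) (one_le_pow₀ hm)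
  have h4 : t ^ 2 / m ^ 3 + 3 * t / m ^ 4 + 3 / m ^ 5 ≤ t ^ 2 + 3 * t + 3 := by linarith
  gcongr

lemma Ag_bd (ht : 0 < t) (p : ℍ) {r : ℝ} (hr : 0 < r) (hr1 : r ≤ 1) :
    |Ag r t p - gt t (mz p I)| ≤
      Kt t * (mz p I ^ 4 * Real.exp (-(t / 2 * mz p I))) * m1 r := by
  have hp := ch_one_le p
  have hp0 : 0 < ch p := by linarith
  have hm : 0 < mz p I := mz_pos p I
  have hm2 := mz_two_le p I
  have hx : ch p = (mz p I ^ 2 - 2) / 2 := by rw [mz_sq, ch_eq]; ring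
  have hK : 0 < Kt t := by
    have := Real.pi_pos
    unfold Kt
    positivity
  have hm1 := m1_pos hr
  set m := mz p I with hmd
  have hms : √(2 + 2 * ch p) = m := (mz_ch p).symm
  -- the pointwise bound
  have hpt : ∀ v ∈ closedBall p r,
      |(fun x : ℝ => gt t (√(2 + 2 * x))) (ch v) - gt t m - G1 t m * (ch v - ch p)| ≤
        Kt t * Real.exp (-(t / 2 * m)) * (ch v - ch p) ^ 2 := by
    intro v hv
    have hd : dist p I ≤ dist v I + 1 := by
      have h1 := dist_triangle p v I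
      have h2 : dist v p ≤ 1 := (mem_closedBall.1 hv).trans hr1
      rw [dist_comm p v] at h1
      linarith
    have h1 := cosh_le_exp_mul dist_nonneg hd dist_nonneg (zero_le_one)
    rw [← ch_eq, ← ch_eq] at h1
    have hv1 := ch_one_le v
    have h3 : ch p ≤ 3 * ch v := by
      have := Real.exp_one_lt_d9
      nlinarith
    have hlow : ∀ y ∈ uIcc (ch p) (ch v), 0 < y ∧ m / 2 ≤ √(2 + 2 * y) := by
      intro y hy
      have h4 : min (ch p) (ch v) ≤ y := hy.1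
      have h5 : ch p / 3 ≤ y := by
        refine le_trans (le_min ?_ ?_) h4 <;> linarith
      refine ⟨by linarith, Real.le_sqrt_of_sq_le ?_⟩
      rw [hx] at h5
      nlinarith
    have h6 := taylor1_bound (h := fun x : ℝ => gt t (√(2 + 2 * x)))
      (h' := fun x : ℝ => G1 t (√(2 + 2 * x))) (h'' := fun x : ℝ => G2 t (√(2 + 2 * x)))
      (x₀ := ch p) (x := ch v) (M := Kt t * Real.exp (-(t / 2 * m)))
      (fun y hy => hd0 ht (hlow y hy).1) (fun y hy => hd1 ht (hlow y hy).1) (fun y hy => by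
        have h7 := (hlow y hy).2
        refine (abs_G2_le ht (by linarith)).trans
          (mul_le_mul_of_nonneg_left (Real.exp_le_exp.2 ?_) hK.le)
        nlinarith)
    rw [hms] at h6
    exact h6
  have hc : Continuous fun v : ℍ => (fun x : ℝ => gt t (√(2 + 2 * x))) (ch v) := by
    have := cont_gt ht
    simp only [mz_ch] at this
    exact this
  have c1 : Continuous fun v : ℍ => (fun x : ℝ => gt t (√(2 + 2 * x))) (ch v) - gt t m :=
    hc.sub continuous_const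
  have c2 : Continuous fun v : ℍ => ch v - ch p := ch_cont.sub continuous_const
  have c3 : Continuous fun v : ℍ => G1 t m * (ch v - ch p) := continuous_const.mul c2
  have c4 : Continuous fun v : ℍ => Kt t * Real.exp (-(t / 2 * m)) * (ch v - ch p) ^ 2 :=
    continuous_const.mul (c2.pow 2)
  have h8 := Av_abs_le (r := r) (f := fun v : ℍ =>
    (fun x : ℝ => gt t (√(2 + 2 * x))) (ch v) - gt t m - G1 t m * (ch v - ch p)) (c1.sub c3) c4 hpt
  rw [Av_sub' c1 c3, Av_sub' hc continuous_const, Av_cmul, Av_cmul, Av_constR hr,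
    Av_sub' ch_cont continuous_const, Av_constR hr, Av_ch hr, Av_dev hr] at h8
  have hAg : Av r (fun v : ℍ => (fun x : ℝ => gt t (√(2 + 2 * x))) (ch v)) p = Ag r t p := by
    unfold Ag
    simp only [mz_ch]
  rw [hAg] at h8
  have e1 : lam (3 / 2) r * ch p - ch p = m1 r * ch p := by unfold m1; ring
  rw [e1] at h8
  obtain ⟨h50, h51⟩ := lam_five_bd hr hr1
  have h9 : ch p ^ 2 * (lam (5 / 2) r - 1 - 2 * m1 r) - (lam (5 / 2) r - 1) / 3 ≤
      3 * ch p ^ 2 * m1 r := by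
    have : ch p ^ 2 * (lam (5 / 2) r - 1 - 2 * m1 r) ≤ ch p ^ 2 * (3 * m1 r) := by
      gcongr
      linarith
    nlinarith
  have h10 := abs_G1_le ht (show 1 ≤ m by linarith)
  have hee : Real.exp (-(t * m)) ≤ Real.exp (-(t / 2 * m)) := by
    apply Real.exp_le_exp.2
    nlinarith
  have h11 : |G1 t m| ≤ Kt t * Real.exp (-(t / 2 * m)) :=
    h10.trans (by gcongr)
  have h12 : |Ag r t p - gt t m| ≤ |G1 t m * (m1 r * ch p)| +
      Kt t * Real.exp (-(t / 2 * m)) * (3 * ch p ^ 2 * m1 r) := by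
    have h13 : |Ag r t p - gt t m| ≤ |Ag r t p - gt t m - G1 t m * (m1 r * ch p)| +
        |G1 t m * (m1 r * ch p)| := by
      have := abs_add_le (Ag r t p - gt t m - G1 t m * (m1 r * ch p)) (G1 t m * (m1 r * ch p))
      rwa [sub_add_cancel] at this
    have h14 : Kt t * Real.exp (-(t / 2 * m)) *
        (ch p ^ 2 * (lam (5 / 2) r - 1 - 2 * m1 r) - (lam (5 / 2) r - 1) / 3) ≤
        Kt t * Real.exp (-(t / 2 * m)) * (3 * ch p ^ 2 * m1 r) := by gcongr
    linarith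
  rw [abs_mul, abs_of_pos (mul_pos hm1 hp0)] at h12
  have h15 : |G1 t m| * (m1 r * ch p) ≤ Kt t * Real.exp (-(t / 2 * m)) * (ch p ^ 2 * m1 r) := by
    have : m1 r * ch p ≤ ch p ^ 2 * m1 r := by
      rw [mul_comm, sq]
      have : ch p ≤ ch p * ch p := by nlinarith
      gcongr
    gcongr
  have h16 : 4 * ch p ^ 2 ≤ m ^ 4 := by
    rw [hx]
    nlinarith [sq_nonneg m]
  calc |Ag r t p - gt t m| ≤ Kt t * Real.exp (-(t / 2 * m)) * (ch p ^ 2 * m1 r) +
        Kt t * Real.exp (-(t / 2 * m)) * (3 * ch p ^ 2 * m1 r) := h12.trans (by gcongr)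
    _ = Kt t * ((4 * ch p ^ 2) * Real.exp (-(t / 2 * m))) * m1 r := by ring
    _ ≤ Kt t * (m ^ 4 * Real.exp (-(t / 2 * m))) * m1 r := by gcongr

/-- the limit of the quadratic forms -/
theorem SR_lim (ht : 0 < t) :
    Tendsto (fun r => (SR N r t - S0 N t) / m1 r) (𝓝[>] 0)
      (𝓝 (2 * ∑' γ : Gamma N, LL t (mm γ))) := by
  have hb : Summable fun γ : Gamma N =>
      Kt t * (mm (γ : SL(2, ℤ)) ^ 4 * Real.exp (-(t / 2 * mm (γ : SL(2, ℤ))))) :=
    ((summable_pow_mm (half_pos ht) 4).mul_left (Kt t)).comp_injective Subtype.val_injective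
  have hbd : ∀ r : ℝ, 0 < r → r ≤ 1 → ∀ γ : Gamma N,
      |(Ag r t ((γ : SL(2, ℤ)) • (I : ℍ)) - gt t (mm (γ : SL(2, ℤ)))) / m1 r| ≤
      Kt t * (mm (γ : SL(2, ℤ)) ^ 4 * Real.exp (-(t / 2 * mm (γ : SL(2, ℤ))))) := by
    intro r hr hr1 γ
    have h1 := Ag_bd ht ((γ : SL(2, ℤ)) • (I : ℍ)) hr hr1
    rw [mz_smul] at h1
    have hm := m1_pos hr
    rw [abs_div, abs_of_pos hm, div_le_iff₀ hm]
    exact h1
  have h1 := tendsto_tsum_of_dominated_convergence
    (f := fun (r : ℝ) (γ : Gamma N) =>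
      (Ag r t ((γ : SL(2, ℤ)) • (I : ℍ)) - gt t (mm (γ : SL(2, ℤ)))) / m1 r)
    (g := fun γ : Gamma N => LL t (mm γ)) (𝓕 := 𝓝[>] (0 : ℝ)) hb
    (fun γ => by
      have := Ag_lim ht ((γ : SL(2, ℤ)) • (I : ℍ))
      rw [mz_smul] at this
      exact this)
    (by
      filter_upwards [Ioc_mem_nhdsGT (zero_lt_one : (0 : ℝ) < 1)] with r hr γ
      rw [Real.norm_eq_abs]
      exact hbd r hr.1 hr.2 γ)
  refine (h1.const_mul 2).congr' ?_
  filter_upwards [Ioc_mem_nhdsGT (zero_lt_one : (0 : ℝ) < 1)] with r hr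
  have hm := m1_pos hr.1
  have hs1 : Summable fun γ : Gamma N =>
      (Ag r t ((γ : SL(2, ℤ)) • (I : ℍ)) - gt t (mm (γ : SL(2, ℤ)))) / m1 r :=
    Summable.of_norm_bounded hb fun γ => hbd r hr.1 hr.2 γ
  have hs2 : Summable fun γ : Gamma N =>
      Ag r t ((γ : SL(2, ℤ)) • (I : ℍ)) - gt t (mm (γ : SL(2, ℤ))) := by
    have := hs1.mul_right (m1 r)
    refine this.congr fun γ => ?_
    rw [div_mul_cancel₀ _ hm.ne']
  have hs3 : Summable fun γ : Gamma N => Ag r t ((γ : SL(2, ℤ)) • (I : ℍ)) := by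
    have := hs2.add (summable_gtN (N := N) ht)
    refine this.congr fun γ => ?_
    rw [sub_add_cancel]
  unfold SR S0
  rw [tsum_div_const, hs3.tsum_sub (summable_gtN ht)]
  ring

/-- Selberg's conjecture implies the limiting inequality -/
theorem ineqLL (hS : Selberg) [NeZero N] (ht : 0 < t) :
    2 * ∑' γ : Gamma N, LL t (mm γ) ≤ -(1 / 8) * (S0 N t - P1 t ^ 2 / VN N) := by
  refine le_of_tendsto_of_tendsto (SR_lim ht) (lam_zero_lim.mul_const _) ?_
  filter_upwards [self_mem_nhdsWithin] with r hr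
  have hr0 : 0 < r := hr
  have h1 := form_ineq hS hr0 (PZ_mem (N := N) ht)
  rw [inner_LA_PZ, norm_PZ] at h1
  have hm := m1_pos hr0
  rw [div_mul_eq_mul_div]
  gcongr
  linarith

end

end Pool.Agent.H75.SE
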