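import Pool.Agent.H75.SE.Ode
import Pool.Graph.R_pool_sql_team_seeded_63374d34.N799.DT.Eigen
import Pool.Graph.R_pool_sql_team_seeded_63374d34.N799.DT.Lam

/-! # A lower bound for the coefficients of the kernel -/

set_option autoImplicit false

open UpperHalfPlane MeasureTheory Metric Filter Set ModularGroup CongruenceSubgroup
open scoped MatrixGroups ENNReal Modular Topology NNReal ComplexConjugate

namespace Pool.Agent.H75.SE

open Pool.Agent.H369R2 Pool.Agent.N799.DT Pool.Agent.N799.DT.OrthAux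

noncomputable section

variable {N : ℕ} {t : ℝ}

/-- the weight of the layer cake formula -/
def wt (t s : ℝ) : ℝ := t * Real.sinh s * Real.exp (-(t * Real.cosh s))

lemma wt_nonneg (ht : 0 < t) {s : ℝ} (hs : 0 ≤ s) : 0 ≤ wt t s :=
  mul_nonneg (mul_nonneg ht.le (Real.sinh_nonneg_iff.2 hs)) (Real.exp_pos _).le

lemma wt_cont (t : ℝ) : Continuous (wt t) := by
  unfold wt
  exact (continuous_const.mul Real.continuous_sinh).mul
    (Real.continuous_exp.comp (continuous_const.mul Real.continuous_cosh).neg)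

lemma layer (ht : 0 < t) {d : ℝ} (hd : 0 ≤ d) :
    ∫⁻ s in Ioi d, ENNReal.ofReal (wt t s) = ENNReal.ofReal (Real.exp (-(t * Real.cosh d))) := by
  have h1 : ∀ s : ℝ, HasDerivAt (fun s => -Real.exp (-(t * Real.cosh s))) (wt t s) s := by
    intro s
    have h2 := ((Real.hasDerivAt_cosh s).const_mul t).neg.exp.neg
    unfold wt
    convert! h2 using 1
    simp only [Pi.neg_apply]
    ring
  have h2 : ∀ s ∈ Ioi d, 0 ≤ wt t s := fun s hs => wt_nonneg ht (hd.trans (le_of_lt hs))
  have h3 : Tendsto (fun s => -Real.exp (-(t * Real.cosh s))) atTop (𝓝 0) := by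
    have h4 : Tendsto Real.cosh atTop atTop := by
      refine tendsto_atTop_mono' atTop (f₁ := fun x : ℝ => Real.exp x / 2) ?_
        (Real.tendsto_exp_atTop.atTop_div_const (by norm_num))
      refine .of_forall fun x => ?_
      rw [Real.cosh_eq]
      have := Real.exp_pos (-x)
      linarith
    have h5 := (Real.tendsto_exp_neg_atTop_nhds_zero.comp (h4.const_mul_atTop ht)).neg
    rw [neg_zero] at h5
    exact h5
  have h6 := integral_Ioi_of_hasDerivAt_of_nonneg' (fun s _ => h1 s) h2 h3
  have h7 := integrableOn_Ioi_deriv_of_nonneg' (fun s _ => h1 s) h2 h3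
  rw [← ofReal_integral_eq_lintegral_ofReal h7
    ((ae_restrict_iff' measurableSet_Ioi).2 (.of_forall h2)), h6]
  simp

/-- integrals against the kernel in terms of ball integrals -/
lemma lint_kt_layer (ht : 0 < t) {Ψ : ℍ → ℝ≥0∞} (hΨ : Measurable Ψ) :
    ∫⁻ w, Ψ w * kt t I w =
      ∫⁻ s in Ioi (0 : ℝ), ENNReal.ofReal (wt t s) * ∫⁻ w in closedBall I s, Ψ w := by
  have hdist : Continuous fun w : ℍ => dist w I := continuous_id.dist continuous_const
  set S : Set (ℍ × ℝ) := {p | dist p.1 I ≤ p.2} with hS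
  have hSc : IsClosed S := isClosed_le (hdist.comp continuous_fst) continuous_snd
  have hwm : Measurable fun s : ℝ => ENNReal.ofReal (wt t s) := (wt_cont t).measurable.ennreal_ofReal
  -- inner integrals
  have e1 : ∀ w, Ψ w * kt t I w = ∫⁻ s in Ioi (0 : ℝ),
      S.indicator (fun p : ℍ × ℝ => ENNReal.ofReal (wt t p.2) * Ψ p.1) (w, s) := by
    intro w
    have h1 : ∀ s : ℝ, S.indicator (fun p : ℍ × ℝ => ENNReal.ofReal (wt t p.2) * Ψ p.1) (w, s) =
        (Ici (dist w I)).indicator (fun s => ENNReal.ofReal (wt t s) * Ψ w) s := by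
      intro s
      by_cases hw : dist w I ≤ s
      · rw [indicator_of_mem (show s ∈ Ici (dist w I) from hw),
          indicator_of_mem (show (w, s) ∈ S from hw)]
      · rw [indicator_of_notMem (show s ∉ Ici (dist w I) from hw),
          indicator_of_notMem (show (w, s) ∉ S from hw)]
    simp only [h1]
    rw [lintegral_indicator measurableSet_Ici, Measure.restrict_restrict measurableSet_Ici]
    set d := dist w I with hd
    have hd0 : 0 ≤ d := dist_nonneg
    have h2 : (Ici d ∩ Ioi 0 : Set ℝ) =ᵐ[volume] (Ioi d : Set ℝ) := by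
      have hsub : Ioi d ⊆ Ici d ∩ Ioi 0 := fun x hx =>
        ⟨(le_of_lt hx : d ≤ x), lt_of_le_of_lt hd0 hx⟩
      have hdiff : (Ici d ∩ Ioi 0) \ Ioi d ⊆ {d} := by
        rintro x ⟨⟨hx1, hx2⟩, hx3⟩
        simp only [mem_Ioi, not_lt] at hx3
        simp only [mem_singleton_iff]
        exact le_antisymm hx3 hx1
      have h6 : volume ((Ici d ∩ Ioi 0) \ Ioi d) = 0 := measure_mono_null hdiff (by simp)
      exact ae_eq_set.2 ⟨h6, by rw [Set.sdiff_eq_empty.2 hsub]; simp⟩
    rw [Measure.restrict_congr_set h2, lintegral_mul_const _ hwm, layer ht hd0, mul_comm]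
    unfold kt
    rw [dist_comm I w]
  simp only [e1]
  rw [lintegral_lintegral_swap]
  · apply lintegral_congr
    intro s
    have h1 : ∀ w, S.indicator (fun p : ℍ × ℝ => ENNReal.ofReal (wt t p.2) * Ψ p.1) (w, s) =
        (closedBall I s).indicator (fun w => ENNReal.ofReal (wt t s) * Ψ w) w := by
      intro w
      by_cases hw : dist w I ≤ s
      · rw [indicator_of_mem (show w ∈ closedBall I s from hw),
          indicator_of_mem (show (w, s) ∈ S from hw)]
      · rw [indicator_of_notMem (show w ∉ closedBall I s from hw),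
          indicator_of_notMem (show (w, s) ∉ S from hw)]
    simp only [h1]
    rw [lintegral_indicator isClosed_closedBall.measurableSet, lintegral_const_mul _ hΨ]
  · refine Measurable.aemeasurable (Measurable.indicator ?_ hSc.measurableSet)
    exact (hwm.comp measurable_snd).mul (hΨ.comp measurable_fst)

/-- unfolding an eigenfunction -/
lemma lint_eig (ht : 0 < t) {g : ℍ → ℝ} (hg : Continuous g)
    (hi : ∀ δ ∈ Gamma N, ∀ z, g (δ • z) = g z) {ν : ℝ}
    (hmv : ∀ R : ℝ, 0 < R → Av R g I = lam ν R * g I) (hl : ∀ R : ℝ, 0 ≤ lam ν R) (hI : 0 ≤ g I) :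
    ∫⁻ w, ENNReal.ofReal (g w) * ENNReal.ofReal (phi N t w) ∂(nu N) =
      ∫⁻ w, ENNReal.ofReal (-g w) * ENNReal.ofReal (phi N t w) ∂(nu N) +
        2 * ∫⁻ s in Ioi (0 : ℝ), ENNReal.ofReal (wt t s * (bv s * (lam ν s * g I))) := by
  have hm1 : Measurable fun w => ENNReal.ofReal (g w) := hg.measurable.ennreal_ofReal
  have hm2 : Measurable fun w => ENNReal.ofReal (-g w) := hg.neg.measurable.ennreal_ofReal
  rw [unfold_phi ht hm1 fun δ hδ z => by rw [hi δ hδ],
    unfold_phi ht hm2 fun δ hδ z => by rw [hi δ hδ], ← mul_add]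
  congr 1
  rw [lint_kt_layer ht hm1, lint_kt_layer ht hm2]
  have key : ∀ s ∈ Ioi (0 : ℝ), ENNReal.ofReal (wt t s) * ∫⁻ w in closedBall I s, ENNReal.ofReal (g w) =
      ENNReal.ofReal (wt t s * (bv s * (lam ν s * g I))) +
      ENNReal.ofReal (wt t s) * ∫⁻ w in closedBall I s, ENNReal.ofReal (-g w) := by
    intro s hs
    have hs0 : 0 < s := hs
    have h1 := hmv s hs0
    unfold Av at h1
    rw [smul_eq_mul, inv_mul_eq_iff_eq_mul₀ (bv_pos hs0).ne'] at h1
    have h2 := intOn hg s I
    rw [integral_eq_lintegral_pos_part_sub_lintegral_neg_part h2] at h1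
    have h3 : ∫⁻ w in closedBall I s, ENNReal.ofReal (g w) ≠ ∞ := by
      refine ((lintegral_mono fun w => ?_).trans_lt h2.2).ne
      exact Real.ofReal_le_enorm _
    have h4 : ∫⁻ w in closedBall I s, ENNReal.ofReal (-g w) ≠ ∞ := by
      refine ((lintegral_mono fun w => ?_).trans_lt h2.2).ne
      rw [← enorm_neg]
      exact Real.ofReal_le_enorm _
    have hb : 0 ≤ bv s * (lam ν s * g I) :=
      mul_nonneg (bv_nonneg s) (mul_nonneg (hl s) hI)
    have h5 : ∫⁻ w in closedBall I s, ENNReal.ofReal (g w) =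
        ENNReal.ofReal (bv s * (lam ν s * g I)) + ∫⁻ w in closedBall I s, ENNReal.ofReal (-g w) := by
      rw [← ENNReal.toReal_eq_toReal_iff' h3 (ENNReal.add_ne_top.2 ⟨ENNReal.ofReal_ne_top, h4⟩),
        ENNReal.toReal_add ENNReal.ofReal_ne_top h4, ENNReal.toReal_ofReal hb]
      linarith
    rw [h5, mul_add, ENNReal.ofReal_mul (wt_nonneg ht hs0.le)]
  rw [setLIntegral_congr_fun measurableSet_Ioi key, lintegral_add_right', add_comm]
  have h6 : (fun s => ENNReal.ofReal (wt t s) * ∫⁻ w in closedBall I s, ENNReal.ofReal (-g w)) =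
      fun s => ∫⁻ w, ({p : ℝ × ℍ | dist p.2 I ≤ p.1}).indicator
        (fun p : ℝ × ℍ => ENNReal.ofReal (wt t p.1) * ENNReal.ofReal (-g p.2)) (s, w) := by
    funext s
    have h1 : ∀ w, ({p : ℝ × ℍ | dist p.2 I ≤ p.1}).indicator
        (fun p : ℝ × ℍ => ENNReal.ofReal (wt t p.1) * ENNReal.ofReal (-g p.2)) (s, w) =
        (closedBall I s).indicator (fun w => ENNReal.ofReal (wt t s) * ENNReal.ofReal (-g w)) w := by
      intro w
      by_cases hw : dist w I ≤ s
      · rw [indicator_of_mem (show w ∈ closedBall I s from hw),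
          indicator_of_mem (show (s, w) ∈ {p : ℝ × ℍ | dist p.2 I ≤ p.1} from hw)]
      · rw [indicator_of_notMem (show w ∉ closedBall I s from hw),
          indicator_of_notMem (show (s, w) ∉ {p : ℝ × ℍ | dist p.2 I ≤ p.1} from hw)]
    simp only [h1]
    rw [lintegral_indicator isClosed_closedBall.measurableSet, lintegral_const_mul _ hm2]
  rw [h6]
  have hdist : Continuous fun w : ℍ => dist w I := continuous_id.dist continuous_const
  refine (Measurable.lintegral_prod_right' (ν := (volume : Measure ℍ)) ?_).aemeasurable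
  refine Measurable.indicator ?_ (isClosed_le (hdist.comp continuous_snd) continuous_fst).measurableSet
  exact (((wt_cont t).measurable.ennreal_ofReal).comp measurable_fst).mul (hm2.comp measurable_snd)

lemma lam_nonneg (ν R : ℝ) : 0 ≤ lam ν R := by
  unfold lam
  have := bv_nonneg R
  have h : 0 ≤ ∫ w in closedBall (I : ℍ) R, w.im ^ (1 / 2 + ν : ℝ) :=
    integral_nonneg fun w => Real.rpow_nonneg w.im_pos.le _
  positivity

/-- lower bound for the transform -/
lemma transform_lower : ∃ c : ℝ, 0 < c ∧ ∀ ν t : ℝ, 0 ≤ ν → ν ≤ 1 / 2 → 0 < t → t ≤ 1 →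
    ENNReal.ofReal (c * t ^ (-(1 / 2 + ν))) ≤
      ∫⁻ s in Ioi (0 : ℝ), ENNReal.ofReal (wt t s * (bv s * lam ν s)) := by
  obtain ⟨c, hc, hl⟩ := lam_lower
  refine ⟨Real.exp (-Real.exp 4) * (c / 8), by positivity, fun ν t hν hν' ht ht1 => ?_⟩
  set a : ℝ := -Real.log t + 3 with ha
  have hlog : Real.log t ≤ 0 := Real.log_nonpos ht.le ht1
  have ha3 : 3 ≤ a := by linarith
  have hea : Real.exp a = Real.exp 3 / t := by
    rw [ha, Real.exp_add, Real.exp_neg, Real.exp_log ht]
    field_simp
  have hpt : ∀ s ∈ Ioc a (a + 1), Real.exp (-Real.exp 4) * (c / 8) * t ^ (-(1 / 2 + ν)) ≤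
      wt t s * (bv s * lam ν s) := by
    intro s hs
    have hs1 : a ≤ s := hs.1.le
    have hs2 : s ≤ a + 1 := hs.2
    have hs3 : 3 ≤ s := by linarith
    have h1 : Real.exp a ≤ Real.exp s := Real.exp_le_exp.2 hs1
    have h2 : Real.exp s ≤ Real.exp 4 / t := by
      have : Real.exp s ≤ Real.exp (a + 1) := Real.exp_le_exp.2 hs2
      rw [Real.exp_add, hea] at this
      refine this.trans (le_of_eq ?_)
      rw [div_mul_eq_mul_div, ← Real.exp_add]
      norm_num
    have h3 : Real.cosh s ≤ Real.exp s := by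
      rw [Real.cosh_eq]
      have : Real.exp (-s) ≤ Real.exp s := Real.exp_le_exp.2 (by linarith)
      linarith
    have h4 : Real.exp s / 4 ≤ Real.sinh s := by
      rw [Real.sinh_eq]
      have h5 : Real.exp (-s) ≤ 1 := Real.exp_le_one_iff.2 (by linarith)
      have h6 : 2 ≤ Real.exp s := by
        have := Real.add_one_le_exp s
        linarith
      linarith
    have h7 : 1 ≤ t * Real.sinh s := by
      have h8 : 4 ≤ Real.exp 3 := by
        have := Real.add_one_le_exp (3 : ℝ)
        linarith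
      have h9 : 1 / t ≤ Real.sinh s := by
        refine le_trans ?_ h4
        refine le_trans ?_ (div_le_div_of_nonneg_right h1 (by norm_num))
        rw [hea, div_div, div_le_div_iff₀ ht (by positivity)]
        nlinarith
      calc (1 : ℝ) = t * (1 / t) := by field_simp
        _ ≤ t * Real.sinh s := by gcongr
    have h10 : Real.exp (-Real.exp 4) ≤ Real.exp (-(t * Real.cosh s)) := by
      apply Real.exp_le_exp.2
      have : t * Real.cosh s ≤ t * (Real.exp 4 / t) := by
        gcongr
        exact h3.trans h2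
      rw [mul_div_cancel₀ _ ht.ne'] at this
      linarith
    have h11 : Real.exp (-Real.exp 4) ≤ wt t s := by
      unfold wt
      have := Real.exp_pos (-(t * Real.cosh s))
      nlinarith
    have h12 := bv_lower hs3
    have h13 := hl ν s hν hν' hs3
    have h14 : c / 8 * t ^ (-(1 / 2 + ν)) ≤ bv s * lam ν s := by
      have h15 : t ^ (-(1 / 2 + ν)) ≤ Real.exp ((1 / 2 + ν) * s) := by
        rw [Real.rpow_def_of_pos ht]
        apply Real.exp_le_exp.2
        have : -Real.log t ≤ s := by linarith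
        nlinarith
      calc c / 8 * t ^ (-(1 / 2 + ν)) ≤ c / 8 * Real.exp ((1 / 2 + ν) * s) := by gcongr
        _ = (Real.exp s / 8) * (c * Real.exp ((ν - 1 / 2) * s)) := by
            rw [show (1 / 2 + ν) * s = s + (ν - 1 / 2) * s by ring, Real.exp_add]
            ring
        _ ≤ bv s * lam ν s := by
            have := bv_nonneg s
            gcongr
    calc Real.exp (-Real.exp 4) * (c / 8) * t ^ (-(1 / 2 + ν)) =
        Real.exp (-Real.exp 4) * (c / 8 * t ^ (-(1 / 2 + ν))) := by ring
      _ ≤ wt t s * (bv s * lam ν s) := by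
          have := Real.rpow_pos_of_pos ht (-(1 / 2 + ν))
          gcongr
          exact (Real.exp_pos _).le.trans h11
  have hsub : Ioc a (a + 1) ⊆ Ioi (0 : ℝ) := fun s hs => by
    have : a < s := hs.1
    simp only [mem_Ioi]
    linarith
  calc ENNReal.ofReal (Real.exp (-Real.exp 4) * (c / 8) * t ^ (-(1 / 2 + ν))) =
      ∫⁻ _ in Ioc a (a + 1), ENNReal.ofReal (Real.exp (-Real.exp 4) * (c / 8) * t ^ (-(1 / 2 + ν))) := by
        rw [lintegral_const]
        simp
    _ ≤ ∫⁻ s in Ioc a (a + 1), ENNReal.ofReal (wt t s * (bv s * lam ν s)) := by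
        refine setLIntegral_mono' measurableSet_Ioc fun s hs => ENNReal.ofReal_le_ofReal (hpt s hs)
    _ ≤ _ := lintegral_mono_set hsub

end

end Pool.Agent.H75.SE
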