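import Pool.Agent.H75.SE.KSum
import Pool.Agent.H75.SE.Swap

/-! # Inner products of the automorphic kernel -/

set_option autoImplicit false

open UpperHalfPlane MeasureTheory Metric Filter Set ModularGroup CongruenceSubgroup
open scoped MatrixGroups ENNReal Modular Topology NNReal ComplexConjugate

namespace Pool.Agent.H75.SE

open Pool.Agent.H369R2 Pool.Agent.N799.DT Pool.Agent.N799.DT.OrthAux

noncomputable section

variable {N : ℕ} {t : ℝ}

/-- unfolding against the automorphic kernel -/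
lemma unfold_phi (ht : 0 < t) {Ψ : ℍ → ℝ≥0∞} (hΨ : Measurable Ψ)
    (hi : ∀ δ ∈ Gamma N, ∀ z, Ψ (δ • z) = Ψ z) :
    ∫⁻ w, Ψ w * ENNReal.ofReal (phi N t w) ∂(nu N) = 2 * ∫⁻ w, Ψ w * kt t I w := by
  have h := nu_unfold N (F := fun w => Ψ w * kt t I w) (hΨ.mul (kt_meas t I))
  rw [← h]
  apply lintegral_congr
  intro w
  rw [ofReal_phi ht, ← ENNReal.tsum_mul_left]
  congr 1
  ext δ
  rw [hi δ δ.2]

lemma kt_smul (γ : SL(2, ℤ)) (z w : ℍ) : kt t z (γ • w) = kt t (γ⁻¹ • z) w := by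
  unfold kt
  have : dist z (γ • w) = dist (γ⁻¹ • z) w := by
    rw [← dist_smul_int γ (γ⁻¹ • z) w, smul_inv_smul]
  rw [this]

/-- point pair invariance -/
lemma Ap_kt_swap (R : ℝ) (p w : ℍ) : Ap R (kt t p) w = Ap R (kt t w) p := by
  obtain ⟨g, h1, h2⟩ := exists_swap p w
  unfold Ap
  congr 1
  have h3 := lint_ball_smul_real R g (kt t p) p
  rw [h1] at h3
  rw [h3]
  apply lintegral_congr
  intro v
  unfold kt
  have : dist p (g • v) = dist w v := by
    have h4 := dist_smul g w v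
    rwa [h2] at h4
  rw [this]

/-- the square of the norm -/
lemma lint_phi_sq (ht : 0 < t) : ∫⁻ w, ENNReal.ofReal (phi N t w) ^ 2 ∂(nu N) =
    2 * ∑' γ : Gamma N, ENNReal.ofReal (gt t (mm γ)) := by
  have h1 : ∀ w, ENNReal.ofReal (phi N t w) ^ 2 =
      ENNReal.ofReal (phi N t w) * ENNReal.ofReal (phi N t w) := fun w => sq _
  simp only [h1]
  rw [unfold_phi ht (phi_cont ht).measurable.ennreal_ofReal fun δ hδ z => by rw [phi_inv δ hδ]]
  congr 1
  simp only [ofReal_phi ht, ← ENNReal.tsum_mul_right]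
  rw [lintegral_tsum]
  · congr 1
    ext γ
    simp only [kt_smul]
    rw [G_eq ht]
    congr 2
    have : mz ((γ : SL(2, ℤ))⁻¹ • (I : ℍ)) I = mm γ := by rw [mz_smul, mm_inv]
    exact this
  · intro γ
    refine Measurable.aemeasurable ?_
    exact ((kt_meas t I).comp (cont_smul_int (γ : SL(2, ℤ))).measurable).mul (kt_meas t I)

lemma lint_phi (ht : 0 < t) : ∫⁻ w, ENNReal.ofReal (phi N t w) ∂(nu N) =
    ENNReal.ofReal (4 * Real.pi * Real.exp (-t) / t) := by
  have h := unfold_phi (N := N) ht (measurable_const (a := (1 : ℝ≥0∞))) fun _ _ _ => rfl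
  simp only [one_mul] at h
  rw [h, lint_kt ht]
  have e2 : (2 : ℝ≥0∞) = ENNReal.ofReal 2 := by simp
  rw [e2, ← ENNReal.ofReal_mul (by norm_num)]
  congr 1
  ring

lemma kt_meas2 (t : ℝ) : Measurable fun q : ℍ × ℍ => kt t q.2 q.1 * kt t I q.1 := by
  have h3 : Measurable fun q : ℍ × ℍ => kt t q.2 q.1 :=
    ((kt_cont t).comp (continuous_snd.prodMk continuous_fst)).measurable
  have h4 : Measurable fun q : ℍ × ℍ => kt t I q.1 := (kt_meas t I).comp measurable_fst
  exact h3.mul h4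

lemma kt_swap_int (t R : ℝ) (p : ℍ) :
    ∫⁻ w, (ENNReal.ofReal (bv R))⁻¹ * ∫⁻ v in closedBall p R, kt t v w * kt t I w =
      (ENNReal.ofReal (bv R))⁻¹ * ∫⁻ v in closedBall p R, ∫⁻ w, kt t v w * kt t I w := by
  have hm2 := kt_meas2 t
  have hm3 : Measurable fun w : ℍ => ∫⁻ v in closedBall p R, kt t v w * kt t I w :=
    Measurable.lintegral_prod_right' (ν := volume.restrict (closedBall p R))
      (f := fun q : ℍ × ℍ => kt t q.2 q.1 * kt t I q.1) hm2
  rw [lintegral_const_mul _ hm3]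
  congr 1
  exact lintegral_lintegral_swap (μ := (volume : Measure ℍ))
    (ν := (volume : Measure ℍ).restrict (closedBall p R))
    (f := fun w v : ℍ => kt t v w * kt t I w) hm2.aemeasurable

lemma Ap_kt_conv {R : ℝ} (ht : 0 < t) (p : ℍ) : ∫⁻ w, Ap R (kt t w) p * kt t I w =
    Ap R (fun v => ENNReal.ofReal (gt t (mz v I))) p := by
  have e1 : ∀ w, Ap R (kt t w) p * kt t I w =
      (ENNReal.ofReal (bv R))⁻¹ * ∫⁻ v in closedBall p R, kt t v w * kt t I w := by
    intro w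
    unfold Ap
    rw [mul_assoc, ← lintegral_mul_const _ (kt_meas t w)]
    simp only [kt_comm t w]
  simp only [e1]
  rw [kt_swap_int]
  unfold Ap
  congr 1
  apply lintegral_congr
  intro v
  exact G_eq ht v I

/-- averages of the kernel -/
lemma lint_Ap_phi {R : ℝ} (hR : 0 < R) (ht : 0 < t) :
    ∫⁻ w, Ap R (fun v => ENNReal.ofReal (phi N t v)) w * ENNReal.ofReal (phi N t w) ∂(nu N) =
      2 * ∑' γ : Gamma N, Ap R (fun v => ENNReal.ofReal (gt t (mz v I))) ((γ : SL(2, ℤ)) • (I : ℍ)) := by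
  have hm : Measurable fun v => ENNReal.ofReal (phi N t v) := (phi_cont ht).measurable.ennreal_ofReal
  rw [unfold_phi ht (measurable_Ap hR hm) fun δ hδ z => by
    rw [Ap_smul_int]
    congr 1
    funext v
    rw [phi_inv δ hδ]]
  congr 1
  have h1 : ∀ w, Ap R (fun v => ENNReal.ofReal (phi N t v)) w =
      ∑' γ : Gamma N, Ap R (kt t w) ((γ : SL(2, ℤ))⁻¹ • (I : ℍ)) := by
    intro w
    simp only [ofReal_phi ht, kt_smul]
    unfold Ap
    rw [lintegral_tsum fun γ => (kt_meas t _).aemeasurable, ← ENNReal.tsum_mul_left]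
    congr 1
    ext γ
    exact Ap_kt_swap R _ _
  simp only [h1, ← ENNReal.tsum_mul_right]
  rw [lintegral_tsum]
  · simp only [Ap_kt_conv ht]
    rw [← (Equiv.inv (Gamma N)).tsum_eq (fun γ : Gamma N =>
      Ap R (fun v => ENNReal.ofReal (gt t (mz v I))) ((γ : SL(2, ℤ)) • (I : ℍ)))]
    rfl
  · intro γ
    refine Measurable.aemeasurable ?_
    refine Measurable.mul ?_ (kt_meas t I)
    have : (fun w => Ap R (kt t w) ((γ : SL(2, ℤ))⁻¹ • (I : ℍ))) =
        Ap R (kt t ((γ : SL(2, ℤ))⁻¹ • (I : ℍ))) := by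
      funext w
      exact Ap_kt_swap R _ _
    rw [this]
    exact measurable_Ap hR (kt_meas t _)

end

end Pool.Agent.H75.SE
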