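import Pool.Agent.H75.SE.KBes

/-! # Residue classes -/

set_option autoImplicit false

open UpperHalfPlane MeasureTheory Metric Filter Set ModularGroup CongruenceSubgroup
open scoped MatrixGroups ENNReal Modular Topology NNReal ComplexConjugate

namespace Pool.Agent.H75.SE

open Pool.Agent.H369R2 Pool.Agent.N799.DT Pool.Agent.N799.DT.OrthAux

noncomputable section

variable {N : ℕ} {t : ℝ}

/-- unfolding against a translate of the automorphic kernel -/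
lemma unfold_phiB (δ : SL(2, ℤ)) (ht : 0 < t) {Ψ : ℍ → ℝ≥0∞} (hΨ : Measurable Ψ)
    (hi : ∀ γ ∈ Gamma N, ∀ z, Ψ (γ • z) = Ψ z) :
    ∫⁻ w, Ψ w * ENNReal.ofReal (phi N t (δ⁻¹ • w)) ∂(nu N) = 2 * ∫⁻ w, Ψ w * kt t (δ • (I : ℍ)) w := by
  have h := nu_unfold N (F := fun w => Ψ w * kt t (δ • (I : ℍ)) w) (hΨ.mul (kt_meas t _))
  rw [← h]
  apply lintegral_congr
  intro w
  rw [ofReal_phi ht, ← ENNReal.tsum_mul_left]
  rw [← (MulAut.conjNormal (H := Gamma N) δ⁻¹).toEquiv.tsum_eq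
    (fun γ : Gamma N => Ψ w * kt t I ((γ : SL(2, ℤ)) • δ⁻¹ • w))]
  congr 1
  ext γ
  rw [hi γ γ.2]
  congr 1
  have h1 : (((MulAut.conjNormal (H := Gamma N) δ⁻¹).toEquiv γ : Gamma N) : SL(2, ℤ)) =
      δ⁻¹ * γ * δ := by
    have := MulAut.conjNormal_apply (H := Gamma N) δ⁻¹ γ
    rw [inv_inv] at this
    exact this
  rw [h1, mul_smul, smul_inv_smul, mul_smul, kt_smul, inv_inv]

lemma phiB_inv (δ γ : SL(2, ℤ)) (hγ : γ ∈ Gamma N) (w : ℍ) :
    phi N t (δ⁻¹ • γ • w) = phi N t (δ⁻¹ • w) := by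
  have h1 : δ⁻¹ • γ • w = (δ⁻¹ * γ * δ) • δ⁻¹ • w := by
    rw [mul_smul, smul_inv_smul, mul_smul]
  rw [h1]
  apply phi_inv
  have := (inferInstance : (Gamma N).Normal).conj_mem γ hγ δ⁻¹
  rwa [inv_inv] at this

lemma phiB_cont (δ : SL(2, ℤ)) (ht : 0 < t) : Continuous fun w => phi N t (δ⁻¹ • w) :=
  (phi_cont ht).comp (cont_smul_int _)

/-- invariance of integrals over the upper half plane -/
lemma lint_smul (δ : SL(2, ℤ)) {F : ℍ → ℝ≥0∞} (hF : Measurable F) :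
    ∫⁻ w, F (δ • w) = ∫⁻ w, F w := (mp_int δ).lintegral_comp hF

lemma lint_phiB_sq (δ : SL(2, ℤ)) (ht : 0 < t) :
    ∫⁻ w, ENNReal.ofReal (phi N t (δ⁻¹ • w)) ^ 2 ∂(nu N) = ENNReal.ofReal (S0 N t) := by
  have hm : Measurable fun w => ENNReal.ofReal (phi N t (δ⁻¹ • w)) :=
    (phiB_cont δ ht).measurable.ennreal_ofReal
  have h1 : ∀ w, ENNReal.ofReal (phi N t (δ⁻¹ • w)) ^ 2 =
      ENNReal.ofReal (phi N t (δ⁻¹ • w)) * ENNReal.ofReal (phi N t (δ⁻¹ • w)) := fun w => sq _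
  simp only [h1]
  rw [unfold_phiB δ ht hm fun γ hγ z => by rw [phiB_inv δ γ hγ]]
  have hm2 : Measurable fun w => ENNReal.ofReal (phi N t (δ⁻¹ • w)) * kt t (δ • (I : ℍ)) w :=
    hm.mul (kt_meas t _)
  rw [← lint_smul δ hm2, ← lint_phi_sq' ht]
  have h2 : ∀ w, ENNReal.ofReal (phi N t w) ^ 2 =
      ENNReal.ofReal (phi N t w) * ENNReal.ofReal (phi N t w) := fun w => sq _
  simp only [h2]
  rw [unfold_phi ht (phi_cont ht).measurable.ennreal_ofReal fun γ hγ z => by rw [phi_inv γ hγ]]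
  congr 1
  apply lintegral_congr
  intro w
  rw [inv_smul_smul, kt_smul, inv_smul_smul]

/-- the translated kernel -/
def PHB (N : ℕ) (t : ℝ) (ht : 0 < t) (δ : SL(2, ℤ)) : LW N :=
  ⟨fun w => (phi N t (δ⁻¹ • w) : ℂ), Complex.continuous_ofReal.comp (phiB_cont δ ht),
    fun γ hγ z => by simp only [phiB_inv δ γ hγ], by
    have h : ∀ w : ℍ, ‖(phi N t (δ⁻¹ • w) : ℂ)‖ₑ ^ 2 = ENNReal.ofReal (phi N t (δ⁻¹ • w)) ^ 2 := by
      intro w
      rw [enorm_sq_eq, Complex.norm_real, Real.norm_of_nonneg (phi_nonneg _),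
        ENNReal.ofReal_pow (phi_nonneg _)]
    simp only [h]
    rw [lint_phiB_sq δ ht]
    exact ENNReal.ofReal_ne_top⟩

lemma PHB_apply (ht : 0 < t) (δ : SL(2, ℤ)) (w : ℍ) :
    (PHB N t ht δ : ℍ → ℂ) w = (phi N t (δ⁻¹ • w) : ℂ) := rfl

lemma norm_PHB (ht : 0 < t) (δ : SL(2, ℤ)) : ‖PHB N t ht δ‖ ^ 2 = S0 N t := by
  have h1 := LW.lint_sq (PHB N t ht δ)
  have h : ∀ w : ℍ, ‖(PHB N t ht δ : ℍ → ℂ) w‖ₑ ^ 2 =
      ENNReal.ofReal (phi N t (δ⁻¹ • w)) ^ 2 := by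
    intro w
    rw [PHB_apply, enorm_sq_eq, Complex.norm_real, Real.norm_of_nonneg (phi_nonneg _),
      ENNReal.ofReal_pow (phi_nonneg _)]
  simp only [h] at h1
  rw [lint_phiB_sq δ ht] at h1
  exact ((ENNReal.ofReal_eq_ofReal_iff (S0_nonneg ht) (by positivity)).1 h1).symm

lemma inner_one_PHB [NeZero N] (ht : 0 < t) (δ : SL(2, ℤ)) :
    inner ℂ (one N) (PHB N t ht δ) = (P1 t : ℂ) := by
  rw [inner_real (f := fun _ => 1) (g := fun w => phi N t (δ⁻¹ • w)) (fun z => by simp [one])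
    fun z => rfl]
  simp only [one_mul]
  rw [integral_toReal (phiB_cont δ ht) fun z => phi_nonneg _]
  have h := unfold_phiB (N := N) δ ht (measurable_const (a := (1 : ℝ≥0∞))) fun _ _ _ => rfl
  simp only [one_mul] at h
  rw [h, lint_kt ht]
  have e2 : (2 : ℝ≥0∞) = ENNReal.ofReal 2 := by simp
  have hpi := Real.pi_pos
  rw [e2, ← ENNReal.ofReal_mul (by norm_num), ENNReal.toReal_ofReal (by positivity)]
  unfold P1
  push_cast
  ring

/-- the sum over a coset -/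
def DB (N k : ℕ) (t : ℝ) (δ : SL(2, ℤ)) : ℝ := ∑' γ : Gamma N, dt k t (δ * γ)

lemma inner_PHB_PH (ht : 0 < t) (δ : SL(2, ℤ)) :
    inner ℂ (PHB N t ht δ) (PH N t ht) = ((4 * Real.pi / t * DB N 2 t δ : ℝ) : ℂ) := by
  rw [inner_real (f := fun w => phi N t (δ⁻¹ • w)) (g := phi N t) (fun z => rfl) fun z => rfl]
  congr 1
  have hcc : Continuous fun w => phi N t (δ⁻¹ • w) * phi N t w := (phiB_cont δ ht).mul (phi_cont ht)
  rw [integral_toReal hcc fun z => mul_nonneg (phi_nonneg _) (phi_nonneg _)]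
  have h1 : ∀ w, ENNReal.ofReal (phi N t (δ⁻¹ • w) * phi N t w) =
      ENNReal.ofReal (phi N t (δ⁻¹ • w)) * ENNReal.ofReal (phi N t w) := fun w =>
    ENNReal.ofReal_mul (phi_nonneg _)
  simp only [h1]
  rw [unfold_phi ht (phiB_cont δ ht).measurable.ennreal_ofReal
    fun γ hγ z => by rw [phiB_inv δ γ hγ]]
  simp only [ofReal_phi ht, ← ENNReal.tsum_mul_right]
  have h2 : ∀ (w : ℍ) (γ : Gamma N), kt t I ((γ : SL(2, ℤ)) • δ⁻¹ • w) =
      kt t ((δ * (γ : SL(2, ℤ))⁻¹) • (I : ℍ)) w := by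
    intro w γ
    rw [← mul_smul, kt_smul, mul_inv_rev, inv_inv]
  simp only [h2]
  have h5 : ∀ γ : Gamma N, AEMeasurable
      (fun w => kt t ((δ * (γ : SL(2, ℤ))⁻¹) • (I : ℍ)) w * kt t I w) :=
    fun γ => ((kt_meas t _).mul (kt_meas t I)).aemeasurable
  rw [lintegral_tsum h5]
  simp only [G_eq ht, mz_smul]
  rw [ENNReal.toReal_mul, ENNReal.toReal_ofNat, ENNReal.tsum_toReal_eq fun γ => ENNReal.ofReal_ne_top]
  unfold DB
  rw [← (Equiv.inv (Gamma N)).tsum_eq (fun γ : Gamma N => dt 2 t (δ * γ)), ← tsum_mul_left,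
    ← tsum_mul_left]
  congr 1
  ext γ
  rw [ENNReal.toReal_ofReal (gt_nonneg ht (mm_pos _))]
  have h3 : (((Equiv.inv (Gamma N)) γ : Gamma N) : SL(2, ℤ)) = (γ : SL(2, ℤ))⁻¹ := rfl
  rw [h3]
  unfold gt dt wk
  have := mm_pos (δ * (γ : SL(2, ℤ))⁻¹)
  field_simp
  norm_num

/-- uniform distribution in the residue classes from the variance -/
theorem residue [NeZero N] (ht : 0 < t) (δ : SL(2, ℤ)) :
    |DB N 2 t δ - 12 / idx N * (Real.exp (-(2 * t)) * t⁻¹)| ≤ aa N t := by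
  have hV := (VN_pos (N := N)).ne'
  have hpi := Real.pi_pos
  set c : ℝ := P1 t / VN N with hc
  set PB : LW N := PHB N t ht δ - (c : ℂ) • one N with hPB
  have h0 : inner ℂ (one N) (PZ N t ht) = 0 := mem_LZ.1 (PZ_mem ht)
  have h0B : inner ℂ (one N) PB = 0 := by
    rw [hPB, inner_sub_right, inner_smul_right, inner_one_PHB, inner_one_one, hc,
      ← Complex.ofReal_mul, div_mul_cancel₀ _ hV, sub_self]
  have hone : ‖one N‖ ^ 2 = VN N := by
    have h7 : ((‖one N‖ ^ 2 : ℝ) : ℂ) = (VN N : ℂ) := by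
      rw [← inner_one_one, inner_self_eq_norm_sq_to_K]
      push_cast
      rfl
    exact_mod_cast h7
  have hnB : ‖PB‖ ^ 2 = S0 N t - P1 t ^ 2 / VN N := by
    have h1 : PHB N t ht δ = PB + (c : ℂ) • one N := by
      rw [hPB, sub_add_cancel]
    have h3 : ‖PHB N t ht δ‖ ^ 2 = ‖PB‖ ^ 2 + ‖(c : ℂ) • one N‖ ^ 2 := by
      have h4 : inner ℂ PB ((c : ℂ) • one N) = 0 := by
        rw [inner_smul_right, ← inner_conj_symm, h0B, map_zero, mul_zero]
      have h5 := norm_add_sq (𝕜 := ℂ) PB ((c : ℂ) • one N)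
      rw [h4, map_zero, mul_zero, add_zero, ← h1] at h5
      exact h5
    rw [norm_PHB, norm_smul, mul_pow, hone, Complex.norm_real, Real.norm_eq_abs, sq_abs] at h3
    have h8 : c ^ 2 * VN N = P1 t ^ 2 / VN N := by
      rw [hc]
      field_simp
    linarith
  have hin : inner ℂ PB (PZ N t ht) = ((4 * Real.pi / t * DB N 2 t δ - P1 t ^ 2 / VN N : ℝ) : ℂ) := by
    rw [hPB, inner_sub_left, inner_smul_left, h0, mul_zero, sub_zero]
    unfold PZ
    rw [inner_sub_right, inner_smul_right, inner_PHB_PH, ← inner_conj_symm, inner_one_PHB,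
      Complex.conj_ofReal]
    rw [← Complex.ofReal_mul, ← Complex.ofReal_sub]
    congr 1
    ring
  have hcs := norm_inner_le_norm (𝕜 := ℂ) PB (PZ N t ht)
  rw [hin, Complex.norm_real, Real.norm_eq_abs] at hcs
  have hnn : ‖PB‖ * ‖PZ N t ht‖ = 4 * Real.pi / t * aa N t := by
    have h1 := norm_PZ (N := N) ht
    have h2 : ‖PB‖ = ‖PZ N t ht‖ := by
      have h3 : ‖PB‖ ^ 2 = ‖PZ N t ht‖ ^ 2 := by rw [hnB, h1]
      exact (sq_eq_sq₀ (norm_nonneg _) (norm_nonneg _)).1 h3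
    rw [h2, ← sq, h1, var_eq ht]
  rw [hnn] at hcs
  have hvar := var_eq (N := N) ht
  rw [S0_eq ht] at hvar
  have hP : P1 t ^ 2 / VN N = 4 * Real.pi / t * (12 / idx N * (Real.exp (-(2 * t)) * t⁻¹)) := by
    unfold aa at hvar
    linear_combination -hvar
  rw [hP, ← mul_sub, abs_mul, abs_of_pos (by positivity)] at hcs
  exact le_of_mul_le_mul_left hcs (by positivity)

end

end Pool.Agent.H75.SE
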