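import Pool.Agent.H75.SE.KG
import Pool.Agent.H75.SE.Comp

/-! # Sums over `SL(2, ℤ)` -/

set_option autoImplicit false

open UpperHalfPlane MeasureTheory Metric Filter Set ModularGroup CongruenceSubgroup
open scoped MatrixGroups ENNReal Modular Topology NNReal ComplexConjugate

namespace Pool.Agent.H75.SE

open Pool.Agent.H369R2

noncomputable section

/-- `√((a + d)² + (b - c)²)` -/
def mm (γ : SL(2, ℤ)) : ℝ :=
  √(((γ 0 0 : ℤ) + (γ 1 1 : ℤ) : ℝ) ^ 2 + ((γ 0 1 : ℤ) - (γ 1 0 : ℤ) : ℝ) ^ 2)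

lemma mm_sq (γ : SL(2, ℤ)) : mm γ ^ 2 = mnorm γ ^ 2 + 2 := by
  unfold mm mnorm
  rw [Real.sq_sqrt (by positivity), Real.sq_sqrt (by positivity)]
  have hdet := Matrix.SpecialLinearGroup.det_coe γ
  rw [Matrix.det_fin_two] at hdet
  have h : ((γ 0 0 : ℤ) : ℝ) * (γ 1 1 : ℤ) - ((γ 0 1 : ℤ) : ℝ) * (γ 1 0 : ℤ) = 1 := by
    exact_mod_cast hdet
  linear_combination 2 * h

lemma mm_nonneg (γ : SL(2, ℤ)) : 0 ≤ mm γ := Real.sqrt_nonneg _

lemma mz_smul (γ : SL(2, ℤ)) : mz (γ • (I : ℍ)) I = mm γ := by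
  have h1 := mz_sq (γ • (I : ℍ)) I
  rw [Trace.two_cosh] at h1
  have h2 := mm_sq γ
  have h3 : mz (γ • (I : ℍ)) I ^ 2 = mm γ ^ 2 := by rw [h1, h2]; ring
  exact (sq_eq_sq₀ (mz_pos _ _).le (mm_nonneg _)).1 h3

lemma two_le_mm (γ : SL(2, ℤ)) : 2 ≤ mm γ := by
  rw [← mz_smul]; exact mz_two_le _ _

lemma mm_pos (γ : SL(2, ℤ)) : 0 < mm γ := by linarith [two_le_mm γ]

lemma mnorm_nonneg' (γ : SL(2, ℤ)) : 0 ≤ mnorm γ := Real.sqrt_nonneg _

lemma mnorm_le_mm (γ : SL(2, ℤ)) : mnorm γ ≤ mm γ := by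
  have h := mm_sq γ
  have h1 := mnorm_nonneg' γ
  have h2 := mm_nonneg γ
  nlinarith

lemma cosh_dist_smul (γ : SL(2, ℤ)) : Real.cosh (dist (γ • (I : ℍ)) I) = (mm γ ^ 2 - 2) / 2 := by
  have h1 := Trace.two_cosh γ
  have h2 := mm_sq γ
  linarith

lemma mm_inv (γ : SL(2, ℤ)) : mm γ⁻¹ = mm γ := by
  rw [← mz_smul, ← mz_smul]
  unfold mz
  rw [← dist_smul_int γ, smul_inv_smul, dist_comm]

lemma summable_int {c : ℝ} (hc : 0 < c) : Summable fun n : ℤ => Real.exp (-(c * |(n : ℝ)|)) := by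
  have h : Summable fun n : ℕ => Real.exp (-(c * (n : ℝ))) := by
    have h1 : ∀ n : ℕ, Real.exp (-(c * (n : ℝ))) = Real.exp (-c) ^ n := fun n => by
      rw [← Real.exp_nat_mul]; congr 1; ring
    simp only [h1]
    exact summable_geometric_of_lt_one (Real.exp_pos _).le (by rw [Real.exp_lt_one_iff]; linarith)
  refine Summable.of_nat_of_neg ?_ ?_
  · simpa using h
  · simpa using h

/-- exponential sums over `SL(2, ℤ)` converge -/
lemma summable_exp_mm {s : ℝ} (hs : 0 < s) :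
    Summable fun γ : SL(2, ℤ) => Real.exp (-(s * mm γ)) := by
  have hc : 0 < s / 4 := by positivity
  have h := summable_int hc
  set f : ℤ → ℝ := fun n => Real.exp (-(s / 4 * |(n : ℝ)|)) with hf
  have hf0 : ∀ n, 0 ≤ f n := fun n => (Real.exp_pos _).le
  have h2 : Summable fun p : ℤ × ℤ => f p.1 * f p.2 := h.mul_of_nonneg h hf0 hf0
  have h4 : Summable fun p : (ℤ × ℤ) × (ℤ × ℤ) => (f p.1.1 * f p.1.2) * (f p.2.1 * f p.2.2) :=
    h2.mul_of_nonneg h2 (fun p => mul_nonneg (hf0 _) (hf0 _)) (fun p => mul_nonneg (hf0 _) (hf0 _))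
  let e : SL(2, ℤ) → (ℤ × ℤ) × (ℤ × ℤ) := fun g => ((g 0 0, g 0 1), (g 1 0, g 1 1))
  have he : Function.Injective e := by
    intro g g' h
    simp only [e, Prod.mk.injEq] at h
    obtain ⟨⟨h1, h2⟩, h3, h4⟩ := h
    ext i j
    fin_cases i <;> fin_cases j
    · exact h1
    · exact h2
    · exact h3
    · exact h4
  refine Summable.of_nonneg_of_le (fun γ => (Real.exp_pos _).le) (fun γ => ?_)
    (h4.comp_injective he)
  simp only [Function.comp_apply, e, hf]
  rw [← Real.exp_add, ← Real.exp_add, ← Real.exp_add]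
  apply Real.exp_le_exp.2
  obtain ⟨b1, b2, b3, b4⟩ := S6b.abs_le_mnorm γ
  have h5 := mnorm_le_mm γ
  nlinarith

lemma pow_mul_exp_le {s x : ℝ} (hs : 0 < s) (hx : 0 ≤ x) (k : ℕ) :
    x ^ k * Real.exp (-(s * x)) ≤ (k.factorial * (2 / s) ^ k) * Real.exp (-(s / 2 * x)) := by
  have h1 := Real.pow_div_factorial_le_exp (s / 2 * x) (by positivity) k
  have hk : (0 : ℝ) < k.factorial := by exact_mod_cast k.factorial_pos
  have h2 : x ^ k ≤ (k.factorial * (2 / s) ^ k) * Real.exp (s / 2 * x) := by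
    rw [div_le_iff₀ hk] at h1
    have h3 : x ^ k = (2 / s) ^ k * (s / 2 * x) ^ k := by
      rw [← mul_pow]
      congr 1
      field_simp
    rw [h3]
    calc (2 / s) ^ k * (s / 2 * x) ^ k ≤ (2 / s) ^ k * (Real.exp (s / 2 * x) * k.factorial) := by
          gcongr
      _ = _ := by ring
  calc x ^ k * Real.exp (-(s * x)) ≤ ((k.factorial * (2 / s) ^ k) * Real.exp (s / 2 * x)) *
        Real.exp (-(s * x)) := by gcongr
    _ = _ := by
      rw [mul_assoc, ← Real.exp_add]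
      congr 2
      ring

lemma summable_pow_mm {s : ℝ} (hs : 0 < s) (k : ℕ) :
    Summable fun γ : SL(2, ℤ) => mm γ ^ k * Real.exp (-(s * mm γ)) :=
  Summable.of_nonneg_of_le (fun γ => mul_nonneg (pow_nonneg (mm_nonneg γ) k) (Real.exp_pos _).le)
    (fun γ => pow_mul_exp_le hs (mm_nonneg γ) k)
    ((summable_exp_mm (by positivity : 0 < s / 2)).mul_left _)

lemma cosh_le_exp_mul {x y D : ℝ} (hx : 0 ≤ x) (h : y ≤ x + D) (hy : 0 ≤ y) (hD : 0 ≤ D) :
    Real.cosh y ≤ Real.exp D * Real.cosh x := by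
  have h1 : Real.cosh y ≤ Real.cosh (x + D) := by
    rw [Real.cosh_le_cosh, abs_of_nonneg hy, abs_of_nonneg (by linarith)]
    exact h
  refine h1.trans ?_
  rw [Real.cosh_eq, Real.cosh_eq, Real.exp_add]
  have h2 : Real.exp (-(x + D)) ≤ Real.exp D * Real.exp (-x) := by
    rw [← Real.exp_add]
    exact Real.exp_le_exp.2 (by linarith)
  linarith

/-- the terms of the series -/
lemma term_le {t D : ℝ} (ht : 0 < t) (hD : 0 ≤ D) {w : ℍ} (hw : dist w I ≤ D) (γ : SL(2, ℤ)) :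
    Real.exp (-(t * Real.cosh (dist I (γ • w)))) ≤
      Real.exp (t * Real.exp (-D)) * Real.exp (-(t * Real.exp (-D) * mm γ)) := by
  rw [← Real.exp_add]
  apply Real.exp_le_exp.2
  have h1 : dist (γ • (I : ℍ)) I ≤ dist (I : ℍ) (γ • w) + D := by
    have h2 := dist_triangle (γ • (I : ℍ)) (γ • w) I
    rw [dist_smul_int, dist_comm (I : ℍ) w, dist_comm (γ • w) (I : ℍ)] at h2
    linarith
  have h3 := cosh_le_exp_mul (x := dist (I : ℍ) (γ • w)) dist_nonneg h1 dist_nonneg hD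
  rw [cosh_dist_smul] at h3
  have h4 := two_le_mm γ
  have h5 : mm γ - 1 ≤ (mm γ ^ 2 - 2) / 2 := by nlinarith
  have h6 : Real.exp (-D) * (mm γ - 1) ≤ Real.cosh (dist I (γ • w)) := by
    have h7 : Real.exp (-D) * (mm γ - 1) ≤ Real.exp (-D) * (Real.exp D * Real.cosh (dist I (γ • w))) := by
      have := Real.exp_pos (-D)
      gcongr
      linarith
    rw [← mul_assoc, ← Real.exp_add, neg_add_cancel, Real.exp_zero, one_mul] at h7
    exact h7
  nlinarith

/-- the automorphic kernel -/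
def phi (N : ℕ) (t : ℝ) (w : ℍ) : ℝ :=
  ∑' γ : Gamma N, Real.exp (-(t * Real.cosh (dist I ((γ : SL(2, ℤ)) • w))))

variable {N : ℕ} {t : ℝ}

lemma phi_summable (ht : 0 < t) (w : ℍ) :
    Summable fun γ : Gamma N => Real.exp (-(t * Real.cosh (dist I ((γ : SL(2, ℤ)) • w)))) := by
  refine Summable.of_nonneg_of_le (fun γ => (Real.exp_pos _).le)
    (fun γ => term_le ht dist_nonneg (le_refl (dist w I)) (γ : SL(2, ℤ))) ?_
  exact ((summable_exp_mm (by positivity)).comp_injective Subtype.val_injective).mul_left _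

lemma phi_cont (ht : 0 < t) : Continuous (phi N t) := by
  rw [continuous_iff_continuousAt]
  intro w₀
  have h : ContinuousOn (phi N t) (closedBall (I : ℍ) (dist w₀ I + 1)) := by
    unfold phi
    refine continuousOn_tsum (u := fun γ : Gamma N => Real.exp (t * Real.exp (-(dist w₀ I + 1))) *
      Real.exp (-(t * Real.exp (-(dist w₀ I + 1)) * mm γ))) (fun γ => ?_) ?_ ?_
    · have h1 : Continuous fun w : ℍ => dist I ((γ : SL(2, ℤ)) • w) :=
        continuous_const.dist (cont_smul_int _)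
      exact (Real.continuous_exp.comp
        ((continuous_const.mul (Real.continuous_cosh.comp h1)).neg)).continuousOn
    · exact ((summable_exp_mm (by positivity)).comp_injective Subtype.val_injective).mul_left _
    · intro γ w hw
      rw [Real.norm_of_nonneg (Real.exp_pos _).le]
      exact term_le ht (by positivity) (mem_closedBall.1 hw) _
  refine h.continuousAt ?_
  refine Filter.mem_of_superset (ball_mem_nhds w₀ one_pos) ?_
  intro w hw
  rw [mem_closedBall]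
  have h1 := dist_triangle w w₀ I
  rw [mem_ball] at hw
  linarith

lemma phi_nonneg (w : ℍ) : 0 ≤ phi N t w := tsum_nonneg fun γ => (Real.exp_pos _).le

lemma ofReal_phi (ht : 0 < t) (w : ℍ) :
    ENNReal.ofReal (phi N t w) = ∑' γ : Gamma N, kt t I ((γ : SL(2, ℤ)) • w) := by
  unfold phi kt
  exact ENNReal.ofReal_tsum_of_nonneg (fun γ => (Real.exp_pos _).le) (phi_summable ht w)

lemma phi_inv (δ : SL(2, ℤ)) (hδ : δ ∈ Gamma N) (w : ℍ) : phi N t (δ • w) = phi N t w := by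
  unfold phi
  rw [← (Equiv.mulRight (⟨δ, hδ⟩ : Gamma N)).tsum_eq
    (fun γ : Gamma N => Real.exp (-(t * Real.cosh (dist I ((γ : SL(2, ℤ)) • w)))))]
  congr 1
  ext γ
  simp [mul_smul]

end

end Pool.Agent.H75.SE
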