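import Pool.Graph.R_seed8.H369R2.NU1
import Mathlib.Analysis.SpecialFunctions.Trigonometric.InverseDeriv
import Mathlib.Analysis.SpecialFunctions.Trigonometric.Arctan

/-! # The area of the fundamental domain -/

set_option autoImplicit false

open UpperHalfPlane MeasureTheory Metric Filter Set ModularGroup CongruenceSubgroup
open scoped MatrixGroups ENNReal Modular Topology NNReal ComplexConjugate

namespace Pool.Agent.H75.SE

open Pool.Agent.H369R2

noncomputable section

lemma lint_inv_sq {Y : ℝ} (hY : 0 < Y) :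
    ∫⁻ y in Ioi Y, ENNReal.ofReal (1 / y ^ 2) = ENNReal.ofReal Y⁻¹ := by
  have h6 : ∫ y in Set.Ioi Y, y ^ (-2 : ℝ) = Y⁻¹ := by
    rw [integral_Ioi_rpow_of_lt (by norm_num) hY]
    norm_num
    rw [Real.rpow_neg_one]
  have h7 : ∫⁻ y in Set.Ioi Y, ENNReal.ofReal (1 / y ^ 2) =
      ∫⁻ y in Set.Ioi Y, ENNReal.ofReal (y ^ (-2 : ℝ)) := by
    refine setLIntegral_congr_fun measurableSet_Ioi fun y hy => ?_
    have hy0 : 0 < y := hY.trans hy
    congr 1
    rw [Real.rpow_neg hy0.le, Real.rpow_two, one_div]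
  rw [h7, ← ofReal_integral_eq_lintegral_ofReal, h6]
  · exact integrableOn_Ioi_rpow_of_lt (by norm_num) hY
  · refine (ae_restrict_mem measurableSet_Ioi).mono fun y hy => ?_
    exact Real.rpow_nonneg (hY.trans hy).le _

lemma int_arcsin : ∫ x in (-(1 / 2) : ℝ)..(1 / 2), 1 / √(1 - x ^ 2) = Real.pi / 3 := by
  have hder : ∀ x ∈ uIcc (-(1 / 2) : ℝ) (1 / 2), HasDerivAt Real.arcsin (1 / √(1 - x ^ 2)) x := by
    intro x hx
    rw [uIcc_of_le (by norm_num)] at hx
    exact Real.hasDerivAt_arcsin (by linarith [hx.1]) (by linarith [hx.2])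
  have hint : IntervalIntegrable (fun x : ℝ => 1 / √(1 - x ^ 2)) volume (-(1 / 2)) (1 / 2) := by
    apply ContinuousOn.intervalIntegrable
    intro x hx
    rw [uIcc_of_le (by norm_num)] at hx
    apply ContinuousAt.continuousWithinAt
    have h1 : 0 < 1 - x ^ 2 := by nlinarith [hx.1, hx.2]
    refine ContinuousAt.div continuousAt_const (by fun_prop) ?_
    exact (Real.sqrt_pos.2 h1).ne'
  rw [intervalIntegral.integral_eq_sub_of_hasDerivAt hder hint, Real.arcsin_neg]
  have h : Real.arcsin (1 / 2) = Real.pi / 6 := by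
    rw [← Real.sin_pi_div_six]
    exact Real.arcsin_sin (by linarith [Real.pi_pos]) (by linarith [Real.pi_pos])
  rw [h]
  ring

theorem vol_fdo : volume (𝒟ᵒ : Set ℍ) = ENNReal.ofReal (Real.pi / 3) := by
  set Q : Set (ℝ × ℝ) := {p | p.1 ∈ Ioo (-(1 / 2) : ℝ) (1 / 2) ∧ 1 < p.1 ^ 2 + p.2 ^ 2} with hQ
  have hQm : MeasurableSet Q := by
    have h1 : MeasurableSet {p : ℝ × ℝ | p.1 ∈ Ioo (-(1 / 2) : ℝ) (1 / 2)} :=
      measurableSet_Ioo.preimage measurable_fst
    have h2 : MeasurableSet {p : ℝ × ℝ | 1 < p.1 ^ 2 + p.2 ^ 2} :=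
      measurableSet_lt measurable_const (by fun_prop)
    exact h1.inter h2
  have h1 := lint_H (Q.indicator 1) (measurable_one.indicator hQm)
  have h2 : ∫⁻ z : ℍ, Q.indicator 1 (z.re, z.im) = volume (𝒟ᵒ : Set ℍ) := by
    rw [← lintegral_indicator_one isOpen_fdo.measurableSet]
    congr 1
    ext z
    have hz : (z.re, z.im) ∈ Q ↔ z ∈ (𝒟ᵒ : Set ℍ) := by
      have e : Complex.normSq (z : ℂ) = z.re ^ 2 + z.im ^ 2 := by
        rw [Complex.normSq_apply, coe_re, coe_im]
        ring
      show (z.re ∈ Ioo (-(1 / 2) : ℝ) (1 / 2) ∧ 1 < z.re ^ 2 + z.im ^ 2) ↔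
        (1 < Complex.normSq (z : ℂ) ∧ |z.re| < 1 / 2)
      rw [e, abs_lt, mem_Ioo]
      tauto
    by_cases h : z ∈ (𝒟ᵒ : Set ℍ)
    · rw [indicator_of_mem h, indicator_of_mem (hz.2 h)]
      rfl
    · rw [indicator_of_notMem h, indicator_of_notMem fun h' => h (hz.1 h')]
  rw [← h2, h1]
  have hset : {p : ℝ × ℝ | 0 < p.2} = univ ×ˢ Ioi 0 := by
    ext p; simp
  rw [hset, Measure.volume_eq_prod, ← Measure.prod_restrict, Measure.restrict_univ]
  have hm : Measurable fun p : ℝ × ℝ => ENNReal.ofReal (1 / p.2 ^ 2) * Q.indicator (1 : ℝ × ℝ → ℝ≥0∞) p :=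
    (by fun_prop : Measurable fun p : ℝ × ℝ => ENNReal.ofReal (1 / p.2 ^ 2)).mul
      (measurable_one.indicator hQm)
  rw [lintegral_prod _ hm.aemeasurable]
  have h3 : ∀ x : ℝ, ∫⁻ y in Ioi 0, ENNReal.ofReal (1 / (x, y).2 ^ 2) * Q.indicator 1 (x, y) =
      (Ioo (-(1 / 2) : ℝ) (1 / 2)).indicator (fun x => ENNReal.ofReal (1 / √(1 - x ^ 2))) x := by
    intro x
    by_cases hx : x ∈ Ioo (-(1 / 2) : ℝ) (1 / 2)
    · rw [indicator_of_mem hx]
      have h4 : 0 < 1 - x ^ 2 := by nlinarith [hx.1, hx.2]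
      have hs := Real.sqrt_pos.2 h4
      have h5 : ∀ y ∈ Ioi (0 : ℝ), ENNReal.ofReal (1 / (x, y).2 ^ 2) * Q.indicator 1 (x, y) =
          (Ioi √(1 - x ^ 2)).indicator (fun y => ENNReal.ofReal (1 / y ^ 2)) y := by
        intro y hy
        have hy0 : 0 < y := hy
        by_cases hy1 : √(1 - x ^ 2) < y
        · rw [indicator_of_mem (show y ∈ Ioi √(1 - x ^ 2) from hy1), indicator_of_mem, Pi.one_apply,
            mul_one]
          refine ⟨hx, ?_⟩
          have h6 := Real.sq_sqrt h4.le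
          simp only
          nlinarith
        · rw [indicator_of_notMem (show y ∉ Ioi √(1 - x ^ 2) from hy1), indicator_of_notMem, mul_zero]
          rintro ⟨_, h6⟩
          apply hy1
          simp only at h6
          rw [Real.sqrt_lt' hy0]
          linarith
      rw [setLIntegral_congr_fun measurableSet_Ioi h5, lintegral_indicator measurableSet_Ioi,
        Measure.restrict_restrict measurableSet_Ioi,
        inter_eq_left.2 (Ioi_subset_Ioi hs.le), lint_inv_sq hs, one_div]
    · rw [indicator_of_notMem hx]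
      have h5 : ∀ y : ℝ, ENNReal.ofReal (1 / (x, y).2 ^ 2) * Q.indicator 1 (x, y) = 0 := by
        intro y
        rw [indicator_of_notMem (fun h => hx h.1), mul_zero]
      simp only [h5, lintegral_zero]
  simp only [h3]
  rw [lintegral_indicator measurableSet_Ioo, restrict_Ioo_eq_restrict_Ioc,
    ← ofReal_integral_eq_lintegral_ofReal]
  · rw [← intervalIntegral.integral_of_le (by norm_num), int_arcsin]
  · have hint : IntervalIntegrable (fun x : ℝ => 1 / √(1 - x ^ 2)) volume (-(1 / 2)) (1 / 2) := by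
      apply ContinuousOn.intervalIntegrable
      intro x hx
      rw [uIcc_of_le (by norm_num)] at hx
      apply ContinuousAt.continuousWithinAt
      have h1 : 0 < 1 - x ^ 2 := by nlinarith [hx.1, hx.2]
      refine ContinuousAt.div continuousAt_const (by fun_prop) ?_
      exact (Real.sqrt_pos.2 h1).ne'
    exact (intervalIntegrable_iff_integrableOn_Ioc_of_le (by norm_num)).1 hint
  · exact .of_forall fun x => by positivity

end

end Pool.Agent.H75.SE
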