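import Pool.Agent.H75.SE.KLim2
import Pool.Agent.H75.SE.Vol

/-! # The elementary inequality -/

set_option autoImplicit false

open UpperHalfPlane MeasureTheory Metric Filter Set ModularGroup CongruenceSubgroup
open scoped MatrixGroups ENNReal Modular Topology NNReal ComplexConjugate

namespace Pool.Agent.H75.SE

open Pool.Agent.H369R2 Pool.Agent.N799.DT Pool.Agent.N799.DT.OrthAux

noncomputable section

variable {N : ℕ} {t : ℝ}

/-- the index of `Γ(N)` -/
def idx (N : ℕ) : ℝ := ((Gamma N).index : ℝ)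

lemma idx_ge [NeZero N] : 1 ≤ idx N := by
  unfold idx
  have : (Gamma N).index ≠ 0 := Subgroup.FiniteIndex.index_ne_zero
  exact_mod_cast Nat.one_le_iff_ne_zero.2 this

lemma idx_pos [NeZero N] : 0 < idx N := lt_of_lt_of_le one_pos idx_ge

lemma VN_eq [NeZero N] : VN N = idx N * (Real.pi / 3) := by
  unfold VN idx
  rw [nu_univ N (NeZero.ne N), vol_fdo, ENNReal.toReal_mul, ENNReal.toReal_natCast,
    ENNReal.toReal_ofReal (by positivity)]

/-- the weights -/
def wk (k : ℕ) (m : ℝ) : ℝ := m ^ k / m ^ 3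

lemma wk_nonneg (k : ℕ) {m : ℝ} (hm : 0 < m) : 0 ≤ wk k m := by unfold wk; positivity

lemma wk_le (k : ℕ) {m : ℝ} (hm : 1 ≤ m) : wk k m ≤ m ^ k := by
  unfold wk
  exact div_le_self (by positivity) (one_le_pow₀ hm)

lemma wk_succ (k : ℕ) {m : ℝ} : wk (k + 1) m = wk k m * m := by
  unfold wk
  rw [pow_succ]
  ring

/-- the terms -/
def dt (k : ℕ) (t : ℝ) (γ : SL(2, ℤ)) : ℝ := wk k (mm γ) * Real.exp (-(t * mm γ))

lemma dt_nonneg (k : ℕ) (t : ℝ) (γ : SL(2, ℤ)) : 0 ≤ dt k t γ :=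
  mul_nonneg (wk_nonneg k (mm_pos γ)) (Real.exp_pos _).le

lemma dt_summable' (k : ℕ) (ht : 0 < t) : Summable (dt k t) := by
  refine Summable.of_nonneg_of_le (dt_nonneg k t) (fun γ => ?_) (summable_pow_mm ht k)
  unfold dt
  have h1 : 1 ≤ mm γ := by linarith [two_le_mm γ]
  have := wk_le k h1
  gcongr

lemma dt_summable (k : ℕ) (ht : 0 < t) : Summable fun γ : Gamma N => dt k t γ :=
  (dt_summable' k ht).comp_injective Subtype.val_injective

/-- the sums -/
def DD (N k : ℕ) (t : ℝ) : ℝ := ∑' γ : Gamma N, dt k t γ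

lemma DD_nonneg (k : ℕ) : 0 ≤ DD N k t := tsum_nonneg fun γ => dt_nonneg k t γ

lemma DD_le (k : ℕ) (ht : 0 < t) : DD N k t ≤ ∑' γ : SL(2, ℤ), dt k t γ := by
  unfold DD
  have h := (dt_summable' k ht)
  exact Summable.tsum_le_tsum_of_inj (fun γ : Gamma N => (γ : SL(2, ℤ))) Subtype.val_injective
    (fun γ _ => dt_nonneg k t γ) (fun γ => le_rfl) (dt_summable k ht) h

lemma S0_eq (ht : 0 < t) : S0 N t = 4 * Real.pi / t * DD N 2 t := by
  unfold S0 DD
  rw [← tsum_mul_left, ← tsum_mul_left]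
  congr 1
  ext γ
  unfold gt dt wk
  have := mm_pos (γ : SL(2, ℤ))
  field_simp
  norm_num

lemma LL_eq (ht : 0 < t) (γ : SL(2, ℤ)) : LL t (mm γ) = Real.pi / t *
    (t ^ 2 / 4 * dt 4 t γ - t / 4 * dt 3 t γ - t ^ 2 * dt 2 t γ - t * dt 1 t γ - 1 / 4 * dt 2 t γ -
      dt 0 t γ) := by
  unfold LL dt wk
  have := mm_pos γ
  field_simp

lemma tsum_LL (ht : 0 < t) : ∑' γ : Gamma N, LL t (mm γ) = Real.pi / t *
    (t ^ 2 / 4 * DD N 4 t - t / 4 * DD N 3 t - t ^ 2 * DD N 2 t - t * DD N 1 t - 1 / 4 * DD N 2 t -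
      DD N 0 t) := by
  have h (k : ℕ) := (dt_summable (N := N) k ht)
  simp only [LL_eq ht]
  rw [tsum_mul_left]
  congr 1
  have s4 := (h 4).mul_left (t ^ 2 / 4)
  have s3 := (h 3).mul_left (t / 4)
  have s2 := (h 2).mul_left (t ^ 2)
  have s1 := (h 1).mul_left t
  have s2' := (h 2).mul_left (1 / 4)
  have s0 := h 0
  rw [((((s4.sub s3).sub s2).sub s1).sub s2').tsum_sub s0, (((s4.sub s3).sub s2).sub s1).tsum_sub s2',
    ((s4.sub s3).sub s2).tsum_sub s1, (s4.sub s3).tsum_sub s2, s4.tsum_sub s3]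
  simp only [tsum_mul_left]
  rfl

/-- the constant-free inequality -/
def Two (N : ℕ) (t : ℝ) : Prop :=
  t ^ 2 / 4 * DD N 4 t - t / 4 * DD N 3 t - t ^ 2 * DD N 2 t - t * DD N 1 t - DD N 0 t ≤
    3 * Real.exp (-(2 * t)) / (t * idx N)

theorem two_of_Selberg (hS : Selberg) [NeZero N] (ht : 0 < t) : Two N t := by
  have h := ineqLL hS (N := N) ht
  rw [tsum_LL ht, S0_eq ht, VN_eq] at h
  have hi := idx_pos (N := N)
  unfold P1 at h
  unfold Two
  have hpi := Real.pi_pos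
  have e2 : Real.exp (-t) ^ 2 = Real.exp (-(2 * t)) := by
    rw [← Real.exp_nat_mul]
    congr 1
    push_cast
    ring
  have e3 : (4 * Real.pi * Real.exp (-t) / t) ^ 2 / (idx N * (Real.pi / 3)) =
      48 * Real.pi * Real.exp (-(2 * t)) / (t ^ 2 * idx N) := by
    rw [← e2]
    field_simp
    ring
  rw [e3] at h
  have h4 : 2 * (Real.pi / t) * (t ^ 2 / 4 * DD N 4 t - t / 4 * DD N 3 t - t ^ 2 * DD N 2 t -
      t * DD N 1 t - DD N 0 t) ≤ 2 * (Real.pi / t) * (3 * Real.exp (-(2 * t)) / (t * idx N)) := by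
    have e5 : 2 * (Real.pi / t) * (3 * Real.exp (-(2 * t)) / (t * idx N)) =
        1 / 8 * (48 * Real.pi * Real.exp (-(2 * t)) / (t ^ 2 * idx N)) := by
      field_simp
      ring
    rw [e5]
    have e6 : 1 / 8 * (4 * Real.pi / t * DD N 2 t) = 2 * (Real.pi / t) * (1 / 4 * DD N 2 t) := by
      ring
    linarith
  exact le_of_mul_le_mul_left h4 (by positivity)

/-- positivity of the variance -/
lemma DD_ge [NeZero N] (ht : 0 < t) : 12 * Real.exp (-(2 * t)) / (t * idx N) ≤ DD N 2 t := by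
  have h := S0_ge (N := N) ht
  rw [S0_eq ht, VN_eq] at h
  have hi := idx_pos (N := N)
  have hpi := Real.pi_pos
  unfold P1 at h
  have e2 : Real.exp (-t) ^ 2 = Real.exp (-(2 * t)) := by
    rw [← Real.exp_nat_mul]
    congr 1
    push_cast
    ring
  have e3 : (4 * Real.pi * Real.exp (-t) / t) ^ 2 / (idx N * (Real.pi / 3)) =
      4 * Real.pi / t * (12 * Real.exp (-(2 * t)) / (t * idx N)) := by
    rw [← e2]
    field_simp
    ring
  rw [e3] at h
  exact le_of_mul_le_mul_left h (by positivity)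

/-- differentiation of the sums -/
lemma hasDeriv_DD (k : ℕ) (ht : 0 < t) : HasDerivAt (DD N k) (-DD N (k + 1) t) t := by
  have hu : Summable fun γ : Gamma N => dt (k + 1) (t / 2) γ := dt_summable _ (half_pos ht)
  have h := hasDerivAt_tsum_of_isPreconnected (𝕜 := ℝ) (F := ℝ) (u := fun γ : Gamma N =>
      dt (k + 1) (t / 2) γ) (g := fun (γ : Gamma N) (s : ℝ) => dt k s γ)
    (g' := fun (γ : Gamma N) (s : ℝ) => -dt (k + 1) s γ) (t := Ioi (t / 2)) (y₀ := t) (y := t)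
    hu isOpen_Ioi (convex_Ioi _).isPreconnected
    (fun γ s hs => by
      unfold dt
      rw [wk_succ]
      have h3 : HasDerivAt (fun s : ℝ => Real.exp (-(s * mm (γ : SL(2, ℤ)))))
          (Real.exp (-(s * mm (γ : SL(2, ℤ)))) * (-(1 * mm (γ : SL(2, ℤ))))) s :=
        ((hasDerivAt_id s).mul_const _).neg.exp
      have h4 := h3.const_mul (wk k (mm (γ : SL(2, ℤ))))
      convert! h4 using 1
      ring)
    (fun γ s hs => by
      rw [norm_neg, Real.norm_of_nonneg (dt_nonneg _ _ _)]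
      unfold dt
      have h1 := wk_nonneg (k + 1) (mm_pos (γ : SL(2, ℤ)))
      have h2 := mm_pos (γ : SL(2, ℤ))
      have h3 : t / 2 < s := hs
      gcongr)
    (by simp only [mem_Ioi]; linarith) (dt_summable k ht) (by simp only [mem_Ioi]; linarith)
  rw [tsum_neg] at h
  exact h

end

end Pool.Agent.H75.SE
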