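import Pool.Agent.H75.SE.KTwo

/-! # From the constant-free inequality to the error term -/

set_option autoImplicit false

open UpperHalfPlane MeasureTheory Metric Filter Set ModularGroup CongruenceSubgroup
open scoped MatrixGroups ENNReal Modular Topology NNReal ComplexConjugate

namespace Pool.Agent.H75.SE

open Pool.Agent.H369R2 Pool.Agent.N799.DT Pool.Agent.N799.DT.OrthAux

noncomputable section

/-- the supersolution -/
def UU (α x : ℝ) : ℝ := α * (1 / 16 + x / 8 + x ^ 2 / 2)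
/-- its derivative -/
def VV (α x : ℝ) : ℝ := α * (1 / 8 + x)
/-- its companion -/
def WW (α x : ℝ) : ℝ := α * (11 / 32 - Real.exp (-(2 * x)) * (5 / 16 + x / 2))

lemma hasDeriv_UU (α x : ℝ) : HasDerivAt (UU α) (VV α x) x := by
  have h := ((((hasDerivAt_id x).div_const 8).const_add (1 / 16)).add
    ((hasDerivAt_pow 2 x).div_const 2)).const_mul α
  unfold UU VV
  convert! h using 1
  norm_num

lemma hasDeriv_VV (α x : ℝ) : HasDerivAt (VV α) α x := by
  have h := ((hasDerivAt_id x).const_add (1 / 8 : ℝ)).const_mul α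
  unfold VV
  convert! h using 1
  rw [mul_one]

lemma hasDeriv_WW (α x : ℝ) : HasDerivAt (WW α) (Real.exp (-(2 * x)) * VV α x) x := by
  have h1 : HasDerivAt (fun x : ℝ => Real.exp (-(2 * x))) (Real.exp (-(2 * x)) * (-(2 * 1))) x :=
    ((hasDerivAt_id x).const_mul 2).neg.exp
  have h2 := (h1.mul (((hasDerivAt_id x).div_const 2).const_add (5 / 16 : ℝ))).const_sub (11 / 32)
  have h3 := h2.const_mul α
  unfold WW VV
  convert! h3 using 1
  simp only [id]
  ring

lemma super_ineq {α x : ℝ} (hα : 0 < α) (hx : 0 ≤ x) :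
    2 * WW α x + 2 * Real.exp (-(2 * x)) * UU α x ≤ α := by
  have h1 : 1 + 2 * x + 2 * x ^ 2 + 4 / 3 * x ^ 3 ≤ Real.exp (2 * x) := by
    have := Real.sum_le_exp_of_nonneg (x := 2 * x) (by linarith) 4
    refine le_trans (le_of_eq ?_) this
    simp only [Finset.sum_range_succ, Finset.sum_range_zero, Nat.factorial]
    push_cast
    ring
  have h2 : Real.exp (-(2 * x)) * Real.exp (2 * x) = 1 := by
    rw [← Real.exp_add, neg_add_cancel, Real.exp_zero]
  have h3 := Real.exp_pos (-(2 * x))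
  have h4 : x ^ 2 - 3 * x / 4 - 1 / 2 ≤ 5 / 16 * Real.exp (2 * x) := by
    have h5 : 0 ≤ x * (5 / 12 * x ^ 2 - 3 / 8 * x + 11 / 8) := by
      have : 0 ≤ 5 / 12 * x ^ 2 - 3 / 8 * x + 11 / 8 := by nlinarith [sq_nonneg (x - 9 / 20)]
      positivity
    nlinarith
  have h6 : Real.exp (-(2 * x)) * (x ^ 2 - 3 * x / 4 - 1 / 2) ≤ 5 / 16 := by
    calc Real.exp (-(2 * x)) * (x ^ 2 - 3 * x / 4 - 1 / 2) ≤
        Real.exp (-(2 * x)) * (5 / 16 * Real.exp (2 * x)) := by gcongr
      _ = 5 / 16 * (Real.exp (-(2 * x)) * Real.exp (2 * x)) := by ring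
      _ = 5 / 16 := by rw [h2, mul_one]
  have h7 : 2 * WW α x + 2 * Real.exp (-(2 * x)) * UU α x =
      α * (11 / 16 + Real.exp (-(2 * x)) * (x ^ 2 - 3 * x / 4 - 1 / 2)) := by
    unfold WW UU
    ring
  rw [h7]
  calc α * (11 / 16 + Real.exp (-(2 * x)) * (x ^ 2 - 3 * x / 4 - 1 / 2)) ≤
      α * (11 / 16 + 5 / 16) := by gcongr
    _ = α := by norm_num

/-- the comparison principle for the cooperative system -/
lemma compare {u v v' w : ℝ → ℝ} {α : ℝ} (hα : 0 < α)
    (hu : ∀ x, 0 ≤ x → HasDerivAt u (v x) x) (hv : ∀ x, 0 ≤ x → HasDerivAt v (v' x) x)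
    (hw : ∀ x, 0 ≤ x → HasDerivAt w (Real.exp (-(2 * x)) * v x) x)
    (hv' : ∀ x, 0 ≤ x → v' x ≤ 2 * w x + 2 * Real.exp (-(2 * x)) * u x)
    (h0 : u 0 < α / 16) (h1 : v 0 < α / 8) (h2 : w 0 < α / 32) {x : ℝ} (hx : 0 ≤ x) :
    u x ≤ UU α x := by
  have dp : ∀ x, 0 ≤ x → HasDerivAt (fun x => UU α x - u x) (VV α x - v x) x := fun x hx =>
    (hasDeriv_UU α x).sub (hu x hx)
  have dq : ∀ x, 0 ≤ x → HasDerivAt (fun x => VV α x - v x) (α - v' x) x := fun x hx =>
    (hasDeriv_VV α x).sub (hv x hx)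
  have dr : ∀ x, 0 ≤ x → HasDerivAt (fun x => WW α x - w x)
      (Real.exp (-(2 * x)) * VV α x - Real.exp (-(2 * x)) * v x) x := fun x hx =>
    (hasDeriv_WW α x).sub (hw x hx)
  have p0 : 0 < UU α 0 - u 0 := by unfold UU; norm_num; linarith
  have q0 : 0 < VV α 0 - v 0 := by unfold VV; norm_num; linarith
  have r0 : 0 < WW α 0 - w 0 := by unfold WW; norm_num; linarith
  -- monotonicity as long as `q` is positive
  have mp : ∀ y, 0 ≤ y → (∀ s ∈ Ioo 0 y, 0 < VV α s - v s) →
      UU α 0 - u 0 ≤ UU α y - u y ∧ WW α 0 - w 0 ≤ WW α y - w y := by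
    intro y hy hq
    constructor
    · refine monotoneOn_of_deriv_nonneg (convex_Icc 0 y)
        (fun s hs => (dp s hs.1).continuousAt.continuousWithinAt)
        (fun s hs => ?_) (fun s hs => ?_) (left_mem_Icc.2 hy) (right_mem_Icc.2 hy) hy
      · rw [interior_Icc] at hs
        exact (dp s hs.1.le).differentiableAt.differentiableWithinAt
      · rw [interior_Icc] at hs
        rw [(dp s hs.1.le).deriv]
        exact (hq s hs).le
    · refine monotoneOn_of_deriv_nonneg (convex_Icc 0 y)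
        (fun s hs => (dr s hs.1).continuousAt.continuousWithinAt)
        (fun s hs => ?_) (fun s hs => ?_) (left_mem_Icc.2 hy) (right_mem_Icc.2 hy) hy
      · rw [interior_Icc] at hs
        exact (dr s hs.1.le).differentiableAt.differentiableWithinAt
      · rw [interior_Icc] at hs
        rw [(dr s hs.1.le).deriv, ← mul_sub]
        exact mul_nonneg (Real.exp_pos _).le (hq s hs).le
  -- `q` stays positive
  have hq : ∀ y, 0 ≤ y → 0 < VV α y - v y := by
    by_contra hcon
    push Not at hcon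
    obtain ⟨X, hX, hqX⟩ := hcon
    set S : Set ℝ := Icc 0 X ∩ {y | VV α y - v y ≤ 0} with hS
    have hSc : IsCompact S := by
      refine IsCompact.of_isClosed_subset isCompact_Icc ?_ inter_subset_left
      have hc : ContinuousOn (fun y => VV α y - v y) (Icc 0 X) := fun s hs =>
        (dq s hs.1).continuousAt.continuousWithinAt
      exact hc.preimage_isClosed_of_isClosed isClosed_Icc isClosed_Iic
    have hSn : S.Nonempty := ⟨X, ⟨hX, le_rfl⟩, hqX⟩
    obtain ⟨y, hyS, hymin⟩ := hSc.exists_isLeast hSn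
    have hy0 : 0 ≤ y := hyS.1.1
    have hbelow : ∀ s ∈ Ico 0 y, 0 < VV α s - v s := by
      intro s hs
      by_contra h
      have : s ∈ S := ⟨⟨hs.1, hs.2.le.trans hyS.1.2⟩, not_lt.1 h⟩
      exact absurd (hymin this) (not_le.2 hs.2)
    have hmono : VV α 0 - v 0 ≤ VV α y - v y := by
      refine monotoneOn_of_deriv_nonneg (convex_Icc 0 y)
        (fun s hs => (dq s hs.1).continuousAt.continuousWithinAt)
        (fun s hs => ?_) (fun s hs => ?_) (left_mem_Icc.2 hy0) (right_mem_Icc.2 hy0) hy0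
      · rw [interior_Icc] at hs
        exact (dq s hs.1.le).differentiableAt.differentiableWithinAt
      · rw [interior_Icc] at hs
        rw [(dq s hs.1.le).deriv]
        obtain ⟨a1, a2⟩ := mp s hs.1.le fun s' hs' => hbelow s' ⟨hs'.1.le, hs'.2.trans hs.2⟩
        have a3 := hv' s hs.1.le
        have a4 := super_ineq hα hs.1.le
        have a5 : 0 ≤ 2 * Real.exp (-(2 * s)) * (UU α s - u s) :=
          mul_nonneg (by positivity) (by linarith)
        nlinarith
    have h5 : VV α y - v y ≤ 0 := hyS.2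
    linarith
  have := (mp x hx fun s hs => hq s hs.1.le).1
  linarith

variable {N : ℕ} {t : ℝ}

/-- the variance -/
def aa (N : ℕ) (t : ℝ) : ℝ := DD N 2 t - 12 / idx N * (Real.exp (-(2 * t)) * t⁻¹)
/-- its derivative -/
def aa1 (N : ℕ) (t : ℝ) : ℝ :=
  -DD N 3 t + 12 / idx N * (Real.exp (-(2 * t)) * (2 * t⁻¹ + (t ^ 2)⁻¹))
/-- its second derivative -/
def aa2 (N : ℕ) (t : ℝ) : ℝ :=
  DD N 4 t - 12 / idx N * (Real.exp (-(2 * t)) * (4 * t⁻¹ + 4 * (t ^ 2)⁻¹ + 2 * (t ^ 3)⁻¹))
/-- the energy -/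
def ee (N : ℕ) (t : ℝ) : ℝ :=
  t ^ 2 * DD N 2 t + 2 * t * DD N 1 t + 2 * DD N 0 t -
    12 / idx N * (Real.exp (-(2 * t)) * (t + 1))

lemma hd_e2 (t : ℝ) : HasDerivAt (fun t : ℝ => Real.exp (-(2 * t)))
    (Real.exp (-(2 * t)) * (-(2 * 1))) t := ((hasDerivAt_id t).const_mul 2).neg.exp

lemma hd_i2 (ht : 0 < t) : HasDerivAt (fun s : ℝ => (s ^ 2)⁻¹) (-2 * (t ^ 3)⁻¹) t := by
  have := (hasDerivAt_pow 2 t).inv (pow_ne_zero 2 ht.ne')
  convert! this using 1
  field_simp
  norm_num

lemma hasDeriv_aa (ht : 0 < t) : HasDerivAt (aa N) (aa1 N t) t := by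
  have h1 := (hasDeriv_DD (N := N) 2 ht).sub
    (((hd_e2 t).mul (hasDerivAt_inv ht.ne')).const_mul (12 / idx N))
  unfold aa aa1
  convert! h1 using 1
  ring

lemma hasDeriv_aa1 (ht : 0 < t) : HasDerivAt (aa1 N) (aa2 N t) t := by
  have h1 := (hasDeriv_DD (N := N) 3 ht).neg.add
    (((hd_e2 t).mul (((hasDerivAt_inv ht.ne').const_mul 2).add (hd_i2 ht))).const_mul (12 / idx N))
  unfold aa1 aa2
  convert! h1 using 1
  simp only [Pi.add_apply]
  ring

lemma hasDeriv_ee (ht : 0 < t) : HasDerivAt (ee N) (t ^ 2 * aa1 N t) t := by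
  have h2 := (hasDerivAt_pow 2 t).mul (hasDeriv_DD (N := N) 2 ht)
  have h1 := ((hasDerivAt_id t).const_mul 2).mul (hasDeriv_DD (N := N) 1 ht)
  have h0 := (hasDeriv_DD (N := N) 0 ht).const_mul 2
  have h3 := ((hd_e2 t).mul ((hasDerivAt_id t).add_const 1)).const_mul (12 / idx N)
  have h := ((h2.add h1).add h0).sub h3
  unfold ee aa1
  convert! h using 1
  simp only [id]
  field_simp
  norm_num
  ring

/-- the differential inequality -/
lemma two_ode [NeZero N] (ht : 0 < t) (h : Two N t) :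
    t * aa1 N t + t ^ 2 * aa2 N t ≤ 2 * ee N t + 2 * t ^ 2 * aa N t := by
  have hi := idx_pos (N := N)
  unfold Two at h
  have h4 : t ^ 2 * DD N 4 t - t * DD N 3 t ≤ 4 * t ^ 2 * DD N 2 t + 4 * t * DD N 1 t +
      4 * DD N 0 t + 4 * (3 * Real.exp (-(2 * t)) / (t * idx N)) := by linarith
  have e1 : 2 * ee N t + 2 * t ^ 2 * aa N t - (t * aa1 N t + t ^ 2 * aa2 N t) =
      4 * t ^ 2 * DD N 2 t + 4 * t * DD N 1 t +
      4 * DD N 0 t + 4 * (3 * Real.exp (-(2 * t)) / (t * idx N)) -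
      (t ^ 2 * DD N 4 t - t * DD N 3 t) := by
    unfold ee aa aa1 aa2
    field_simp
    ring
  linarith

/-- the sums over the full modular group -/
def KD (k : ℕ) : ℝ := ∑' γ : SL(2, ℤ), dt k 1 γ

lemma KD_nonneg (k : ℕ) : 0 ≤ KD k := tsum_nonneg fun γ => dt_nonneg k 1 γ

/-- the constant -/
def αα : ℝ := 32 * (KD 2 + 2 * KD 1 + 2 * KD 0 + KD 3 + 1)

lemma αα_pos : 0 < αα := by
  unfold αα
  have := KD_nonneg 0
  have := KD_nonneg 1
  have := KD_nonneg 2
  have := KD_nonneg 3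
  positivity

lemma aa_le [NeZero N] (h : ∀ t, 0 < t → t ≤ 1 → Two N t) (ht : 0 < t) (ht1 : t ≤ 1) :
    aa N t ≤ UU αα (-Real.log t) := by
  have hx : 0 ≤ -Real.log t := by
    have := Real.log_nonpos ht.le ht1
    linarith
  have hi := idx_pos (N := N)
  have hκ : 0 < 12 / idx N := by positivity
  have k0 := KD_nonneg 0
  have k1 := KD_nonneg 1
  have k2 := KD_nonneg 2
  have k3 := KD_nonneg 3
  have d0 := DD_le (N := N) 0 one_pos
  have d1 := DD_le (N := N) 1 one_pos
  have d2 := DD_le (N := N) 2 one_pos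
  have d3 := DD_le (N := N) 3 one_pos
  have dn3 := DD_nonneg (N := N) (t := 1) 3
  have hexp : ∀ x : ℝ, HasDerivAt (fun x : ℝ => Real.exp (-x)) (-Real.exp (-x)) x := by
    intro x
    have h3 : HasDerivAt (fun x : ℝ => Real.exp (-x)) (Real.exp (-x) * (-1)) x :=
      (hasDerivAt_id x).neg.exp
    convert! h3 using 1
    ring
  have he2 : ∀ x : ℝ, Real.exp (-(2 * x)) = Real.exp (-x) ^ 2 := by
    intro x
    rw [← Real.exp_nat_mul]
    congr 1
    push_cast
    ring
  have hmain := compare (u := fun x => aa N (Real.exp (-x)))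
    (v := fun x => -(Real.exp (-x) * aa1 N (Real.exp (-x))))
    (v' := fun x => Real.exp (-x) * aa1 N (Real.exp (-x)) +
      Real.exp (-x) ^ 2 * aa2 N (Real.exp (-x)))
    (w := fun x => ee N (Real.exp (-x))) (α := αα) αα_pos
    (fun x _ => by
      have := (hasDeriv_aa (N := N) (Real.exp_pos (-x))).comp x (hexp x)
      convert! this using 1
      ring)
    (fun x _ => by
      have := ((hexp x).mul ((hasDeriv_aa1 (N := N) (Real.exp_pos (-x))).comp x (hexp x))).neg
      convert! this using 1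
      simp only [Function.comp_apply]
      ring)
    (fun x _ => by
      have := (hasDeriv_ee (N := N) (Real.exp_pos (-x))).comp x (hexp x)
      convert! this using 1
      rw [he2]
      ring)
    (fun x hx => by
      rw [he2]
      refine two_ode (Real.exp_pos _) (h _ (Real.exp_pos _) ?_)
      rw [Real.exp_le_one_iff]
      linarith)
    (by
      simp only [neg_zero, Real.exp_zero]
      unfold aa
      have h5 : 0 < 12 / idx N * (Real.exp (-(2 * 1)) * (1 : ℝ)⁻¹) := by positivity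
      unfold αα
      unfold KD at *
      linarith)
    (by
      simp only [neg_zero, Real.exp_zero, one_mul]
      unfold aa1
      have h5 : 0 < 12 / idx N * (Real.exp (-(2 * 1)) * (2 * (1 : ℝ)⁻¹ + ((1 : ℝ) ^ 2)⁻¹)) := by
        positivity
      unfold αα
      unfold KD at *
      linarith)
    (by
      simp only [neg_zero, Real.exp_zero]
      unfold ee
      have h5 : 0 < 12 / idx N * (Real.exp (-(2 * 1)) * ((1 : ℝ) + 1)) := by positivity
      unfold αα
      unfold KD at *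
      linarith) hx
  simp only [neg_neg, Real.exp_log ht] at hmain
  exact hmain

/-- the uniform bound -/
theorem three_of_two [NeZero N] (h : ∀ t, 0 < t → t ≤ 1 → Two N t) (ht : 0 < t) (ht1 : t ≤ 1) :
    DD N 2 t ≤ 12 / (t * idx N) + αα * (1 - Real.log t) ^ 2 := by
  have h1 := aa_le h ht ht1
  have hi := idx_pos (N := N)
  unfold aa UU at h1
  have hx : 0 ≤ -Real.log t := by
    have := Real.log_nonpos ht.le ht1
    linarith
  have h2 : 12 / idx N * (Real.exp (-(2 * t)) * t⁻¹) ≤ 12 / (t * idx N) := by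
    have h3 : Real.exp (-(2 * t)) ≤ 1 := Real.exp_le_one_iff.2 (by linarith)
    calc 12 / idx N * (Real.exp (-(2 * t)) * t⁻¹) ≤ 12 / idx N * (1 * t⁻¹) := by gcongr
      _ = 12 / (t * idx N) := by field_simp
  have h4 : αα * (1 / 16 + -Real.log t / 8 + (-Real.log t) ^ 2 / 2) ≤
      αα * (1 - Real.log t) ^ 2 := by
    have := αα_pos
    gcongr
    nlinarith
  linarith

end

end Pool.Agent.H75.SE
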