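import Pool.Agent.H75.SE.Av
import Mathlib.Analysis.SpecialFunctions.SmoothTransition

/-! # Radial averages of eigenfunctions -/

set_option autoImplicit false

open UpperHalfPlane MeasureTheory Metric Filter Set
open scoped MatrixGroups ENNReal Modular Topology NNReal ComplexConjugate

namespace Pool.Agent.H75.SE

open Pool.Agent.H369R2 Pool.Agent.N799.DT Pool.Agent.N799.DT.OrthAux

noncomputable section

/-- integrals over the upper half plane -/
lemma int_H {E : Type*} [NormedAddCommGroup E] [NormedSpace ℝ E] (g : ℂ → E) :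
    ∫ z : ℍ, g z = ∫ w in {w : ℂ | 0 < w.im}, (1 / w.im ^ 2 : ℝ) • g w := by
  have hmp : MeasurePreserving UpperHalfPlane.coe (volume.comap UpperHalfPlane.coe)
      (volume.restrict (.range UpperHalfPlane.coe)) :=
    ⟨measurable_coe, by rw [measurableEmbedding_coe.map_comap]⟩
  have hcont : Continuous (fun z : ℍ => (1 / NNReal.mk z.im z.im_pos.le) ^ 2) := by
    refine .pow (.div₀ continuous_const ?_ ?_) _
    · exact continuous_im.subtype_mk _
    · exact fun x ↦ NNReal.ne_iff.mp x.im_ne_zero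
  have h1 := hmp.integral_comp measurableEmbedding_coe
    (fun w : ℂ => (1 / w.im ^ 2 : ℝ) • g w)
  have hr : Set.range UpperHalfPlane.coe = {w : ℂ | 0 < w.im} := UpperHalfPlane.range_coe
  rw [hr] at h1
  rw [← h1, volume_def, integral_withDensity_eq_integral_smul hcont.measurable]
  congr 1
  ext z
  rw [NNReal.smul_def]
  congr 1
  push_cast
  rw [div_pow, one_pow]
  rfl

/-- radial averages of an eigenfunction of all ball averages -/
lemma radial_int {k : ℝ → ℝ} (hk : ContDiff ℝ 1 k) {r₀ : ℝ} (hr₀ : 0 < r₀)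
    (hk0 : ∀ ρ : ℝ, r₀ ≤ ρ → k ρ = 0) {f : ℍ → ℂ} (hf : Continuous f) {μ : ℝ → ℝ}
    (h : ∀ r : ℝ, 0 < r → ∀ z, Av r f z = (μ r : ℂ) * f z) (z : ℍ) :
    ∫ w, (k (dist w z) : ℂ) * f w =
      ((∫ ρ in Ioc 0 r₀, -(deriv k ρ) * (bv ρ * μ ρ) : ℝ) : ℂ) * f z := by
  have hk' : Continuous (deriv k) := hk.continuous_deriv le_rfl
  have hdist : Continuous fun w : ℍ => dist w z := continuous_id.dist continuous_const
  -- restriction to the ball
  have e1 : ∫ w, (k (dist w z) : ℂ) * f w = ∫ w in closedBall z r₀, (k (dist w z) : ℂ) * f w := by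
    symm
    apply setIntegral_eq_integral_of_forall_compl_eq_zero
    intro w hw
    rw [mem_closedBall, not_le] at hw
    rw [hk0 _ hw.le]
    simp
  -- the layer cake formula
  have e2 : ∀ w ∈ closedBall z r₀, (k (dist w z) : ℂ) * f w =
      ∫ ρ in Ioc 0 r₀, (Ici (dist w z)).indicator (fun ρ => ((-(deriv k ρ) : ℝ) : ℂ) * f w) ρ := by
    intro w hw
    rw [mem_closedBall] at hw
    set d := dist w z with hd
    have hd0 : 0 ≤ d := dist_nonneg
    have h1 : ∫ ρ in Ioc 0 r₀, (Ici d).indicator (fun ρ => ((-(deriv k ρ) : ℝ) : ℂ) * f w) ρ =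
        ∫ ρ in Ioc d r₀, ((-(deriv k ρ) : ℝ) : ℂ) * f w := by
      rw [setIntegral_indicator measurableSet_Ici]
      apply setIntegral_congr_set
      have hsub : Ioc d r₀ ⊆ Ioc 0 r₀ ∩ Ici d := fun x hx => ⟨⟨lt_of_le_of_lt hd0 hx.1, hx.2⟩, hx.1.le⟩
      have hdiff : (Ioc 0 r₀ ∩ Ici d) \ Ioc d r₀ ⊆ {d} := by
        rintro x ⟨⟨hx1, hx2⟩, hx3⟩
        simp only [mem_Ioc, not_and, not_le] at hx3
        simp only [mem_singleton_iff]
        by_contra hne
        have h5 : d < x := lt_of_le_of_ne hx2 (Ne.symm hne)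
        exact absurd hx1.2 (not_le.2 (hx3 h5))
      have h6 : volume ((Ioc 0 r₀ ∩ Ici d) \ Ioc d r₀) = 0 :=
        measure_mono_null hdiff (by simp)
      exact (ae_eq_set.2 ⟨h6, by rw [diff_eq_empty.2 hsub]; simp⟩)
    rw [h1, integral_mul_const]
    congr 1
    rw [integral_complex_ofReal, integral_neg, ← intervalIntegral.integral_of_le hw,
      intervalIntegral.integral_deriv_eq_sub' (f := k) rfl
      (fun x _ => (hk.differentiable (by norm_num)).differentiableAt) hk'.continuousOn,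
      hk0 r₀ le_rfl]
    push_cast
    ring
  rw [e1, setIntegral_congr_fun isClosed_closedBall.measurableSet e2]
  -- exchange of the integrals
  set S : Set (ℍ × ℝ) := {p | dist p.1 z ≤ p.2} with hS
  have hSc : IsClosed S := isClosed_le (hdist.comp continuous_fst) continuous_snd
  have hcont : Continuous fun p : ℍ × ℝ => ((-(deriv k p.2) : ℝ) : ℂ) * f p.1 :=
    (Complex.continuous_ofReal.comp (hk'.comp continuous_snd).neg).mul (hf.comp continuous_fst)
  have hint : Integrable (S.indicator fun p : ℍ × ℝ => ((-(deriv k p.2) : ℝ) : ℂ) * f p.1)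
      (((volume : Measure ℍ).restrict (closedBall z r₀)).prod (volume.restrict (Ioc 0 r₀))) := by
    refine Integrable.indicator ?_ hSc.measurableSet
    have h1 := hcont.continuousOn.integrableOn_compact
      (μ := (volume : Measure ℍ).prod (volume : Measure ℝ))
      ((isCompact_closedBall z r₀).prod (isCompact_Icc (a := 0) (b := r₀)))
    rw [IntegrableOn, ← Measure.prod_restrict] at h1
    refine h1.mono_measure (Measure.prod_mono le_rfl ?_)
    exact Measure.restrict_mono Ioc_subset_Icc_self le_rfl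
  have e3 : ∀ (w : ℍ) (ρ : ℝ), (Ici (dist w z)).indicator
      (fun ρ => ((-(deriv k ρ) : ℝ) : ℂ) * f w) ρ =
      S.indicator (fun p : ℍ × ℝ => ((-(deriv k p.2) : ℝ) : ℂ) * f p.1) (w, ρ) := by
    intro w ρ
    by_cases hw : dist w z ≤ ρ
    · rw [indicator_of_mem (show ρ ∈ Ici (dist w z) from hw),
        indicator_of_mem (show (w, ρ) ∈ S from hw)]
    · rw [indicator_of_notMem (show ρ ∉ Ici (dist w z) from hw),
        indicator_of_notMem (show (w, ρ) ∉ S from hw)]
  simp only [e3]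
  have hsw := integral_integral_swap
    (f := fun w ρ => S.indicator (fun p : ℍ × ℝ => ((-(deriv k p.2) : ℝ) : ℂ) * f p.1) (w, ρ)) hint
  rw [hsw, ← integral_complex_ofReal, ← integral_mul_const]
  apply setIntegral_congr_fun measurableSet_Ioc
  intro ρ hρ
  simp only
  have h1 : ∀ w, S.indicator (fun p : ℍ × ℝ => ((-(deriv k p.2) : ℝ) : ℂ) * f p.1) (w, ρ) =
      (closedBall z ρ).indicator (fun w => ((-(deriv k ρ) : ℝ) : ℂ) * f w) w := by
    intro w
    by_cases hw : dist w z ≤ ρ
    · rw [indicator_of_mem (show w ∈ closedBall z ρ from hw),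
        indicator_of_mem (show (w, ρ) ∈ S from hw)]
    · rw [indicator_of_notMem (show w ∉ closedBall z ρ from hw),
        indicator_of_notMem (show (w, ρ) ∉ S from hw)]
  simp only [h1]
  rw [setIntegral_indicator isClosed_closedBall.measurableSet,
    inter_eq_right.2 (closedBall_subset_closedBall hρ.2), integral_const_mul]
  have h2 := h ρ hρ.1 z
  unfold Av at h2
  have hbv : (bv ρ : ℂ) ≠ 0 := by exact_mod_cast (bv_pos hρ.1).ne'
  have h3 : ∫ w in closedBall z ρ, f w = (bv ρ : ℂ) * ((μ ρ : ℂ) * f z) := by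
    rw [← h2, Complex.real_smul, ← mul_assoc]
    push_cast
    rw [mul_inv_cancel₀ hbv, one_mul]
  rw [h3]
  push_cast
  ring

/-- the bump function -/
def kb (r₀ : ℝ) (v : ℝ) : ℝ := Real.smoothTransition ((v - 1 / Real.cosh r₀) / (1 - 1 / Real.cosh r₀))

lemma kb_smooth (r₀ : ℝ) (n : ℕ∞) : ContDiff ℝ n (kb r₀) := by
  have h1 : ContDiff ℝ n (fun v : ℝ => (v - 1 / Real.cosh r₀) / (1 - 1 / Real.cosh r₀)) :=
    (contDiff_id.sub contDiff_const).div_const _
  exact Real.smoothTransition.contDiff.comp h1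

lemma one_lt_cosh' {r₀ : ℝ} (hr₀ : 0 < r₀) : 1 < Real.cosh r₀ := Real.one_lt_cosh.2 hr₀.ne'

lemma kb_zero {r₀ : ℝ} (hr₀ : 0 < r₀) {v : ℝ} (hv : v ≤ 1 / Real.cosh r₀) : kb r₀ v = 0 := by
  unfold kb
  apply Real.smoothTransition.zero_of_nonpos
  have h1 := one_lt_cosh' hr₀
  have h2 : 1 / Real.cosh r₀ < 1 := by rw [div_lt_one (by linarith)]; exact h1
  exact div_nonpos_of_nonpos_of_nonneg (by linarith) (by linarith)

lemma kb_nonneg (r₀ v : ℝ) : 0 ≤ kb r₀ v := Real.smoothTransition.nonneg _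

lemma kb_one {r₀ : ℝ} (hr₀ : 0 < r₀) : kb r₀ 1 = 1 := by
  unfold kb
  have h1 := one_lt_cosh' hr₀
  have h2 : 1 / Real.cosh r₀ < 1 := by rw [div_lt_one (by linarith)]; exact h1
  rw [div_self (by linarith)]
  exact Real.smoothTransition.one

/-- the radial kernel -/
def kr (r₀ : ℝ) (ρ : ℝ) : ℝ := kb r₀ (1 / Real.cosh ρ)

lemma kr_smooth (r₀ : ℝ) : ContDiff ℝ 1 (kr r₀) := by
  have h0 : ContDiff ℝ 1 (kb r₀) := by exact_mod_cast kb_smooth r₀ 1
  have h1 : ContDiff ℝ 1 (fun ρ : ℝ => 1 / Real.cosh ρ) :=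
    contDiff_const.div Real.contDiff_cosh fun x => (Real.cosh_pos x).ne'
  exact h0.comp h1

lemma kr_zero {r₀ : ℝ} (hr₀ : 0 < r₀) {ρ : ℝ} (hρ : r₀ ≤ ρ) : kr r₀ ρ = 0 := by
  unfold kr
  apply kb_zero hr₀
  have h1 : Real.cosh r₀ ≤ Real.cosh ρ := by
    rw [Real.cosh_le_cosh, abs_of_pos hr₀, abs_of_pos (by linarith)]
    exact hρ
  have h2 := Real.cosh_pos r₀
  gcongr

lemma kr_nonneg (r₀ ρ : ℝ) : 0 ≤ kr r₀ ρ := kb_nonneg _ _

/-- some radial average does not vanish -/
lemma exists_radial {f : ℍ → ℂ} (hf : Continuous f) {z : ℍ} (hz : f z ≠ 0) :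
    ∃ r₀ : ℝ, 0 < r₀ ∧ ∫ w, (kr r₀ (dist w z) : ℂ) * f w ≠ 0 := by
  have hpos : 0 < ‖f z‖ / 2 := by
    have := norm_pos_iff.2 hz
    positivity
  obtain ⟨δ, hδ, hball⟩ := Metric.continuousAt_iff.1 (hf.continuousAt (x := z)) (‖f z‖ / 2) hpos
  refine ⟨δ, hδ, ?_⟩
  set k : ℍ → ℝ := fun w => kr δ (dist w z) with hk
  have hdist : Continuous fun w : ℍ => dist w z := continuous_id.dist continuous_const
  have hkc : Continuous k := (kr_smooth δ).continuous.comp hdist
  have hks : ∀ w, w ∉ closedBall z δ → k w = 0 := by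
    intro w hw
    rw [mem_closedBall, not_le] at hw
    exact kr_zero hδ hw.le
  have hcs : HasCompactSupport k :=
    HasCompactSupport.intro (isCompact_closedBall z δ) hks
  have hkint : Integrable k := hkc.integrable_of_hasCompactSupport hcs
  have hkpos : 0 < ∫ w, k w := by
    refine hkc.integral_pos_of_hasCompactSupport_nonneg_nonzero hcs (fun w => kr_nonneg _ _)
      (x := z) ?_
    rw [hk]
    simp only [dist_self]
    unfold kr
    rw [Real.cosh_zero, div_one, kb_one hδ]
    norm_num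
  have hcont2 : Continuous fun w => (k w : ℂ) * f w := (Complex.continuous_ofReal.comp hkc).mul hf
  have hint2 : Integrable fun w => (k w : ℂ) * f w := by
    refine hcont2.integrable_of_hasCompactSupport ?_
    refine HasCompactSupport.intro (isCompact_closedBall z δ) fun w hw => ?_
    rw [hks w hw]; simp
  have hint3 : Integrable fun w => (k w : ℂ) * f z := by
    exact (hkint.ofReal).mul_const _
  have hdiff : ‖(∫ w, (k w : ℂ) * f w) - ∫ w, (k w : ℂ) * f z‖ ≤ ‖f z‖ / 2 * ∫ w, k w := by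
    rw [← integral_sub hint2 hint3, ← integral_const_mul]
    refine (norm_integral_le_integral_norm _).trans ?_
    refine integral_mono (hint2.sub hint3).norm (hkint.const_mul _) fun w => ?_
    simp only
    by_cases hw : dist w z < δ
    · have h1 := (hball hw).le
      rw [dist_eq_norm] at h1
      rw [← mul_sub, norm_mul, Complex.norm_real, Real.norm_of_nonneg (kr_nonneg _ _), mul_comm]
      gcongr
      exact kr_nonneg _ _
    · have h1 : k w = 0 := kr_zero hδ (not_lt.1 hw)
      rw [h1]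
      simp
  intro h0
  have h0' : ∫ w, (k w : ℂ) * f w = 0 := h0
  rw [h0', zero_sub, norm_neg, integral_mul_const, integral_complex_ofReal, norm_mul,
    Complex.norm_real, Real.norm_of_nonneg hkpos.le] at hdiff
  nlinarith

end

end Pool.Agent.H75.SE
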